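import Mathlib

/-!
Comparison of derived categories along an exact functor `F : A ⥤ B` with an exact
localisation functor `G : B ⥤ A` and natural maps `η : 𝟭 ⟶ F ⋙ G`, `η' : 𝟭 ⟶ G ⋙ F`.
-/

open CategoryTheory Limits Pretriangulated ZeroObject

set_option linter.unusedSectionVars false

universe w₁ w₂ v₁ v₂ u₁ u₂

namespace Pool.Agent.Helper41

section Unit

variable {A : Type u₁} [Category.{v₁} A] [Abelian A] [HasDerivedCategory.{w₁} A]
  {B : Type u₂} [Category.{v₂} B] [Abelian B] [HasDerivedCategory.{w₂} B]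
  (F : A ⥤ B) [F.Additive] [PreservesFiniteLimits F] [PreservesFiniteColimits F]
  (G : B ⥤ A) [G.Additive] [PreservesFiniteLimits G] [PreservesFiniteColimits G]

/-- apply an additive functor to a complex -/
noncomputable abbrev cMap : CochainComplex A ℤ ⥤ CochainComplex B ℤ :=
  F.mapHomologicalComplex (ComplexShape.up ℤ)

variable {F G}

/-- the unit on complexes -/
noncomputable def cUnit (η : 𝟭 A ⟶ F ⋙ G) (K : CochainComplex A ℤ) :
    K ⟶ (cMap G).obj ((cMap F).obj K) where
  f i := η.app (K.X i)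
  comm' i j _ := by
    exact (η.naturality (K.d i j)).symm

lemma cUnit_naturality (η : 𝟭 A ⟶ F ⋙ G) {K L : CochainComplex A ℤ} (f : K ⟶ L) :
    f ≫ cUnit η L = cUnit η K ≫ (cMap G).map ((cMap F).map f) := by
  ext i
  exact η.naturality (f.f i)

lemma isIso_cUnit (η : 𝟭 A ⟶ F ⋙ G) (K : CochainComplex A ℤ)
    (h : ∀ i, IsIso (η.app (K.X i))) : IsIso (cUnit η K) := by
  have : ∀ i, IsIso ((cUnit η K).f i) := h
  exact HomologicalComplex.Hom.isIso_of_components _

variable (F G) in
/-- the composite of the derived functors on `Q K` -/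
noncomputable def dCompIso (K : CochainComplex A ℤ) :
    G.mapDerivedCategory.obj (F.mapDerivedCategory.obj (DerivedCategory.Q.obj K)) ≅
      DerivedCategory.Q.obj ((cMap G).obj ((cMap F).obj K)) :=
  G.mapDerivedCategory.mapIso (F.mapDerivedCategoryFactors.app K) ≪≫
    G.mapDerivedCategoryFactors.app _

lemma dCompIso_hom_naturality {K L : CochainComplex A ℤ} (f : K ⟶ L) :
    G.mapDerivedCategory.map (F.mapDerivedCategory.map (DerivedCategory.Q.map f)) ≫
      (dCompIso F G L).hom = (dCompIso F G K).hom ≫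
        DerivedCategory.Q.map ((cMap G).map ((cMap F).map f)) := by
  have h1 := F.mapDerivedCategoryFactors_hom_naturality f
  have h2 := G.mapDerivedCategoryFactors_hom_naturality ((cMap F).map f)
  simp only [dCompIso, Iso.trans_hom, Functor.mapIso_hom, Iso.app_hom, Category.assoc]
  rw [← h2, ← Functor.map_comp_assoc, h1, Functor.map_comp_assoc]

lemma dCompIso_inv_naturality {K L : CochainComplex A ℤ} (f : K ⟶ L) :
    DerivedCategory.Q.map ((cMap G).map ((cMap F).map f)) ≫ (dCompIso F G L).inv =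
      (dCompIso F G K).inv ≫
        G.mapDerivedCategory.map (F.mapDerivedCategory.map (DerivedCategory.Q.map f)) := by
  rw [Iso.comp_inv_eq, Category.assoc, dCompIso_hom_naturality, Iso.inv_hom_id_assoc]

/-- The derived unit `𝟭 ⟶ D(F) ⋙ D(G)`. -/
noncomputable def dUnit (η : 𝟭 A ⟶ F ⋙ G) :
    𝟭 (DerivedCategory A) ⟶ F.mapDerivedCategory ⋙ G.mapDerivedCategory :=
  Localization.liftNatTrans DerivedCategory.Q
    (HomologicalComplex.quasiIso A (ComplexShape.up ℤ))
    (DerivedCategory.Q ⋙ 𝟭 (DerivedCategory A))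
    (DerivedCategory.Q ⋙ F.mapDerivedCategory ⋙ G.mapDerivedCategory)
    (𝟭 (DerivedCategory A)) (F.mapDerivedCategory ⋙ G.mapDerivedCategory)
    { app := fun K => DerivedCategory.Q.map (cUnit η K) ≫ (dCompIso F G K).inv
      naturality := fun K L f => by
        dsimp
        rw [Category.assoc, ← dCompIso_inv_naturality, ← Functor.map_comp_assoc,
          ← Functor.map_comp_assoc, cUnit_naturality] }

lemma dUnit_app (η : 𝟭 A ⟶ F ⋙ G) (K : CochainComplex A ℤ) :
    (dUnit η).app (DerivedCategory.Q.obj K) =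
      DerivedCategory.Q.map (cUnit η K) ≫ (dCompIso F G K).inv := by
  simp [dUnit]

lemma map_dUnit_Q (η : 𝟭 A ⟶ F ⋙ G) (η' : 𝟭 B ⟶ G ⋙ F)
    (h : ∀ X, F.map (η.app X) = η'.app (F.obj X)) (K : CochainComplex A ℤ) :
    F.mapDerivedCategory.map ((dUnit η).app (DerivedCategory.Q.obj K)) =
      (dUnit η').app (F.mapDerivedCategory.obj (DerivedCategory.Q.obj K)) := by
  have h1 := (dUnit η').naturality (F.mapDerivedCategoryFactors.hom.app K)
  have h2 := dUnit_app η' ((cMap F).obj K)
  have h3 : (cMap F).map (cUnit η K) = cUnit η' ((cMap F).obj K) := by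
    ext i
    exact h (K.X i)
  have h4 := F.mapDerivedCategoryFactors_hom_naturality (cUnit η K)
  have h5 : IsIso (F.mapDerivedCategory.map (G.mapDerivedCategory.map
    (F.mapDerivedCategoryFactors.hom.app K))) := inferInstance
  dsimp at h1 h2
  rw [h2] at h1
  rw [dUnit_app, Functor.map_comp]
  rw [← cancel_mono (F.mapDerivedCategory.map (G.mapDerivedCategory.map
    (F.mapDerivedCategoryFactors.hom.app K))), ← h1]
  rw [← h3]
  simp only [dCompIso, Iso.trans_inv, Functor.mapIso_inv, Iso.app_inv, Category.assoc]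
  rw [← reassoc_of% h4]
  simp only [Functor.map_comp, Category.assoc]
  congr 1
  erw [Iso.hom_inv_id_app_assoc]
  simp only [← Functor.map_comp, Iso.inv_hom_id_app]
  simp

lemma map_dUnit (η : 𝟭 A ⟶ F ⋙ G) (η' : 𝟭 B ⟶ G ⋙ F)
    (h : ∀ X, F.map (η.app X) = η'.app (F.obj X)) (X : DerivedCategory A) :
    F.mapDerivedCategory.map ((dUnit η).app X) =
      (dUnit η').app (F.mapDerivedCategory.obj X) := by
  let e := DerivedCategory.Q.objObjPreimageIso X
  have h1 := (dUnit η).naturality e.hom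
  have h2 := (dUnit η').naturality (F.mapDerivedCategory.map e.hom)
  dsimp at h1 h2
  rw [← cancel_epi (F.mapDerivedCategory.map e.hom), h2, ← Functor.map_comp, h1,
    Functor.map_comp, map_dUnit_Q η η' h]

/-- Being local for the derived unit gives full faithfulness on maps into the object. -/
lemma map_bijective_of_isIso_dUnit (η : 𝟭 A ⟶ F ⋙ G) (η' : 𝟭 B ⟶ G ⋙ F)
    (h : ∀ X, F.map (η.app X) = η'.app (F.obj X)) (X Y : DerivedCategory A)
    (hY : IsIso ((dUnit η).app Y)) :
    Function.Bijective (fun f : X ⟶ Y => F.mapDerivedCategory.map f) := by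
  constructor
  · intro f g hfg
    have hfg' : F.mapDerivedCategory.map f = F.mapDerivedCategory.map g := hfg
    have h1 := (dUnit η).naturality f
    have h2 := (dUnit η).naturality g
    dsimp at h1 h2
    rw [hfg', ← h2] at h1
    exact (cancel_mono ((dUnit η).app Y)).1 h1
  · intro g
    refine ⟨(dUnit η).app X ≫ G.mapDerivedCategory.map g ≫ inv ((dUnit η).app Y), ?_⟩
    have h2 := (dUnit η').naturality g
    have key : F.mapDerivedCategory.map ((dUnit η).app X) ≫
        F.mapDerivedCategory.map (G.mapDerivedCategory.map g) =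
        g ≫ F.mapDerivedCategory.map ((dUnit η).app Y) := by
      rw [map_dUnit η η' h, map_dUnit η η' h]
      exact h2.symm
    dsimp only
    rw [Functor.map_comp, Functor.map_comp, reassoc_of% key, ← Functor.map_comp,
      IsIso.hom_inv_id, CategoryTheory.Functor.map_id]
    exact Category.comp_id _

lemma isIso_dUnit_Q (η : 𝟭 A ⟶ F ⋙ G) (K : CochainComplex A ℤ)
    (h : ∀ i, IsIso (η.app (K.X i))) : IsIso ((dUnit η).app (DerivedCategory.Q.obj K)) := by
  have := isIso_cUnit η K h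
  rw [dUnit_app]
  infer_instance

/-- local objects are closed under isomorphism -/
lemma isIso_dUnit_of_iso (η : 𝟭 A ⟶ F ⋙ G) {X Y : DerivedCategory A} (e : X ≅ Y)
    (h : IsIso ((dUnit η).app X)) : IsIso ((dUnit η).app Y) := by
  have h1 := (dUnit η).naturality e.inv
  have : (dUnit η).app Y = e.inv ≫ (dUnit η).app X ≫
      (F.mapDerivedCategory ⋙ G.mapDerivedCategory).map e.hom := by
    rw [← (dUnit η).naturality]
    simp
  rw [this]
  infer_instance

/-- `Λ X = D(G) (D(F) X)` is local when `η` is invertible on all `G (F M)`. -/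
lemma isIso_dUnit_loc (η : 𝟭 A ⟶ F ⋙ G) (hη : ∀ M, IsIso (η.app (G.obj (F.obj M))))
    (X : DerivedCategory A) :
    IsIso ((dUnit η).app (G.mapDerivedCategory.obj (F.mapDerivedCategory.obj X))) := by
  let e := DerivedCategory.Q.objObjPreimageIso X
  refine isIso_dUnit_of_iso η ((dCompIso F G _).symm ≪≫
    G.mapDerivedCategory.mapIso (F.mapDerivedCategory.mapIso e)) ?_
  exact isIso_dUnit_Q η _ fun i => hη _

/-- `Λ` inverts the derived unit when `η` is inverted by `G ∘ F`. -/
lemma isIso_map_dUnit (η : 𝟭 A ⟶ F ⋙ G) (hη : ∀ M, IsIso (G.map (F.map (η.app M))))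
    (X : DerivedCategory A) :
    IsIso (G.mapDerivedCategory.map (F.mapDerivedCategory.map ((dUnit η).app X))) := by
  let K := DerivedCategory.Q.objPreimage X
  let e : DerivedCategory.Q.obj K ≅ X := DerivedCategory.Q.objObjPreimageIso X
  have h1 := (dUnit η).naturality e.hom
  dsimp at h1
  have h2 : (dUnit η).app X = e.inv ≫ (dUnit η).app (DerivedCategory.Q.obj K) ≫
      G.mapDerivedCategory.map (F.mapDerivedCategory.map e.hom) := by
    rw [← h1, Iso.inv_hom_id_assoc]
  rw [h2, dUnit_app]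
  have h3 : IsIso ((cMap G).map ((cMap F).map (cUnit η K))) := by
    have : ∀ i, IsIso (((cMap G).map ((cMap F).map (cUnit η K))).f i) := fun i => hη _
    exact HomologicalComplex.Hom.isIso_of_components _
  have h4 : IsIso (G.mapDerivedCategory.map (F.mapDerivedCategory.map
      (DerivedCategory.Q.map (cUnit η K)))) := by
    have := dCompIso_hom_naturality (F := F) (G := G) (cUnit η K)
    have h5 : G.mapDerivedCategory.map (F.mapDerivedCategory.map
      (DerivedCategory.Q.map (cUnit η K))) = (dCompIso F G K).hom ≫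
        DerivedCategory.Q.map ((cMap G).map ((cMap F).map (cUnit η K))) ≫
        (dCompIso F G _).inv := by
      rw [← reassoc_of% this, Iso.hom_inv_id, Category.comp_id]
    rw [h5]
    infer_instance
  simp only [Functor.map_comp]
  infer_instance

end Unit

section Nice

variable {C : Type u₁} [Category.{v₁} C] [Preadditive C] [HasZeroObject C] [HasShift C ℤ]
  [∀ n : ℤ, (shiftFunctor C n).Additive] [Pretriangulated C]
  {D : Type u₂} [Category.{v₂} D] [Preadditive D] [HasZeroObject D] [HasShift D ℤ]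
  [∀ n : ℤ, (shiftFunctor D n).Additive] [Pretriangulated D]
  (Φ : C ⥤ D) [Φ.CommShift ℤ] [Φ.IsTriangulated]

/-- `Y` is nice for `Φ` if `Φ` is bijective on all `Hom(X, Y)`. -/
def Nice (Y : C) : Prop := ∀ X : C, Function.Bijective (fun f : X ⟶ Y => Φ.map f)

variable {Φ}

lemma Nice.of_iso {Y Y' : C} (h : Nice Φ Y) (e : Y ≅ Y') : Nice Φ Y' := by
  intro X
  constructor
  · intro f g hfg
    have hfg' : Φ.map f = Φ.map g := hfg
    have : f ≫ e.inv = g ≫ e.inv := (h X).1 (by
      change Φ.map (f ≫ e.inv) = Φ.map (g ≫ e.inv)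
      rw [Φ.map_comp, Φ.map_comp, hfg'])
    exact (cancel_mono e.inv).1 this
  · intro g
    obtain ⟨f, hf⟩ := (h X).2 (g ≫ Φ.map e.inv)
    refine ⟨f ≫ e.hom, ?_⟩
    have hf' : Φ.map f = g ≫ Φ.map e.inv := hf
    change Φ.map (f ≫ e.hom) = g
    rw [Φ.map_comp, hf', Category.assoc, ← Φ.map_comp, e.inv_hom_id, Φ.map_id, Category.comp_id]

lemma bijective_precomp_iso {X X' Y : C} (e : X ≅ X')
    (h : Function.Bijective (fun f : X ⟶ Y => Φ.map f)) :
    Function.Bijective (fun f : X' ⟶ Y => Φ.map f) := by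
  constructor
  · intro f g hfg
    have hfg' : Φ.map f = Φ.map g := hfg
    have : e.hom ≫ f = e.hom ≫ g := h.1 (by
      change Φ.map (e.hom ≫ f) = Φ.map (e.hom ≫ g)
      rw [Φ.map_comp, Φ.map_comp, hfg'])
    exact (cancel_epi e.hom).1 this
  · intro g
    obtain ⟨f, hf⟩ := h.2 (Φ.map e.hom ≫ g)
    refine ⟨e.inv ≫ f, ?_⟩
    have hf' : Φ.map f = Φ.map e.hom ≫ g := hf
    change Φ.map (e.inv ≫ f) = g
    rw [Φ.map_comp, hf', ← Category.assoc, ← Φ.map_comp, e.inv_hom_id, Φ.map_id,
      Category.id_comp]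

lemma bijective_shift {X Y : C} (n : ℤ)
    (h : Function.Bijective (fun f : X ⟶ Y => Φ.map f)) :
    Function.Bijective (fun f : X⟦n⟧ ⟶ Y⟦n⟧ => Φ.map f) := by
  have key : ∀ f : X ⟶ Y, Φ.map (f⟦n⟧') = (Φ.commShiftIso n).hom.app X ≫ (Φ.map f)⟦n⟧' ≫
      (Φ.commShiftIso n).inv.app Y := fun f => by
    have := (Φ.commShiftIso n).hom.naturality f
    dsimp at this
    rw [← reassoc_of% this, Iso.hom_inv_id_app]
    simp
  constructor
  · intro f g hfg
    obtain ⟨f, rfl⟩ := (shiftFunctor C n).map_surjective f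
    obtain ⟨g, rfl⟩ := (shiftFunctor C n).map_surjective g
    have hfg' : Φ.map (f⟦n⟧') = Φ.map (g⟦n⟧') := hfg
    rw [key, key] at hfg'
    have h1 := (cancel_epi _).1 hfg'
    have h2 := (cancel_mono _).1 h1
    rw [h.1 ((shiftFunctor D n).map_injective h2)]
  · intro g
    obtain ⟨g', hg'⟩ := (shiftFunctor D n).map_surjective
      ((Φ.commShiftIso n).inv.app X ≫ g ≫ (Φ.commShiftIso n).hom.app Y)
    obtain ⟨f, hf⟩ := h.2 g'
    have hf' : Φ.map f = g' := hf
    refine ⟨f⟦n⟧', ?_⟩
    change Φ.map (f⟦n⟧') = g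
    rw [key, hf', hg']
    simp

lemma Nice.shift {Y : C} (h : Nice Φ Y) (n : ℤ) : Nice Φ (Y⟦n⟧) := fun X =>
  bijective_precomp_iso ((shiftFunctorCompIsoId C (-n) n (by simp)).app X)
    (bijective_shift n (h (X⟦-n⟧)))

lemma Nice.ext₂ {T : Triangle C} (hT : T ∈ distTriang C) (h₁ : Nice Φ T.obj₁)
    (h₃ : Nice Φ T.obj₃) : Nice Φ T.obj₂ := by
  have hT' := inv_rot_of_distTriang _ hT
  have hΦT := Φ.map_distinguished _ hT
  have hΦT' := Φ.map_distinguished _ hT'
  intro X
  constructor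
  · suffices ∀ f : X ⟶ T.obj₂, Φ.map f = 0 → f = 0 by
      intro f g hfg
      have hfg' : Φ.map f = Φ.map g := hfg
      have := this (f - g) (by rw [Φ.map_sub, hfg', sub_self])
      exact sub_eq_zero.1 this
    intro f hf
    have h1 : f ≫ T.mor₂ = 0 := (h₃ X).1 (by
      change Φ.map (f ≫ T.mor₂) = Φ.map 0
      rw [Φ.map_comp, hf, zero_comp, Φ.map_zero])
    obtain ⟨g, hg⟩ := Triangle.coyoneda_exact₂ T hT f h1
    have h2 : Φ.map g ≫ Φ.map T.mor₁ = 0 := by rw [← Φ.map_comp, ← hg, hf]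
    let δ : T.obj₃⟦(-1 : ℤ)⟧ ⟶ T.obj₁ := T.invRotate.mor₁
    obtain ⟨k, hk⟩ : ∃ k : Φ.obj X ⟶ Φ.obj (T.obj₃⟦(-1 : ℤ)⟧), Φ.map g = k ≫ Φ.map δ :=
      Triangle.coyoneda_exact₂ _ hΦT' (Φ.map g) h2
    obtain ⟨k', hk'⟩ := (h₃.shift (-1) X).2 k
    have hk'' : Φ.map k' = k := hk'
    have h3 : g = k' ≫ δ := (h₁ X).1 (by
      change Φ.map g = Φ.map (k' ≫ δ)
      rw [Φ.map_comp, hk'', hk])
    have h4 : δ ≫ T.mor₁ = 0 := comp_distTriang_mor_zero₁₂ _ hT'
    rw [hg, h3, Category.assoc, h4, comp_zero]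
  · intro g
    obtain ⟨a, ha⟩ := (h₃ X).2 (g ≫ Φ.map T.mor₂)
    have ha' : Φ.map a = g ≫ Φ.map T.mor₂ := ha
    have h1 : a ≫ T.mor₃ = 0 := (h₁.shift 1 X).1 (by
      change Φ.map (a ≫ T.mor₃) = Φ.map 0
      rw [Φ.map_comp, ha', Category.assoc, ← Φ.map_comp, comp_distTriang_mor_zero₂₃ _ hT,
        Φ.map_zero, comp_zero, Φ.map_zero])
    obtain ⟨b, hb⟩ := Triangle.coyoneda_exact₃ T hT a h1
    obtain ⟨c, hc⟩ : ∃ c : Φ.obj X ⟶ Φ.obj T.obj₁, g - Φ.map b = c ≫ Φ.map T.mor₁ :=
      Triangle.coyoneda_exact₂ _ hΦT (g - Φ.map b) (by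
      change (g - Φ.map b) ≫ Φ.map T.mor₂ = 0
      rw [Preadditive.sub_comp, ← Φ.map_comp, ← hb, ha', sub_self])
    obtain ⟨c', hc'⟩ := (h₁ X).2 c
    have hc'' : Φ.map c' = c := hc'
    refine ⟨b + c' ≫ T.mor₁, ?_⟩
    change Φ.map (b + c' ≫ T.mor₁) = g
    rw [Φ.map_add, Φ.map_comp, hc'', ← hc]
    abel

lemma Nice.of_isZero {Y : C} (h : IsZero Y) : Nice Φ Y := by
  intro X
  constructor
  · intro f g _
    exact h.eq_of_tgt f g
  · intro g
    exact ⟨0, (Φ.map_isZero h).eq_of_tgt _ _⟩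

/-- Iterated fibres: every object is an extension of an object with the property `P` by an
object killed by all the localisations `Λ i`, `i ∈ l`. -/
lemma exists_replacement [IsTriangulated C] {ι : Type*} (Λ : ι → C ⥤ C)
    [∀ i, (Λ i).CommShift ℤ] [∀ i, (Λ i).IsTriangulated] (ε : ∀ i, 𝟭 C ⟶ Λ i)
    (P : C → Prop) (hP0 : P 0)
    (hPe : ∀ T ∈ distTriang C, P T.obj₁ → P T.obj₃ → P T.obj₂)
    (ha : ∀ i X, IsIso ((Λ i).map ((ε i).app X)))
    (hb : ∀ i X, P ((Λ i).obj X))
    (hc : ∀ i j X, IsZero ((Λ i).obj X) → IsZero ((Λ i).obj ((Λ j).obj X)))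
    (l : List ι) (X : C) :
    ∃ (K N : C) (a : K ⟶ X) (b : X ⟶ N) (c : N ⟶ K⟦(1 : ℤ)⟧),
      Triangle.mk a b c ∈ distTriang C ∧ (∀ i ∈ l, IsZero ((Λ i).obj K)) ∧ P N := by
  induction l with
  | nil => exact ⟨X, 0, 𝟙 X, 0, 0, contractible_distinguished X, by simp, hP0⟩
  | cons j l ih =>
    obtain ⟨K, N, a, b, c, hT, hK, hN⟩ := ih
    obtain ⟨K', a', c', hT'⟩ := distinguished_cocone_triangle₁ ((ε j).app K)
    obtain ⟨N', b', c'', hT''⟩ := distinguished_cocone_triangle (a' ≫ a)
    have oct := (IsTriangulated.octahedron_axiom (rfl : a' ≫ a = a' ≫ a) hT' hT hT'').some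
    refine ⟨K', N', a' ≫ a, b', c'', hT'', ?_, ?_⟩
    · intro i hi
      have hΛ := (Λ i).map_distinguished _ hT'
      rcases List.mem_cons.1 hi with rfl | hi
      · exact Triangle.isZero₁_of_isIso₂ _ hΛ (ha i K)
      · exact Triangle.isZero₁_of_isZero₂₃ _ hΛ (hK i hi) (hc i j K (hK i hi))
    · exact hPe _ oct.mem (hb j K) hN

end Nice

section Package

variable {A : Type u₁} [Category.{v₁} A] [Abelian A] [HasDerivedCategory.{w₁} A]
  {B : Type u₂} [Category.{v₂} B] [Abelian B] [HasDerivedCategory.{w₂} B]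
  (F : A ⥤ B) [F.Additive] [PreservesFiniteLimits F] [PreservesFiniteColimits F]

lemma isZero_derived_iff (X : DerivedCategory A) :
    IsZero X ↔ ∀ n : ℤ, IsZero ((DerivedCategory.homologyFunctor A n).obj X) := by
  constructor
  · intro h n
    exact Functor.map_isZero _ h
  · intro h
    have : IsIso (0 : (0 : DerivedCategory A) ⟶ X) := by
      rw [DerivedCategory.isIso_iff]
      intro n
      have h0 : IsZero ((DerivedCategory.homologyFunctor A n).obj (0 : DerivedCategory A)) :=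
        Functor.map_isZero _ (isZero_zero _)
      exact ⟨0, h0.eq_of_src _ _, (h n).eq_of_src _ _⟩
    exact (isZero_zero _).of_iso (asIso (0 : (0 : DerivedCategory A) ⟶ X)).symm

lemma homology_mapDerived (X : DerivedCategory A) (n : ℤ) :
    Nonempty ((DerivedCategory.homologyFunctor B n).obj (F.mapDerivedCategory.obj X) ≅
      F.obj ((DerivedCategory.homologyFunctor A n).obj X)) := by
  let K := DerivedCategory.Q.objPreimage X
  let e : DerivedCategory.Q.obj K ≅ X := DerivedCategory.Q.objObjPreimageIso X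
  refine ⟨(DerivedCategory.homologyFunctor B n).mapIso
      (F.mapDerivedCategory.mapIso e.symm ≪≫ F.mapDerivedCategoryFactors.app K) ≪≫
    (DerivedCategory.homologyFunctorFactors B n).app _ ≪≫ ?_ ≪≫
    F.mapIso (((DerivedCategory.homologyFunctorFactors A n).app K).symm ≪≫
      (DerivedCategory.homologyFunctor A n).mapIso e)⟩
  exact (K.sc n).mapHomologyIso F

lemma isZero_mapDerived_iff (X : DerivedCategory A) :
    IsZero (F.mapDerivedCategory.obj X) ↔
      ∀ n : ℤ, IsZero (F.obj ((DerivedCategory.homologyFunctor A n).obj X)) := by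
  rw [isZero_derived_iff]
  refine forall_congr' fun n => ?_
  obtain ⟨e⟩ := homology_mapDerived F X n
  exact ⟨fun h => h.of_iso e.symm, fun h => h.of_iso e⟩

/-- The data of finitely many exact localisations `G i ∘ F` factoring through `F`, which jointly
detect the kernel of `F`. -/
structure LocFamily (ι : Type) (F : A ⥤ B) where
  G : ι → B ⥤ A
  additive : ∀ i, (G i).Additive
  lim : ∀ i, PreservesFiniteLimits (G i)
  colim : ∀ i, PreservesFiniteColimits (G i)
  η : ∀ i, 𝟭 A ⟶ F ⋙ G i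
  η' : ∀ i, 𝟭 B ⟶ G i ⋙ F
  comp : ∀ i X, F.map ((η i).app X) = (η' i).app (F.obj X)
  loc : ∀ i M, IsIso ((η i).app ((G i).obj (F.obj M)))
  idem : ∀ i M, IsIso ((G i).map (F.map ((η i).app M)))
  comm : ∀ i j M, IsZero ((G i).obj (F.obj M)) → IsZero ((G i).obj (F.obj ((G j).obj (F.obj M))))
  detect : ∀ M, (∀ i, IsZero ((G i).obj (F.obj M))) → IsZero (F.obj M)

attribute [instance] LocFamily.additive LocFamily.lim LocFamily.colim

variable {F}

lemma LocFamily.nice {ι : Type} (L : LocFamily ι F) (i : ι) (X : DerivedCategory A)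
    (hX : IsIso ((dUnit (L.η i)).app X)) : Nice F.mapDerivedCategory X := fun Y =>
  map_bijective_of_isIso_dUnit (L.η i) (L.η' i) (L.comp i) Y X hX

lemma LocFamily.nice_loc {ι : Type} (L : LocFamily ι F) (i : ι) (X : DerivedCategory A) :
    Nice F.mapDerivedCategory
      ((L.G i).mapDerivedCategory.obj (F.mapDerivedCategory.obj X)) :=
  L.nice i _ (isIso_dUnit_loc (L.η i) (L.loc i) X)

/-- Every object of `D(A)` has a replacement satisfying `P` with the same image under `D(F)`. -/
theorem LocFamily.exists_nice {ι : Type} [Fintype ι] (L : LocFamily ι F)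
    (P : DerivedCategory A → Prop) (hP0 : P 0)
    (hPe : ∀ T ∈ distTriang (DerivedCategory A), P T.obj₁ → P T.obj₃ → P T.obj₂)
    (hb : ∀ i X, P ((L.G i).mapDerivedCategory.obj (F.mapDerivedCategory.obj X)))
    (X : DerivedCategory A) :
    ∃ (N : DerivedCategory A) (u : X ⟶ N), IsIso (F.mapDerivedCategory.map u) ∧ P N := by
  obtain ⟨K, N, a, b, c, hT, hK, hN⟩ := exists_replacement
    (fun i => F.mapDerivedCategory ⋙ (L.G i).mapDerivedCategory) (fun i => dUnit (L.η i))
    P hP0 hPe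
    (fun i X => isIso_map_dUnit (L.η i) (L.idem i) X)
    hb
    (fun i j X h => by
      have h1 : ∀ Y : DerivedCategory A, IsZero ((L.G i).mapDerivedCategory.obj
          (F.mapDerivedCategory.obj Y)) ↔ ∀ n : ℤ, IsZero ((L.G i).obj (F.obj
          ((DerivedCategory.homologyFunctor A n).obj Y))) := fun Y => by
        rw [isZero_mapDerived_iff]
        refine forall_congr' fun n => ?_
        obtain ⟨e⟩ := homology_mapDerived F Y n
        exact ⟨fun h => h.of_iso ((L.G i).mapIso e.symm), fun h => h.of_iso ((L.G i).mapIso e)⟩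
      dsimp at h ⊢
      rw [h1] at h ⊢
      intro n
      obtain ⟨e⟩ := homology_mapDerived (L.G j) (F.mapDerivedCategory.obj X) n
      obtain ⟨e'⟩ := homology_mapDerived F X n
      exact (L.comm i j _ (h n)).of_iso ((L.G i).mapIso (F.mapIso (e ≪≫ (L.G j).mapIso e'))))
    (Finset.univ : Finset ι).toList X
  refine ⟨N, b, ?_, hN⟩
  have hFK : IsZero (F.mapDerivedCategory.obj K) := by
    rw [isZero_mapDerived_iff]
    intro n
    apply L.detect
    intro i
    have h1 := hK i (by simp)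
    dsimp at h1
    rw [isZero_mapDerived_iff] at h1
    obtain ⟨e⟩ := homology_mapDerived F K n
    exact (h1 n).of_iso ((L.G i).mapIso e.symm)
  exact (Triangle.isZero₁_iff_isIso₂ _ (F.mapDerivedCategory.map_distinguished _ hT)).1 hFK

section Linear

variable [Linear ℂ A] [Linear ℂ B] [F.Linear ℂ]

/-- Morphisms into an object with a nice replacement. -/
noncomputable def niceEquiv {X N : DerivedCategory A} (u : X ⟶ N)
    (hu : IsIso (F.mapDerivedCategory.map u)) (hN : Nice F.mapDerivedCategory N)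
    (Y : DerivedCategory A) (i : ℤ) :
    (Y ⟶ N⟦i⟧) ≃ₗ[ℂ]
      (F.mapDerivedCategory.obj Y ⟶ (F.mapDerivedCategory.obj X)⟦i⟧) :=
  (LinearEquiv.ofBijective (F.mapDerivedCategory.mapLinearMap ℂ) (hN.shift i Y)).trans
    (Linear.homCongr ℂ (Iso.refl _)
      ((F.mapDerivedCategory.commShiftIso i).app N ≪≫
        (shiftFunctor (DerivedCategory B) i).mapIso (asIso (F.mapDerivedCategory.map u)).symm))

end Linear

end Package

end Pool.Agent.Helper41
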