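import Mathlib

/-!
Graded modules over `S = ℂ[x₀,…,x₄]` and over `S/(f)` as functor categories.
-/

open CategoryTheory Limits ZeroObject

set_option linter.unusedSectionVars false

namespace Pool.Agent.Helper41

/-- Objects are the integers (degrees); a morphism `a ⟶ b` is a monomial in `x₀,…,x₄`
(given by its exponents) of degree `b - a`; composition is multiplication of monomials. -/
structure Mon where
  /-- the degree -/
  deg : ℤ

/-- exponents of monomials -/
abbrev Expo := Fin 5 →₀ ℕ

/-- monomials of degree `b - a` -/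
structure Mon.Hom (a b : Mon) where
  /-- the exponents -/
  ex : Expo
  deg_eq : a.deg + (ex.degree : ℤ) = b.deg

@[ext] lemma Mon.Hom.ext' {a b : Mon} {f g : Mon.Hom a b} (h : f.ex = g.ex) : f = g := by
  cases f; cases g; cases h; rfl

noncomputable instance : Category Mon where
  Hom := Mon.Hom
  id a := ⟨0, by simp⟩
  comp f g := ⟨f.ex + g.ex, by
    have h1 := f.deg_eq
    have h2 := g.deg_eq
    rw [map_add]
    push_cast
    omega⟩
  id_comp f := by ext1; simp
  comp_id f := by ext1; simp
  assoc f g h := by ext1; simp [add_assoc]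

/-- the monomial with exponents `μ`, as a morphism -/
noncomputable def mono {a b : Mon} (μ : Expo) (h : a.deg + (μ.degree : ℤ) = b.deg) : a ⟶ b := Mon.Hom.mk μ h

lemma mono_comp {a b c : Mon} (μ ν : Expo) (h : a.deg + (μ.degree : ℤ) = b.deg)
    (h' : b.deg + (ν.degree : ℤ) = c.deg) :
    (mono μ h : a ⟶ b) ≫ (mono ν h' : b ⟶ c) = mono (μ + ν) (by
      rw [map_add]; push_cast; omega) := rfl

lemma mono_zero {a : Mon} (h : a.deg + ((0 : Expo).degree : ℤ) = a.deg) :
    (mono 0 h : a ⟶ a) = 𝟙 a := rfl

lemma mono_ex {a b : Mon} (f : a ⟶ b) : mono f.ex f.deg_eq = f := rfl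

/-- Graded modules over `S = ℂ[x₀,…,x₄]`. -/
abbrev GrS := Mon ⥤ ModuleCat.{0} ℂ

/-- The action `M_a ⟶ M_b` of (the degree `b - a` component of) a polynomial `f`. -/
noncomputable def act (f : MvPolynomial (Fin 5) ℂ) (M : GrS) (a b : Mon) : M.obj a ⟶ M.obj b :=
  ∑ μ ∈ f.support, if h : a.deg + (μ.degree : ℤ) = b.deg then f.coeff μ • M.map (mono μ h) else 0

lemma act_naturality (f : MvPolynomial (Fin 5) ℂ) {M N : GrS} (g : M ⟶ N) (a b : Mon) :
    act f M a b ≫ g.app b = g.app a ≫ act f N a b := by
  simp only [act, Preadditive.sum_comp, Preadditive.comp_sum]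
  refine Finset.sum_congr rfl fun μ _ => ?_
  split_ifs with h
  · simp
  · simp

/-- The graded modules on which `f` acts by zero, i.e. the graded modules over `S/(f)`. -/
def KilledBy (f : MvPolynomial (Fin 5) ℂ) : ObjectProperty GrS := fun M =>
  ∀ a b : Mon, act f M a b = 0

instance (f : MvPolynomial (Fin 5) ℂ) : (KilledBy f).IsClosedUnderSubobjects where
  prop_of_mono {M N} g _ h a b := by
    have : Mono (g.app b) := inferInstance
    rw [← cancel_mono (g.app b), act_naturality, h a b, comp_zero, zero_comp]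

instance (f : MvPolynomial (Fin 5) ℂ) : (KilledBy f).IsClosedUnderQuotients where
  prop_of_epi {M N} g _ h a b := by
    have : Epi (g.app a) := inferInstance
    rw [← cancel_epi (g.app a), ← act_naturality, h a b, comp_zero, zero_comp]

instance (f : MvPolynomial (Fin 5) ℂ) : (KilledBy f).ContainsZero where
  exists_zero := ⟨0, isZero_zero _, fun a b => by
    have : IsZero ((0 : GrS).obj b) := Functor.map_isZero ((evaluation _ _).obj b) (isZero_zero _)
    exact this.eq_of_tgt _ _⟩

instance (f : MvPolynomial (Fin 5) ℂ) : (KilledBy f).IsClosedUnderFiniteProducts where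
  isClosedUnderLimitsOfShape J _ := ⟨by
    rintro M ⟨pres⟩
    intro a b
    have hl := isLimitOfPreserves ((evaluation Mon (ModuleCat.{0} ℂ)).obj b) pres.isLimit
    refine hl.hom_ext fun j => ?_
    have h1 := act_naturality f (pres.π.app j) a b
    rw [pres.prop_diag_obj j a b, comp_zero] at h1
    rw [zero_comp]
    exact h1⟩

/-- `KilledBy f` is stable under colimits. -/
lemma killedBy_of_isColimit (f : MvPolynomial (Fin 5) ℂ) {J : Type} [SmallCategory J]
    (D : J ⥤ GrS) (c : Cocone D) (hc : IsColimit c) (h : ∀ j, KilledBy f (D.obj j)) :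
    KilledBy f c.pt := by
  intro a b
  have hl := isColimitOfPreserves ((evaluation Mon (ModuleCat.{0} ℂ)).obj a) hc
  refine hl.hom_ext fun j => ?_
  have h1 := act_naturality f (c.ι.app j) a b
  rw [h j a b, zero_comp] at h1
  rw [comp_zero]
  exact h1.symm

/-- Graded modules over `S/(f)`. -/
abbrev Gr (f : MvPolynomial (Fin 5) ℂ) := (KilledBy f).FullSubcategory

noncomputable example (f : MvPolynomial (Fin 5) ℂ) : Abelian (Gr f) := inferInstance

noncomputable example (f : MvPolynomial (Fin 5) ℂ) : Linear ℂ (Gr f) := inferInstance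

end Pool.Agent.Helper41
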