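import Mathlib
import Pool.Agent.Helper41.GrMod

/-!
Localisation of graded modules at the variable `x_j`.
-/

open CategoryTheory Limits ZeroObject

set_option linter.unusedSectionVars false

namespace Pool.Agent.Helper41

/-- translation of degrees by `k` -/
noncomputable def trans (k : ℕ) : Mon ⥤ Mon where
  obj b := ⟨b.deg + k⟩
  map {a b} g := mono g.ex (by
    have := g.deg_eq
    dsimp only
    omega)

/-- The system `𝟭 → (1) → (2) → …` of translations, with transition maps the
multiplications by powers of `x_j`. -/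
noncomputable def tel (j : Fin 5) : ℕ ⥤ (Mon ⥤ Mon) where
  obj k := trans k
  map {k l} h :=
    { app := fun b => mono (Finsupp.single j (l - k)) (by
        have := leOfHom h
        rw [Finsupp.degree_single]
        dsimp only [trans]
        omega)
      naturality := fun a b g => by
        change Mon.Hom.mk _ _ = Mon.Hom.mk _ _
        congr 1
        exact add_comm _ _ }
  map_id k := by
    ext b
    change Mon.Hom.mk _ _ = Mon.Hom.mk _ _
    congr 1
    simp
  map_comp {k l m} g h := by
    ext b
    change Mon.Hom.mk _ _ = Mon.Hom.mk _ _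
    have h1 := leOfHom g
    have h2 := leOfHom h
    congr 1
    change Finsupp.single j (m - k) = Finsupp.single j (l - k) + Finsupp.single j (m - l)
    rw [← Finsupp.single_add]
    congr 1
    omega

/-- `M ↦ (M → M(1) → M(2) → …)`, with maps the multiplication by `x_j`. -/
noncomputable def telMod (j : Fin 5) : GrS ⥤ (ℕ ⥤ GrS) :=
  (tel j ⋙ Functor.whiskeringLeft Mon Mon (ModuleCat.{0} ℂ)).flip

/-- The localisation `M ↦ M[1/x_j] = colim (M → M(1) → M(2) → …)`. -/
noncomputable def Loc (j : Fin 5) : GrS ⥤ GrS := telMod j ⋙ colim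

instance (j : Fin 5) : PreservesFiniteLimits (telMod j) where
  preservesFiniteLimits J _ _ := preservesLimitsOfShape_of_evaluation _ _ fun k => by
    change PreservesLimitsOfShape J ((Functor.whiskeringLeft Mon Mon (ModuleCat.{0} ℂ)).obj
      ((tel j).obj k))
    infer_instance

instance (j : Fin 5) : PreservesFiniteColimits (telMod j) where
  preservesFiniteColimits J _ _ := preservesColimitsOfShape_of_evaluation _ _ fun k => by
    change PreservesColimitsOfShape J ((Functor.whiskeringLeft Mon Mon (ModuleCat.{0} ℂ)).obj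
      ((tel j).obj k))
    infer_instance

instance : PreservesFiniteLimits (colim : (ℕ ⥤ GrS) ⥤ GrS) := inferInstance
instance : PreservesFiniteColimits (colim : (ℕ ⥤ GrS) ⥤ GrS) := inferInstance

instance (j : Fin 5) : PreservesFiniteLimits (Loc j) := by
  unfold Loc
  infer_instance

instance (j : Fin 5) : PreservesFiniteColimits (Loc j) := by
  unfold Loc
  infer_instance

instance (j : Fin 5) : (Loc j).Additive := by
  have := preservesBinaryBiproducts_of_preservesBinaryProducts (Loc j)
  exact Functor.additive_of_preservesBinaryBiproducts _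

/-- the maps `M_{b+k} → (M[1/x_j])_b`, `m ↦ m / x_j^k` -/
noncomputable def stage (j : Fin 5) (M : GrS) (k : ℕ) (b : Mon) :
    M.obj ((trans k).obj b) ⟶ ((Loc j).obj M).obj b :=
  (colimit.ι ((telMod j).obj M) k).app b

lemma exists_stage (j : Fin 5) (M : GrS) (b : Mon) (y : ((Loc j).obj M).obj b) :
    ∃ (k : ℕ) (m : M.obj ((trans k).obj b)), stage j M k b m = y := by
  have hl := isColimitOfPreserves ((evaluation Mon (ModuleCat.{0} ℂ)).obj b)
    (colimit.isColimit ((telMod j).obj M))
  exact Concrete.isColimit_exists_rep _ hl y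

/-- `x_j^(l-k) : b + k ⟶ b + l` -/
noncomputable def telHom (j : Fin 5) {k l : ℕ} (h : k ≤ l) (b : Mon) :
    (trans k).obj b ⟶ (trans l).obj b := ((tel j).map (homOfLE h)).app b

lemma telHom_ex (j : Fin 5) {k l : ℕ} (h : k ≤ l) (b : Mon) :
    (telHom j h b).ex = Finsupp.single j (l - k) := rfl

lemma stage_trans (j : Fin 5) (M : GrS) {k l : ℕ} (h : k ≤ l) (b : Mon)
    (m : M.obj ((trans k).obj b)) :
    stage j M l b (M.map (telHom j h b) m) = stage j M k b m := by
  have h1 := colimit.w ((telMod j).obj M) (homOfLE h)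
  have h2 := congr_arg (fun t => t.app b m) h1
  exact h2

lemma stage_natural (j : Fin 5) (M : GrS) (k : ℕ) {b c : Mon} (g : b ⟶ c)
    (m : M.obj ((trans k).obj b)) :
    ((Loc j).obj M).map g (stage j M k b m) = stage j M k c (M.map ((trans k).map g) m) := by
  have h1 := (colimit.ι ((telMod j).obj M) k).naturality g
  have h2 := congr_arg (fun t => t m) h1
  exact h2.symm

lemma stage_eq_zero (j : Fin 5) (M : GrS) (k : ℕ) (b : Mon) (m : M.obj ((trans k).obj b))
    (h : stage j M k b m = 0) :
    ∃ (l : ℕ) (hl : k ≤ l), M.map (telHom j hl b) m = 0 := by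
  have hl := isColimitOfPreserves ((evaluation Mon (ModuleCat.{0} ℂ)).obj b)
    (colimit.isColimit ((telMod j).obj M))
  have h1 : stage j M k b m = stage j M k b 0 := by rw [h, map_zero]
  obtain ⟨l, f, g, hfg⟩ := (Concrete.isColimit_rep_eq_iff_exists _ hl m 0).1 h1
  refine ⟨l, leOfHom f, ?_⟩
  rw [map_zero] at hfg
  exact hfg

lemma map_mono_comp (M : GrS) {a b c : Mon} (g : a ⟶ b) (h : b ⟶ c) (k : a ⟶ c)
    (hk : k.ex = g.ex + h.ex) (m : M.obj a) : M.map h (M.map g m) = M.map k m := by
  have : k = g ≫ h := Mon.Hom.ext' hk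
  rw [this, M.map_comp]
  rfl

lemma map_mono_eq (M : GrS) {a b : Mon} (g k : a ⟶ b)
    (hk : g.ex = k.ex) (m : M.obj a) : M.map g m = M.map k m := by
  have : g = k := Mon.Hom.ext' hk
  rw [this]

lemma stage_map (j : Fin 5) {M N : GrS} (f : M ⟶ N) (k : ℕ) (b : Mon)
    (m : M.obj ((trans k).obj b)) :
    ((Loc j).map f).app b (stage j M k b m) = stage j N k b (f.app ((trans k).obj b) m) := by
  have h1 := ι_colimMap ((telMod j).map f) k
  have h2 := congr_arg (fun t => t.app b m) h1
  exact h2

/-- the shift by zero -/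
noncomputable def toTransZero (b : Mon) : b ⟶ (trans 0).obj b :=
  mono 0 (by simp [trans])

/-- The unit `M ⟶ M[1/x_j]`. -/
noncomputable def locUnit (j : Fin 5) : 𝟭 GrS ⟶ Loc j where
  app M :=
    { app := fun b => M.map (toTransZero b) ≫ stage j M 0 b
      naturality := fun b c g => by
        ext m
        change stage j M 0 c (M.map _ (M.map g m)) =
          ((Loc j).obj M).map g (stage j M 0 b (M.map _ m))
        rw [stage_natural]
        congr 1
        rw [map_mono_comp M _ _ (mono g.ex (by
            have := g.deg_eq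
            dsimp [trans]
            omega)) (by
            change g.ex = g.ex + 0
            simp)]
        rw [map_mono_comp M _ _ (mono g.ex (by
            have := g.deg_eq
            dsimp [trans]
            omega)) (by
            change g.ex = 0 + g.ex
            simp)] }
  naturality M N f := by
    ext b m
    change stage j N 0 b (N.map _ (f.app b m)) = ((Loc j).map f).app b (stage j M 0 b (M.map _ m))
    rw [stage_map]
    congr 1
    exact (NatTrans.naturality_apply f (toTransZero b) m).symm

lemma locUnit_app (j : Fin 5) (M : GrS) (b : Mon) (m : M.obj b) :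
    ((locUnit j).app M).app b m = stage j M 0 b (M.map (toTransZero b) m) := rfl

/-- All powers of `x_j` act bijectively. -/
def XLocal (j : Fin 5) (M : GrS) : Prop :=
  ∀ (a b : Mon) (k : ℕ) (g : a ⟶ b), g.ex = Finsupp.single j k → Function.Bijective (M.map g)

lemma isIso_of_bijective {M N : GrS} (f : M ⟶ N) (h : ∀ b, Function.Bijective (f.app b)) :
    IsIso f := by
  have : ∀ b, IsIso (f.app b) := fun b => (ConcreteCategory.isIso_iff_bijective _).2 (h b)
  exact NatIso.isIso_of_isIso_app f

lemma bijective_of_isIso {M N : GrS} (f : M ⟶ N) (h : IsIso f) (b : Mon) :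
    Function.Bijective (f.app b) :=
  (ConcreteCategory.isIso_iff_bijective (f.app b)).1 inferInstance

lemma mono_deg {a b : Mon} (g : a ⟶ b) : a.deg + (g.ex.degree : ℤ) = b.deg := g.deg_eq

lemma XLocal.isIso_unit {j : Fin 5} {M : GrS} (h : XLocal j M) : IsIso ((locUnit j).app M) := by
  refine isIso_of_bijective _ fun b => ⟨?_, ?_⟩
  · rw [injective_iff_map_eq_zero]
    intro m hm
    rw [locUnit_app] at hm
    obtain ⟨l, hl, hm⟩ := stage_eq_zero _ _ _ _ _ hm
    apply (h b ((trans l).obj b) l (toTransZero b ≫ telHom j hl b) (by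
      change 0 + Finsupp.single j (l - 0) = _
      simp)).1
    rw [M.map_comp, map_zero]
    exact hm
  · intro y
    obtain ⟨k, m, rfl⟩ := exists_stage j M b y
    obtain ⟨m', hm'⟩ := (h b ((trans k).obj b) k
      (toTransZero b ≫ telHom j (Nat.zero_le k) b) (by
      change 0 + Finsupp.single j (k - 0) = _
      simp)).2 m
    refine ⟨m', ?_⟩
    rw [locUnit_app, ← stage_trans j M (Nat.zero_le k), ← hm', M.map_comp]
    rfl

lemma xLocal_loc (j : Fin 5) (M : GrS) : XLocal j ((Loc j).obj M) := by
  intro a b n g hg
  have hab : a.deg + n = b.deg := by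
    have := mono_deg g
    rw [hg, Finsupp.degree_single] at this
    exact this
  constructor
  · rw [injective_iff_map_eq_zero]
    intro y hy
    obtain ⟨k, m, rfl⟩ := exists_stage j M a y
    rw [stage_natural] at hy
    obtain ⟨l, hl, hm⟩ := stage_eq_zero _ _ _ _ _ hy
    rw [← stage_trans j M (show k ≤ l + n by omega)]
    have h1 : M.map (telHom j (show k ≤ l + n by omega) a) m = 0 := by
      let g' : (trans l).obj b ⟶ (trans (l + n)).obj a := mono 0 (by
        dsimp [trans]
        rw [map_zero]
        push_cast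
        omega)
      have h2 := congr_arg (M.map g') hm
      rw [map_zero] at h2
      rw [← h2]
      symm
      have h3 := map_mono_comp M ((trans k).map g) (telHom j hl b)
        ((trans k).map g ≫ telHom j hl b) rfl m
      rw [h3]
      apply map_mono_comp
      change Finsupp.single j (l + n - k) = (g.ex + Finsupp.single j (l - k)) + 0
      rw [add_zero, hg, ← Finsupp.single_add]
      congr 1
      omega
    rw [h1, map_zero]
  · intro y
    obtain ⟨k, m, rfl⟩ := exists_stage j M b y
    let g' : (trans k).obj b ⟶ (trans (k + n)).obj a := mono 0 (by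
        dsimp [trans]
        rw [map_zero]
        push_cast
        omega)
    refine ⟨stage j M (k + n) a (M.map g' m), ?_⟩
    rw [stage_natural, ← stage_trans j M (show k ≤ k + n by omega)]
    congr 1
    apply map_mono_comp
    change Finsupp.single j (k + n - k) = 0 + g.ex
    rw [hg]
    simp

/-- The two maps `M[1/x_j] ⟶ M[1/x_j][1/x_j]` agree. -/
lemma map_locUnit (j : Fin 5) (M : GrS) :
    (Loc j).map ((locUnit j).app M) = (locUnit j).app ((Loc j).obj M) := by
  ext b y
  obtain ⟨k, m, rfl⟩ := exists_stage j M b y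
  refine (stage_map j ((locUnit j).app M) k b m).trans ?_
  have e1 : ((locUnit j).app ((Loc j).obj M)).app b (stage j M k b m) =
      stage j ((Loc j).obj M) k b (((Loc j).obj M).map (telHom j (Nat.zero_le k) b)
        (((Loc j).obj M).map (toTransZero b) (stage j M k b m))) := by
    rw [stage_trans]
    rfl
  refine Eq.trans ?_ e1.symm
  congr 1
  change stage j M 0 _ (M.map (toTransZero _) m) = _
  rw [map_mono_comp _ _ _ (toTransZero b ≫ telHom j (Nat.zero_le k) b) rfl,
    stage_natural, ← stage_trans j M (Nat.zero_le k)]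
  congr 1
  rw [map_mono_comp M _ _ (toTransZero _ ≫ telHom j (Nat.zero_le k) _) rfl]
  apply map_mono_eq
  rfl

lemma isIso_loc_map_locUnit (j : Fin 5) (M : GrS) :
    IsIso ((Loc j).map ((locUnit j).app M)) := by
  rw [map_locUnit]
  exact (xLocal_loc j M).isIso_unit

lemma isZero_iff (M : GrS) : IsZero M ↔ ∀ (b : Mon) (m : M.obj b), m = 0 := by
  rw [Functor.isZero_iff]
  refine forall_congr' fun b => ?_
  constructor
  · intro h m
    have := ModuleCat.subsingleton_of_isZero h
    exact Subsingleton.elim _ _
  · intro h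
    have : Subsingleton (M.obj b) := ⟨fun x y => by rw [h x, h y]⟩
    exact ModuleCat.isZero_of_subsingleton _

/-- Every element is killed by a power of `x_j`. -/
def XTors (j : Fin 5) (M : GrS) : Prop :=
  ∀ (b : Mon) (m : M.obj b), ∃ k : ℕ, ∀ (c : Mon) (g : b ⟶ c), g.ex = Finsupp.single j k →
    M.map g m = 0

lemma isZero_loc_iff (j : Fin 5) (M : GrS) : IsZero ((Loc j).obj M) ↔ XTors j M := by
  rw [isZero_iff]
  constructor
  · intro h b m
    have h1 := h b (((locUnit j).app M).app b m)
    rw [locUnit_app] at h1
    obtain ⟨l, hl, hm⟩ := stage_eq_zero _ _ _ _ _ h1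
    refine ⟨l, fun c g hg => ?_⟩
    have hc : b.deg + (l : ℤ) = c.deg := by
      have := mono_deg g
      rw [hg, Finsupp.degree_single] at this
      exact this
    let g' : (trans l).obj b ⟶ c := mono 0 (by
      rw [map_zero]
      dsimp [trans]
      omega)
    have h2 := congr_arg (M.map g') hm
    rw [map_zero] at h2
    rw [← h2]
    have h3 := map_mono_comp M (toTransZero b) (telHom j hl b) (toTransZero b ≫ telHom j hl b)
      rfl m
    rw [h3]
    symm
    apply map_mono_comp
    change g.ex = (0 + Finsupp.single j (l - 0)) + 0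
    simp [hg]
  · intro h b y
    obtain ⟨k, m, rfl⟩ := exists_stage j M b y
    obtain ⟨n, hn⟩ := h _ m
    rw [← stage_trans j M (Nat.le_add_right k n), hn _ _ (by rw [telHom_ex]; simp), map_zero]

lemma XTors.loc {i : Fin 5} {M : GrS} (h : XTors i M) (j : Fin 5) : XTors i ((Loc j).obj M) := by
  intro b y
  obtain ⟨k, m, rfl⟩ := exists_stage j M b y
  obtain ⟨n, hn⟩ := h _ m
  refine ⟨n, fun c g hg => ?_⟩
  rw [stage_natural, hn _ ((trans k).map g) hg, map_zero]

/-- Torsion modules: every element is killed by all monomials of large degree. -/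
def IsTors (M : GrS) : Prop :=
  ∀ (b : Mon) (m : M.obj b), ∃ n : ℕ, ∀ (c : Mon) (g : b ⟶ c), n ≤ g.ex.degree → M.map g m = 0

lemma isTors_iff (M : GrS) : IsTors M ↔ ∀ j, XTors j M := by
  constructor
  · intro h j b m
    obtain ⟨n, hn⟩ := h b m
    exact ⟨n, fun c g hg => hn c g (by rw [hg, Finsupp.degree_single])⟩
  · intro h b m
    choose k hk using fun j => h j b m
    refine ⟨∑ j, k j + 1, fun c g hg => ?_⟩
    obtain ⟨j, hj⟩ : ∃ j, k j ≤ g.ex j := by
      by_contra hcon
      push Not at hcon
      have h1 : g.ex.degree = ∑ j, g.ex j := by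
        rw [Finsupp.degree_eq_sum]
      have h2 : ∑ j, g.ex j ≤ ∑ j, k j := Finset.sum_le_sum fun j _ => (hcon j).le
      omega
    have hle : Finsupp.single j (k j) ≤ g.ex := by
      rw [Finsupp.single_le_iff]
      exact hj
    let c' : Mon := ⟨b.deg + k j⟩
    let g₁ : b ⟶ c' := mono (Finsupp.single j (k j)) (by rw [Finsupp.degree_single])
    let g₂ : c' ⟶ c := mono (g.ex - Finsupp.single j (k j)) (by
      have h3 := mono_deg g
      have h4 : g.ex.degree = k j + (g.ex - Finsupp.single j (k j)).degree := by
        conv_lhs => rw [← add_tsub_cancel_of_le hle]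
        rw [map_add, Finsupp.degree_single]
      dsimp [c']
      omega)
    have h5 := map_mono_comp M g₁ g₂ g (add_tsub_cancel_of_le hle).symm m
    rw [← h5, hk j c' g₁ rfl, map_zero]

end Pool.Agent.Helper41
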