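import Mathlib
import Pool.Agent.Helper41.Loc
import Pool.Agent.Helper41.DCompare

/-!
The quotient category `QGr(S/f)` of graded modules modulo torsion, and its localisations.
-/

open CategoryTheory Limits ZeroObject

set_option linter.unusedSectionVars false

namespace Pool.Agent.Helper41

variable (f : MvPolynomial (Fin 5) ℂ)

lemma killedBy_trans (M : GrS) (h : KilledBy f M) (k : ℕ) : KilledBy f (trans k ⋙ M) := by
  intro a b
  have h1 : act f (trans k ⋙ M) a b = act f M ((trans k).obj a) ((trans k).obj b) := by
    unfold act
    refine Finset.sum_congr rfl fun μ _ => ?_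
    by_cases hμ : a.deg + (μ.degree : ℤ) = b.deg
    · rw [dif_pos hμ, dif_pos (by dsimp [trans]; omega)]
      rfl
    · rw [dif_neg hμ, dif_neg (by dsimp [trans]; omega)]
  rw [h1]
  exact h _ _

lemma killedBy_loc (j : Fin 5) (M : GrS) (h : KilledBy f M) : KilledBy f ((Loc j).obj M) :=
  killedBy_of_isColimit f _ _ (colimit.isColimit ((telMod j).obj M))
    fun k => killedBy_trans f M h k

/-- inclusion of graded `S/f`-modules in graded `S`-modules -/
noncomputable abbrev inc : Gr f ⥤ GrS := (KilledBy f).ι

instance : PreservesFiniteLimits (inc f) := by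
  rw [((Functor.preservesFiniteLimits_tfae (inc f)).out 3 2 :)]
  intro X Y g
  exact (KilledBy f).preservesKernels_ι g

instance : PreservesFiniteColimits (inc f) := by
  rw [((Functor.preservesFiniteColimits_tfae (inc f)).out 3 2 :)]
  intro X Y g
  exact (KilledBy f).preservesCokernels_ι g

/-- localisation at `x_j` on graded `S/f`-modules -/
noncomputable def LocF (j : Fin 5) : Gr f ⥤ Gr f :=
  (KilledBy f).lift (inc f ⋙ Loc j) fun M => killedBy_loc f j _ M.property

instance (j : Fin 5) : PreservesFiniteLimits (LocF f j) := by
  have : PreservesFiniteLimits (LocF f j ⋙ inc f) :=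
    inferInstanceAs (PreservesFiniteLimits (inc f ⋙ Loc j))
  exact ⟨fun J _ _ => preservesLimitsOfShape_of_reflects_of_preserves (LocF f j) (inc f)⟩

instance (j : Fin 5) : PreservesFiniteColimits (LocF f j) := by
  have : PreservesFiniteColimits (LocF f j ⋙ inc f) :=
    inferInstanceAs (PreservesFiniteColimits (inc f ⋙ Loc j))
  exact ⟨fun J _ _ => preservesColimitsOfShape_of_reflects_of_preserves (LocF f j) (inc f)⟩

instance (j : Fin 5) : (LocF f j).Additive := by
  have := preservesBinaryBiproducts_of_preservesBinaryProducts (LocF f j)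
  exact Functor.additive_of_preservesBinaryBiproducts _

/-- the unit of the localisation -/
noncomputable def unitF (j : Fin 5) : 𝟭 (Gr f) ⟶ LocF f j where
  app M := (KilledBy f).homMk ((locUnit j).app M.obj)
  naturality M N g := by
    ext : 1
    exact (locUnit j).naturality g.hom

/-- Torsion graded `S/f`-modules. -/
def Tors : ObjectProperty (Gr f) := fun M => IsTors M.obj

lemma isZero_inc_iff (M : Gr f) : IsZero M.obj ↔ IsZero M := by
  constructor
  · intro h
    rw [IsZero.iff_id_eq_zero] at h ⊢
    ext : 1
    exact h
  · intro h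
    exact (inc f).map_isZero h

lemma tors_iff (M : Gr f) : Tors f M ↔ ∀ j, IsZero ((LocF f j).obj M) := by
  unfold Tors
  rw [isTors_iff]
  refine forall_congr' fun j => ?_
  rw [← isZero_loc_iff, ← isZero_inc_iff]
  rfl

/-- modules killed by the localisation at `x_j` -/
def TorsAt (j : Fin 5) : ObjectProperty (Gr f) :=
  ObjectProperty.inverseImage (IsZero (C := Gr f)) (LocF f j)

instance (j : Fin 5) : (TorsAt f j).IsSerreClass :=
  inferInstanceAs (ObjectProperty.inverseImage (IsZero (C := Gr f)) (LocF f j)).IsSerreClass

lemma tors_iff' (M : Gr f) : Tors f M ↔ ∀ j, TorsAt f j M := tors_iff f M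

instance : (Tors f).IsSerreClass where
  exists_zero := ⟨0, isZero_zero _, by
    rw [tors_iff']
    exact fun j => (TorsAt f j).prop_of_isZero (isZero_zero _)⟩
  prop_of_mono g _ h := by
    rw [tors_iff'] at h ⊢
    exact fun j => (TorsAt f j).prop_of_mono g (h j)
  prop_of_epi g _ h := by
    rw [tors_iff'] at h ⊢
    exact fun j => (TorsAt f j).prop_of_epi g (h j)
  prop_X₂_of_shortExact hS h₁ h₃ := by
    rw [tors_iff'] at h₁ h₃ ⊢
    exact fun j => (TorsAt f j).prop_X₂_of_shortExact hS (h₁ j) (h₃ j)

/-- The quotient category `QGr(S/f) = Gr(S/f)/Tors(S/f)`, by Serre's theorem the category of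
quasi-coherent sheaves on the hypersurface `{f = 0} ⊂ ℙ⁴`. -/
def QGr : Type 1 := (Tors f).isoModSerre.Localization

noncomputable instance qgrCategory : Category.{1} (QGr f) :=
  (inferInstance : Category.{1} (Tors f).isoModSerre.Localization)

/-- The quotient functor `Gr(S/f) ⥤ QGr(S/f)`. -/
noncomputable def proj : Gr f ⥤ QGr f := (Tors f).isoModSerre.Q

instance : (proj f).IsLocalization (Tors f).isoModSerre :=
  inferInstanceAs ((Tors f).isoModSerre.Q.IsLocalization (Tors f).isoModSerre)

noncomputable instance qgrPreadditive : Preadditive (QGr f) :=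
  (inferInstance : Preadditive (Tors f).isoModSerre.Localization)

instance : (proj f).Additive := inferInstanceAs ((Tors f).isoModSerre.Q.Additive)

noncomputable instance qgrAbelian : Abelian (QGr f) :=
  ObjectProperty.SerreClassLocalization.abelian (proj f) (Tors f)

noncomputable instance qgrLinear : Linear ℂ (QGr f) :=
  Localization.linear ℂ (proj f) (Tors f).isoModSerre

instance : (proj f).Linear ℂ :=
  Localization.functor_linear ℂ (proj f) (Tors f).isoModSerre

instance : PreservesFiniteLimits (proj f) :=
  ObjectProperty.SerreClassLocalization.preservesFiniteLimits (proj f) (Tors f)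

instance : PreservesFiniteColimits (proj f) :=
  ObjectProperty.SerreClassLocalization.preservesFiniteColimits (proj f) (Tors f)

lemma locF_inverts (j : Fin 5) : (Tors f).isoModSerre.IsInvertedBy (LocF f j) := by
  rw [ObjectProperty.isoModSerre_isInvertedBy_iff]
  intro M hM
  exact (tors_iff f M).1 hM j

/-- the localisation functors on `QGr` -/
noncomputable def locQ (j : Fin 5) : QGr f ⥤ Gr f :=
  Localization.lift (LocF f j) (locF_inverts f j) (proj f)

/-- `locQ` extends `LocF` -/
noncomputable def locQIso (j : Fin 5) : proj f ⋙ locQ f j ≅ LocF f j :=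
  Localization.fac (LocF f j) (locF_inverts f j) (proj f)

noncomputable instance (j : Fin 5) :
    Localization.Lifting (proj f) (Tors f).isoModSerre (LocF f j) (locQ f j) :=
  ⟨locQIso f j⟩

instance (j : Fin 5) : (locQ f j).Additive :=
  (Localization.functor_additive_iff (proj f) (Tors f).isoModSerre (locQ f j)).2
    (Functor.additive_of_iso (locQIso f j).symm)

instance (j : Fin 5) : PreservesFiniteLimits (locQ f j) := by
  rw [← ObjectProperty.SerreClassLocalization.preservesFiniteLimits_comp_iff (proj f) (Tors f)]
  exact preservesFiniteLimits_of_natIso (locQIso f j).symm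

instance (j : Fin 5) : PreservesFiniteColimits (locQ f j) := by
  rw [← ObjectProperty.SerreClassLocalization.preservesFiniteColimits_comp_iff (proj f) (Tors f)]
  exact preservesFiniteColimits_of_natIso (locQIso f j).symm

/-- the unit on `Gr(S/f)`, with values in the composite of the quotient functor and `locQ` -/
noncomputable def unitG (j : Fin 5) : 𝟭 (Gr f) ⟶ proj f ⋙ locQ f j :=
  unitF f j ≫ (locQIso f j).inv

/-- the unit on `QGr(S/f)` -/
noncomputable def unitQ (j : Fin 5) : 𝟭 (QGr f) ⟶ locQ f j ⋙ proj f :=
  Localization.liftNatTrans (proj f) (Tors f).isoModSerre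
    (proj f ⋙ 𝟭 (QGr f)) (proj f ⋙ locQ f j ⋙ proj f)
    (𝟭 (QGr f)) (locQ f j ⋙ proj f)
    { app := fun M => (proj f).map ((unitG f j).app M)
      naturality := fun M N g => by
        have := (unitG f j).naturality g
        dsimp at this ⊢
        rw [← Functor.map_comp, ← Functor.map_comp, this] }

lemma unitQ_app (j : Fin 5) (M : Gr f) :
    (unitQ f j).app ((proj f).obj M) = (proj f).map ((unitG f j).app M) := by
  simp [unitQ]

lemma isIso_unitF_of_local (j : Fin 5) (M : Gr f) (h : XLocal j M.obj) :
    IsIso ((unitF f j).app M) := by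
  have h1 : IsIso ((locUnit j).app M.obj) := h.isIso_unit
  have h2 : IsIso ((inc f).map ((unitF f j).app M)) := h1
  exact isIso_of_fully_faithful (inc f) _

/-- The localisation data for `Gr(S/f) ⥤ QGr(S/f)`. -/
noncomputable def locFamily : LocFamily (Fin 5) (proj f) where
  G j := locQ f j
  additive j := inferInstance
  lim j := inferInstance
  colim j := inferInstance
  η j := unitG f j
  η' j := unitQ f j
  comp j M := (unitQ_app f j M).symm
  loc j M := by
    have e := (locQIso f j).app M
    have h1 : IsIso ((unitF f j).app ((LocF f j).obj M)) :=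
      isIso_unitF_of_local f j _ (xLocal_loc j M.obj)
    have h2 : IsIso ((unitG f j).app ((LocF f j).obj M)) := by
      unfold unitG
      rw [NatTrans.comp_app]
      infer_instance
    have h3 := (unitG f j).naturality e.hom
    have h4 : (unitG f j).app ((locQ f j).obj ((proj f).obj M)) =
        e.hom ≫ (unitG f j).app ((LocF f j).obj M) ≫
          (proj f ⋙ locQ f j).map e.inv := by
      rw [← (unitG f j).naturality]
      simp
    rw [h4]
    infer_instance
  idem j M := by
    have h1 : IsIso ((LocF f j).map ((unitF f j).app M)) := by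
      have h2 : IsIso ((inc f).map ((LocF f j).map ((unitF f j).app M))) :=
        isIso_loc_map_locUnit j M.obj
      exact isIso_of_fully_faithful (inc f) _
    have h3 : IsIso ((proj f ⋙ locQ f j).map ((unitF f j).app M)) := by
      rw [NatIso.isIso_map_iff (locQIso f j)]
      exact h1
    have h4 : (locQ f j).map ((proj f).map ((unitG f j).app M)) =
        (proj f ⋙ locQ f j).map ((unitF f j).app M) ≫
          (proj f ⋙ locQ f j).map ((locQIso f j).inv.app M) := by
      rw [← Functor.map_comp]
      rfl
    rw [h4]
    infer_instance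
  comm i j M h := by
    have e : ∀ N, (locQ f i).obj ((proj f).obj N) ≅ (LocF f i).obj N :=
      fun N => (locQIso f i).app N
    have e' := (locQIso f j).app M
    have h1 : IsZero ((LocF f i).obj M) := h.of_iso (e M).symm
    have h2 : IsZero ((LocF f i).obj ((LocF f j).obj M)) := by
      rw [← isZero_inc_iff] at h1 ⊢
      have h3 : XTors i M.obj := (isZero_loc_iff i M.obj).1 h1
      exact (isZero_loc_iff i _).2 (h3.loc j)
    exact h2.of_iso (e _ ≪≫ (LocF f i).mapIso e')
  detect M h := by
    rw [ObjectProperty.SerreClassLocalization.isZero_obj_iff (proj f) (Tors f)]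
    rw [tors_iff]
    exact fun j => (h j).of_iso ((locQIso f j).app M).symm

end Pool.Agent.Helper41
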