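import Mathlib
import Pool.Agent.Helper41.QGr

/-!
The free graded modules `S(n)` and the graded modules `A(n) = S(n)/f S(n-4)`.
-/

open CategoryTheory Limits ZeroObject

set_option linter.unusedSectionVars false

namespace Pool.Agent.Helper41

/-- The free graded `S`-module `S(n)`: its component `S(n)_b` has as a basis the monomials of
degree `n + b`. -/
noncomputable def freeMod (n : ℤ) : GrS :=
  coyoneda.obj (Opposite.op (⟨-n⟩ : Mon)) ⋙ ModuleCat.free ℂ

/-- the basis element of `S(n)_b` given by a monomial -/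
noncomputable def bas (n : ℤ) {b : Mon} (g : (⟨-n⟩ : Mon) ⟶ b) : (freeMod n).obj b :=
  ModuleCat.freeMk g

lemma map_bas (n : ℤ) {b c : Mon} (g : (⟨-n⟩ : Mon) ⟶ b) (h : b ⟶ c) :
    (freeMod n).map h (bas n g) = bas n (g ≫ h) :=
  ModuleCat.free_map_apply _ _

/-- the morphism `S(n) ⟶ M` defined by an element of `M_{-n}` -/
noncomputable def freeTo {n : ℤ} {M : GrS} (m : M.obj ⟨-n⟩) : freeMod n ⟶ M where
  app b := ModuleCat.freeDesc (↾fun g : (⟨-n⟩ : Mon) ⟶ b => M.map g m)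
  naturality b c h := by
    apply ModuleCat.free_hom_ext
    intro g
    change ModuleCat.freeDesc _ ((freeMod n).map h (bas n g)) =
      M.map h (ModuleCat.freeDesc _ (ModuleCat.freeMk g))
    rw [map_bas, ModuleCat.freeDesc_apply]
    erw [ModuleCat.freeDesc_apply]
    change M.map (g ≫ h) m = M.map h (M.map g m)
    rw [M.map_comp]
    rfl

lemma freeTo_bas {n : ℤ} {M : GrS} (m : M.obj ⟨-n⟩) {b : Mon} (g : (⟨-n⟩ : Mon) ⟶ b) :
    (freeTo m).app b (bas n g) = M.map g m :=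
  ModuleCat.freeDesc_apply _ _

lemma freeMod_hom_ext {n : ℤ} {M : GrS} {φ ψ : freeMod n ⟶ M}
    (h : φ.app ⟨-n⟩ (bas n (𝟙 _)) = ψ.app ⟨-n⟩ (bas n (𝟙 _))) : φ = ψ := by
  ext b : 2
  apply ModuleCat.free_hom_ext
  intro g
  have key : ∀ χ : freeMod n ⟶ M, χ.app b (bas n g) = M.map g (χ.app ⟨-n⟩ (bas n (𝟙 _))) := by
    intro χ
    have h1 := NatTrans.naturality_apply χ g (bas n (𝟙 _))
    rw [map_bas, Category.id_comp] at h1
    exact h1
  exact (key φ).trans ((congrArg (M.map g) h).trans (key ψ).symm)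

/-- `Hom(S(n), M) = M_{-n}`. -/
noncomputable def freeEquiv (n : ℤ) (M : GrS) : (freeMod n ⟶ M) ≃ₗ[ℂ] M.obj ⟨-n⟩ where
  toFun φ := φ.app ⟨-n⟩ (bas n (𝟙 _))
  invFun m := freeTo m
  map_add' _ _ := rfl
  map_smul' _ _ := rfl
  left_inv φ := freeMod_hom_ext (by
    rw [freeTo_bas, M.map_id]
    rfl)
  right_inv m := by
    dsimp only
    rw [freeTo_bas, M.map_id]
    rfl

lemma surjective_of_epi {M N : GrS} (e : M ⟶ N) [Epi e] (b : Mon) :
    Function.Surjective (e.app b) :=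
  (ModuleCat.epi_iff_surjective _).1 inferInstance

instance (n : ℤ) : Projective (freeMod n) where
  factors {M N} φ e _ := by
    obtain ⟨m, hm⟩ := surjective_of_epi e ⟨-n⟩ (φ.app ⟨-n⟩ (bas n (𝟙 _)))
    refine ⟨freeTo m, freeMod_hom_ext ?_⟩
    change e.app _ ((freeTo m).app _ (bas n (𝟙 _))) = _
    rw [freeTo_bas, M.map_id]
    exact hm

lemma act_apply (f : MvPolynomial (Fin 5) ℂ) (M : GrS) (a b : Mon) (m : M.obj a) :
    act f M a b m = ∑ μ ∈ f.support, if h : a.deg + (μ.degree : ℤ) = b.deg then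
      f.coeff μ • M.map (mono μ h) m else 0 := by
  let ev : (M.obj a ⟶ M.obj b) →+ M.obj b :=
    AddMonoidHom.mk' (fun φ => φ m) (fun _ _ => rfl)
  change ev (act f M a b) = _
  unfold act
  rw [map_sum]
  refine Finset.sum_congr rfl fun μ _ => ?_
  split_ifs with h
  · rfl
  · rfl

lemma degree_of_mem {f : MvPolynomial (Fin 5) ℂ} (hf : f.IsHomogeneous 4) {μ : Expo}
    (hμ : μ ∈ f.support) : μ.degree = 4 := by
  have := hf (MvPolynomial.mem_support_iff.1 hμ)
  rw [← this, Finsupp.degree_eq_weight_one]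
  rfl

/-- Multiplication by `f` as a morphism `S(n-4) ⟶ S(n)`. -/
noncomputable def mulF (f : MvPolynomial (Fin 5) ℂ) (n : ℤ) : freeMod (n - 4) ⟶ freeMod n :=
  freeTo (act f (freeMod n) ⟨-n⟩ ⟨-(n - 4)⟩ (bas n (𝟙 _)))

lemma mulF_bas {f : MvPolynomial (Fin 5) ℂ} (hf : f.IsHomogeneous 4) (n : ℤ) {a b : Mon}
    (hab : a.deg + 4 = b.deg) (g : (⟨-n⟩ : Mon) ⟶ a) (g' : (⟨-(n - 4)⟩ : Mon) ⟶ b)
    (hg : g'.ex = g.ex) :
    (mulF f n).app b (bas (n - 4) g') = act f (freeMod n) a b (bas n g) := by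
  rw [mulF, freeTo_bas, act_apply, act_apply, map_sum]
  refine Finset.sum_congr rfl fun μ hμ => ?_
  have h4 := degree_of_mem hf hμ
  rw [dif_pos (by dsimp only; rw [h4]; push_cast; ring), dif_pos (by rw [h4]; exact_mod_cast hab),
    map_smul, map_bas, map_bas, map_bas]
  congr 2
  apply Mon.Hom.ext'
  change (0 + μ) + g'.ex = g.ex + μ
  rw [zero_add, hg, add_comm]

lemma killedBy_cokernel {f : MvPolynomial (Fin 5) ℂ} (hf : f.IsHomogeneous 4) (n : ℤ) :
    KilledBy f (cokernel (mulF f n)) := by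
  intro a b
  by_cases hab : a.deg + 4 = b.deg
  · have : Epi ((cokernel.π (mulF f n)).app a) := inferInstance
    rw [← cancel_epi ((cokernel.π (mulF f n)).app a), ← act_naturality, comp_zero]
    apply ModuleCat.free_hom_ext
    intro g
    let g' : (⟨-(n - 4)⟩ : Mon) ⟶ b := mono g.ex (by
      have := mono_deg g
      dsimp only at this ⊢
      omega)
    change (cokernel.π (mulF f n)).app b (act f (freeMod n) a b (bas n g)) = 0
    rw [← mulF_bas hf n hab g g' rfl]
    have h1 := congrArg (fun t => t.app b (bas (n - 4) g')) (cokernel.condition (mulF f n))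
    exact h1
  · unfold act
    refine Finset.sum_eq_zero fun μ hμ => ?_
    rw [dif_neg]
    rw [degree_of_mem hf hμ]
    exact_mod_cast hab

/-- The graded `S/f`-module `A(n)`, where `A = S/f`. -/
noncomputable def Amod {f : MvPolynomial (Fin 5) ℂ} (hf : f.IsHomogeneous 4) (n : ℤ) : Gr f :=
  ⟨cokernel (mulF f n), killedBy_cokernel hf n⟩

section Univ

variable {f : MvPolynomial (Fin 5) ℂ} (hf : f.IsHomogeneous 4)

/-- the generator of `A(n)` -/
noncomputable def genA (n : ℤ) : (Amod hf n).obj.obj ⟨-n⟩ :=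
  (cokernel.π (mulF f n)).app ⟨-n⟩ (bas n (𝟙 _))

lemma mulF_freeTo (n : ℤ) (M : GrS) (hM : KilledBy f M) (m : M.obj ⟨-n⟩) :
    mulF f n ≫ freeTo m = 0 := by
  apply freeMod_hom_ext
  change (freeTo m).app _ ((mulF f n).app _ (bas (n - 4) (𝟙 _))) = 0
  rw [mulF, freeTo_bas, (freeMod n).map_id]
  have h1 := congrArg (fun t => t (bas n (𝟙 _)))
    (act_naturality f (freeTo m) ⟨-n⟩ ⟨-(n - 4)⟩)
  rw [hM] at h1
  exact h1.trans rfl

lemma corepA_bijective (n : ℤ) (M : Gr f) :
    Function.Bijective (fun φ : Amod hf n ⟶ M => φ.hom.app ⟨-n⟩ (genA hf n)) := by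
  constructor
  · intro φ ψ h
    ext : 1
    apply (cancel_epi (cokernel.π (mulF f n))).1
    exact freeMod_hom_ext h
  · intro m
    refine ⟨(KilledBy f).homMk (cokernel.desc (mulF f n) (freeTo m)
      (mulF_freeTo n M.obj M.property m)), ?_⟩
    have h1 := congrArg (fun t => t.app ⟨-n⟩ (bas n (𝟙 _)))
      (cokernel.π_desc (mulF f n) (freeTo m) (mulF_freeTo n M.obj M.property m))
    refine Eq.trans h1 ?_
    dsimp only
    rw [freeTo_bas, M.obj.map_id]
    rfl

/-- `Hom(A(n), M) = M_{-n}`. -/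
noncomputable def corepA (n : ℤ) (M : Gr f) : (Amod hf n ⟶ M) ≃ₗ[ℂ] M.obj.obj ⟨-n⟩ :=
  LinearEquiv.ofBijective
    { toFun := fun φ => φ.hom.app ⟨-n⟩ (genA hf n)
      map_add' := fun _ _ => rfl
      map_smul' := fun _ _ => rfl }
    (corepA_bijective hf n M)

instance (n : ℤ) : Projective (Amod hf n) where
  factors {M N} φ e _ := by
    have : Epi e.hom := inferInstanceAs (Epi ((inc f).map e))
    obtain ⟨m, hm⟩ := surjective_of_epi e.hom ⟨-n⟩ (φ.hom.app ⟨-n⟩ (genA hf n))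
    obtain ⟨ψ, hψ⟩ := (corepA_bijective hf n M).2 m
    refine ⟨ψ, (corepA_bijective hf n N).1 ?_⟩
    change e.hom.app ⟨-n⟩ (ψ.hom.app ⟨-n⟩ (genA hf n)) = _
    have hψ' : ψ.hom.app ⟨-n⟩ (genA hf n) = m := hψ
    rw [hψ']
    exact hm

end Univ

section Inj

/-- elements of `S(n)_b` as polynomials -/
noncomputable def toPoly (n : ℤ) (b : Mon) :
    (freeMod n).obj b →ₗ[ℂ] MvPolynomial (Fin 5) ℂ :=
  Finsupp.linearCombination ℂ
    (fun g : (⟨-n⟩ : Mon) ⟶ b => MvPolynomial.monomial (R := ℂ) g.ex 1)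

lemma toPoly_bas (n : ℤ) {b : Mon} (g : (⟨-n⟩ : Mon) ⟶ b) :
    toPoly n b (bas n g) = MvPolynomial.monomial g.ex 1 := by
  refine (Finsupp.linearCombination_single ℂ _ _).trans ?_
  simp

lemma toPoly_injective (n : ℤ) (b : Mon) : Function.Injective (toPoly n b) := by
  have h1 : LinearIndependent ℂ
      (fun g : (⟨-n⟩ : Mon) ⟶ b => MvPolynomial.monomial (R := ℂ) g.ex 1) := by
    have h2 := (MvPolynomial.basisMonomials (Fin 5) ℂ).linearIndependent.comp
      (fun g : (⟨-n⟩ : Mon) ⟶ b => g.ex) (fun g h hgh => Mon.Hom.ext' hgh)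
    have h3 : (fun g : (⟨-n⟩ : Mon) ⟶ b => MvPolynomial.monomial (R := ℂ) g.ex 1) =
      (MvPolynomial.basisMonomials (Fin 5) ℂ) ∘ (fun g : (⟨-n⟩ : Mon) ⟶ b => g.ex) := by
      funext g
      simp
    rw [h3]
    exact h2
  exact h1

lemma toPoly_act {f : MvPolynomial (Fin 5) ℂ} (hf : f.IsHomogeneous 4) (n : ℤ) {a b : Mon}
    (hab : a.deg + 4 = b.deg) (x : (freeMod n).obj a) :
    toPoly n b (act f (freeMod n) a b x) = f * toPoly n a x := by
  have : (toPoly n b) ∘ₗ (act f (freeMod n) a b).hom =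
      (LinearMap.mulLeft ℂ f) ∘ₗ (toPoly n a) := by
    apply Finsupp.lhom_ext'
    intro g
    apply LinearMap.ext_ring
    change toPoly n b (act f (freeMod n) a b (bas n g)) = f * toPoly n a (bas n g)
    rw [act_apply, map_sum, toPoly_bas]
    conv_rhs => rw [← MvPolynomial.support_sum_monomial_coeff f]
    rw [Finset.sum_mul]
    refine Finset.sum_congr rfl fun μ hμ => ?_
    rw [dif_pos (by rw [degree_of_mem hf hμ]; exact_mod_cast hab), map_smul, map_bas, toPoly_bas,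
      MvPolynomial.monomial_mul, MvPolynomial.smul_monomial, add_comm μ]
    rfl
  exact LinearMap.congr_fun this x

lemma toPoly_mulF {f : MvPolynomial (Fin 5) ℂ} (hf : f.IsHomogeneous 4) (n : ℤ) (b : Mon)
    (x : (freeMod (n - 4)).obj b) :
    toPoly n b ((mulF f n).app b x) = f * toPoly (n - 4) b x := by
  have : (toPoly n b) ∘ₗ ((mulF f n).app b).hom =
      (LinearMap.mulLeft ℂ f) ∘ₗ (toPoly (n - 4) b) := by
    apply Finsupp.lhom_ext'
    intro g
    apply LinearMap.ext_ring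
    change toPoly n b ((mulF f n).app b (bas (n - 4) g)) = f * toPoly (n - 4) b (bas (n - 4) g)
    let a : Mon := ⟨b.deg - 4⟩
    have hab : a.deg + 4 = b.deg := by dsimp [a]; ring
    let g' : (⟨-n⟩ : Mon) ⟶ a := mono g.ex (by
      have := mono_deg g
      dsimp only [a] at this ⊢
      omega)
    rw [mulF_bas hf n hab g' g rfl, toPoly_act hf n hab, toPoly_bas, toPoly_bas]
    rfl
  exact LinearMap.congr_fun this x

lemma mono_mulF {f : MvPolynomial (Fin 5) ℂ} (hf : f.IsHomogeneous 4) (hf0 : f ≠ 0) (n : ℤ) :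
    Mono (mulF f n) := by
  have : ∀ b, Mono ((mulF f n).app b) := fun b => by
    rw [ModuleCat.mono_iff_injective, injective_iff_map_eq_zero]
    intro x hx
    have h1 := toPoly_mulF hf n b x
    rw [hx, map_zero] at h1
    have h2 := (mul_eq_zero.1 h1.symm).resolve_left hf0
    exact (injective_iff_map_eq_zero _).1 (toPoly_injective (n - 4) b) x h2
  exact NatTrans.mono_of_mono_app _

end Inj

end Pool.Agent.Helper41
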