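import Mathlib
import Pool.Agent.Helper41.Free

/-!
Graded modules of (formal) Laurent polynomials with prescribed signs of exponents.
-/

open CategoryTheory Limits ZeroObject

set_option linter.unusedSectionVars false

namespace Pool.Agent.Helper41

/-- sign conditions -/
inductive Sg
  | pos
  | neg
  | any
  deriving DecidableEq

/-- sign conditions -/
def Sg.ok : Sg → ℤ → Prop
  | pos, c => 0 ≤ c
  | neg, c => c < 0
  | any, _ => True

/-- integral exponents -/
abbrev Pt := Fin 5 → ℤ

/-- exponents as integral exponents -/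
def exZ (μ : Expo) : Pt := fun i => (μ i : ℤ)

lemma exZ_add (μ ν : Expo) : exZ (μ + ν) = exZ μ + exZ ν := by
  funext i
  simp [exZ]

lemma sum_exZ (μ : Expo) : ∑ i, exZ μ i = (μ.degree : ℤ) := by
  simp [exZ, Finsupp.degree_eq_sum]

/-- the exponents matching the sign pattern -/
def inPat (s : Fin 5 → Sg) (c : Pt) : Prop := ∀ i, (s i).ok (c i)

lemma inPat_convex {s : Fin 5 → Sg} {c : Pt} {μ ν : Expo} (h1 : inPat s (c - exZ ν - exZ μ))
    (h2 : inPat s c) : inPat s (c - exZ ν) := by
  intro i
  have h1 := h1 i
  have h2 := h2 i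
  cases hs : s i
  all_goals
    simp only [hs, Sg.ok, exZ, Pi.sub_apply] at h1 h2 ⊢
  all_goals omega

/-- functions on the exponents matching the sign pattern, of total degree `d` -/
def patSub (s : Fin 5 → Sg) (d : ℤ) : Submodule ℂ (Pt → ℂ) where
  carrier := {φ | ∀ c, φ c ≠ 0 → inPat s c ∧ ∑ i, c i = d}
  add_mem' {φ ψ} h1 h2 c h := by
    by_cases h0 : φ c = 0
    · apply h2
      intro h3
      apply h
      simp [h0, h3]
    · exact h1 c h0
  zero_mem' c h := absurd rfl h
  smul_mem' r φ h c hc := h c (fun h0 => hc (by simp [h0]))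

open Classical in
/-- the graded module with basis the Laurent monomials matching the sign pattern -/
noncomputable def patMod (s : Fin 5 → Sg) (n : ℤ) : GrS where
  obj b := ModuleCat.of ℂ (patSub s (b.deg + n))
  map {a b} g := ModuleCat.ofHom
    { toFun := fun φ => ⟨fun c => if inPat s c then φ.1 (c - exZ g.ex) else 0, fun c hc => by
        by_cases h : inPat s c
        · simp only [h, if_true] at hc
          refine ⟨h, ?_⟩
          have h1 := (φ.2 _ hc).2
          have h2 := mono_deg g
          simp only [Pi.sub_apply, Finset.sum_sub_distrib, sum_exZ] at h1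
          linarith
        · simp [h] at hc⟩
      map_add' := fun φ ψ => by
        ext c
        by_cases h : inPat s c <;> simp [h]
      map_smul' := fun r φ => by
        ext c
        by_cases h : inPat s c <;> simp [h] }
  map_id a := by
    ext φ c
    change (if inPat s c then φ.1 (c - exZ 0) else 0) = φ.1 c
    have h0 : exZ 0 = 0 := by
      funext i
      simp [exZ]
    rw [h0, sub_zero]
    by_cases h : inPat s c
    · simp [h]
    · simp only [h, if_false]
      by_contra hne
      exact h (φ.2 c (fun h0 => hne h0.symm)).1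
  map_comp {a b c} g h := by
    ext φ x
    change (if inPat s x then φ.1 (x - exZ (g.ex + h.ex)) else 0) =
      (if inPat s x then (if inPat s (x - exZ h.ex) then φ.1 (x - exZ h.ex - exZ g.ex) else 0)
        else 0)
    by_cases hx : inPat s x
    · simp only [hx, if_true]
      rw [exZ_add, add_comm (exZ g.ex), ← sub_sub]
      by_cases h2 : inPat s (x - exZ h.ex)
      · simp [h2]
      · simp only [h2, if_false]
        by_contra hne
        exact h2 (inPat_convex (φ.2 _ hne).1 hx)
    · simp [hx]

/-- the coefficient of an element of a pattern module -/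
def cf {s : Fin 5 → Sg} {n : ℤ} {b : Mon} (φ : (patMod s n).obj b) (c : Pt) : ℂ :=
  (φ : patSub s (b.deg + n)).1 c

lemma cf_ext {s : Fin 5 → Sg} {n : ℤ} {b : Mon} {φ ψ : (patMod s n).obj b}
    (h : ∀ c, cf φ c = cf ψ c) : φ = ψ := Subtype.ext (funext h)

lemma cf_supp {s : Fin 5 → Sg} {n : ℤ} {b : Mon} (φ : (patMod s n).obj b) {c : Pt}
    (h : cf φ c ≠ 0) : inPat s c ∧ ∑ i, c i = b.deg + n :=
  (φ : patSub s (b.deg + n)).2 c h

/-- constructor for elements of pattern modules -/
def mkP {s : Fin 5 → Sg} {n : ℤ} {b : Mon} (φ : Pt → ℂ)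
    (h : ∀ c, φ c ≠ 0 → inPat s c ∧ ∑ i, c i = b.deg + n) : (patMod s n).obj b :=
  (⟨φ, h⟩ : patSub s (b.deg + n))

lemma cf_mkP {s : Fin 5 → Sg} {n : ℤ} {b : Mon} (φ : Pt → ℂ)
    (h : ∀ c, φ c ≠ 0 → inPat s c ∧ ∑ i, c i = b.deg + n) (c : Pt) :
    cf (mkP φ h : (patMod s n).obj b) c = φ c := rfl

open Classical in
lemma cf_map {s : Fin 5 → Sg} {n : ℤ} {a b : Mon} (g : a ⟶ b) (φ : (patMod s n).obj a) (c : Pt) :
    cf ((patMod s n).map g φ) c = if inPat s c then cf φ (c - exZ g.ex) else 0 := rfl

lemma cf_zero {s : Fin 5 → Sg} {n : ℤ} {b : Mon} (c : Pt) :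
    cf (0 : (patMod s n).obj b) c = 0 := rfl

lemma inPat_update {s : Fin 5 → Sg} {k : Fin 5} {σ : Sg} {c : Pt} :
    inPat (Function.update s k σ) c ↔ σ.ok (c k) ∧ ∀ i, i ≠ k → (s i).ok (c i) := by
  constructor
  · intro h
    refine ⟨by simpa using h k, fun i hi => by simpa [hi] using h i⟩
  · rintro ⟨h1, h2⟩ i
    by_cases hi : i = k
    · subst hi
      simpa using h1
    · simpa [hi] using h2 i hi

/-- inclusion of the part with nonnegative `k`-th exponents -/
noncomputable def patIncl (s : Fin 5 → Sg) (k : Fin 5) (n : ℤ) :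
    patMod (Function.update s k Sg.pos) n ⟶ patMod (Function.update s k Sg.any) n where
  app b := ModuleCat.ofHom
    { toFun := fun φ => mkP (cf φ) fun c hc => by
        have h := cf_supp φ hc
        rw [inPat_update] at h ⊢
        exact ⟨⟨trivial, h.1.2⟩, h.2⟩
      map_add' := fun _ _ => rfl
      map_smul' := fun _ _ => rfl }
  naturality a b g := by
    ext φ
    apply cf_ext
    intro c
    change cf ((patMod (Function.update s k Sg.pos) n).map g φ) c =
      cf ((patMod (Function.update s k Sg.any) n).map g (mkP (cf φ) _)) c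
    rw [cf_map, cf_map, cf_mkP]
    by_cases h : inPat (Function.update s k Sg.pos) c
    · have h' : inPat (Function.update s k Sg.any) c := by
        rw [inPat_update] at h ⊢
        exact ⟨trivial, h.2⟩
      simp [h, h']
    · simp only [h, if_false]
      split_ifs with h'
      · by_contra hne
        have h2 := cf_supp φ (Ne.symm hne)
        apply h
        rw [inPat_update] at h2 h' ⊢
        refine ⟨?_, h'.2⟩
        have h3 := h2.1.1
        simp only [Sg.ok, exZ, Pi.sub_apply] at h3 ⊢
        omega
      · rfl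

open Classical in
/-- projection on the part with negative `k`-th exponents -/
noncomputable def patProj (s : Fin 5 → Sg) (k : Fin 5) (n : ℤ) :
    patMod (Function.update s k Sg.any) n ⟶ patMod (Function.update s k Sg.neg) n where
  app b := ModuleCat.ofHom
    { toFun := fun φ => mkP (fun c => if c k < 0 then cf φ c else 0) fun c hc => by
        by_cases hk : c k < 0
        · simp only [hk, if_true] at hc
          have h := cf_supp φ hc
          rw [inPat_update] at h ⊢
          exact ⟨⟨hk, h.1.2⟩, h.2⟩
        · simp [hk] at hc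
      map_add' := fun φ ψ => by
        apply cf_ext
        intro c
        change (if c k < 0 then cf φ c + cf ψ c else 0) =
          (if c k < 0 then cf φ c else 0) + (if c k < 0 then cf ψ c else 0)
        split_ifs <;> simp
      map_smul' := fun r φ => by
        apply cf_ext
        intro c
        change (if c k < 0 then r * cf φ c else 0) = r * (if c k < 0 then cf φ c else 0)
        split_ifs <;> simp }
  naturality a b g := by
    ext φ
    apply cf_ext
    intro c
    change (if c k < 0 then cf ((patMod (Function.update s k Sg.any) n).map g φ) c else 0) =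
      cf ((patMod (Function.update s k Sg.neg) n).map g (mkP _ _)) c
    rw [cf_map, cf_map, cf_mkP]
    by_cases hk : c k < 0
    · have h3 : (c - exZ g.ex) k < 0 := by
        simp only [exZ, Pi.sub_apply]
        omega
      simp only [hk, h3, if_true]
      have h4 : inPat (Function.update s k Sg.any) c ↔ inPat (Function.update s k Sg.neg) c := by
        rw [inPat_update, inPat_update]
        simp [Sg.ok, hk]
      simp only [h4]
    · simp only [hk, if_false]
      rw [if_neg]
      rw [inPat_update]
      exact fun h => hk h.1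

/-- the short exact sequence splitting off the sign of the `k`-th exponent -/
noncomputable def patSeq (s : Fin 5 → Sg) (k : Fin 5) (n : ℤ) : ShortComplex GrS :=
  ShortComplex.mk (patIncl s k n) (patProj s k n) (by
    ext b φ
    apply cf_ext
    intro c
    change (if c k < 0 then cf φ c else 0) = 0
    split_ifs with h
    · by_contra hne
      have := (cf_supp φ hne).1
      rw [inPat_update] at this
      have h2 := this.1
      simp only [Sg.ok] at h2
      omega
    · rfl)

lemma exact_of_eval (S : ShortComplex GrS)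
    (h : ∀ b, (S.map ((evaluation Mon (ModuleCat.{0} ℂ)).obj b)).Exact) : S.Exact := by
  rw [ShortComplex.exact_iff_isZero_homology, Functor.isZero_iff]
  intro b
  have h1 := h b
  rw [ShortComplex.exact_iff_isZero_homology] at h1
  exact h1.of_iso (S.mapHomologyIso ((evaluation Mon (ModuleCat.{0} ℂ)).obj b)).symm

open Classical in
lemma patSeq_shortExact (s : Fin 5 → Sg) (k : Fin 5) (n : ℤ) : (patSeq s k n).ShortExact where
  exact := exact_of_eval _ fun b => by
    rw [ShortComplex.moduleCat_exact_iff]
    intro φ hφ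
    refine ⟨mkP (cf φ) fun c hc => ?_, rfl⟩
    have h := cf_supp φ hc
    rw [inPat_update] at h ⊢
    refine ⟨⟨?_, h.1.2⟩, h.2⟩
    by_contra hk
    simp only [Sg.ok, not_le] at hk
    have h1 : (if c k < 0 then cf φ c else 0) = 0 := congrArg (fun t => cf t c) hφ
    rw [if_pos hk] at h1
    exact hc h1
  mono_f := by
    have : ∀ b, Mono ((patIncl s k n).app b) := fun b => by
      rw [ModuleCat.mono_iff_injective]
      intro φ ψ h
      apply cf_ext
      intro c
      exact congrArg (fun t : (patMod (Function.update s k Sg.any) n).obj b => cf t c) h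
    change Mono (patIncl s k n)
    exact NatTrans.mono_of_mono_app _
  epi_g := by
    have : ∀ b, Epi ((patProj s k n).app b) := fun b => by
      rw [ModuleCat.epi_iff_surjective]
      intro φ
      refine ⟨mkP (cf φ) fun c hc => ?_, ?_⟩
      · have h := cf_supp φ hc
        rw [inPat_update] at h ⊢
        exact ⟨⟨trivial, h.1.2⟩, h.2⟩
      · apply cf_ext
        intro c
        change (if c k < 0 then cf φ c else 0) = cf φ c
        split_ifs with h
        · rfl
        · by_contra hne
          have := (cf_supp φ (Ne.symm hne)).1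
          rw [inPat_update] at this
          exact h this.1
    change Epi (patProj s k n)
    exact NatTrans.epi_of_epi_app _

lemma exZ_single (k : Fin 5) (m : ℕ) (i : Fin 5) :
    exZ (Finsupp.single k m) i = if i = k then (m : ℤ) else 0 := by
  unfold exZ
  rw [Finsupp.single_apply]
  by_cases h : i = k
  · simp [h]
  · rw [if_neg (Ne.symm h), if_neg h]
    rfl

lemma inPat_sub_single {s : Fin 5 → Sg} {k : Fin 5} (hk : s k = Sg.any) (m : ℕ) (c : Pt) :
    inPat s (c - exZ (Finsupp.single k m)) ↔ inPat s c := by
  refine forall_congr' fun i => ?_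
  rw [Pi.sub_apply, exZ_single]
  by_cases h : i = k
  · subst h
    rw [hk]
    simp [Sg.ok]
  · simp [h]

/-- pattern modules are local at the variables whose exponents are unconstrained -/
lemma patMod_local (s : Fin 5 → Sg) (k : Fin 5) (hk : s k = Sg.any) (n : ℤ) :
    XLocal k (patMod s n) := by
  intro a b m g hg
  have hdeg : a.deg + m = b.deg := by
    have := mono_deg g
    rw [hg, Finsupp.degree_single] at this
    exact this
  have hsum : ∀ c : Pt, ∑ i, (c - exZ g.ex) i = ∑ i, c i - m := fun c => by
    simp only [Pi.sub_apply, Finset.sum_sub_distrib, sum_exZ, hg, Finsupp.degree_single]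
  constructor
  · intro φ ψ h
    apply cf_ext
    intro c
    by_cases hc : inPat s c
    · have h1 : cf ((patMod s n).map g φ) (c + exZ g.ex) =
        cf ((patMod s n).map g ψ) (c + exZ g.ex) := by rw [h]
      rw [cf_map, cf_map, add_sub_cancel_right] at h1
      have h2 : inPat s (c + exZ g.ex) := by
        rw [hg, ← inPat_sub_single hk m]
        simpa using hc
      simpa [h2] using h1
    · have e1 : cf φ c = 0 := by
        by_contra hne
        exact hc (cf_supp φ hne).1
      have e2 : cf ψ c = 0 := by
        by_contra hne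
        exact hc (cf_supp ψ hne).1
      rw [e1, e2]
  · intro ψ
    refine ⟨mkP (fun c => cf ψ (c + exZ g.ex)) fun c hc => ?_, ?_⟩
    · have h1 := cf_supp ψ hc
      constructor
      · rw [← inPat_sub_single hk m, hg, add_sub_cancel_right] at h1
        exact h1.1
      · have h2 := hsum (c + exZ g.ex)
        rw [add_sub_cancel_right, h1.2] at h2
        rw [h2]
        linarith
    · apply cf_ext
      intro c
      rw [cf_map, cf_mkP, sub_add_cancel]
      split_ifs with h
      · rfl
      · by_contra hne
        exact h (cf_supp ψ (Ne.symm hne)).1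

/-- the part with negative exponents is torsion -/
lemma patMod_tors (n : ℤ) : IsTors (patMod (fun _ => Sg.neg) n) := by
  intro b φ
  refine ⟨(-(b.deg + n)).toNat, fun c g hg => ?_⟩
  apply cf_ext
  intro x
  rw [cf_zero]
  by_contra hne
  have h1 := cf_supp _ hne
  have h2 : ∑ i, x i ≤ ∑ i : Fin 5, (-1 : ℤ) := Finset.sum_le_sum fun i _ => by
    have := h1.1 i
    simp only [Sg.ok] at this
    omega
  have h3 := mono_deg g
  have h4 : ∑ i : Fin 5, (-1 : ℤ) = -5 := by simp
  rw [h4] at h2
  omega

instance finite_monHom (a b : Mon) : Finite (a ⟶ b) := by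
  have : Finite {μ : Expo // (μ.degree : ℤ) = b.deg - a.deg} := by
    have h1 : {μ : Expo | (μ.degree : ℤ) = b.deg - a.deg} ⊆
        ((Finset.univ : Finset (Fin 5)).finsuppAntidiag (b.deg - a.deg).toNat : Set Expo) := by
      intro μ hμ
      have hμ' : (μ.degree : ℤ) = b.deg - a.deg := hμ
      simp only [Finset.mem_coe, Finset.mem_finsuppAntidiag, Finset.subset_univ, and_true]
      rw [← Finsupp.degree_eq_sum]
      omega
    exact ((Finset.finite_toSet _).subset h1).to_subtype
  refine Finite.of_injective (β := {μ : Expo // (μ.degree : ℤ) = b.deg - a.deg})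
    (fun g => ⟨g.ex, by have := mono_deg g; omega⟩) ?_
  intro g h hgh
  exact Mon.Hom.ext' (congrArg Subtype.val hgh)

open Classical in
/-- the monomial `1` in the pattern module -/
noncomputable def onePat (n : ℤ) : (patMod (fun _ => Sg.pos) n).obj ⟨-n⟩ :=
  mkP (fun c => if c = 0 then 1 else 0) fun c hc => by
    have h : c = 0 := by
      by_contra h
      exact hc (if_neg h)
    subst h
    refine ⟨fun i => ?_, ?_⟩
    · simp [Sg.ok]
    · simp

lemma exZ_injective : Function.Injective exZ := by
  intro μ ν h
  ext i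
  have := congrFun h i
  simpa [exZ] using this

/-- elements of `S(n)` as finitely supported functions -/
def ofFs {n : ℤ} {b : Mon} (x : ((⟨-n⟩ : Mon) ⟶ b) →₀ ℂ) : (freeMod n).obj b := x

lemma cf_freeTo_one (n : ℤ) (b : Mon) (x : ((⟨-n⟩ : Mon) ⟶ b) →₀ ℂ) (g : (⟨-n⟩ : Mon) ⟶ b) :
    cf ((freeTo (onePat n)).app b (ofFs x)) (exZ g.ex) = x g := by
  classical
  let L0 : (freeMod n).obj b →ₗ[ℂ] ℂ :=
    { toFun := fun x => cf ((freeTo (onePat n)).app b x) (exZ g.ex)
      map_add' := fun x y => by
        rw [map_add]
        rfl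
      map_smul' := fun r x => by
        rw [map_smul]
        rfl }
  let L1 : (((⟨-n⟩ : Mon) ⟶ b) →₀ ℂ) →ₗ[ℂ] ℂ := L0
  have : L1 = Finsupp.lapply g := by
    apply Finsupp.lhom_ext'
    intro h
    apply LinearMap.ext_ring
    change cf ((freeTo (onePat n)).app b (bas n h)) (exZ g.ex) = (Finsupp.single h (1 : ℂ)) g
    rw [freeTo_bas, cf_map, if_pos (by intro i; simp [Sg.ok, exZ]), Finsupp.single_apply]
    change (if exZ g.ex - exZ h.ex = 0 then (1 : ℂ) else 0) = _
    congr 1
    rw [sub_eq_zero, exZ_injective.eq_iff]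
    apply propext
    constructor
    · intro he
      exact (Mon.Hom.ext' he).symm
    · rintro rfl
      rfl
  exact LinearMap.congr_fun this x

/-- `S(n)` is the pattern module with nonnegative exponents. -/
lemma isIso_freeTo_one (n : ℤ) : IsIso (freeTo (onePat n)) := by
  refine isIso_of_bijective _ fun b => ⟨?_, ?_⟩
  · have key : ∀ x y : ((⟨-n⟩ : Mon) ⟶ b) →₀ ℂ, (freeTo (onePat n)).app b (ofFs x) =
        (freeTo (onePat n)).app b (ofFs y) → x = y := fun x y hxy => by
      ext g
      rw [← cf_freeTo_one, ← cf_freeTo_one, hxy]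
    exact fun x y => key x y
  · intro φ
    let x : ((⟨-n⟩ : Mon) ⟶ b) →₀ ℂ := Finsupp.equivFunOnFinite.symm fun g => cf φ (exZ g.ex)
    refine ⟨ofFs x, ?_⟩
    apply cf_ext
    intro c
    by_cases hc : inPat (fun _ => Sg.pos) c ∧ ∑ i, c i = b.deg + n
    · let μ : Expo := Finsupp.equivFunOnFinite.symm fun i => (c i).toNat
      have hμ : exZ μ = c := by
        funext i
        have := hc.1 i
        simp only [Sg.ok] at this
        change (((c i).toNat : ℕ) : ℤ) = c i
        omega
      let g : (⟨-n⟩ : Mon) ⟶ b := mono μ (by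
        rw [← sum_exZ, hμ, hc.2]
        dsimp only
        ring)
      have hg : exZ g.ex = c := hμ
      rw [← hg, cf_freeTo_one]
      rfl
    · have e1 : cf φ c = 0 := by
        by_contra hne
        exact hc (cf_supp φ hne)
      have e2 : cf ((freeTo (onePat n)).app b (ofFs x)) c = 0 := by
        by_contra hne
        exact hc (cf_supp _ hne)
      rw [e1, e2]

section Dim

lemma card_hom (a b : Mon) (k : ℕ) (h : a.deg + k = b.deg) :
    Nat.card (a ⟶ b) = (k + 4).choose 4 := by
  let e : (a ⟶ b) ≃ ((Finset.univ : Finset (Fin 5)).finsuppAntidiag k : Finset Expo) :=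
    { toFun := fun g => ⟨g.ex, by
        have := mono_deg g
        simp only [Finset.mem_finsuppAntidiag, Finset.subset_univ, and_true]
        rw [← Finsupp.degree_eq_sum]
        omega⟩
      invFun := fun μ => mono μ.1 (by
        have h1 := μ.2
        simp only [Finset.mem_finsuppAntidiag, Finset.subset_univ, and_true] at h1
        rw [← Finsupp.degree_eq_sum] at h1
        omega)
      left_inv := fun g => rfl
      right_inv := fun μ => rfl }
  rw [Nat.card_congr e, Nat.card_eq_fintype_card, Fintype.card_coe,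
    Finset.card_finsuppAntidiag_nat_eq_choose, Finset.card_univ, Fintype.card_fin]
  rw [show 5 + k - 1 = k + 4 by omega, Nat.choose_symm_add]

/-- `S(0)_d` as pattern functions -/
noncomputable def freeEquivPat (d : ℤ) :
    (((⟨-0⟩ : Mon) ⟶ ⟨d⟩) →₀ ℂ) ≃ₗ[ℂ] patSub (fun _ => Sg.pos) (d + 0) :=
  LinearEquiv.ofBijective ((freeTo (onePat 0)).app ⟨d⟩).hom
    (bijective_of_isIso _ (isIso_freeTo_one 0) ⟨d⟩)

instance finite_pos (d : ℤ) : Module.Finite ℂ (patSub (fun _ => Sg.pos) d) := by
  have := Module.Finite.equiv (freeEquivPat d)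
  rwa [add_zero] at this

lemma finrank_pos (k : ℕ) :
    Module.finrank ℂ (patSub (fun _ => Sg.pos) (k : ℤ)) = (k + 4).choose 4 := by
  have h1 := (freeEquivPat k).finrank_eq
  rw [add_zero] at h1
  rw [← h1]
  have := Fintype.ofFinite ((⟨-0⟩ : Mon) ⟶ ⟨(k : ℤ)⟩)
  rw [Module.finrank_finsupp_self, ← Nat.card_eq_fintype_card]
  exact card_hom _ _ k (by simp)

lemma subsingleton_pos (d : ℤ) (hd : d < 0) : Subsingleton (patSub (fun _ => Sg.pos) d) := by
  constructor
  intro φ ψ
  have key : ∀ φ : patSub (fun _ => Sg.pos) d, φ = 0 := fun φ => by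
    apply Subtype.ext
    funext c
    by_contra hne
    have h1 := φ.2 c hne
    have h2 : 0 ≤ ∑ i, c i := Finset.sum_nonneg fun i _ => by
      have := h1.1 i
      simpa [Sg.ok] using this
    omega
  rw [key φ, key ψ]

/-- Reflection of exponents `c ↦ -1 - c`. -/
noncomputable def negEquivPos (d : ℤ) :
    patSub (fun _ => Sg.neg) d ≃ₗ[ℂ] patSub (fun _ => Sg.pos) (-5 - d) where
  toFun φ := ⟨fun c => φ.1 (-1 - c), fun c hc => by
    have h1 := φ.2 _ hc
    refine ⟨fun i => ?_, ?_⟩
    · have := h1.1 i
      simp only [Sg.ok, Pi.sub_apply, Pi.neg_apply, Pi.one_apply] at this ⊢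
      omega
    · have h2 := h1.2
      simp only [Pi.sub_apply, Pi.neg_apply, Pi.one_apply, Finset.sum_sub_distrib,
        Finset.sum_const, Finset.card_univ, Fintype.card_fin, smul_neg, nsmul_eq_mul] at h2
      push_cast at h2
      linarith⟩
  invFun φ := ⟨fun c => φ.1 (-1 - c), fun c hc => by
    have h1 := φ.2 _ hc
    refine ⟨fun i => ?_, ?_⟩
    · have := h1.1 i
      simp only [Sg.ok, Pi.sub_apply, Pi.neg_apply, Pi.one_apply] at this ⊢
      omega
    · have h2 := h1.2
      simp only [Pi.sub_apply, Pi.neg_apply, Pi.one_apply, Finset.sum_sub_distrib,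
        Finset.sum_const, Finset.card_univ, Fintype.card_fin, smul_neg, nsmul_eq_mul] at h2
      push_cast at h2
      linarith⟩
  map_add' _ _ := rfl
  map_smul' _ _ := rfl
  left_inv φ := by
    apply Subtype.ext
    funext c
    change φ.1 (-1 - (-1 - c)) = φ.1 c
    rw [sub_sub_cancel]
  right_inv φ := by
    apply Subtype.ext
    funext c
    change φ.1 (-1 - (-1 - c)) = φ.1 c
    rw [sub_sub_cancel]

instance finite_neg (d : ℤ) : Module.Finite ℂ (patSub (fun _ => Sg.neg) d) :=
  Module.Finite.equiv (negEquivPos d).symm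

lemma subsingleton_neg (d : ℤ) (hd : -5 < d) : Subsingleton (patSub (fun _ => Sg.neg) d) := by
  have := subsingleton_pos (-5 - d) (by omega)
  exact (negEquivPos d).toEquiv.subsingleton

/-- The Hilbert polynomial of `ℙ⁴` as a sum of dimensions. -/
lemma dim_sum (d : ℤ) : (Module.finrank ℂ (patSub (fun _ => Sg.pos) d) : ℤ) +
    Module.finrank ℂ (patSub (fun _ => Sg.neg) d) = Ring.choose (d + 4) 4 := by
  rcases lt_or_ge d 0 with hd | hd
  · have := subsingleton_pos d hd
    rw [Module.finrank_zero_of_subsingleton, Nat.cast_zero, zero_add]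
    rcases lt_or_ge (-5) d with hd' | hd'
    · have := subsingleton_neg d hd'
      rw [Module.finrank_zero_of_subsingleton, Nat.cast_zero]
      obtain ⟨m, hm⟩ := Int.eq_ofNat_of_zero_le (show 0 ≤ d + 4 by omega)
      rw [hm, Ring.choose_natCast, Nat.choose_eq_zero_of_lt (by omega)]
      rfl
    · obtain ⟨m, hm⟩ := Int.eq_ofNat_of_zero_le (show 0 ≤ -5 - d by omega)
      rw [(negEquivPos d).finrank_eq, hm, finrank_pos]
      rw [show d + 4 = -((m : ℤ) + 1) by omega, Ring.choose_neg]
      rw [show (m : ℤ) + 1 + (4 : ℕ) - 1 = ((m + 4 : ℕ) : ℤ) by push_cast; ring,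
        Ring.choose_natCast, show (((4 : ℕ) : ℤ)).negOnePow = 1 from Int.negOnePow_even _ ⟨2, by norm_num⟩,
        one_smul]
  · obtain ⟨m, rfl⟩ := Int.eq_ofNat_of_zero_le hd
    have := subsingleton_neg (m : ℤ) (by omega)
    rw [Module.finrank_zero_of_subsingleton (M := patSub (fun _ => Sg.neg) (m : ℤ)), Nat.cast_zero,
      add_zero, finrank_pos]
    rw [show ((m : ℤ) + 4) = ((m + 4 : ℕ) : ℤ) by push_cast; ring, Ring.choose_natCast]

end Dim

end Pool.Agent.Helper41
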