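import Mathlib

/-!
Morphisms in the derived category out of a projective object:
`Hom_{D(A)}(P, K) ≅ Hom_A(P, H⁰ K)`.
-/

open CategoryTheory Limits Pretriangulated ZeroObject

set_option linter.unusedSectionVars false

universe w v u

namespace Pool.Agent.Helper41

variable {A : Type u} [Category.{v} A] [Abelian A] [HasDerivedCategory.{w} A]

variable (A) in
/-- complexes concentrated in degree zero -/
noncomputable abbrev sgl : A ⥤ CochainComplex A ℤ :=
  HomologicalComplex.single A (ComplexShape.up ℤ) 0

open HomologicalComplex CochainComplex in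
lemma single_isKProjective (P : A) [Projective P] :
    CochainComplex.IsKProjective ((sgl A).obj P) := by
  have : ∀ n, Projective (((sgl A).obj P).X n) := fun n => by
    by_cases h : n = 0
    · subst h
      exact Projective.of_iso (HomologicalComplex.singleObjXSelf (.up ℤ) 0 P).symm inferInstance
    · exact (HomologicalComplex.isZero_single_obj_X (.up ℤ) 0 P n h).projective
  have : CochainComplex.IsStrictlyLE ((sgl A).obj P) 0 :=
    inferInstanceAs (CochainComplex.IsStrictlyLE ((CochainComplex.singleFunctor A 0).obj P) 0)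
  exact isKProjective_of_projective _ 0

/-- every morphism out of a projective object in the derived category is represented by a
morphism of complexes -/
lemma Q_map_surjective (P : A) [Projective P] (K : CochainComplex A ℤ)
    (g : DerivedCategory.Q.obj ((sgl A).obj P) ⟶ DerivedCategory.Q.obj K) :
    ∃ g' : (sgl A).obj P ⟶ K, DerivedCategory.Q.map g' = g := by
  have := single_isKProjective P
  obtain ⟨h, hh⟩ := (CochainComplex.IsKProjective.Qh_map_bijective
    ((sgl A).obj P) ((HomotopyCategory.quotient _ _).obj K)).2
    ((DerivedCategory.quotientCompQhIso A).hom.app _ ≫ g ≫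
      (DerivedCategory.quotientCompQhIso A).inv.app K)
  obtain ⟨g', rfl⟩ := (HomotopyCategory.quotient A (ComplexShape.up ℤ)).map_surjective h
  refine ⟨g', ?_⟩
  have h1 := DerivedCategory.quotientCompQhIso_hom_naturality g'
  rw [hh] at h1
  simp only [Category.assoc, Iso.inv_hom_id_app] at h1
  have h2 := (cancel_epi ((DerivedCategory.quotientCompQhIso A).hom.app ((sgl A).obj P))).1 h1
  rw [← h2]
  exact Category.comp_id _

/-- a chain map from `P[0]` that is zero on `H⁰` is zero in the derived category -/
lemma Q_map_eq_zero (P : A) [Projective P] (K : CochainComplex A ℤ)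
    (g : (sgl A).obj P ⟶ K)
    (hg : HomologicalComplex.homologyMap g 0 = 0) : DerivedCategory.Q.map g = 0 := by
  let z : P ⟶ K.cycles 0 := (HomologicalComplex.singleObjCyclesSelfIso (.up ℤ) 0 P).inv ≫
    HomologicalComplex.cyclesMap g 0
  have hz : z ≫ K.homologyπ 0 = 0 := by
    dsimp only [z]
    rw [Category.assoc, ← HomologicalComplex.homologyπ_naturality, hg]
    simp
  have hz' : z ≫ K.iCycles 0 = (HomologicalComplex.singleObjXSelf (.up ℤ) 0 P).inv ≫ g.f 0 := by
    dsimp only [z]
    rw [Category.assoc, HomologicalComplex.cyclesMap_i,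
      HomologicalComplex.singleObjCyclesSelfIso_inv_iCycles_assoc]
  have hex : (ShortComplex.mk (K.toCycles (-1) 0) (K.homologyπ 0)
      (K.toCycles_comp_homologyπ (-1) 0)).Exact :=
    ShortComplex.exact_of_g_is_cokernel _ (K.homologyIsCokernel (-1) 0 (by simp))
  obtain ⟨h, hh⟩ : ∃ h : P ⟶ K.X (-1), h ≫ K.toCycles (-1) 0 = z :=
    ⟨hex.liftFromProjective z hz, hex.liftFromProjective_comp z hz⟩
  have key : (HomologicalComplex.singleObjXSelf (.up ℤ) 0 P).inv ≫ g.f 0 = h ≫ K.d (-1) 0 := by
    rw [← hz', ← hh, Category.assoc, HomologicalComplex.toCycles_i]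
  have e1 := CochainComplex.HomComplex.Cochain.δ_fromSingleMk (K := K) h (p := 0) (q := -1)
    (n := -1) (by simp) 0 0 (by simp)
  have ho : Homotopy g 0 := (CochainComplex.HomComplex.Cochain.equivHomotopy g 0).symm
    ⟨CochainComplex.HomComplex.Cochain.fromSingleMk h (by simp), by
      rw [CochainComplex.HomComplex.Cochain.ofHom_zero, add_zero]
      refine Eq.trans ?_ e1.symm
      rw [← key]
      apply (CochainComplex.HomComplex.Cochain.fromSingleEquiv (p := 0) (q := 0) (n := 0)
        (by simp)).injective
      rw [CochainComplex.HomComplex.Cochain.fromSingleEquiv_fromSingleMk]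
      change (HomologicalComplex.singleObjXSelf (.up ℤ) 0 P).inv ≫
        (CochainComplex.HomComplex.Cochain.ofHom g).v 0 0 _ = _
      rw [CochainComplex.HomComplex.Cochain.ofHom_v]⟩
  have := DerivedCategory.Q_map_eq_of_homotopy _ ho
  rw [this, Functor.map_zero]

/-- homology of `Q K` -/
noncomputable def hQ (K : CochainComplex A ℤ) :
    (DerivedCategory.homologyFunctor A 0).obj (DerivedCategory.Q.obj K) ≅ K.homology 0 :=
  (DerivedCategory.homologyFunctorFactors A 0).app K

lemma hQ_naturality {K L : CochainComplex A ℤ} (g : K ⟶ L) :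
    (DerivedCategory.homologyFunctor A 0).map (DerivedCategory.Q.map g) ≫ (hQ L).hom =
      (hQ K).hom ≫ HomologicalComplex.homologyMap g 0 :=
  DerivedCategory.homologyFunctorFactors_hom_naturality g 0

/-- `P ≅ H⁰(P[0])` -/
noncomputable def toH0 (P : A) :
    P ≅ (DerivedCategory.homologyFunctor A 0).obj (DerivedCategory.Q.obj ((sgl A).obj P)) :=
  (HomologicalComplex.singleObjHomologySelfIso (.up ℤ) 0 P).symm ≪≫ (hQ ((sgl A).obj P)).symm

lemma toH0_comp (P : A) (K : CochainComplex A ℤ) (g : (sgl A).obj P ⟶ K) :
    (toH0 P).hom ≫ (DerivedCategory.homologyFunctor A 0).map (DerivedCategory.Q.map g) =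
      ((HomologicalComplex.singleObjHomologySelfIso (.up ℤ) 0 P).inv ≫
        HomologicalComplex.homologyMap g 0) ≫ (hQ K).inv := by
  rw [← cancel_mono (hQ K).hom, Category.assoc, hQ_naturality, Category.assoc, Iso.inv_hom_id,
    Category.comp_id]
  dsimp only [toH0, Iso.trans_hom, Iso.symm_hom]
  rw [Category.assoc, Iso.inv_hom_id_assoc]

lemma proj_bijective (P : A) [Projective P] (K : DerivedCategory A) :
    Function.Bijective (fun g : DerivedCategory.Q.obj ((sgl A).obj P) ⟶ K =>
      (toH0 P).hom ≫ (DerivedCategory.homologyFunctor A 0).map g) := by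
  let K' := DerivedCategory.Q.objPreimage K
  let e : DerivedCategory.Q.obj K' ≅ K := DerivedCategory.Q.objObjPreimageIso K
  constructor
  · suffices ∀ g : DerivedCategory.Q.obj ((sgl A).obj P) ⟶ K,
        (toH0 P).hom ≫ (DerivedCategory.homologyFunctor A 0).map g = 0 → g = 0 by
      intro g g' h
      have h' : (toH0 P).hom ≫ (DerivedCategory.homologyFunctor A 0).map g =
        (toH0 P).hom ≫ (DerivedCategory.homologyFunctor A 0).map g' := h
      exact sub_eq_zero.1 (this (g - g') (by
        rw [Functor.map_sub, Preadditive.comp_sub, h', sub_self]))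
    intro g hg
    obtain ⟨g', hg'⟩ := Q_map_surjective P K' (g ≫ e.inv)
    have h1 := toH0_comp P K' g'
    rw [hg', Functor.map_comp, reassoc_of% hg, zero_comp] at h1
    have h2 : HomologicalComplex.homologyMap g' 0 = 0 := by
      have h3 := (cancel_mono (hQ K').inv).1 ((zero_comp).trans h1)
      exact ((cancel_epi (HomologicalComplex.singleObjHomologySelfIso (.up ℤ) 0 P).inv).1
        ((comp_zero).trans h3)).symm
    have h4 := Q_map_eq_zero P K' g' h2
    rw [hg'] at h4
    exact (cancel_mono e.inv).1 (h4.trans zero_comp.symm)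
  · intro φ
    let φ' : P ⟶ K'.homology 0 := φ ≫ (DerivedCategory.homologyFunctor A 0).map e.inv ≫
      (hQ K').hom
    obtain ⟨z, hz⟩ : ∃ z : P ⟶ K'.cycles 0, z ≫ K'.homologyπ 0 = φ' :=
      ⟨Projective.factorThru φ' (K'.homologyπ 0), Projective.factorThru_comp _ _⟩
    let g : (sgl A).obj P ⟶ K' := HomologicalComplex.mkHomFromSingle (z ≫ K'.iCycles 0)
      (fun k _ => by rw [Category.assoc, HomologicalComplex.iCycles_d, comp_zero])
    have h1 : (HomologicalComplex.singleObjCyclesSelfIso (.up ℤ) 0 P).inv ≫
        HomologicalComplex.cyclesMap g 0 = z := by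
      rw [← cancel_mono (K'.iCycles 0), Category.assoc, HomologicalComplex.cyclesMap_i,
        HomologicalComplex.singleObjCyclesSelfIso_inv_iCycles_assoc,
        HomologicalComplex.mkHomFromSingle_f, Iso.inv_hom_id_assoc]
    have h2 : (HomologicalComplex.singleObjHomologySelfIso (.up ℤ) 0 P).inv ≫
        HomologicalComplex.homologyMap g 0 = φ' := by
      rw [← hz, ← h1, Category.assoc, ← HomologicalComplex.homologyπ_naturality,
        HomologicalComplex.singleObjCyclesSelfIso_inv_homologyπ_assoc]
    refine ⟨DerivedCategory.Q.map g ≫ e.hom, ?_⟩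
    dsimp only
    rw [Functor.map_comp, ← Category.assoc, toH0_comp, h2]
    dsimp only [φ']
    simp only [Category.assoc, Iso.hom_inv_id_assoc]
    rw [← Functor.map_comp, e.inv_hom_id, CategoryTheory.Functor.map_id, Category.comp_id]

section Linear

variable (R : Type*) [Ring R] [Linear R A]

instance homologyFunctor_linear (n : ℤ) :
    (HomologicalComplex.homologyFunctor A (ComplexShape.up ℤ) n).Linear R where
  map_smul f r := by
    change ShortComplex.homologyMap ((HomologicalComplex.shortComplexFunctor A
      (ComplexShape.up ℤ) n).map (r • f)) = _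
    have : (HomologicalComplex.shortComplexFunctor A (ComplexShape.up ℤ) n).map (r • f) =
      r • (HomologicalComplex.shortComplexFunctor A (ComplexShape.up ℤ) n).map f := rfl
    rw [this, ShortComplex.homologyMap_smul]
    rfl

noncomputable instance (n : ℤ) : Localization.Lifting DerivedCategory.Q
    (HomologicalComplex.quasiIso A (ComplexShape.up ℤ))
    (HomologicalComplex.homologyFunctor A (ComplexShape.up ℤ) n)
    (DerivedCategory.homologyFunctor A n) :=
  ⟨DerivedCategory.homologyFunctorFactors A n⟩

instance derivedHomologyFunctor_linear (n : ℤ) :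
    (DerivedCategory.homologyFunctor A n).Linear R := by
  rw [← Localization.functor_linear_iff DerivedCategory.Q
    (HomologicalComplex.quasiIso A (ComplexShape.up ℤ)) R
    (HomologicalComplex.homologyFunctor A (ComplexShape.up ℤ) n)
    (DerivedCategory.homologyFunctor A n)]
  infer_instance

/-- `Hom_{D(A)}(P, K) ≅ Hom_A(P, H⁰ K)` for `P` projective. -/
noncomputable def projEquiv (P : A) [Projective P] (K : DerivedCategory A) :
    (DerivedCategory.Q.obj ((sgl A).obj P) ⟶ K) ≃ₗ[R]
      (P ⟶ (DerivedCategory.homologyFunctor A 0).obj K) :=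
  LinearEquiv.ofBijective
    { toFun := fun g => (toH0 P).hom ≫ (DerivedCategory.homologyFunctor A 0).map g
      map_add' := fun g g' => by
        rw [Functor.map_add, Preadditive.comp_add]
      map_smul' := fun r g => by
        rw [Functor.map_smul, Linear.comp_smul, RingHom.id_apply] }
    (proj_bijective P K)

end Linear

end Pool.Agent.Helper41
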