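import Mathlib

/-!
Euler form of a linear triangulated category, its additivity on distinguished triangles,
and mutation through an exceptional object.
-/

open CategoryTheory Limits Pretriangulated

set_option linter.unusedSectionVars false

universe v u

namespace Pool.Agent.Helper41

section Defs

variable {𝒟 : Type u} [Category.{v} 𝒟] [Preadditive 𝒟] [Linear ℂ 𝒟] [HasShift 𝒟 ℤ]

/-- The graded vector space `⨁ᵢ Hom(E, F[i])` is finite dimensional. -/
def FiniteHom (E F : 𝒟) : Prop :=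
  (∀ i : ℤ, Module.Finite ℂ (E ⟶ F⟦i⟧)) ∧ {i : ℤ | ¬ Subsingleton (E ⟶ F⟦i⟧)}.Finite

/-- The Euler form `χ(E,F) = ∑ᵢ (-1)ⁱ dim Hom(E, F[i])`. -/
noncomputable def chi (E F : 𝒟) : ℤ :=
  ∑ᶠ i : ℤ, (i.negOnePow : ℤ) * (Module.finrank ℂ (E ⟶ F⟦i⟧) : ℤ)

end Defs

section Aux

/-- Telescoping of an alternating sum. -/
lemma finsum_alt_shift (t : ℤ → ℤ) (ht : (Function.support t).Finite) :
    ∑ᶠ i : ℤ, (i.negOnePow : ℤ) * (t i + t (i + 1)) = 0 := by
  have h1 : (Function.support fun i : ℤ => (i.negOnePow : ℤ) * t i).Finite :=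
    ht.subset (by intro i hi h; simp_all)
  have h2 : (Function.support fun i : ℤ => (i.negOnePow : ℤ) * t (i + 1)).Finite := by
    have : (Function.support fun i : ℤ => t (i + 1)).Finite := by
      have := ht.preimage (f := fun i : ℤ => i + 1) (fun a _ b _ h => by simpa using h)
      exact this
    exact this.subset (by intro i hi h; simp_all)
  have h3 : ∑ᶠ i : ℤ, (i.negOnePow : ℤ) * t (i + 1) = - ∑ᶠ i : ℤ, (i.negOnePow : ℤ) * t i := by
    have := finsum_comp_equiv (Equiv.addRight (1 : ℤ)) (f := fun i : ℤ => (i.negOnePow : ℤ) * t i)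
    rw [← this, ← finsum_neg_distrib]
    apply finsum_congr
    intro i
    simp [Int.negOnePow_succ]
  simp only [mul_add]
  rw [finsum_add_distrib h1 h2, h3]
  ring

/-- Alternating sums of three families related by an exact rank relation. -/
lemma finsum_three (x y z t : ℤ → ℤ) (hx : (Function.support x).Finite)
    (hy : (Function.support y).Finite) (hz : (Function.support z).Finite)
    (ht : (Function.support t).Finite)
    (h : ∀ i, y i - z i + x (i + 1) = t i + t (i + 1)) :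
    ∑ᶠ i : ℤ, (i.negOnePow : ℤ) * y i =
      ∑ᶠ i : ℤ, (i.negOnePow : ℤ) * x i + ∑ᶠ i : ℤ, (i.negOnePow : ℤ) * z i := by
  have fin : ∀ (w : ℤ → ℤ), (Function.support w).Finite →
      (Function.support fun i : ℤ => (i.negOnePow : ℤ) * w i).Finite := fun w hw =>
    hw.subset (by intro i hi h; simp_all)
  have hx1 : (Function.support fun i : ℤ => x (i + 1)).Finite :=
    hx.preimage (f := fun i : ℤ => i + 1) (fun a _ b _ h => by simpa using h)
  have e1 := finsum_alt_shift t ht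
  simp only [← h] at e1
  have e2 : ∑ᶠ i : ℤ, (i.negOnePow : ℤ) * x (i + 1) = - ∑ᶠ i : ℤ, (i.negOnePow : ℤ) * x i := by
    have := finsum_comp_equiv (Equiv.addRight (1 : ℤ)) (f := fun i : ℤ => (i.negOnePow : ℤ) * x i)
    rw [← this, ← finsum_neg_distrib]
    apply finsum_congr
    intro i
    simp [Int.negOnePow_succ]
  have e3 : ∑ᶠ i : ℤ, (i.negOnePow : ℤ) * (y i - z i + x (i + 1)) =
      ∑ᶠ i : ℤ, (i.negOnePow : ℤ) * y i - ∑ᶠ i : ℤ, (i.negOnePow : ℤ) * z i
        + ∑ᶠ i : ℤ, (i.negOnePow : ℤ) * x (i + 1) := by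
    rw [← finsum_sub_distrib (fin y hy) (fin z hz), ← finsum_add_distrib _ (fin _ hx1)]
    · apply finsum_congr
      intro i
      ring
    · exact ((fin y hy).union (fin z hz)).subset (Function.support_sub _ _)
  rw [e1, e2] at e3
  linarith

end Aux

section Tri

variable {𝒟 : Type u} [Category.{v} 𝒟] [Preadditive 𝒟] [Linear ℂ 𝒟] [HasZeroObject 𝒟]
  [HasShift 𝒟 ℤ] [∀ n : ℤ, (shiftFunctor 𝒟 n).Additive]
  [∀ n : ℤ, Functor.Linear ℂ (shiftFunctor 𝒟 n)] [Pretriangulated 𝒟]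

/-- rank of postcomposition with `g⟦i⟧`. -/
noncomputable def postRank (E : 𝒟) {A B : 𝒟} (g : A ⟶ B) (i : ℤ) : ℕ :=
  Module.finrank ℂ (LinearMap.range (Linear.rightComp ℂ E (g⟦i⟧')))

/-- rank of precomposition with `g` on `Hom(-, F⟦i⟧)`. -/
noncomputable def preRank (F : 𝒟) {A B : 𝒟} (g : A ⟶ B) (i : ℤ) : ℕ :=
  Module.finrank ℂ (LinearMap.range (Linear.leftComp ℂ (F⟦i⟧) g))

lemma postRank_eq (E : 𝒟) (T : Triangle 𝒟) (hT : T ∈ distTriang 𝒟) (i : ℤ)
    [Module.Finite ℂ (E ⟶ T.obj₂⟦i⟧)] :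
    Module.finrank ℂ (E ⟶ T.obj₂⟦i⟧) = postRank E T.mor₁ i + postRank E T.mor₂ i := by
  have hker : LinearMap.ker (Linear.rightComp ℂ E (T.mor₂⟦i⟧')) =
      LinearMap.range (Linear.rightComp ℂ E (T.mor₁⟦i⟧')) := by
    ext f
    constructor
    · intro hf
      have hf' : f ≫ T.mor₂⟦i⟧' = 0 := hf
      have hT' := Triangle.shift_distinguished T hT i
      obtain ⟨g, hg⟩ : ∃ g : E ⟶ T.obj₁⟦i⟧, f = g ≫ (i.negOnePow • T.mor₁⟦i⟧') :=
        Triangle.coyoneda_exact₂ _ hT' f (by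
          change f ≫ (i.negOnePow • T.mor₂⟦i⟧') = 0
          rw [Linear.comp_units_smul, hf', smul_zero])
      refine ⟨i.negOnePow • g, ?_⟩
      change (i.negOnePow • g) ≫ T.mor₁⟦i⟧' = f
      rw [hg, Linear.comp_units_smul, Linear.units_smul_comp]
    · rintro ⟨g, rfl⟩
      change (g ≫ T.mor₁⟦i⟧') ≫ T.mor₂⟦i⟧' = 0
      rw [Category.assoc, ← Functor.map_comp, comp_distTriang_mor_zero₁₂ _ hT]
      simp
  have := (Linear.rightComp ℂ E (T.mor₂⟦i⟧')).finrank_range_add_finrank_ker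
  rw [hker] at this
  unfold postRank
  omega


lemma exact_post (E : 𝒟) (T : Triangle 𝒟) (hT : T ∈ distTriang 𝒟) (i : ℤ)
    (f : E ⟶ T.obj₂⟦i⟧) (hf : f ≫ T.mor₂⟦i⟧' = 0) : ∃ g : E ⟶ T.obj₁⟦i⟧, f = g ≫ T.mor₁⟦i⟧' := by
  obtain ⟨g, hg⟩ : ∃ g : E ⟶ T.obj₁⟦i⟧, f = g ≫ (i.negOnePow • T.mor₁⟦i⟧') :=
    Triangle.coyoneda_exact₂ _ (Triangle.shift_distinguished T hT i) f (by
      change f ≫ (i.negOnePow • T.mor₂⟦i⟧') = 0
      rw [Linear.comp_units_smul, hf, smul_zero])
  exact ⟨i.negOnePow • g, by rw [hg, Linear.comp_units_smul, Linear.units_smul_comp]⟩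

lemma postRank_neg (E : 𝒟) {A B : 𝒟} (g : A ⟶ B) (i : ℤ) :
    postRank E (-g) i = postRank E g i := by
  unfold postRank
  have : Linear.rightComp ℂ E ((-g)⟦i⟧') = - Linear.rightComp ℂ E (g⟦i⟧') := by
    ext f
    simp [Linear.rightComp, Functor.map_neg]
  rw [this, LinearMap.range_neg]

/-- `Hom(E, A[1][i]) = Hom(E, A[i+1])`. -/
noncomputable def shiftEquivPost (E A : 𝒟) (a i j : ℤ) (h : a + i = j) :
    (E ⟶ (A⟦a⟧)⟦i⟧) ≃ₗ[ℂ] (E ⟶ A⟦j⟧) :=
  Linear.homCongr ℂ (Iso.refl E) ((shiftFunctorAdd' 𝒟 a i j h).symm.app A)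

lemma postRank_shift (E : 𝒟) {A B : 𝒟} (g : A ⟶ B) (a i j : ℤ) (h : a + i = j) :
    postRank E (g⟦a⟧') i = postRank E g j := by
  unfold postRank
  have : (Linear.rightComp ℂ E (g⟦j⟧')) ∘ₗ (shiftEquivPost E A a i j h).toLinearMap =
      (shiftEquivPost E B a i j h).toLinearMap ∘ₗ Linear.rightComp ℂ E ((g⟦a⟧')⟦i⟧') := by
    ext f
    have := (shiftFunctorAdd' 𝒟 a i j h).inv.naturality g
    simp only [Functor.comp_map] at this
    simp [shiftEquivPost, Linear.rightComp, Linear.homCongr_apply, this]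
  have h1 : LinearMap.range (Linear.rightComp ℂ E (g⟦j⟧')) =
      (LinearMap.range (Linear.rightComp ℂ E ((g⟦a⟧')⟦i⟧'))).map
        (shiftEquivPost E B a i j h).toLinearMap := by
    rw [← LinearMap.range_comp, ← this, LinearMap.range_comp]
    simp
  rw [h1]
  exact (LinearEquiv.finrank_map_eq (shiftEquivPost E B a i j h) _).symm

lemma FiniteHom.shift_right {E A : 𝒟} (h : FiniteHom E A) (a : ℤ) : FiniteHom E (A⟦a⟧) := by
  refine ⟨fun i => ?_, ?_⟩
  · have := h.1 (a + i)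
    exact Module.Finite.equiv (shiftEquivPost E A a i _ rfl).symm
  · refine (h.2.preimage (f := fun i : ℤ => a + i) (fun a _ b _ h => by simpa using h)).subset ?_
    intro i hi hs
    exact hi ⟨fun x y => (shiftEquivPost E A a i _ rfl).injective (Subsingleton.elim _ _)⟩

lemma chi_shift_right (E A : 𝒟) (a : ℤ) : chi E (A⟦a⟧) = (a.negOnePow : ℤ) * chi E A := by
  unfold chi
  have key : ∀ x : ℤ → ℤ, (a.negOnePow : ℤ) * ∑ᶠ i, x i = ∑ᶠ i, (a.negOnePow : ℤ) * x i := by
    intro x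
    rcases Int.units_eq_one_or a.negOnePow with h | h
    · simp [h]
    · simp [h, finsum_neg_distrib]
  rw [key, ← finsum_comp_equiv (Equiv.addLeft a)
    (f := fun i => (a.negOnePow : ℤ) * ((i.negOnePow : ℤ) * (Module.finrank ℂ (E ⟶ A⟦i⟧) : ℤ)))]
  apply finsum_congr
  intro i
  rw [(shiftEquivPost E A a i _ rfl).finrank_eq]
  change _ = (a.negOnePow : ℤ) * (((a + i).negOnePow : ℤ) *
    (Module.finrank ℂ (E ⟶ A⟦a + i⟧) : ℤ))
  simp only [Int.negOnePow_add, Units.val_mul]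
  have h1 : (a.negOnePow : ℤ) * (a.negOnePow : ℤ) = 1 := by
    rw [← Units.val_mul]; simp
  calc (i.negOnePow : ℤ) * (Module.finrank ℂ (E ⟶ A⟦a + i⟧) : ℤ)
      = ((a.negOnePow : ℤ) * (a.negOnePow : ℤ)) * (i.negOnePow : ℤ) *
        (Module.finrank ℂ (E ⟶ A⟦a + i⟧) : ℤ) := by rw [h1]; ring
    _ = _ := by ring

lemma FiniteHom.of_tri (E : 𝒟) (T : Triangle 𝒟) (hT : T ∈ distTriang 𝒟)
    (h1 : FiniteHom E T.obj₁) (h3 : FiniteHom E T.obj₃) : FiniteHom E T.obj₂ := by
  refine ⟨fun i => ?_, ?_⟩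
  · have := h1.1 i
    have := h3.1 i
    have hker : LinearMap.ker (Linear.rightComp ℂ E (T.mor₂⟦i⟧')) ≤
        LinearMap.range (Linear.rightComp ℂ E (T.mor₁⟦i⟧')) := by
      intro f hf
      obtain ⟨g, hg⟩ := exact_post E T hT i f hf
      exact ⟨g, hg.symm⟩
    have f1 : Module.Finite ℂ (LinearMap.ker (Linear.rightComp ℂ E (T.mor₂⟦i⟧'))) :=
      Submodule.finiteDimensional_of_le hker
    have f2 : Module.Finite ℂ ((E ⟶ T.obj₂⟦i⟧) ⧸
        (LinearMap.ker (Linear.rightComp ℂ E (T.mor₂⟦i⟧')))) :=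
      Module.Finite.equiv (LinearMap.quotKerEquivRange (Linear.rightComp ℂ E (T.mor₂⟦i⟧'))).symm
    exact Module.Finite.of_submodule_quotient
      (LinearMap.ker (Linear.rightComp ℂ E (T.mor₂⟦i⟧')))
  · refine (h1.2.union h3.2).subset ?_
    intro i hi
    by_contra hcon
    simp only [Set.mem_union, Set.mem_ofPred_eq, not_or, not_not] at hcon
    obtain ⟨s1, s3⟩ := hcon
    apply hi
    refine subsingleton_of_forall_eq 0 fun f => ?_
    obtain ⟨g, hg⟩ := exact_post E T hT i f (Subsingleton.elim _ _)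
    rw [hg, Subsingleton.elim g 0, zero_comp]

lemma chi_tri_post (E : 𝒟) (T : Triangle 𝒟) (hT : T ∈ distTriang 𝒟)
    (h1 : FiniteHom E T.obj₁) (h2 : FiniteHom E T.obj₂) (h3 : FiniteHom E T.obj₃) :
    chi E T.obj₂ = chi E T.obj₁ + chi E T.obj₃ := by
  unfold chi
  apply finsum_three (fun i => (Module.finrank ℂ (E ⟶ T.obj₁⟦i⟧) : ℤ))
    (fun i => (Module.finrank ℂ (E ⟶ T.obj₂⟦i⟧) : ℤ))
    (fun i => (Module.finrank ℂ (E ⟶ T.obj₃⟦i⟧) : ℤ)) (fun i => (postRank E T.mor₁ i : ℤ))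
  · refine h1.2.subset ?_
    intro i hi hs
    exact hi (by simp [Module.finrank_zero_of_subsingleton])
  · refine h2.2.subset ?_
    intro i hi hs
    exact hi (by simp [Module.finrank_zero_of_subsingleton])
  · refine h3.2.subset ?_
    intro i hi hs
    exact hi (by simp [Module.finrank_zero_of_subsingleton])
  · refine h2.2.subset ?_
    intro i hi hs
    refine hi ?_
    have : Subsingleton (LinearMap.range (Linear.rightComp ℂ E (T.mor₁⟦i⟧'))) :=
      ⟨fun x y => Subtype.ext (Subsingleton.elim _ _)⟩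
    simp [postRank, Module.finrank_zero_of_subsingleton]
  · intro i
    have := h1.1 i
    have := h2.1 i
    have := h3.1 i
    have := h1.1 (i + 1)
    have e2 := postRank_eq E T hT i
    have : Module.Finite ℂ (E ⟶ T.rotate.obj₂⟦i⟧) := h3.1 i
    have e3 := postRank_eq E T.rotate (rot_of_distTriang _ hT) i
    have : Module.Finite ℂ (E ⟶ T.rotate.rotate.obj₂⟦i⟧) :=
      Module.Finite.equiv (shiftEquivPost E T.obj₁ 1 i (i + 1) (by ring)).symm
    have e1 := postRank_eq E T.rotate.rotate (rot_of_distTriang _ (rot_of_distTriang _ hT)) i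
    change Module.finrank ℂ (E ⟶ (T.obj₁⟦(1 : ℤ)⟧)⟦i⟧) =
      postRank E T.mor₃ i + postRank E (-T.mor₁⟦(1 : ℤ)⟧') i at e1
    rw [postRank_neg, postRank_shift E T.mor₁ 1 i (i + 1) (by ring),
      (shiftEquivPost E T.obj₁ 1 i (i + 1) (by ring)).finrank_eq] at e1
    change Module.finrank ℂ (E ⟶ T.obj₃⟦i⟧) = postRank E T.mor₂ i + postRank E T.mor₃ i at e3
    omega


lemma preRank_eq (F : 𝒟) (T : Triangle 𝒟) (hT : T ∈ distTriang 𝒟) (i : ℤ)
    [Module.Finite ℂ (T.obj₂ ⟶ F⟦i⟧)] :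
    Module.finrank ℂ (T.obj₂ ⟶ F⟦i⟧) = preRank F T.mor₁ i + preRank F T.mor₂ i := by
  have hker : LinearMap.ker (Linear.leftComp ℂ (F⟦i⟧) T.mor₁) =
      LinearMap.range (Linear.leftComp ℂ (F⟦i⟧) T.mor₂) := by
    ext f
    constructor
    · intro hf
      obtain ⟨g, hg⟩ := Triangle.yoneda_exact₂ _ hT f hf
      exact ⟨g, hg.symm⟩
    · rintro ⟨g, rfl⟩
      change T.mor₁ ≫ (T.mor₂ ≫ g) = 0
      rw [← Category.assoc, comp_distTriang_mor_zero₁₂ _ hT, zero_comp]
  have := (Linear.leftComp ℂ (F⟦i⟧) T.mor₁).finrank_range_add_finrank_ker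
  rw [hker] at this
  unfold preRank
  omega

lemma preRank_neg (F : 𝒟) {A B : 𝒟} (g : A ⟶ B) (i : ℤ) :
    preRank F (-g) i = preRank F g i := by
  unfold preRank
  have : Linear.leftComp ℂ (F⟦i⟧) (-g) = - Linear.leftComp ℂ (F⟦i⟧) g := by
    ext f
    simp [Linear.leftComp]
  rw [this, LinearMap.range_neg]

/-- `Hom(A[a], F[i]) = Hom(A, F[i-a])`. -/
noncomputable def shiftEquivPre (A F : 𝒟) (a i j : ℤ) (h : j + a = i) :
    (A ⟶ F⟦j⟧) ≃ₗ[ℂ] (A⟦a⟧ ⟶ F⟦i⟧) :=
  (LinearEquiv.ofBijective ((shiftFunctor 𝒟 a).mapLinearMap ℂ (X := A) (Y := F⟦j⟧))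
    ((Functor.FullyFaithful.ofFullyFaithful (shiftFunctor 𝒟 a)).map_bijective _ _)).trans
  (Linear.homCongr ℂ (Iso.refl (A⟦a⟧)) ((shiftFunctorAdd' 𝒟 j a i h).symm.app F))

lemma shiftEquivPre_apply (A F : 𝒟) (a i j : ℤ) (h : j + a = i) (f : A ⟶ F⟦j⟧) :
    shiftEquivPre A F a i j h f = f⟦a⟧' ≫ (shiftFunctorAdd' 𝒟 j a i h).inv.app F := by
  simp only [shiftEquivPre, LinearEquiv.trans_apply, Linear.homCongr_apply, Iso.refl_inv,
    Iso.app_hom, Category.id_comp]
  rfl

lemma preRank_shift (F : 𝒟) {A B : 𝒟} (g : A ⟶ B) (a i j : ℤ) (h : j + a = i) :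
    preRank F (g⟦a⟧') i = preRank F g j := by
  unfold preRank
  have : (Linear.leftComp ℂ (F⟦i⟧) (g⟦a⟧')) ∘ₗ (shiftEquivPre B F a i j h).toLinearMap =
      (shiftEquivPre A F a i j h).toLinearMap ∘ₗ Linear.leftComp ℂ (F⟦j⟧) g := by
    ext f
    simp [shiftEquivPre_apply, Linear.leftComp]
  have h1 : LinearMap.range (Linear.leftComp ℂ (F⟦i⟧) (g⟦a⟧')) =
      (LinearMap.range (Linear.leftComp ℂ (F⟦j⟧) g)).map
        (shiftEquivPre A F a i j h).toLinearMap := by
    rw [← LinearMap.range_comp, ← this, LinearMap.range_comp]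
    simp
  rw [h1]
  exact LinearEquiv.finrank_map_eq (shiftEquivPre A F a i j h) _

lemma FiniteHom.shift_left {A F : 𝒟} (h : FiniteHom A F) (a : ℤ) : FiniteHom (A⟦a⟧) F := by
  refine ⟨fun i => ?_, ?_⟩
  · have := h.1 (i - a)
    exact Module.Finite.equiv (shiftEquivPre A F a i (i - a) (by ring))
  · refine (h.2.preimage (f := fun i : ℤ => i - a) (fun a _ b _ h => by simpa using h)).subset ?_
    intro i hi hs
    exact hi ⟨fun x y => (shiftEquivPre A F a i (i - a) (by ring)).symm.injective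
      (Subsingleton.elim _ _)⟩

lemma chi_shift_left (A F : 𝒟) (a : ℤ) : chi (A⟦a⟧) F = (a.negOnePow : ℤ) * chi A F := by
  unfold chi
  have key : ∀ x : ℤ → ℤ, (a.negOnePow : ℤ) * ∑ᶠ i, x i = ∑ᶠ i, (a.negOnePow : ℤ) * x i := by
    intro x
    rcases Int.units_eq_one_or a.negOnePow with h | h
    · simp [h]
    · simp [h, finsum_neg_distrib]
  rw [key, ← finsum_comp_equiv (Equiv.subRight a)
    (f := fun i => (a.negOnePow : ℤ) * ((i.negOnePow : ℤ) * (Module.finrank ℂ (A ⟶ F⟦i⟧) : ℤ)))]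
  apply finsum_congr
  intro i
  rw [← (shiftEquivPre A F a i (i - a) (by ring)).finrank_eq]
  change _ = (a.negOnePow : ℤ) * (((i - a).negOnePow : ℤ) *
    (Module.finrank ℂ (A ⟶ F⟦i - a⟧) : ℤ))
  simp only [Int.negOnePow_sub, Units.val_mul]
  have h1 : (a.negOnePow : ℤ) * (a.negOnePow : ℤ) = 1 := by
    rw [← Units.val_mul]; simp
  calc (i.negOnePow : ℤ) * (Module.finrank ℂ (A ⟶ F⟦i - a⟧) : ℤ)
      = ((a.negOnePow : ℤ) * (a.negOnePow : ℤ)) * (i.negOnePow : ℤ) *
        (Module.finrank ℂ (A ⟶ F⟦i - a⟧) : ℤ) := by rw [h1]; ring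
    _ = _ := by ring

lemma FiniteHom.of_tri_left (F : 𝒟) (T : Triangle 𝒟) (hT : T ∈ distTriang 𝒟)
    (h1 : FiniteHom T.obj₁ F) (h3 : FiniteHom T.obj₃ F) : FiniteHom T.obj₂ F := by
  refine ⟨fun i => ?_, ?_⟩
  · have := h1.1 i
    have := h3.1 i
    have hker : LinearMap.ker (Linear.leftComp ℂ (F⟦i⟧) T.mor₁) ≤
        LinearMap.range (Linear.leftComp ℂ (F⟦i⟧) T.mor₂) := by
      intro f hf
      obtain ⟨g, hg⟩ := Triangle.yoneda_exact₂ _ hT f hf
      exact ⟨g, hg.symm⟩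
    have f1 : Module.Finite ℂ (LinearMap.ker (Linear.leftComp ℂ (F⟦i⟧) T.mor₁)) :=
      Submodule.finiteDimensional_of_le hker
    have f2 : Module.Finite ℂ ((T.obj₂ ⟶ F⟦i⟧) ⧸
        (LinearMap.ker (Linear.leftComp ℂ (F⟦i⟧) T.mor₁))) :=
      Module.Finite.equiv (LinearMap.quotKerEquivRange (Linear.leftComp ℂ (F⟦i⟧) T.mor₁)).symm
    exact Module.Finite.of_submodule_quotient
      (LinearMap.ker (Linear.leftComp ℂ (F⟦i⟧) T.mor₁))
  · refine (h1.2.union h3.2).subset ?_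
    intro i hi
    by_contra hcon
    simp only [Set.mem_union, Set.mem_ofPred_eq, not_or, not_not] at hcon
    obtain ⟨s1, s3⟩ := hcon
    apply hi
    refine subsingleton_of_forall_eq 0 fun f => ?_
    obtain ⟨g, hg⟩ := Triangle.yoneda_exact₂ _ hT f (Subsingleton.elim _ _)
    rw [hg, Subsingleton.elim g 0, comp_zero]

lemma chi_tri_pre (F : 𝒟) (T : Triangle 𝒟) (hT : T ∈ distTriang 𝒟)
    (h1 : FiniteHom T.obj₁ F) (h2 : FiniteHom T.obj₂ F) (h3 : FiniteHom T.obj₃ F) :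
    chi T.obj₂ F = chi T.obj₁ F + chi T.obj₃ F := by
  unfold chi
  rw [add_comm]
  apply finsum_three (fun i => (Module.finrank ℂ (T.obj₃ ⟶ F⟦i⟧) : ℤ))
    (fun i => (Module.finrank ℂ (T.obj₂ ⟶ F⟦i⟧) : ℤ))
    (fun i => (Module.finrank ℂ (T.obj₁ ⟶ F⟦i⟧) : ℤ)) (fun i => (preRank F T.mor₂ i : ℤ))
  · refine h3.2.subset ?_
    intro i hi hs
    exact hi (by simp [Module.finrank_zero_of_subsingleton])
  · refine h2.2.subset ?_
    intro i hi hs
    exact hi (by simp [Module.finrank_zero_of_subsingleton])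
  · refine h1.2.subset ?_
    intro i hi hs
    exact hi (by simp [Module.finrank_zero_of_subsingleton])
  · refine h2.2.subset ?_
    intro i hi hs
    refine hi ?_
    have : Subsingleton (LinearMap.range (Linear.leftComp ℂ (F⟦i⟧) T.mor₂)) :=
      ⟨fun x y => Subtype.ext (Subsingleton.elim _ _)⟩
    simp [preRank, Module.finrank_zero_of_subsingleton]
  · intro i
    have := h1.1 i
    have := h2.1 i
    have := h3.1 i
    have := h3.1 (i + 1)
    have e2 := preRank_eq F T hT i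
    have : Module.Finite ℂ (T.rotate.obj₂ ⟶ F⟦i + 1⟧) := h3.1 (i + 1)
    have e3 := preRank_eq F T.rotate (rot_of_distTriang _ hT) (i + 1)
    have : Module.Finite ℂ (T.rotate.rotate.obj₂ ⟶ F⟦i + 1⟧) :=
      Module.Finite.equiv (shiftEquivPre T.obj₁ F 1 (i + 1) i (by ring))
    have e1 := preRank_eq F T.rotate.rotate (rot_of_distTriang _ (rot_of_distTriang _ hT)) (i + 1)
    change Module.finrank ℂ (T.obj₁⟦(1 : ℤ)⟧ ⟶ F⟦i + 1⟧) =
      preRank F T.mor₃ (i + 1) + preRank F (-T.mor₁⟦(1 : ℤ)⟧') (i + 1) at e1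
    rw [preRank_neg, preRank_shift F T.mor₁ 1 (i + 1) i (by ring),
      ← (shiftEquivPre T.obj₁ F 1 (i + 1) i (by ring)).finrank_eq] at e1
    change Module.finrank ℂ (T.obj₃ ⟶ F⟦i + 1⟧) =
      preRank F T.mor₂ (i + 1) + preRank F T.mor₃ (i + 1) at e3
    omega


/-- `O` is an exceptional object. -/
def IsExceptional (O : 𝒟) : Prop :=
  Module.finrank ℂ (O ⟶ O) = 1 ∧ ∀ i : ℤ, i ≠ 0 → Subsingleton (O ⟶ O⟦i⟧)

/-- The right orthogonal `O^⊥ = {E | Hom(O, E[i]) = 0 for all i}`. -/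
def perp (O : 𝒟) : ObjectProperty 𝒟 := fun E => ∀ (i : ℤ) (f : O ⟶ E⟦i⟧), f = 0

lemma IsExceptional.finrank {O : 𝒟} (hO : IsExceptional O) (i : ℤ) :
    Module.finrank ℂ (O ⟶ O⟦i⟧) = if i = 0 then 1 else 0 := by
  split_ifs with h
  · subst h
    rw [← hO.1]
    exact (Linear.homCongr ℂ (Iso.refl O) ((shiftFunctorZero 𝒟 ℤ).app O)).finrank_eq
  · have := hO.2 i h
    exact Module.finrank_zero_of_subsingleton

lemma IsExceptional.finiteHom {O : 𝒟} (hO : IsExceptional O) : FiniteHom O O := by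
  refine ⟨fun i => ?_, ?_⟩
  · by_cases h : i = 0
    · exact Module.finite_of_finrank_pos (by rw [hO.finrank, if_pos h]; exact one_pos)
    · have := hO.2 i h
      infer_instance
  · refine (Set.finite_singleton (0 : ℤ)).subset ?_
    intro i hi
    by_contra h
    exact hi (hO.2 i h)

lemma IsExceptional.chi {O : 𝒟} (hO : IsExceptional O) : chi O O = 1 := by
  unfold Helper41.chi
  rw [finsum_eq_single _ (0 : ℤ)]
  · simp [hO.finrank]
  · intro i hi
    simp [hO.finrank, hi]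

lemma exists_mutation_aux (O : 𝒟) (hO : IsExceptional O) (n : ℕ) :
    ∀ E : 𝒟, FiniteHom O E → ∑ᶠ i : ℤ, Module.finrank ℂ (O ⟶ E⟦i⟧) = n →
      ∃ (W : 𝒟) (η : E ⟶ W), perp O W ∧
        (∀ F : 𝒟, perp O F → Function.Bijective (fun g : W ⟶ F => η ≫ g)) ∧ ∀ F : 𝒟,
        (FiniteHom F E → FiniteHom F O →
          FiniteHom F W ∧ chi F W = chi F E - chi O E * chi F O) ∧
        (FiniteHom E F → FiniteHom O F →
          FiniteHom W F ∧ chi W F = chi E F - chi O E * chi O F) := by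
  induction n with
  | zero =>
    intro E hE hn
    have hfs : (Function.support fun i : ℤ => Module.finrank ℂ (O ⟶ E⟦i⟧)).Finite :=
      hE.2.subset (by intro i hi hs; exact hi (by simp [Module.finrank_zero_of_subsingleton]))
    have hz : ∀ i : ℤ, Module.finrank ℂ (O ⟶ E⟦i⟧) = 0 := by
      intro i
      have := single_le_finsum i hfs (fun j => Nat.zero_le _)
      omega
    have hs : ∀ i : ℤ, Subsingleton (O ⟶ E⟦i⟧) := by
      intro i
      have := hE.1 i
      exact Module.finrank_zero_iff.mp (hz i)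
    have hchi : chi O E = 0 := by
      unfold chi
      simp [hz]
    refine ⟨E, 𝟙 E, fun i f => Subsingleton.elim _ _, fun F _ => ?_,
      fun F => ⟨fun h1 _ => ⟨h1, by simp [hchi]⟩, fun h1 _ => ⟨h1, by simp [hchi]⟩⟩⟩
    simp only [Category.id_comp]
    exact Function.bijective_id
  | succ n ih =>
    intro E hE hn
    have hfs : (Function.support fun i : ℤ => Module.finrank ℂ (O ⟶ E⟦i⟧)).Finite :=
      hE.2.subset (by intro i hi hs; exact hi (by simp [Module.finrank_zero_of_subsingleton]))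
    obtain ⟨i, hi⟩ : ∃ i : ℤ, Module.finrank ℂ (O ⟶ E⟦i⟧) ≠ 0 := by
      by_contra hcon
      push Not at hcon
      rw [finsum_congr hcon, finsum_zero] at hn
      omega
    obtain ⟨f, hf⟩ : ∃ f : O ⟶ E⟦i⟧, f ≠ 0 := by
      by_contra hcon
      push Not at hcon
      have : Subsingleton (O ⟶ E⟦i⟧) := subsingleton_of_forall_eq 0 hcon
      exact hi Module.finrank_zero_of_subsingleton
    let h0 : O ≅ (O⟦-i⟧)⟦i⟧ := (shiftFunctorCompIsoId 𝒟 (-i) i (by ring)).symm.app O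
    obtain ⟨g, hg⟩ := (shiftFunctor 𝒟 i).map_surjective (h0.inv ≫ f)
    obtain ⟨E', a, b, hT⟩ := distinguished_cocone_triangle g
    have hOO := hO.finiteHom
    have hO1 : FiniteHom O (O⟦-i⟧) := hOO.shift_right _
    have hE' : FiniteHom O E' :=
      FiniteHom.of_tri O _ (rot_of_distTriang _ hT) hE (hO1.shift_right 1)
    -- rank computation
    have hd1 : ∀ j : ℤ, Module.finrank ℂ (O ⟶ (O⟦-i⟧)⟦j⟧) = if j = i then 1 else 0 := by
      intro j
      rw [(shiftEquivPost O O (-i) j (-i + j) rfl).finrank_eq, hO.finrank]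
      congr 1
      apply propext
      omega
    have hr : ∀ j : ℤ, postRank O g j = if j = i then 1 else 0 := by
      intro j
      have hle : postRank O g j ≤ Module.finrank ℂ (O ⟶ (O⟦-i⟧)⟦j⟧) := by
        have := hO1.1 j
        exact LinearMap.finrank_range_le _
      rw [hd1] at hle
      split_ifs with h
      · subst h
        rw [if_pos rfl] at hle
        refine le_antisymm hle ?_
        have := hE.1 j
        refine Nat.one_le_iff_ne_zero.mpr ?_
        intro h1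
        have h2 := Submodule.finrank_eq_zero.mp h1
        have h3 : f ∈ LinearMap.range (Linear.rightComp ℂ O (g⟦j⟧')) := by
          refine ⟨h0.hom, ?_⟩
          change h0.hom ≫ g⟦j⟧' = f
          rw [hg]
          simp
        rw [h2] at h3
        exact hf (by simpa using h3)
      · rw [if_neg h] at hle
        omega
    have hdim : ∀ j : ℤ, Module.finrank ℂ (O ⟶ E⟦j⟧) =
        Module.finrank ℂ (O ⟶ E'⟦j⟧) + if j = i then 1 else 0 := by
      intro j
      have i2 := hE.1 j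
      have i3 := hE'.1 j
      have i1 := hO1.1 (j + 1)
      have : Module.Finite ℂ (O ⟶ (Triangle.mk g a b).obj₂⟦j⟧) := i2
      have e2 := postRank_eq O _ hT j
      have : Module.Finite ℂ (O ⟶ (Triangle.mk g a b).rotate.obj₂⟦j⟧) := i3
      have e3 := postRank_eq O _ (rot_of_distTriang _ hT) j
      have : Module.Finite ℂ (O ⟶ (Triangle.mk g a b).rotate.rotate.obj₂⟦j⟧) :=
        Module.Finite.equiv (shiftEquivPost O (O⟦-i⟧) 1 j (j + 1) (by ring)).symm
      have e1 := postRank_eq O _ (rot_of_distTriang _ (rot_of_distTriang _ hT)) j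
      change Module.finrank ℂ (O ⟶ ((O⟦-i⟧)⟦(1 : ℤ)⟧)⟦j⟧) =
        postRank O b j + postRank O (-g⟦(1 : ℤ)⟧') j at e1
      rw [postRank_neg, postRank_shift O g 1 j (j + 1) (by ring),
        (shiftEquivPost O (O⟦-i⟧) 1 j (j + 1) (by ring)).finrank_eq, hd1, hr] at e1
      change Module.finrank ℂ (O ⟶ E'⟦j⟧) = postRank O a j + postRank O b j at e3
      change Module.finrank ℂ (O ⟶ E⟦j⟧) = postRank O g j + postRank O a j at e2
      rw [hr] at e2
      omega
    have hfs' : (Function.support fun i : ℤ => Module.finrank ℂ (O ⟶ E'⟦i⟧)).Finite :=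
      hE'.2.subset (by intro i hi hs; exact hi (by simp [Module.finrank_zero_of_subsingleton]))
    have hn' : ∑ᶠ j : ℤ, Module.finrank ℂ (O ⟶ E'⟦j⟧) = n := by
      rw [finsum_congr hdim, finsum_add_distrib hfs'] at hn
      · rw [finsum_eq_single (fun j : ℤ => if j = i then 1 else 0) i
          (by intro j hj; simp [hj])] at hn
        simpa using hn
      · refine (Set.finite_singleton i).subset ?_
        intro j hj
        by_contra h
        exact hj (by simp [show j ≠ i from h])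
    obtain ⟨W, η, hW, hη, hWF⟩ := ih E' hE' hn'
    have hs2 : ((-i).negOnePow : ℤ) * ((-i).negOnePow : ℤ) = 1 := by
      rw [← Units.val_mul]; simp
    have c3 : chi O E' = chi O E - ((-i).negOnePow : ℤ) := by
      have := chi_tri_post O _ hT hO1 hE hE'
      change chi O E = chi O (O⟦-i⟧) + chi O E' at this
      rw [chi_shift_right, hO.chi] at this
      linarith
    refine ⟨W, a ≫ η, hW, fun F hF => ?_, fun F => ⟨fun h1 h2 => ?_, fun h1 h2 => ?_⟩⟩
    · have hz : ∀ (k : ℤ) (x : O⟦k⟧ ⟶ F), x = 0 := by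
        intro k x
        obtain ⟨y, hy⟩ : ∃ y : O ⟶ F⟦-k⟧,
            shiftEquivPre O F k 0 (-k) (by ring) y ≫ (shiftFunctorZero 𝒟 ℤ).hom.app F = x := by
          obtain ⟨y, hy⟩ := (shiftEquivPre O F k 0 (-k) (by ring)).surjective
            (x ≫ (shiftFunctorZero 𝒟 ℤ).inv.app F)
          exact ⟨y, by rw [hy]; simp⟩
        rw [← hy, hF (-k) y, map_zero, zero_comp]
      have hcomp : (fun g : W ⟶ F => (a ≫ η) ≫ g) = (fun g : E' ⟶ F => a ≫ g) ∘
          (fun g : W ⟶ F => η ≫ g) := by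
        funext g
        simp
      rw [hcomp]
      refine Function.Bijective.comp ⟨?_, ?_⟩ (hη F hF)
      · intro x y hxy
        have h1 : a ≫ (x - y) = 0 := by
          rw [Preadditive.comp_sub]
          exact sub_eq_zero.mpr hxy
        obtain ⟨z, hz'⟩ : ∃ z : (O⟦-i⟧)⟦(1 : ℤ)⟧ ⟶ F, x - y = b ≫ z :=
          Triangle.yoneda_exact₃ _ hT (x - y) h1
        have hzz : z = 0 := by
          let e : O⟦-i + 1⟧ ≅ (O⟦-i⟧)⟦(1 : ℤ)⟧ := (shiftFunctorAdd' 𝒟 (-i) 1 (-i + 1) rfl).app O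
          have h := hz _ (e.hom ≫ z)
          exact (cancel_epi e.hom).mp (by rw [h, comp_zero])
        rw [hzz, comp_zero] at hz'
        exact sub_eq_zero.mp hz'
      · intro x
        obtain ⟨y, hy⟩ := Triangle.yoneda_exact₂ _ hT x (hz _ _)
        exact ⟨y, hy.symm⟩
    · have h3 : FiniteHom F E' :=
        FiniteHom.of_tri F _ (rot_of_distTriang _ hT) h1 ((h2.shift_right _).shift_right 1)
      obtain ⟨k1, k2⟩ := (hWF F).1 h3 h2
      refine ⟨k1, ?_⟩
      have := chi_tri_post F _ hT (h2.shift_right (-i)) h1 h3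
      change chi F E = chi F (O⟦-i⟧) + chi F E' at this
      rw [chi_shift_right] at this
      rw [k2, c3]
      linear_combination -this
    · have h3 : FiniteHom E' F :=
        FiniteHom.of_tri_left F _ (rot_of_distTriang _ hT) h1 ((h2.shift_left _).shift_left 1)
      obtain ⟨k1, k2⟩ := (hWF F).2 h3 h2
      refine ⟨k1, ?_⟩
      have := chi_tri_pre F _ hT (h2.shift_left (-i)) h1 h3
      change chi E F = chi (O⟦-i⟧) F + chi E' F at this
      rw [chi_shift_left] at this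
      rw [k2, c3]
      linear_combination -this

/-- Left mutation through an exceptional object, at the level of the Euler form. -/
lemma exists_mutation (O : 𝒟) (hO : IsExceptional O) (E : 𝒟) (hE : FiniteHom O E) :
    ∃ (W : 𝒟) (η : E ⟶ W), perp O W ∧
      (∀ F : 𝒟, perp O F → Function.Bijective (fun g : W ⟶ F => η ≫ g)) ∧ ∀ F : 𝒟,
      (FiniteHom F E → FiniteHom F O →
        FiniteHom F W ∧ chi F W = chi F E - chi O E * chi F O) ∧
      (FiniteHom E F → FiniteHom O F →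
        FiniteHom W F ∧ chi W F = chi E F - chi O E * chi O F) :=
  exists_mutation_aux O hO _ E hE rfl

end Tri

end Pool.Agent.Helper41
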