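import Mathlib
import Pool.Agent.Helper41.EulerForm

/-!
Definitions: Serre functors, Bridgeland stability conditions, Serre-invariance, the
Kuznetsov component `O^⊥`, and the tilt central charge `Z_{s,q}` on a quartic threefold.
-/

open CategoryTheory Limits Pretriangulated ZeroObject

set_option linter.unusedSectionVars false

universe v u

namespace Pool.Agent.Helper41

section General

variable (𝒞 : Type u) [Category.{v} 𝒞] [Preadditive 𝒞] [Linear ℂ 𝒞]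

/-- A Serre functor on a `ℂ`-linear category: an autoequivalence `S` with natural
isomorphisms `Hom(A, B) ≅ Hom(B, S A)^*`. -/
structure SerreFunctor where
  /-- the functor -/
  S : 𝒞 ⥤ 𝒞
  isEquivalence : S.IsEquivalence
  /-- the duality isomorphisms -/
  pairing : ∀ A B : 𝒞, (A ⟶ B) ≃ₗ[ℂ] Module.Dual ℂ (B ⟶ S.obj A)
  natural : ∀ {A A' B B' : 𝒞} (a : A' ⟶ A) (b : B ⟶ B') (f : A ⟶ B) (g : B' ⟶ S.obj A'),
    pairing A' B' (a ≫ f ≫ b) g = pairing A B f (b ≫ g ≫ S.map a)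

variable [HasZeroObject 𝒞] [HasShift 𝒞 ℤ] [∀ n : ℤ, (shiftFunctor 𝒞 n).Additive]
  [Pretriangulated 𝒞]

variable {𝒞} in
/-- `HN P E φ`: the object `E` has a Harder–Narasimhan filtration with respect to the family
`P` of subcategories, with strictly decreasing phases of which `φ` is the last (smallest). -/
inductive HN (P : ℝ → ObjectProperty 𝒞) : 𝒞 → ℝ → Prop
  | single {E : 𝒞} {φ : ℝ} (h : P φ E) (h0 : ¬ IsZero E) : HN P E φ
  | extend {T : Triangle 𝒞} (hT : T ∈ distTriang 𝒞) {ψ φ : ℝ} (h1 : HN P T.obj₁ ψ)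
      (hlt : φ < ψ) (h3 : P φ T.obj₃) (h0 : ¬ IsZero T.obj₃) : HN P T.obj₂ φ

/-- A Bridgeland stability condition (slicing `P`, central charge `Z`) on a `ℂ`-linear
triangulated category, with respect to the numerical Grothendieck group: `Z` is additive on
triangles and only depends on the numerical class, and the support property holds. -/
structure StabilityCondition where
  /-- the semistable objects of phase `φ` -/
  P : ℝ → ObjectProperty 𝒞
  /-- the central charge -/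
  Z : 𝒞 → ℂ
  Z_triangle : ∀ T ∈ distTriang 𝒞, Z T.obj₂ = Z T.obj₁ + Z T.obj₃
  Z_numerical : ∀ E F : 𝒞, (∀ G : 𝒞, chi G E = chi G F) → Z E = Z F
  P_iso : ∀ φ, (P φ).IsClosedUnderIsomorphisms
  P_zero : ∀ φ, (P φ) 0
  P_sum : ∀ φ E F, P φ E → P φ F → P φ (E ⊞ F)
  P_shift : ∀ φ E, P (φ + 1) (E⟦(1 : ℤ)⟧) ↔ P φ E
  hom_zero : ∀ φ ψ, ψ < φ → ∀ E F, P φ E → P ψ F → ∀ f : E ⟶ F, f = 0
  Z_phase : ∀ φ E, P φ E → ¬ IsZero E →
    ∃ m : ℝ, 0 < m ∧ Z E = m * Complex.exp (Real.pi * φ * Complex.I)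
  exists_HN : ∀ E : 𝒞, ¬ IsZero E → ∃ φ, HN P E φ
  support : ∀ G : 𝒞, ∃ C : ℝ, ∀ φ E, P φ E → |(chi G E : ℝ)| ≤ C * ‖Z E‖

/-- An element `(g, f)` of the universal cover of `GL₂⁺(ℝ)`: `g` is an invertible real-linear
map of `ℂ = ℝ²`, `f : ℝ → ℝ` is increasing with `f(φ+1) = f(φ)+1`, and they induce the same
map on the circle of directions. -/
structure GLCover where
  /-- the linear map -/
  g : ℂ ≃ₗ[ℝ] ℂ
  /-- the lift to the line of phases -/
  f : ℝ ≃o ℝ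
  f_add_one : ∀ φ, f (φ + 1) = f φ + 1
  compat : ∀ φ : ℝ, ∃ m : ℝ, 0 < m ∧
    g (Complex.exp (Real.pi * φ * Complex.I)) = m * Complex.exp (Real.pi * (f φ : ℝ) * Complex.I)

variable {𝒞} in
/-- `S · σ = σ · (g, f)` for some `(g, f)` in the universal cover of `GL₂⁺(ℝ)`. Here
`S · (P, Z) = (S(P(φ)), Z ∘ S⁻¹)` and `(P, Z) · (g, f) = (P(f(φ)), g⁻¹ ∘ Z)`; the two
conditions say `S(P(φ)) = P(f(φ))` and `Z ∘ S⁻¹ = g⁻¹ ∘ Z`. -/
def IsSerreInvariant (S : SerreFunctor 𝒞) (σ : StabilityCondition 𝒞) : Prop :=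
  ∃ γ : GLCover, (∀ φ E, σ.P (γ.f φ) (S.S.obj E) ↔ σ.P φ E) ∧
    ∀ E, σ.Z (S.S.obj E) = γ.g (σ.Z E)

end General

section Quartic

variable {𝒟 : Type u} [Category.{v} 𝒟] [Preadditive 𝒟] [Linear ℂ 𝒟] [HasZeroObject 𝒟]
  [HasShift 𝒟 ℤ] [∀ n : ℤ, (shiftFunctor 𝒟 n).Additive]
  [∀ n : ℤ, Functor.Linear ℂ (shiftFunctor 𝒟 n)] [Pretriangulated 𝒟]

instance perp_iso (O : 𝒟) : (perp O).IsClosedUnderIsomorphisms where
  of_iso {X Y} e hX := by
    intro i f
    have := hX i (f ≫ e.inv⟦i⟧')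
    have h2 : (f ≫ e.inv⟦i⟧') ≫ e.hom⟦i⟧' = f := by
      rw [Category.assoc, ← Functor.map_comp]; simp
    rw [← h2, this, zero_comp]

instance perp_triangulated (O : 𝒟) : (perp O).IsTriangulated where
  exists_zero := ⟨0, isZero_zero _, fun i f => by
    apply (Functor.map_isZero (shiftFunctor 𝒟 i) (isZero_zero 𝒟)).eq_of_tgt⟩
  isStableUnderShiftBy n := ⟨fun X hX i f => by
    have h := hX (n + i) ((shiftEquivPost O X n i _ rfl) f)
    simpa using h⟩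
  toIsTriangulatedClosed₂ := .mk' (fun T hT h₁ h₃ i f => by
    obtain ⟨g, hg⟩ := exact_post O T hT i f (h₃ i _)
    rw [hg, h₁ i g, zero_comp])

/-- The Kuznetsov component `Ku = 𝒪^⊥`, where `L n` plays the role of `𝒪_X(n)`. -/
abbrev Ku (L : ℤ → 𝒟) : Type u := (perp (L 0)).FullSubcategory

/-- The Hilbert polynomial `C(n+4,4) - C(n,4)` of a quartic threefold in `ℙ⁴`
(`Ring.choose` is the polynomial binomial coefficient on `ℤ`). -/
def hilb (n : ℤ) : ℤ := Ring.choose (n + 4) 4 - Ring.choose n 4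

/-- The objects `L n` (think of `𝒪_X(n)`) have finite-dimensional total Hom spaces,
`χ(L m, L n)` is the Hilbert polynomial of a quartic threefold at `n - m`, and `L 0` is
exceptional. This holds for `L n = 𝒪_X(n)` in `D^b(X)`, `X` a smooth quartic threefold. -/
structure IsQuarticSystem (L : ℤ → 𝒟) : Prop where
  finite : ∀ m n, FiniteHom (L m) (L n)
  chi_eq : ∀ m n, chi (L m) (L n) = hilb (n - m)
  exceptional : IsExceptional (L 0)

/-- `h = (H³·ch₀, H²·ch₁, H·ch₂, ch₃)(E)`, characterised by Hirzebruch–Riemann–Roch on a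
quartic threefold (`td = 1 + H/2 + 7H²/12 + pt`, `H³ = 4`) applied to all twists `E(n)`,
with `χ(E(n)) = χ(𝒪(-n), E)`. -/
def HasChernNumbers (L : ℤ → 𝒟) (E : 𝒟) (h : Fin 4 → ℝ) : Prop :=
  ∀ n : ℤ, FiniteHom (L (-n)) E ∧ (chi (L (-n)) E : ℝ) =
    h 0 * ((n : ℝ) ^ 3 / 6 + (n : ℝ) ^ 2 / 4 + 7 * (n : ℝ) / 12 + 1 / 4) +
    h 1 * ((n : ℝ) ^ 2 / 2 + (n : ℝ) / 2 + 7 / 12) + h 2 * ((n : ℝ) + 1 / 2) + h 3

/-- `Z_{s,q} = -(H·ch₂ - q H³·ch₀) + i (H²·ch₁ - s H³·ch₀)`. -/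
noncomputable def tiltCharge (s q : ℝ) (h : Fin 4 → ℝ) : ℂ :=
  ((-(h 2 - q * h 0) : ℝ) : ℂ) + ((h 1 - s * h 0 : ℝ) : ℂ) * Complex.I

/-- The unit vector `u` in the upper half plane with `μ = - Re u / Im u`; the rotated central
charge is `Z^μ = Z / u`. -/
noncomputable def unitOfSlope (μ : ℝ) : ℂ := (-(μ : ℂ) + Complex.I) / (Real.sqrt (μ ^ 2 + 1) : ℝ)

/-- The stability condition `σ` on `Ku` has central charge `Z^μ_{s,q}` restricted to `Ku`. -/
def HasTiltCharge (L : ℤ → 𝒟) (s q μ : ℝ) (σ : StabilityCondition (Ku L)) : Prop :=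
  ∀ (E : Ku L) (h : Fin 4 → ℝ), HasChernNumbers L E.obj h →
    σ.Z E = tiltCharge s q h / unitOfSlope μ

end Quartic

end Pool.Agent.Helper41
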