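import Mathlib
import Pool.Agent.Helper41.Pattern
import Pool.Agent.Helper41.ProjHom
import Pool.Agent.Helper41.SerreDefs

/-!
Comparison of the derived categories of `QGr(S/f)` and `QGr(S)`.
-/

open CategoryTheory Limits ZeroObject Pretriangulated

set_option linter.unusedSectionVars false

universe w₁ w₂ w₃ w₄ v₁ v₂ u₁ u₂

namespace Pool.Agent.Helper41

lemma killedBy_zero (M : GrS) : KilledBy 0 M := by
  intro a b
  simp [act]

/-- graded `S`-modules, as modules over `S/(0)` -/
noncomputable def toG (M : GrS) : Gr 0 := ⟨M, killedBy_zero M⟩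

/-- the inclusion of graded `S/f`-modules in graded `S`-modules -/
noncomputable def jmap (f : MvPolynomial (Fin 5) ℂ) : Gr f ⥤ Gr 0 :=
  (KilledBy 0).lift (inc f) fun M => killedBy_zero M.obj

variable (f : MvPolynomial (Fin 5) ℂ)

instance : PreservesFiniteLimits (jmap f) := by
  have : PreservesFiniteLimits (jmap f ⋙ inc 0) :=
    inferInstanceAs (PreservesFiniteLimits (inc f))
  exact ⟨fun J _ _ => preservesLimitsOfShape_of_reflects_of_preserves (jmap f) (inc 0)⟩

instance : PreservesFiniteColimits (jmap f) := by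
  have : PreservesFiniteColimits (jmap f ⋙ inc 0) :=
    inferInstanceAs (PreservesFiniteColimits (inc f))
  exact ⟨fun J _ _ => preservesColimitsOfShape_of_reflects_of_preserves (jmap f) (inc 0)⟩

instance : (jmap f).Additive := by
  have := preservesBinaryBiproducts_of_preservesBinaryProducts (jmap f)
  exact Functor.additive_of_preservesBinaryBiproducts _

lemma isIso_app_of_iso {C D : Type*} [Category* C] [Category* D] {F G : C ⥤ D} (α : F ⟶ G)
    {X Y : C} (e : X ≅ Y) (h : IsIso (α.app X)) : IsIso (α.app Y) := by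
  have : α.app Y = F.map e.inv ≫ α.app X ≫ G.map e.hom := by
    rw [← α.naturality, ← F.map_comp_assoc]
    simp
  rw [this]
  infer_instance

lemma isIso_unitG_of_local (j : Fin 5) (M : Gr f) (h : XLocal j M.obj) :
    IsIso ((unitG f j).app M) := by
  have h1 := isIso_unitF_of_local f j M h
  unfold unitG
  rw [NatTrans.comp_app]
  infer_instance

variable [HasDerivedCategory.{w₁} (Gr f)] [HasDerivedCategory.{w₂} (QGr f)]
  [HasDerivedCategory.{w₃} (Gr 0)] [HasDerivedCategory.{w₄} (QGr 0)]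

/-- objects which are nice both for `S/f` and for `S` -/
def BiNice (N : DerivedCategory (Gr f)) : Prop :=
  Nice (proj f).mapDerivedCategory N ∧
    Nice (proj 0).mapDerivedCategory ((jmap f).mapDerivedCategory.obj N)

lemma biNice_loc (i : Fin 5) (X : DerivedCategory (Gr f)) :
    BiNice f ((locQ f i).mapDerivedCategory.obj ((proj f).mapDerivedCategory.obj X)) := by
  refine ⟨(locFamily f).nice_loc i X, ?_⟩
  apply (locFamily 0).nice i
  let K := DerivedCategory.Q.objPreimage X
  let e : DerivedCategory.Q.obj K ≅ X := DerivedCategory.Q.objObjPreimageIso X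
  refine isIso_dUnit_of_iso (unitG 0 i) (X := DerivedCategory.Q.obj ((cMap (jmap f)).obj
    ((cMap (locQ f i)).obj ((cMap (proj f)).obj K)))) ?_ ?_
  · exact ((jmap f).mapDerivedCategoryFactors.app _).symm ≪≫
      (jmap f).mapDerivedCategory.mapIso ((dCompIso (proj f) (locQ f i) K).symm ≪≫
        (locQ f i).mapDerivedCategory.mapIso ((proj f).mapDerivedCategory.mapIso e))
  · refine isIso_dUnit_Q (unitG 0 i) _ fun n => ?_
    refine isIso_app_of_iso (unitG 0 i) (X := (jmap f).obj ((LocF f i).obj (K.X n)))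
      ((jmap f).mapIso ((locQIso f i).app (K.X n)).symm) ?_
    exact isIso_unitG_of_local 0 i _ (xLocal_loc i (K.X n).obj)

lemma exists_biNice (X : DerivedCategory (Gr f)) :
    ∃ (N : DerivedCategory (Gr f)) (u : X ⟶ N),
      IsIso ((proj f).mapDerivedCategory.map u) ∧ BiNice f N :=
  (locFamily f).exists_nice (BiNice f)
    ⟨Nice.of_isZero (isZero_zero _),
      Nice.of_isZero ((jmap f).mapDerivedCategory.map_isZero (isZero_zero _))⟩
    (fun _ hT h₁ h₃ => ⟨Nice.ext₂ hT h₁.1 h₃.1,
      Nice.ext₂ ((jmap f).mapDerivedCategory.map_distinguished _ hT) h₁.2 h₃.2⟩)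
    (fun i X => biNice_loc f i X) X

lemma isZero_proj_iff (M : Gr f) : IsZero ((proj f).obj M) ↔ IsTors M.obj :=
  ObjectProperty.SerreClassLocalization.isZero_obj_iff (proj f) (Tors f) M

lemma isZero_proj_jmap (C : DerivedCategory (Gr f))
    (h : IsZero ((proj f).mapDerivedCategory.obj C)) :
    IsZero ((proj 0).mapDerivedCategory.obj ((jmap f).mapDerivedCategory.obj C)) := by
  rw [isZero_mapDerived_iff] at h ⊢
  intro n
  obtain ⟨e⟩ := homology_mapDerived (jmap f) C n
  refine IsZero.of_iso ?_ ((proj 0).mapIso e)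
  rw [isZero_proj_iff]
  exact (isZero_proj_iff f _).1 (h n)

lemma isIso_proj_jmap {X N : DerivedCategory (Gr f)} (u : X ⟶ N)
    (h : IsIso ((proj f).mapDerivedCategory.map u)) :
    IsIso ((proj 0).mapDerivedCategory.map ((jmap f).mapDerivedCategory.map u)) := by
  obtain ⟨C, v, w, hT⟩ := distinguished_cocone_triangle u
  have h1 := (proj f).mapDerivedCategory.map_distinguished _ hT
  have h2 : IsZero ((proj f).mapDerivedCategory.obj C) := Triangle.isZero₃_of_isIso₁ _ h1 h
  have h3 := isZero_proj_jmap f C h2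
  exact (Triangle.isZero₃_iff_isIso₁ _ ((proj 0).mapDerivedCategory.map_distinguished _
    ((jmap f).mapDerivedCategory.map_distinguished _ hT))).1 h3

/-- isomorphic graded modules have isomorphic components -/
noncomputable def compEquiv {f : MvPolynomial (Fin 5) ℂ} {M N : Gr f} (e : M ≅ N) (b : Mon) :
    M.obj.obj b ≃ₗ[ℂ] N.obj.obj b :=
  (((inc f).mapIso e).app b).toLinearEquiv

/-- `S(n)` in `Gr 0` -/
noncomputable def S0 (n : ℤ) : Gr 0 := toG (freeMod n)

/-- `Hom(S(n), M) = M_{-n}` in `Gr 0` -/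
noncomputable def corepS (n : ℤ) (M : Gr 0) : (S0 n ⟶ M) ≃ₗ[ℂ] M.obj.obj ⟨-n⟩ :=
  LinearEquiv.trans
    { toFun := fun φ => φ.hom
      invFun := fun φ => (KilledBy 0).homMk φ
      map_add' := fun _ _ => rfl
      map_smul' := fun _ _ => rfl
      left_inv := fun _ => rfl
      right_inv := fun _ => rfl } (freeEquiv n M.obj)

instance (n : ℤ) : Projective (S0 n) where
  factors {M N} φ e _ := by
    have : Epi e.hom := inferInstanceAs (Epi ((inc 0).map e))
    obtain ⟨ψ, hψ⟩ := Projective.factors (P := freeMod n) φ.hom e.hom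
    exact ⟨(KilledBy 0).homMk ψ, by
      ext : 1
      exact hψ⟩

section Compare

variable {f}

/-- `H⁰` commutes with the inclusion of graded `S/f`-modules in graded `S`-modules -/
lemma h0_jmap (N : DerivedCategory (Gr f)) (i : ℤ) :
    Nonempty ((DerivedCategory.homologyFunctor (Gr 0) 0).obj
      (((jmap f).mapDerivedCategory.obj N)⟦i⟧) ≅
        (jmap f).obj ((DerivedCategory.homologyFunctor (Gr f) 0).obj (N⟦i⟧))) := by
  obtain ⟨e⟩ := homology_mapDerived (jmap f) (N⟦i⟧) 0
  exact ⟨(DerivedCategory.homologyFunctor (Gr 0) 0).mapIso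
    (((jmap f).mapDerivedCategory.commShiftIso i).symm.app N) ≪≫ e⟩

/-- Comparison of cohomology on the quartic with cohomology on projective space. -/
theorem compare (hf : f.IsHomogeneous 4) (m : ℤ) (X : DerivedCategory (Gr f)) (i : ℤ) :
    Nonempty (((proj f).mapDerivedCategory.obj (DerivedCategory.Q.obj ((sgl _).obj (Amod hf m))) ⟶
        ((proj f).mapDerivedCategory.obj X)⟦i⟧) ≃ₗ[ℂ]
      ((proj 0).mapDerivedCategory.obj (DerivedCategory.Q.obj ((sgl _).obj (S0 m))) ⟶
        ((proj 0).mapDerivedCategory.obj ((jmap f).mapDerivedCategory.obj X))⟦i⟧)) := by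
  obtain ⟨N, u, hu, hN⟩ := exists_biNice f X
  obtain ⟨e⟩ := h0_jmap N i
  exact ⟨(niceEquiv u hu hN.1 _ i).symm ≪≫ₗ projEquiv ℂ (Amod hf m) (N⟦i⟧) ≪≫ₗ
    corepA hf m _ ≪≫ₗ (compEquiv e.symm ⟨-m⟩) ≪≫ₗ (corepS m _).symm ≪≫ₗ
    (projEquiv ℂ (S0 m) _).symm ≪≫ₗ
    niceEquiv _ (isIso_proj_jmap f u hu) hN.2 _ i⟩

end Compare

section Single

variable {A : Type u₁} [Category.{v₁} A] [Abelian A] [HasDerivedCategory.{w₁} A]

/-- an object of an abelian category as an object of its derived category -/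
noncomputable abbrev sg (M : A) : DerivedCategory A := DerivedCategory.Q.obj ((sgl A).obj M)

lemma h_sg_zero (M : A) :
    Nonempty ((DerivedCategory.homologyFunctor A 0).obj ((sg M)⟦(0 : ℤ)⟧) ≅ M) :=
  ⟨(DerivedCategory.homologyFunctor A 0).mapIso ((shiftFunctorZero _ ℤ).app (sg M)) ≪≫
    (toH0 M).symm⟩

lemma h_sg_ne (M : A) (i : ℤ) (hi : i ≠ 0) :
    IsZero ((DerivedCategory.homologyFunctor A 0).obj ((sg M)⟦i⟧)) := by
  have e1 : (DerivedCategory.homologyFunctor A 0).obj ((sg M)⟦i⟧) ≅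
      (DerivedCategory.homologyFunctor A i).obj (sg M) :=
    ((DerivedCategory.homologyFunctor A 0).shiftIso i 0 i (by simp)).app (sg M)
  have e2 : (DerivedCategory.homologyFunctor A i).obj (sg M) ≅ ((sgl A).obj M).homology i :=
    (DerivedCategory.homologyFunctorFactors A i).app _
  exact (HomologicalComplex.isZero_single_obj_homology (.up ℤ) 0 M i hi).of_iso (e1 ≪≫ e2)

variable [Linear ℂ A]

lemma sg_hom_zero (P M : A) [Projective P] :
    Nonempty ((sg P ⟶ (sg M)⟦(0 : ℤ)⟧) ≃ₗ[ℂ] (P ⟶ M)) := by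
  obtain ⟨e⟩ := h_sg_zero M
  exact ⟨projEquiv ℂ P _ ≪≫ₗ Linear.homCongr ℂ (Iso.refl P) e⟩

lemma sg_hom_ne (P M : A) [Projective P] (i : ℤ) (hi : i ≠ 0) :
    Subsingleton (sg P ⟶ (sg M)⟦i⟧) := by
  have h := h_sg_ne M i hi
  have : Subsingleton (P ⟶ (DerivedCategory.homologyFunctor A 0).obj ((sg M)⟦i⟧)) :=
    ⟨fun a b => h.eq_of_tgt _ _⟩
  exact (projEquiv ℂ P ((sg M)⟦i⟧)).toEquiv.subsingleton

lemma sg_finrank (P M : A) [Projective P] (i : ℤ) :
    Module.finrank ℂ (sg P ⟶ (sg M)⟦i⟧) = if i = 0 then Module.finrank ℂ (P ⟶ M) else 0 := by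
  split_ifs with h
  · subst h
    obtain ⟨e⟩ := sg_hom_zero P M
    exact e.finrank_eq
  · have := sg_hom_ne P M i h
    exact Module.finrank_zero_of_subsingleton

lemma sg_finiteHom (P M : A) [Projective P] [Module.Finite ℂ (P ⟶ M)] :
    FiniteHom (sg P) (sg M) := by
  refine ⟨fun i => ?_, ?_⟩
  · by_cases h : i = 0
    · subst h
      obtain ⟨e⟩ := sg_hom_zero P M
      exact Module.Finite.equiv e.symm
    · have := sg_hom_ne P M i h
      infer_instance
  · refine (Set.finite_singleton (0 : ℤ)).subset ?_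
    intro i hi
    by_contra h
    exact hi (sg_hom_ne P M i h)

lemma sg_chi (P M : A) [Projective P] :
    chi (sg P) (sg M) = Module.finrank ℂ (P ⟶ M) := by
  unfold chi
  rw [finsum_eq_single _ (0 : ℤ)]
  · rw [sg_finrank]
    simp
  · intro i hi
    rw [sg_finrank]
    simp [hi]

end Single

section Step

variable {C : Type u₁} [Category.{v₁} C] [Preadditive C] [HasZeroObject C] [HasShift C ℤ]
  [∀ n : ℤ, (shiftFunctor C n).Additive] [Pretriangulated C] [IsTriangulated C]
  {D : Type u₂} [Category.{v₂} D] [Preadditive D] [HasZeroObject D] [HasShift D ℤ]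
  [∀ n : ℤ, (shiftFunctor D n).Additive] [Pretriangulated D]
  (Φ : C ⥤ D) [Φ.CommShift ℤ] [Φ.IsTriangulated]

lemma nice_step {X' Y N' Z W : C} (a' : X' ⟶ Y) (b' : Y ⟶ N') (c' : N' ⟶ X'⟦(1 : ℤ)⟧)
    (h' : Triangle.mk a' b' c' ∈ distTriang C) (hN' : Nice Φ N')
    (p : Z ⟶ W) (q : W ⟶ Y) (r : Y ⟶ Z⟦(1 : ℤ)⟧) (h : Triangle.mk p q r ∈ distTriang C)
    (hW : Nice Φ W) :
    ∃ (N : C) (a : X'⟦(-1 : ℤ)⟧ ⟶ Z) (b : Z ⟶ N) (c : N ⟶ X'⟦(-1 : ℤ)⟧⟦(1 : ℤ)⟧),
      Triangle.mk a b c ∈ distTriang C ∧ Nice Φ N := by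
  have h₁ := Triangle.shift_distinguished _ h' (-1)
  have h₂ := inv_rot_of_distTriang _ h
  let u₁₂ : X'⟦(-1 : ℤ)⟧ ⟶ Y⟦(-1 : ℤ)⟧ :=
    ((Triangle.shiftFunctor C (-1)).obj (Triangle.mk a' b' c')).mor₁
  let u₂₃ : Y⟦(-1 : ℤ)⟧ ⟶ Z := (Triangle.mk p q r).invRotate.mor₁
  obtain ⟨N, b, c, h₃⟩ := distinguished_cocone_triangle (u₁₂ ≫ u₂₃)
  have oct := (IsTriangulated.octahedron_axiom (rfl : u₁₂ ≫ u₂₃ = u₁₂ ≫ u₂₃) h₁ h₂ h₃).some
  exact ⟨N, u₁₂ ≫ u₂₃, b, c, h₃, Nice.ext₂ oct.mem (hN'.shift (-1)) hW⟩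

end Step

section Proj4

/-- graded `S`-modules as modules over `S/(0)` -/
noncomputable def toGF : GrS ⥤ Gr 0 := (KilledBy 0).lift (𝟭 GrS) killedBy_zero

instance : PreservesFiniteLimits toGF := by
  have : PreservesFiniteLimits (toGF ⋙ inc 0) :=
    inferInstanceAs (PreservesFiniteLimits (𝟭 GrS))
  exact ⟨fun J _ _ => preservesLimitsOfShape_of_reflects_of_preserves toGF (inc 0)⟩

instance : PreservesFiniteColimits toGF := by
  have : PreservesFiniteColimits (toGF ⋙ inc 0) :=
    inferInstanceAs (PreservesFiniteColimits (𝟭 GrS))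
  exact ⟨fun J _ _ => preservesColimitsOfShape_of_reflects_of_preserves toGF (inc 0)⟩

instance : toGF.Additive := by
  have := preservesBinaryBiproducts_of_preservesBinaryProducts toGF
  exact Functor.additive_of_preservesBinaryBiproducts _

/-- the distinguished triangle of a short exact sequence of graded modules -/
lemma exists_triangle (S : ShortComplex GrS) (hS : S.ShortExact) :
    ∃ (p : sg (toG S.X₁) ⟶ sg (toG S.X₂)) (q : sg (toG S.X₂) ⟶ sg (toG S.X₃))
      (r : sg (toG S.X₃) ⟶ (sg (toG S.X₁))⟦(1 : ℤ)⟧),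
      Triangle.mk p q r ∈ distTriang (DerivedCategory (Gr 0)) := by
  have h := hS.map_of_exact toGF
  exact ⟨_, _, _, h.singleTriangle_distinguished⟩

/-- `k` negative exponents, followed by nonnegative exponents -/
def sp (k : ℕ) : Fin 5 → Sg := fun i => if (i : ℕ) < k then Sg.neg else Sg.pos

lemma sp_zero : sp 0 = fun _ => Sg.pos := by
  funext i
  simp [sp]

lemma sp_five : sp 5 = fun _ => Sg.neg := by
  funext i
  have := i.2
  simp [sp, this]

lemma sp_update_pos (k : Fin 5) : Function.update (sp k) k Sg.pos = sp k := by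
  funext i
  by_cases h : i = k
  · subst h
    simp [sp]
  · simp [h]

lemma sp_update_neg (k : Fin 5) : Function.update (sp k) k Sg.neg = sp (k + 1) := by
  funext i
  by_cases h : i = k
  · subst h
    simp [sp]
  · simp only [Function.update_of_ne h, sp]
    have : (i : ℕ) ≠ k := fun h' => h (Fin.ext h')
    by_cases h2 : (i : ℕ) < k
    · rw [if_pos h2, if_pos (by omega)]
    · rw [if_neg h2, if_neg (by omega)]

lemma nice_sg_of_local (k : Fin 5) (M : GrS) (hM : XLocal k M) :
    Nice (proj 0).mapDerivedCategory (sg (toG M)) := by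
  apply (locFamily 0).nice k
  refine isIso_dUnit_Q (unitG 0 k) _ fun n => ?_
  by_cases h : n = 0
  · subst h
    refine isIso_app_of_iso (unitG 0 k) (X := toG M)
      (HomologicalComplex.singleObjXSelf (.up ℤ) 0 (toG M)).symm ?_
    exact isIso_unitG_of_local 0 k _ hM
  · have h0 := HomologicalComplex.isZero_single_obj_X (.up ℤ) 0 (toG M) n h
    have h1 : IsZero ((proj 0 ⋙ locQ 0 k).obj (((sgl (Gr 0)).obj (toG M)).X n)) :=
      Functor.map_isZero _ h0
    exact ⟨0, h0.eq_of_src _ _, h1.eq_of_src _ _⟩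

/-- iterated shifts by `-1` -/
noncomputable def itShift (j : ℕ) (X : DerivedCategory (Gr 0)) : DerivedCategory (Gr 0) :=
  (fun Y => Y⟦(-1 : ℤ)⟧)^[j] X

/-- the pattern module is an extension of a nice object by an iterated shift of the torsion
module -/
def Chained (n : ℤ) (j : ℕ) (s : Fin 5 → Sg) : Prop :=
  ∃ (N : DerivedCategory (Gr 0)) (a : itShift j (sg (toG (patMod (sp 5) n))) ⟶
      sg (toG (patMod s n)))
    (b : sg (toG (patMod s n)) ⟶ N)
    (c : N ⟶ (itShift j (sg (toG (patMod (sp 5) n))))⟦(1 : ℤ)⟧),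
    Triangle.mk a b c ∈ distTriang (DerivedCategory (Gr 0)) ∧
      Nice (proj 0).mapDerivedCategory N

lemma itShift_succ (j : ℕ) (X : DerivedCategory (Gr 0)) :
    itShift (j + 1) X = (itShift j X)⟦(-1 : ℤ)⟧ := by
  unfold itShift
  rw [Function.iterate_succ_apply']

lemma chained_step (n : ℤ) (j : ℕ) (s : Fin 5 → Sg) (k : Fin 5)
    (h : Chained n j (Function.update s k Sg.neg)) :
    Chained n (j + 1) (Function.update s k Sg.pos) := by
  obtain ⟨N', a', b', c', h', hN'⟩ := h
  obtain ⟨p, q, r, h⟩ := exists_triangle _ (patSeq_shortExact s k n)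
  have hW := nice_sg_of_local k (patMod (Function.update s k Sg.any) n)
    (patMod_local _ k (by simp) n)
  unfold Chained
  rw [itShift_succ]
  exact nice_step (proj 0).mapDerivedCategory a' b' c' h' hN' p q r h hW

lemma chained_all (n : ℤ) (j : ℕ) (hj : j ≤ 5) : Chained n j (sp (5 - j)) := by
  induction j with
  | zero =>
    exact ⟨0, 𝟙 _, 0, 0, contractible_distinguished _, Nice.of_isZero (isZero_zero _)⟩
  | succ j ih =>
    let k : Fin 5 := ⟨5 - (j + 1), by omega⟩
    have e1 : Function.update (sp k) k Sg.pos = sp (5 - (j + 1)) := sp_update_pos k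
    have e2 : Function.update (sp k) k Sg.neg = sp (5 - j) := by
      rw [sp_update_neg k]
      congr 1
      dsimp [k]
      omega
    have h1 := ih (by omega)
    rw [← e2] at h1
    rw [← e1]
    exact chained_step n j (sp k) k h1

lemma chained_final (n : ℤ) : Chained n 5 (fun _ => Sg.pos) := by
  have := chained_all n 5 le_rfl
  rwa [show 5 - 5 = 0 from rfl, sp_zero] at this

lemma itShift_isZero (j : ℕ) (X : DerivedCategory (Gr 0))
    (h : IsZero ((proj 0).mapDerivedCategory.obj X)) :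
    IsZero ((proj 0).mapDerivedCategory.obj (itShift j X)) := by
  induction j with
  | zero => exact h
  | succ j ih =>
    rw [itShift_succ]
    have h1 : IsZero (((proj 0).mapDerivedCategory.obj (itShift j X))⟦(-1 : ℤ)⟧) :=
      Functor.map_isZero _ ih
    exact h1.of_iso (((proj 0).mapDerivedCategory.commShiftIso (-1 : ℤ)).app _)

lemma proj_sg_tors (M : GrS) (hM : IsTors M) :
    IsZero ((proj 0).mapDerivedCategory.obj (sg (toG M))) := by
  rw [isZero_mapDerived_iff]
  intro n
  rw [isZero_proj_iff]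
  have e : (DerivedCategory.homologyFunctor (Gr 0) n).obj (sg (toG M)) ≅
      ((sgl (Gr 0)).obj (toG M)).homology n :=
    (DerivedCategory.homologyFunctorFactors (Gr 0) n).app _
  by_cases h : n = 0
  · subst h
    have e' := e ≪≫ HomologicalComplex.singleObjHomologySelfIso (.up ℤ) 0 (toG M)
    exact (Tors 0).prop_of_iso e'.symm hM
  · have h0 := (HomologicalComplex.isZero_single_obj_homology (.up ℤ) 0 (toG M) n h).of_iso e
    exact (Tors 0).prop_of_isZero h0

lemma itShift_finiteHom (j : ℕ) (S X : DerivedCategory (Gr 0)) (h : FiniteHom S X) :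
    FiniteHom S (itShift j X) := by
  induction j with
  | zero => exact h
  | succ j ih =>
    rw [itShift_succ]
    exact ih.shift_right (-1)

lemma itShift_chi (j : ℕ) (S X : DerivedCategory (Gr 0)) :
    chi S (itShift j X) = (-1) ^ j * chi S X := by
  induction j with
  | zero => simp [itShift]
  | succ j ih =>
    rw [itShift_succ, chi_shift_right, ih, Int.negOnePow_neg, Int.negOnePow_one, pow_succ]
    push_cast
    ring

lemma itShift_vanish (j : ℕ) (S X : DerivedCategory (Gr 0))
    (h : ∀ i : ℤ, Subsingleton (S ⟶ X⟦i⟧)) (i : ℤ) : Subsingleton (S ⟶ (itShift j X)⟦i⟧) := by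
  induction j generalizing i with
  | zero => exact h i
  | succ j ih =>
    rw [itShift_succ]
    have := ih (-1 + i)
    exact (shiftEquivPost S (itShift j X) (-1) i (-1 + i) rfl).toEquiv.subsingleton

end Proj4

end Pool.Agent.Helper41
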