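import Pool.Agent.Helper72.BA.Defs

set_option autoImplicit false

open MeasureTheory Complex FourierTransform Filter Topology
open scoped ENNReal NNReal ComplexConjugate

noncomputable section

namespace Helper72.BA.P

open Helper72.BA

/-- The Gaussian times a power. -/
def gm (t : ℝ) (m : ℕ) (ξ : ℂ) : ℂ := (conj ξ) ^ m * Complex.exp (-(t * ‖ξ‖ ^ 2 : ℝ))

lemma norm_gm (t : ℝ) (m : ℕ) (ξ : ℂ) : ‖gm t m ξ‖ = ‖ξ‖ ^ m * Real.exp (-(t * ‖ξ‖ ^ 2)) := by
  unfold gm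
  rw [norm_mul, norm_pow, RCLike.norm_conj, Complex.norm_exp, ← ofReal_neg, ofReal_re]

lemma continuous_gm (t : ℝ) (m : ℕ) : Continuous (gm t m) := by
  unfold gm
  fun_prop

lemma integrable_gauss (t : ℝ) (ht : 0 < t) :
    Integrable (fun ξ : ℂ => Real.exp (-(t * ‖ξ‖ ^ 2))) := by
  have h := GaussianFourier.integrable_cexp_neg_mul_sq_norm_add (V := ℂ) (b := (t : ℂ))
    (by simpa using ht) 0 0
  have h2 := h.norm
  refine h2.congr (Eventually.of_forall fun ξ => ?_)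
  simp only [zero_mul, add_zero]
  rw [Complex.norm_exp]
  congr 1
  rw [← ofReal_pow, ← ofReal_neg, ← ofReal_mul, ofReal_re]
  ring

lemma integrable_pow_gauss (t : ℝ) (ht : 0 < t) (m : ℕ) :
    Integrable (fun ξ : ℂ => ‖ξ‖ ^ m * Real.exp (-(t * ‖ξ‖ ^ 2))) := by
  have h1 := integrable_gauss t ht
  have h2 := (integrable_gauss (t / 2) (by positivity)).const_mul (m.factorial * (2 / t) ^ m)
  refine (h1.add h2).mono' (by fun_prop) (Eventually.of_forall fun ξ => ?_)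
  rw [Real.norm_of_nonneg (by positivity)]
  simp only [Pi.add_apply]
  have hx : 0 ≤ ‖ξ‖ := norm_nonneg ξ
  have hp : ‖ξ‖ ^ m ≤ 1 + (‖ξ‖ ^ 2) ^ m := by
    rcases le_total ‖ξ‖ 1 with h | h
    · have : ‖ξ‖ ^ m ≤ 1 := pow_le_one₀ hx h
      have h3 : 0 ≤ (‖ξ‖ ^ 2) ^ m := by positivity
      linarith
    · have : ‖ξ‖ ^ m ≤ (‖ξ‖ ^ 2) ^ m := by
        apply pow_le_pow_left₀ hx
        nlinarith
      linarith
  have hf := Real.pow_div_factorial_le_exp (t / 2 * ‖ξ‖ ^ 2) (by positivity) m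
  have hfac : (0 : ℝ) < m.factorial := by exact_mod_cast Nat.factorial_pos m
  have h4 : (‖ξ‖ ^ 2) ^ m ≤ m.factorial * (2 / t) ^ m * Real.exp (t / 2 * ‖ξ‖ ^ 2) := by
    rw [div_le_iff₀ hfac, mul_pow] at hf
    have h5 : (‖ξ‖ ^ 2) ^ m = (2 / t) ^ m * ((t / 2) ^ m * (‖ξ‖ ^ 2) ^ m) := by
      rw [← mul_assoc, ← mul_pow]
      have : 2 / t * (t / 2) = 1 := by field_simp
      rw [this, one_pow, one_mul]
    rw [h5]
    calc (2 / t) ^ m * ((t / 2) ^ m * (‖ξ‖ ^ 2) ^ m)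
        ≤ (2 / t) ^ m * (Real.exp (t / 2 * ‖ξ‖ ^ 2) * m.factorial) :=
          mul_le_mul_of_nonneg_left hf (by positivity)
      _ = _ := by ring
  have h6 : Real.exp (t / 2 * ‖ξ‖ ^ 2) * Real.exp (-(t * ‖ξ‖ ^ 2)) =
      Real.exp (-(t / 2 * ‖ξ‖ ^ 2)) := by
    rw [← Real.exp_add]; congr 1; ring
  calc ‖ξ‖ ^ m * Real.exp (-(t * ‖ξ‖ ^ 2))
      ≤ (1 + m.factorial * (2 / t) ^ m * Real.exp (t / 2 * ‖ξ‖ ^ 2)) *
          Real.exp (-(t * ‖ξ‖ ^ 2)) := by
        apply mul_le_mul_of_nonneg_right _ (Real.exp_pos _).le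
        linarith
    _ = Real.exp (-(t * ‖ξ‖ ^ 2)) + m.factorial * (2 / t) ^ m *
          (Real.exp (t / 2 * ‖ξ‖ ^ 2) * Real.exp (-(t * ‖ξ‖ ^ 2))) := by ring
    _ = _ := by rw [h6]

lemma integrable_gm (t : ℝ) (ht : 0 < t) (m : ℕ) : Integrable (gm t m) := by
  rw [← integrable_norm_iff (continuous_gm t m).aestronglyMeasurable]
  refine (integrable_pow_gauss t ht m).congr (Eventually.of_forall fun ξ => ?_)
  exact (norm_gm t m ξ).symm

lemma integrable_norm_gm (t : ℝ) (ht : 0 < t) (m : ℕ) :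
    Integrable (fun ξ : ℂ => ‖ξ‖ * ‖gm t m ξ‖) := by
  refine (integrable_pow_gauss t ht (m + 1)).congr (Eventually.of_forall fun ξ => ?_)
  simp only [norm_gm]
  ring

lemma fourier_gm_succ (t : ℝ) (ht : 0 < t) (m : ℕ) (w : ℂ) :
    fderiv ℝ (𝓕 (gm t m)) w 1 - I * fderiv ℝ (𝓕 (gm t m)) w I =
      -(2 * Real.pi * I) * 𝓕 (gm t (m + 1)) w := by
  have hd := (Real.hasFDerivAt_fourier (integrable_gm t ht m) (integrable_norm_gm t ht m) w).fderiv
  have hint : Integrable (VectorFourier.fourierSMulRight (innerSL ℝ) (gm t m)) := by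
    have hmeas : AEStronglyMeasurable
        (fun v => VectorFourier.fourierSMulRight (innerSL ℝ) (gm t m) v) volume :=
      (continuous_gm t m).aestronglyMeasurable.fourierSMulRight
    refine ((integrable_norm_gm t ht m).const_mul (2 * Real.pi * ‖innerSL ℝ (E := ℂ)‖)).mono'
      hmeas (Eventually.of_forall fun ξ => ?_)
    have := VectorFourier.norm_fourierSMulRight_le (innerSL ℝ) (gm t m) ξ
    refine this.trans (le_of_eq ?_)
    ring
  rw [hd, Real.fourier_continuousLinearMap_apply hint, Real.fourier_continuousLinearMap_apply hint,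
    Real.fourier_eq', Real.fourier_eq', Real.fourier_eq']
  have hi : ∀ v : ℂ, Integrable (fun ξ : ℂ =>
      Complex.exp ((↑(-2 * Real.pi * inner ℝ ξ w)) * Complex.I) •
        VectorFourier.fourierSMulRight (innerSL ℝ) (gm t m) ξ v) := by
    intro v
    have h1 : Integrable (fun ξ : ℂ => VectorFourier.fourierSMulRight (innerSL ℝ) (gm t m) ξ v) :=
      hint.apply_continuousLinearMap v
    have h2 := (Real.fourierIntegral_convergent_iff w).2 h1
    refine h2.congr (Eventually.of_forall fun ξ => ?_)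
    simp only [Circle.smul_def, Real.fourierChar_apply]
    congr 3
    push_cast
    ring
  rw [← integral_const_mul, ← integral_const_mul, ← integral_sub (hi 1) ((hi I).const_mul I)]
  apply integral_congr_ae
  refine Eventually.of_forall fun ξ => ?_
  simp only [VectorFourier.fourierSMulRight_apply, smul_eq_mul]
  have e1 : (innerSL ℝ) ξ (1 : ℂ) = ξ.re := by
    simp [Complex.inner]
  have e2 : (innerSL ℝ) ξ I = ξ.im := by
    simp [Complex.inner]
  rw [e1, e2]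
  have e3 : gm t (m + 1) ξ = conj ξ * gm t m ξ := by
    unfold gm; rw [pow_succ]; ring
  have e4 : conj ξ = ξ.re - ξ.im * I := by
    apply Complex.ext <;> simp
  rw [e3, e4, Complex.real_smul, Complex.real_smul]
  ring

lemma closed_fderiv (t : ℝ) (m : ℕ) (c a : ℂ) (w : ℂ) :
    fderiv ℝ (fun w : ℂ => c * (a * conj w) ^ m *
        Complex.exp (-(Real.pi ^ 2 * ‖w‖ ^ 2 / t : ℝ))) w 1 -
      I * fderiv ℝ (fun w : ℂ => c * (a * conj w) ^ m *
        Complex.exp (-(Real.pi ^ 2 * ‖w‖ ^ 2 / t : ℝ))) w I =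
      -(2 * Real.pi ^ 2 / t) * conj w * (c * (a * conj w) ^ m *
        Complex.exp (-(Real.pi ^ 2 * ‖w‖ ^ 2 / t : ℝ))) := by
  have h1 : HasFDerivAt (fun w : ℂ => conj w) (conjCLE : ℂ →L[ℝ] ℂ) w := conjCLE.hasFDerivAt
  have h2 := ((h1.const_mul a).pow m).const_mul c
  have h3 : HasFDerivAt (fun w : ℂ => ‖w‖ ^ 2) (2 • innerSL ℝ w) w :=
    (hasStrictFDerivAt_norm_sq w).hasFDerivAt
  have h4 : HasFDerivAt (fun w : ℂ => (Real.pi ^ 2 * ‖w‖ ^ 2 / t : ℝ))
      ((Real.pi ^ 2 / t) • (2 • innerSL ℝ w)) w := by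
    have := h3.const_mul (Real.pi ^ 2 / t)
    refine this.congr_of_eventuallyEq (Eventually.of_forall fun x => ?_)
    simp only
    ring
  have h5 : HasFDerivAt (fun w : ℂ => -((Real.pi ^ 2 * ‖w‖ ^ 2 / t : ℝ) : ℂ))
      (-(ofRealCLM.comp ((Real.pi ^ 2 / t) • (2 • innerSL ℝ w)))) w :=
    (ofRealCLM.hasFDerivAt.comp w h4).neg
  have h6 := h5.cexp
  have h7 : fderiv ℝ (fun w : ℂ => c * (a * conj w) ^ m *
      Complex.exp (-(Real.pi ^ 2 * ‖w‖ ^ 2 / t : ℝ))) w = _ := (h2.mul h6).fderiv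
  rw [h7]
  have e1 : (innerSL ℝ) w (1 : ℂ) = w.re := by
    simp [Complex.inner]
  have e2 : (innerSL ℝ) w I = w.im := by
    simp [Complex.inner]
  have e4 : conj w = w.re - w.im * I := by
    apply Complex.ext <;> simp
  simp only [FunLike.coe_add, FunLike.coe_smul, Pi.add_apply, Pi.smul_apply, smul_eq_mul,
    neg_apply, ContinuousLinearMap.comp_apply, ofRealCLM_apply, e1, e2]
  have c1 : (conjCLE : ℂ →L[ℝ] ℂ) 1 = 1 := by simp
  have c2 : (conjCLE : ℂ →L[ℝ] ℂ) I = -I := by simp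
  rw [c1, c2]
  generalize Complex.exp (-(Real.pi ^ 2 * ‖w‖ ^ 2 / t : ℝ)) = E
  generalize (a * conj w) ^ m = P
  generalize (a * conj w) ^ (m - 1) = Q
  rw [e4]
  simp only [nsmul_eq_mul]
  push_cast
  linear_combination (E * (c * (m * Q * a))) * (I_sq)

lemma fourier_gm (t : ℝ) (ht : 0 < t) (m : ℕ) : ∀ w : ℂ, 𝓕 (gm t m) w =
    ((Real.pi / t : ℝ) : ℂ) * ((-(Real.pi * I) / t) * conj w) ^ m *
      Complex.exp (-(Real.pi ^ 2 * ‖w‖ ^ 2 / t : ℝ)) := by
  have htc : (t : ℂ) ≠ 0 := by exact_mod_cast ht.ne'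
  have hpc : (Real.pi : ℂ) ≠ 0 := by exact_mod_cast Real.pi_ne_zero
  induction m with
  | zero =>
    intro w
    have h := fourier_gaussian_innerProductSpace (V := ℂ) (b := (t : ℂ)) (by simpa using ht) w
    have h0 : gm t 0 = fun v : ℂ => Complex.exp (-(t : ℂ) * ‖v‖ ^ 2) := by
      funext v
      unfold gm
      rw [pow_zero, one_mul]
      congr 1
      push_cast
      ring
    rw [h0, h, Complex.finrank_real_complex]
    rw [pow_zero, mul_one]
    have e : (((2 : ℕ) : ℂ) / 2) = 1 := by norm_num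
    rw [e, cpow_one]
    push_cast
    congr 2
    ring
  | succ m ih =>
    intro w
    have h1 := fourier_gm_succ t ht m w
    have h2 : 𝓕 (gm t m) = fun w : ℂ => ((Real.pi / t : ℝ) : ℂ) *
        ((-(Real.pi * I) / t) * conj w) ^ m *
        Complex.exp (-(Real.pi ^ 2 * ‖w‖ ^ 2 / t : ℝ)) := funext ih
    rw [h2, closed_fderiv] at h1
    have hne : -(2 * Real.pi * I) ≠ 0 := by
      simp [hpc, I_ne_zero]
    apply mul_left_cancel₀ hne
    rw [← h1, pow_succ (-(Real.pi * I) / t * conj w) m]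
    generalize Complex.exp (-(Real.pi ^ 2 * ‖w‖ ^ 2 / t : ℝ)) = E
    generalize (-(Real.pi * I) / t * conj w) ^ m = P
    generalize ((Real.pi / t : ℝ) : ℂ) = c
    field_simp
    linear_combination (-(conj w * c * P * E)) * I_sq

/-- Gaussian moments. -/
theorem gaussian_moment (t : ℝ) (ht : 0 < t) (m : ℕ) (z : ℂ) :
    𝓕⁻ (fun ξ : ℂ => (conj ξ) ^ m * Complex.exp (-(t * ‖ξ‖ ^ 2 : ℝ))) z =
      (Real.pi / t : ℝ) * ((Real.pi * I * conj z) / t) ^ m *
        Complex.exp (-(Real.pi ^ 2 * ‖z‖ ^ 2 / t : ℝ)) := by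
  rw [Real.fourierInv_eq_fourier_neg]
  have h := fourier_gm t ht m (-z)
  unfold gm at h
  rw [h, norm_neg, map_neg]
  congr 3
  ring

end Helper72.BA.P
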