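import Pool.Agent.Helper72.BB.Stubs

/-!
# Beurling-Ahlfors stage 2, module S10 : abstract interpolation with averages (helper41)
-/

set_option autoImplicit false

open MeasureTheory Complex FourierTransform Filter Topology
open scoped ENNReal NNReal ComplexConjugate

noncomputable section

namespace Helper72.BB.P

open Helper72.BA Helper72.BB

namespace S10x

/-- entire parameter integrals -/
theorem entire {Ω : Type*} [MeasurableSpace Ω] (μ : Measure Ω) (H : Ω → ℂ) (hH : Integrable H μ)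
    (a b : Ω → ℝ) (ha : Measurable a) (hb : Measurable b) (M : ℝ) (hM : 0 ≤ M)
    (haM : ∀ q, |a q| ≤ M) (hbM : ∀ q, |b q| ≤ M) :
    Differentiable ℂ (fun z : ℂ => ∫ q, H q * Complex.exp (a q + z * b q) ∂μ) := by
  intro z0
  have hbound : ∀ q : Ω, ∀ z ∈ Metric.ball z0 1,
      ‖Complex.exp (a q + z * b q)‖ ≤ Real.exp (M + (‖z0‖ + 1) * M) := by
    intro q z hz
    rw [Complex.norm_exp]
    apply Real.exp_le_exp.2
    have h1 : ((a q : ℂ) + z * b q).re = a q + z.re * b q := by simp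
    rw [h1]
    have h2 : ‖z‖ ≤ ‖z0‖ + 1 := by
      have := norm_le_norm_add_norm_sub z0 z
      have h3 : ‖z0 - z‖ < 1 := by
        rw [← dist_eq_norm, dist_comm]; exact hz
      have h4 : ‖z‖ ≤ ‖z0‖ + ‖z0 - z‖ := this
      linarith
    have h5 : |z.re * b q| ≤ (‖z0‖ + 1) * M := by
      rw [abs_mul]
      exact mul_le_mul ((Complex.abs_re_le_norm z).trans h2) (hbM q) (abs_nonneg _) (by positivity)
    have h6 := le_abs_self (z.re * b q)
    have h7 := (le_abs_self (a q)).trans (haM q)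
    linarith
  have hmeas : ∀ z : ℂ, Measurable (fun q => Complex.exp ((a q : ℂ) + z * b q)) := by
    intro z; fun_prop
  have key := hasDerivAt_integral_of_dominated_loc_of_deriv_le (μ := μ)
    (F := fun z q => H q * Complex.exp (a q + z * b q))
    (F' := fun z q => H q * (Complex.exp (a q + z * b q) * b q)) (x₀ := z0)
    (s := Metric.ball z0 1) (bound := fun q => ‖H q‖ * (Real.exp (M + (‖z0‖ + 1) * M) * M))
    (Metric.ball_mem_nhds z0 one_pos)
    (Eventually.of_forall fun z => hH.aestronglyMeasurable.mul (hmeas z).aestronglyMeasurable)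
    (by
      refine (hH.norm.mul_const (Real.exp (M + (‖z0‖ + 1) * M))).mono'
        (hH.aestronglyMeasurable.mul (hmeas z0).aestronglyMeasurable) (ae_of_all _ fun q => ?_)
      rw [norm_mul]
      exact mul_le_mul_of_nonneg_left (hbound q z0 (Metric.mem_ball_self one_pos)) (norm_nonneg _))
    (hH.aestronglyMeasurable.mul (((hmeas z0).mul (by fun_prop)).aestronglyMeasurable))
    (ae_of_all _ fun q z hz => by
      rw [norm_mul, norm_mul]
      refine mul_le_mul_of_nonneg_left ?_ (norm_nonneg _)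
      refine mul_le_mul (hbound q z hz) ?_ (norm_nonneg _) (by positivity)
      rw [Complex.norm_real]; exact hbM q)
    (hH.norm.mul_const _)
    (ae_of_all _ fun q z hz => by
      have h1 : HasDerivAt (fun z : ℂ => (a q : ℂ) + z * b q) (b q : ℂ) z := by
        simpa using ((hasDerivAt_id z).mul_const (b q : ℂ)).const_add (a q : ℂ)
      exact (h1.cexp).const_mul (H q))
  exact key.2.differentiableAt

/-- the annulus -/
def Ann (r1 r2 : ℝ) : Set ℂ := {ξ | r1 ≤ ‖ξ‖ ∧ ‖ξ‖ ≤ r2}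

theorem Ann_meas (r1 r2 : ℝ) : MeasurableSet (Ann r1 r2) :=
  (measurableSet_le measurable_const measurable_norm).inter
    (measurableSet_le measurable_norm measurable_const)

theorem Ann_finite (r1 r2 : ℝ) : volume (Ann r1 r2) < ∞ := by
  refine (measure_mono (t := Metric.closedBall 0 r2) ?_).trans_lt measure_closedBall_lt_top
  intro ξ hξ
  simpa using hξ.2

/-- the truncation set -/
def EN (N : ℕ) (u : ℂ → ℂ) : Set ℂ := {x | ((N:ℝ) + 1)⁻¹ ≤ ‖u x‖ ∧ ‖u x‖ ≤ N + 1 ∧ ‖x‖ ≤ N + 1}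

theorem EN_meas (N : ℕ) (u : ℂ → ℂ) (hu : Measurable u) : MeasurableSet (EN N u) :=
  (measurableSet_le measurable_const hu.norm).inter
    ((measurableSet_le hu.norm measurable_const).inter
      (measurableSet_le measurable_norm measurable_const))

theorem EN_finite (N : ℕ) (u : ℂ → ℂ) : volume (EN N u) < ∞ := by
  refine (measure_mono (t := Metric.closedBall 0 (N + 1)) ?_).trans_lt measure_closedBall_lt_top
  intro ξ hξ
  simpa using hξ.2.2

def Lr (ρ : ℂ → ℝ) (r1 r2 : ℝ) : ℂ → ℝ := (Ann r1 r2).indicator (fun ξ => Real.log (ρ ξ))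
def Lu (u : ℂ → ℂ) (N : ℕ) : ℂ → ℝ := (EN N u).indicator (fun x => Real.log ‖u x‖)
def sg (u : ℂ → ℂ) (N : ℕ) : ℂ → ℂ := (EN N u).indicator (fun x => conj (u x) / (‖u x‖ : ℝ))

theorem Lr_meas {ρ : ℂ → ℝ} {r1 r2 : ℝ} (h : Measurable ρ) : Measurable (Lr ρ r1 r2) :=
  (Real.measurable_log.comp h).indicator (Ann_meas _ _)

theorem Lu_meas {u : ℂ → ℂ} (N : ℕ) (h : Measurable u) : Measurable (Lu u N) :=
  (Real.measurable_log.comp h.norm).indicator (EN_meas _ _ h)

theorem sg_meas {u : ℂ → ℂ} (N : ℕ) (h : Measurable u) : Measurable (sg u N) := by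
  refine Measurable.indicator ?_ (EN_meas _ _ h)
  exact (Complex.continuous_conj.measurable.comp h).div (Complex.measurable_ofReal.comp h.norm)

theorem norm_pos_of_EN {N : ℕ} {u : ℂ → ℂ} {x : ℂ} (h : x ∈ EN N u) : 0 < ‖u x‖ :=
  lt_of_lt_of_le (by positivity) h.1

theorem sg_bd (u : ℂ → ℂ) (N : ℕ) (x : ℂ) : ‖sg u N x‖ ≤ 1 := by
  unfold sg
  by_cases h : x ∈ EN N u
  · rw [Set.indicator_of_mem h, norm_div, RCLike.norm_conj, Complex.norm_real, norm_norm,
      div_self (norm_pos_of_EN h).ne']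
  · rw [Set.indicator_of_notMem h]; simp

theorem Lu_bd (u : ℂ → ℂ) (N : ℕ) (x : ℂ) : |Lu u N x| ≤ Real.log (N + 1) := by
  unfold Lu
  have hN : (0:ℝ) < N + 1 := by positivity
  have h0 : 0 ≤ Real.log ((N:ℝ) + 1) := Real.log_nonneg (by
    have : (0:ℝ) ≤ N := Nat.cast_nonneg N
    linarith)
  by_cases h : x ∈ EN N u
  · rw [Set.indicator_of_mem h, abs_le]
    constructor
    · rw [← Real.log_inv]
      exact Real.log_le_log (by positivity) h.1
    · exact Real.log_le_log (norm_pos_of_EN h) h.2.1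
  · rw [Set.indicator_of_notMem h]; simpa using h0

theorem Lr_bd {ρ : ℂ → ℝ} {r1 r2 : ℝ} (h : Wt ρ r1 r2) : ∃ M : ℝ, 0 ≤ M ∧
    ∀ ξ, |Lr ρ r1 r2 ξ| ≤ M := by
  obtain ⟨w1, w2, hw1, hw⟩ := h.bds
  refine ⟨max |Real.log w1| |Real.log w2|, le_max_of_le_left (abs_nonneg _), fun ξ => ?_⟩
  unfold Lr
  by_cases hξ : ξ ∈ Ann r1 r2
  · rw [Set.indicator_of_mem hξ]
    obtain ⟨h1, h2⟩ := hw ξ hξ
    have h3 := Real.log_le_log hw1 h1
    have h4 := Real.log_le_log (hw1.trans_le h1) h2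
    rw [abs_le]
    constructor
    · have := neg_abs_le (Real.log w1)
      have h5 := le_max_left |Real.log w1| |Real.log w2|
      linarith
    · have := le_abs_self (Real.log w2)
      have h5 := le_max_right |Real.log w1| |Real.log w2|
      linarith
  · rw [Set.indicator_of_notMem hξ]; simp

/-- the family with complex exponent `α` -/
def W {T : Type} (E : T → ℂ → ℂ) (ρ : ℂ → ℝ) (r1 r2 : ℝ) (α : ℂ) (t : T) (x : ℂ) : ℂ :=
  ∫ ξ : ℂ, ch x ξ * ((((‖ξ‖ ^ 2)⁻¹ : ℝ) : ℂ) * E t ξ) * Complex.exp (α * Lr ρ r1 r2 ξ)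

theorem ch_norm (x ξ : ℂ) : ‖ch x ξ‖ = 1 := by
  unfold ch
  rw [Complex.norm_exp]
  simp

theorem ch_meas : Measurable (fun q : ℂ × ℂ => ch q.1 q.2) := by
  unfold ch
  fun_prop

theorem W_eq {T : Type} [MeasurableSpace T] {lam : Measure T} {E : T → ℂ → ℂ} {ρ : ℂ → ℝ}
    {r1 r2 : ℝ} (hE : Fam T lam E r1 r2) (hρ : Wt ρ r1 r2) (β : ℝ) (s : ℂ) (t : T) (x : ℂ) :
    W E ρ r1 r2 (β * s) t x = ext E (fun ξ => ρ ξ ^ β) s t x := by
  unfold W ext
  congr 1
  funext ξ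
  by_cases h : E t ξ = 0
  · simp [h]
  · have hξ : ξ ∈ Ann r1 r2 := hE.supp t ξ h
    obtain ⟨w1, w2, hw1, hw⟩ := hρ.bds
    have hpos : 0 < ρ ξ := hw1.trans_le (hw ξ hξ).1
    have h1 : (((ρ ξ ^ β : ℝ)) : ℂ) ^ s = Complex.exp (β * s * Lr ρ r1 r2 ξ) := by
      have h2 : ((ρ ξ ^ β : ℝ) : ℂ) ≠ 0 := by
        rw [Complex.ofReal_ne_zero]; exact (Real.rpow_pos_of_pos hpos β).ne'
      rw [Complex.cpow_def_of_ne_zero h2, ← Complex.ofReal_log (Real.rpow_pos_of_pos hpos β).le,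
        Real.log_rpow hpos]
      congr 1
      unfold Lr
      rw [Set.indicator_of_mem hξ]
      push_cast
      ring
    rw [h1]
    ring

theorem W_one {T : Type} [MeasurableSpace T] {lam : Measure T} {E : T → ℂ → ℂ} {ρ : ℂ → ℝ}
    {r1 r2 : ℝ} (hE : Fam T lam E r1 r2) (hρ : Wt ρ r1 r2) (t : T) (x : ℂ) :
    W E ρ r1 r2 1 t x = ext E ρ 1 t x := by
  have := W_eq hE hρ 1 1 t x
  simp only [Complex.ofReal_one, mul_one, Real.rpow_one] at this
  exact this


section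
variable {T : Type} [MeasurableSpace T] {lam : Measure T} {E : T → ℂ → ℂ} {ρ : ℂ → ℝ} {r1 r2 : ℝ}
  {c : T → ℂ → ℂ} {u : ℂ → ℂ}

theorem sfin (hE : Fam T lam E r1 r2) : IsProbabilityMeasure lam := ⟨hE.prob⟩

/-- bounded kernel -/
def Hk (E : T → ℂ → ℂ) (c : T → ℂ → ℂ) (u : ℂ → ℂ) (N : ℕ) (q : (ℂ × T) × ℂ) : ℂ :=
  sg u N q.1.1 * c q.1.2 q.1.1 * (ch q.1.1 q.2 * ((((‖q.2‖ ^ 2)⁻¹ : ℝ) : ℂ) * E q.1.2 q.2))

theorem Hk_meas (hE : Fam T lam E r1 r2) (hc : Measurable (Function.uncurry c)) (hu : Measurable u)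
    (N : ℕ) : Measurable (Hk E c u N) := by
  unfold Hk
  have h1 : Measurable (fun q : (ℂ × T) × ℂ => sg u N q.1.1) := (sg_meas N hu).comp (by fun_prop)
  have h2 : Measurable (fun q : (ℂ × T) × ℂ => c q.1.2 q.1.1) :=
    hc.comp (f := fun q : (ℂ × T) × ℂ => (q.1.2, q.1.1)) (by fun_prop)
  have h3 : Measurable (fun q : (ℂ × T) × ℂ => ch q.1.1 q.2) :=
    ch_meas.comp (f := fun q : (ℂ × T) × ℂ => (q.1.1, q.2)) (by fun_prop)
  have h4 : Measurable (fun q : (ℂ × T) × ℂ => E q.1.2 q.2) :=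
    hE.meas.comp (f := fun q : (ℂ × T) × ℂ => (q.1.2, q.2)) (by fun_prop)
  have h5 : Measurable (fun q : (ℂ × T) × ℂ => ((((‖q.2‖ ^ 2)⁻¹ : ℝ) : ℂ))) := by fun_prop
  exact (h1.mul h2).mul (h3.mul (h5.mul h4))

theorem E_ind_bd (hE : Fam T lam E r1 r2) : ∃ D : ℝ, 0 ≤ D ∧
    ∀ t ξ, ‖((((‖ξ‖ ^ 2)⁻¹ : ℝ) : ℂ) * E t ξ)‖ ≤ (Ann r1 r2).indicator (fun _ => D) ξ := by
  obtain ⟨C, hC⟩ := hE.bdd
  refine ⟨(r1 ^ 2)⁻¹ * |C|, by positivity, fun t ξ => ?_⟩
  by_cases h : ξ ∈ Ann r1 r2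
  · rw [Set.indicator_of_mem h, norm_mul, Complex.norm_real]
    refine mul_le_mul ?_ ((hC t ξ).trans (le_abs_self C)) (norm_nonneg _) (by positivity)
    rw [Real.norm_of_nonneg (by positivity)]
    have hr := hE.r1pos
    exact inv_anti₀ (by positivity) (pow_le_pow_left₀ hr.le h.1 2)
  · rw [Set.indicator_of_notMem h]
    have : E t ξ = 0 := by
      by_contra h'
      exact h (hE.supp t ξ h')
    simp [this]

theorem Hk_int (hE : Fam T lam E r1 r2) (hc : Measurable (Function.uncurry c))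
    (hc1 : ∀ t x, ‖c t x‖ ≤ 1) (hu : Measurable u) (N : ℕ) :
    Integrable (Hk E c u N) ((volume.prod lam).prod volume) := by
  haveI := sfin hE
  obtain ⟨D, hD0, hD⟩ := E_ind_bd hE
  have hS : MeasurableSet (((EN N u) ×ˢ (Set.univ : Set T)) ×ˢ (Ann r1 r2)) :=
    ((EN_meas N u hu).prod MeasurableSet.univ).prod (Ann_meas r1 r2)
  have hfin : ((volume : Measure ℂ).prod lam).prod (volume : Measure ℂ)
      (((EN N u) ×ˢ (Set.univ : Set T)) ×ˢ (Ann r1 r2)) < ∞ := by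
    rw [Measure.prod_prod, Measure.prod_prod]
    exact ENNReal.mul_lt_top (ENNReal.mul_lt_top (EN_finite N u) (by simp))
      (Ann_finite r1 r2)
  have hint : Integrable ((((EN N u) ×ˢ (Set.univ : Set T)) ×ˢ (Ann r1 r2)).indicator (fun _ => D))
      ((volume.prod lam).prod volume) := by
    rw [integrable_indicator_iff hS]
    exact integrableOn_const hfin.ne
  refine hint.mono' (Hk_meas hE hc hu N).aestronglyMeasurable (ae_of_all _ fun q => ?_)
  unfold Hk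
  rw [norm_mul, norm_mul, norm_mul, ch_norm, one_mul]
  by_cases hx : q.1.1 ∈ EN N u
  · by_cases hξ : q.2 ∈ Ann r1 r2
    · rw [Set.indicator_of_mem (by exact ⟨⟨hx, Set.mem_univ _⟩, hξ⟩)]
      have h1 := hD q.1.2 q.2
      rw [Set.indicator_of_mem hξ] at h1
      have h2 : ‖sg u N q.1.1‖ * ‖c q.1.2 q.1.1‖ ≤ 1 :=
        mul_le_one₀ (sg_bd _ _ _) (norm_nonneg _) (hc1 _ _)
      calc _ ≤ 1 * D := mul_le_mul h2 h1 (norm_nonneg _) zero_le_one
        _ = D := one_mul D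
    · have h1 := hD q.1.2 q.2
      rw [Set.indicator_of_notMem hξ] at h1
      rw [Set.indicator_of_notMem (by intro h; exact hξ h.2)]
      have h2 : ‖((((‖q.2‖ ^ 2)⁻¹ : ℝ) : ℂ) * E q.1.2 q.2)‖ = 0 := le_antisymm h1 (norm_nonneg _)
      rw [h2, mul_zero]
  · rw [Set.indicator_of_notMem (by intro h; exact hx h.1.1)]
    have : sg u N q.1.1 = 0 := Set.indicator_of_notMem hx _
    rw [this]; simp

/-- the exponent at `z` -/
def al (p : ℝ) (k : ℕ) (z : ℂ) : ℂ := (p / (2 * k) : ℝ) - z * (p / (2 * k * (k + 1)) : ℝ)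

/-- the interpolation function -/
def FF (lam : Measure T) (E : T → ℂ → ℂ) (ρ : ℂ → ℝ) (r1 r2 : ℝ) (c : T → ℂ → ℂ) (u : ℂ → ℂ)
    (p : ℝ) (k N : ℕ) (z : ℂ) : ℂ :=
  ∫ q : (ℂ × T) × ℂ, Hk E c u N q * Complex.exp
    ((((p - p / (2 * k)) * Lu u N q.1.1 + p / (2 * k) * Lr ρ r1 r2 q.2 : ℝ) : ℂ) +
      z * ((p / (2 * k * (k + 1)) * (Lu u N q.1.1 - Lr ρ r1 r2 q.2) : ℝ) : ℂ))
    ∂((volume.prod lam).prod volume)

theorem a_meas (hρ : Wt ρ r1 r2) (hu : Measurable u) (N : ℕ) (A B : ℝ) :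
    Measurable (fun q : (ℂ × T) × ℂ => A * Lu u N q.1.1 + B * Lr ρ r1 r2 q.2) := by
  have h1 : Measurable (fun q : (ℂ × T) × ℂ => Lu u N q.1.1) := (Lu_meas N hu).comp (by fun_prop)
  have h2 : Measurable (fun q : (ℂ × T) × ℂ => Lr ρ r1 r2 q.2) := (Lr_meas hρ.meas).comp (by fun_prop)
  exact (h1.const_mul A).add (h2.const_mul B)

theorem ab_bd (hρ : Wt ρ r1 r2) (N : ℕ) (A B : ℝ) : ∃ M : ℝ, 0 ≤ M ∧
    ∀ q : (ℂ × T) × ℂ, |A * Lu u N q.1.1 + B * Lr ρ r1 r2 q.2| ≤ M := by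
  obtain ⟨M, hM0, hM⟩ := Lr_bd hρ
  have hN : 0 ≤ Real.log ((N:ℝ) + 1) := Real.log_nonneg (by
    have : (0:ℝ) ≤ N := Nat.cast_nonneg N
    linarith)
  refine ⟨|A| * Real.log (N + 1) + |B| * M, by positivity, fun q => ?_⟩
  refine (abs_add_le _ _).trans ?_
  rw [abs_mul, abs_mul]
  exact add_le_add (mul_le_mul_of_nonneg_left (Lu_bd _ _ _) (abs_nonneg _))
    (mul_le_mul_of_nonneg_left (hM _) (abs_nonneg _))

theorem FF_diff (hE : Fam T lam E r1 r2) (hρ : Wt ρ r1 r2) (hc : Measurable (Function.uncurry c))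
    (hc1 : ∀ t x, ‖c t x‖ ≤ 1) (hu : Measurable u) (p : ℝ) (k N : ℕ) :
    Differentiable ℂ (FF lam E ρ r1 r2 c u p k N) := by
  obtain ⟨M1, hM10, hM1⟩ := ab_bd (T := T) (u := u) hρ N (p - p / (2 * k)) (p / (2 * k))
  obtain ⟨M2, hM20, hM2⟩ := ab_bd (T := T) (u := u) hρ N (p / (2 * k * (k + 1)))
    (-(p / (2 * k * (k + 1))))
  refine entire _ _ (Hk_int hE hc hc1 hu N) _ _ (a_meas hρ hu N _ _) ?_ (max M1 M2)
    (le_max_of_le_left hM10) (fun q => (hM1 q).trans (le_max_left _ _)) (fun q => ?_)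
  · have := a_meas (T := T) hρ hu N (p / (2 * k * (k + 1))) (-(p / (2 * k * (k + 1))))
    have h2 : (fun q : (ℂ × T) × ℂ => p / (2 * k * (k + 1)) * (Lu u N q.1.1 - Lr ρ r1 r2 q.2)) =
        fun q => p / (2 * k * (k + 1)) * Lu u N q.1.1 + -(p / (2 * k * (k + 1))) * Lr ρ r1 r2 q.2 := by
      funext q; ring
    rw [h2]; exact this
  · refine le_trans (le_of_eq ?_) ((hM2 q).trans (le_max_right _ _))
    congr 1; ring

theorem FF_bd (hE : Fam T lam E r1 r2) (hρ : Wt ρ r1 r2) (hc : Measurable (Function.uncurry c))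
    (hc1 : ∀ t x, ‖c t x‖ ≤ 1) (hu : Measurable u) (p : ℝ) (k N : ℕ) :
    ∃ D : ℝ, 0 ≤ D ∧ ∀ z : ℂ, 0 ≤ z.re → z.re ≤ 1 → ‖FF lam E ρ r1 r2 c u p k N z‖ ≤ D := by
  obtain ⟨M1, hM10, hM1⟩ := ab_bd (T := T) (u := u) hρ N (p - p / (2 * k)) (p / (2 * k))
  obtain ⟨M2, hM20, hM2⟩ := ab_bd (T := T) (u := u) hρ N (p / (2 * k * (k + 1)))
    (-(p / (2 * k * (k + 1))))
  have hH := Hk_int hE hc hc1 hu N
  refine ⟨∫ q, ‖Hk E c u N q‖ * Real.exp (M1 + M2) ∂((volume.prod lam).prod volume),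
    integral_nonneg fun q => by positivity, fun z hz0 hz1 => ?_⟩
  unfold FF
  refine norm_integral_le_of_norm_le (hH.norm.mul_const _) (ae_of_all _ fun q => ?_)
  rw [norm_mul]
  refine mul_le_mul_of_nonneg_left ?_ (norm_nonneg _)
  rw [Complex.norm_exp]
  apply Real.exp_le_exp.2
  simp only [Complex.add_re, Complex.ofReal_re, Complex.mul_re, Complex.ofReal_im, mul_zero, sub_zero]
  have h1 := (le_abs_self _).trans (hM1 q)
  have h2 : |z.re * (p / (2 * k * (k + 1)) * (Lu u N q.1.1 - Lr ρ r1 r2 q.2))| ≤ 1 * M2 := by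
    rw [abs_mul]
    refine mul_le_mul (abs_le.2 ⟨by linarith, hz1⟩) ?_ (abs_nonneg _) zero_le_one
    refine le_trans (le_of_eq ?_) (hM2 q)
    congr 1; ring
  have h3 := (le_abs_self _).trans h2
  linarith

theorem G_int (hE : Fam T lam E r1 r2) (hρ : Wt ρ r1 r2) (hc : Measurable (Function.uncurry c))
    (hc1 : ∀ t x, ‖c t x‖ ≤ 1) (hu : Measurable u) (p : ℝ) (N : ℕ) (α : ℂ) :
    Integrable (fun q : (ℂ × T) × ℂ => Hk E c u N q * Complex.exp
      ((p - α) * Lu u N q.1.1 + α * Lr ρ r1 r2 q.2)) ((volume.prod lam).prod volume) := by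
  obtain ⟨M, hM0, hM⟩ := ab_bd (T := T) (u := u) hρ N (p - α.re) α.re
  have hH := Hk_int hE hc hc1 hu N
  have h1 : Measurable (fun q : (ℂ × T) × ℂ => Lu u N q.1.1) := (Lu_meas N hu).comp (by fun_prop)
  have h2 : Measurable (fun q : (ℂ × T) × ℂ => Lr ρ r1 r2 q.2) := (Lr_meas hρ.meas).comp (by fun_prop)
  have hm : Measurable (fun q : (ℂ × T) × ℂ => Complex.exp
      ((p - α) * Lu u N q.1.1 + α * Lr ρ r1 r2 q.2)) := by
    refine Complex.measurable_exp.comp ?_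
    exact ((Complex.measurable_ofReal.comp h1).const_mul _).add
      ((Complex.measurable_ofReal.comp h2).const_mul _)
  refine (hH.norm.mul_const (Real.exp M)).mono'
    (hH.aestronglyMeasurable.mul hm.aestronglyMeasurable) (ae_of_all _ fun q => ?_)
  rw [norm_mul]
  refine mul_le_mul_of_nonneg_left ?_ (norm_nonneg _)
  rw [Complex.norm_exp]
  apply Real.exp_le_exp.2
  refine le_trans (le_of_eq ?_) ((le_abs_self _).trans (hM q))
  simp

theorem W_sm (hE : Fam T lam E r1 r2) (hρ : Wt ρ r1 r2) (α : ℂ) :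
    StronglyMeasurable (fun q : ℂ × T => W E ρ r1 r2 α q.2 q.1) := by
  unfold W
  have h3 : Measurable (fun q : (ℂ × T) × ℂ => ch q.1.1 q.2) :=
    ch_meas.comp (f := fun q : (ℂ × T) × ℂ => (q.1.1, q.2)) (by fun_prop)
  have h4 : Measurable (fun q : (ℂ × T) × ℂ => E q.1.2 q.2) :=
    hE.meas.comp (f := fun q : (ℂ × T) × ℂ => (q.1.2, q.2)) (by fun_prop)
  have h5 : Measurable (fun q : (ℂ × T) × ℂ => ((((‖q.2‖ ^ 2)⁻¹ : ℝ) : ℂ))) := by fun_prop
  have h2 : Measurable (fun q : (ℂ × T) × ℂ => Lr ρ r1 r2 q.2) := (Lr_meas hρ.meas).comp (by fun_prop)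
  have h6 : Measurable (fun q : (ℂ × T) × ℂ => Complex.exp (α * Lr ρ r1 r2 q.2)) :=
    Complex.measurable_exp.comp ((Complex.measurable_ofReal.comp h2).const_mul _)
  have h7 : Measurable (fun q : (ℂ × T) × ℂ => ch q.1.1 q.2 * ((((‖q.2‖ ^ 2)⁻¹ : ℝ) : ℂ) * E q.1.2 q.2) *
      Complex.exp (α * Lr ρ r1 r2 q.2)) := (h3.mul (h5.mul h4)).mul h6
  exact h7.stronglyMeasurable.integral_prod_right'

/-- Fubini form -/
theorem FF_eq (hE : Fam T lam E r1 r2) (hρ : Wt ρ r1 r2) (hc : Measurable (Function.uncurry c))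
    (hc1 : ∀ t x, ‖c t x‖ ≤ 1) (hu : Measurable u) (p : ℝ) (k N : ℕ) (z : ℂ) :
    FF lam E ρ r1 r2 c u p k N z = ∫ x, sg u N x * Complex.exp ((p - al p k z) * Lu u N x) *
      ∫ t, c t x * W E ρ r1 r2 (al p k z) t x ∂lam := by
  have := sfin hE
  have hG := G_int hE hρ hc hc1 hu p N (al p k z)
  have h0 : FF lam E ρ r1 r2 c u p k N z = ∫ q : (ℂ × T) × ℂ, Hk E c u N q * Complex.exp
      ((p - al p k z) * Lu u N q.1.1 + al p k z * Lr ρ r1 r2 q.2)
      ∂((volume.prod lam).prod volume) := by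
    unfold FF
    congr 1
    funext q
    congr 2
    unfold al
    push_cast
    ring
  rw [h0, integral_prod _ hG]
  have h1 : ∀ xt : ℂ × T, ∫ ξ : ℂ, Hk E c u N (xt, ξ) * Complex.exp
      ((p - al p k z) * Lu u N xt.1 + al p k z * Lr ρ r1 r2 ξ) =
      sg u N xt.1 * Complex.exp ((p - al p k z) * Lu u N xt.1) *
        (c xt.2 xt.1 * W E ρ r1 r2 (al p k z) xt.2 xt.1) := by
    intro xt
    unfold W
    rw [← integral_const_mul, ← integral_const_mul]
    congr 1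
    funext ξ
    unfold Hk
    rw [Complex.exp_add]
    ring
  have h2 := hG.integral_prod_left
  simp only [h1] at h2 ⊢
  rw [integral_prod _ h2]
  congr 1
  funext x
  rw [← integral_const_mul]

/-- Cauchy-Schwarz in `t` -/
theorem inner_le (hE : Fam T lam E r1 r2) (hρ : Wt ρ r1 r2) 
    (hc1 : ∀ t x, ‖c t x‖ ≤ 1) (α : ℂ) (x : ℂ) :
    ‖∫ t, c t x * W E ρ r1 r2 α t x ∂lam‖ₑ ≤ (∫⁻ t, ‖W E ρ r1 r2 α t x‖ₑ ^ 2 ∂lam) ^ (1/2 : ℝ) := by
  have := sfin hE
  have hWm : Measurable (fun t => W E ρ r1 r2 α t x) :=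
    (W_sm hE hρ α).measurable.comp (f := fun t : T => (x, t)) (by fun_prop)
  calc ‖∫ t, c t x * W E ρ r1 r2 α t x ∂lam‖ₑ ≤ ∫⁻ t, ‖c t x * W E ρ r1 r2 α t x‖ₑ ∂lam :=
        enorm_integral_le_lintegral_enorm _
    _ ≤ ∫⁻ t, (fun _ => (1:ℝ≥0∞)) t * ‖W E ρ r1 r2 α t x‖ₑ ∂lam := by
        refine lintegral_mono fun t => ?_
        rw [enorm_mul]
        gcongr
        rw [← ofReal_norm]
        exact ENNReal.ofReal_le_one.2 (hc1 t x)
    _ ≤ (∫⁻ t, (1:ℝ≥0∞) ^ (2:ℝ) ∂lam) ^ (1 / 2 : ℝ) *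
        (∫⁻ t, ‖W E ρ r1 r2 α t x‖ₑ ^ (2:ℝ) ∂lam) ^ (1 / 2 : ℝ) :=
        ENNReal.lintegral_mul_le_Lp_mul_Lq lam Real.HolderConjugate.two_two
          measurable_const.aemeasurable hWm.enorm.aemeasurable
    _ = _ := by
        simp

theorem FF_le (hE : Fam T lam E r1 r2) (hρ : Wt ρ r1 r2) (hc : Measurable (Function.uncurry c))
    (hc1 : ∀ t x, ‖c t x‖ ≤ 1) (hu : Measurable u) (p : ℝ) (k N : ℕ) (z : ℂ)
    (k' : ℕ) (hk' : 1 ≤ k') (s : ℂ) (hs : s.re = 1) (hα : al p k z = (p / (2 * k') : ℝ) * s) :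
    ‖FF lam E ρ r1 r2 c u p k N z‖ₑ ≤ (∫⁻ x in EN N u, ‖u x‖ₑ ^ p) ^ (1 - 1 / (2 * k') : ℝ) *
      (∫⁻ x, N2 lam E (fun ξ => ρ ξ ^ (p / (2 * k'))) s x ^ k') ^ (1 / (2 * k') : ℝ) := by
  have := sfin hE
  have hk0 : (1:ℝ) ≤ k' := by exact_mod_cast hk'
  have hN2 : ∀ x, ∫⁻ t, ‖W E ρ r1 r2 (al p k z) t x‖ₑ ^ 2 ∂lam =
      N2 lam E (fun ξ => ρ ξ ^ (p / (2 * k'))) s x := by
    intro x
    unfold N2
    congr 1
    funext t
    rw [hα, W_eq hE hρ]
  have hN2m : Measurable (fun x => N2 lam E (fun ξ => ρ ξ ^ (p / (2 * k'))) s x) := by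
    have h1 : (fun x => N2 lam E (fun ξ => ρ ξ ^ (p / (2 * k'))) s x) =
        fun x => ∫⁻ t, ‖W E ρ r1 r2 (al p k z) t x‖ₑ ^ 2 ∂lam := by
      funext x; rw [hN2]
    rw [h1]
    have h2 : Measurable (fun q : ℂ × T => ‖W E ρ r1 r2 (al p k z) q.2 q.1‖ₑ ^ 2) :=
      ((W_sm hE hρ (al p k z)).measurable.enorm).pow_const 2
    exact h2.lintegral_prod_right'
  have hre : (al p k z).re = p / (2 * k') := by
    rw [hα, Complex.re_ofReal_mul, hs, mul_one]
  have hconj : Real.HolderConjugate (2 * k' / (2 * k' - 1) : ℝ) (2 * k') := by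
    rw [Real.holderConjugate_iff]
    have h2k : (0:ℝ) < 2 * k' - 1 := by linarith
    constructor
    · rw [lt_div_iff₀ h2k]; linarith
    · field_simp; ring
  set f : ℂ → ℝ≥0∞ := (EN N u).indicator (fun x => ‖u x‖ₑ ^ (p - p / (2 * k') : ℝ)) with hf
  have hfm : Measurable f := (hu.enorm.pow_const _).indicator (EN_meas N u hu)
  rw [FF_eq hE hρ hc hc1 hu]
  calc ‖∫ x, sg u N x * Complex.exp ((p - al p k z) * Lu u N x) *
      ∫ t, c t x * W E ρ r1 r2 (al p k z) t x ∂lam‖ₑ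
      ≤ ∫⁻ x, ‖sg u N x * Complex.exp ((p - al p k z) * Lu u N x) *
      ∫ t, c t x * W E ρ r1 r2 (al p k z) t x ∂lam‖ₑ := enorm_integral_le_lintegral_enorm _
    _ ≤ ∫⁻ x, f x * (N2 lam E (fun ξ => ρ ξ ^ (p / (2 * k'))) s x) ^ (1/2 : ℝ) := by
        refine lintegral_mono fun x => ?_
        simp only
        rw [enorm_mul]
        refine mul_le_mul' ?_ ?_
        · by_cases hx : x ∈ EN N u
          · rw [hf, Set.indicator_of_mem hx, enorm_mul]
            have h1 : ‖sg u N x‖ₑ ≤ 1 := by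
              rw [← ofReal_norm]
              exact ENNReal.ofReal_le_one.2 (sg_bd u N x)
            have h2 : ‖Complex.exp ((p - al p k z) * Lu u N x)‖ₑ = ‖u x‖ₑ ^ (p - p / (2 * k') : ℝ) := by
              rw [← ofReal_norm, Complex.norm_exp, ← ofReal_norm,
                ENNReal.ofReal_rpow_of_pos (norm_pos_of_EN hx),
                Real.rpow_def_of_pos (norm_pos_of_EN hx)]
              congr 2
              unfold Lu
              rw [Set.indicator_of_mem hx]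
              simp [hre]
              ring
            rw [h2]
            exact (mul_le_mul_left h1 _).trans (by simp)
          · have : sg u N x = 0 := Set.indicator_of_notMem hx _
            rw [this]; simp
        · rw [← hN2]
          exact inner_le hE hρ hc1 _ _
    _ ≤ (∫⁻ x, f x ^ (2 * k' / (2 * k' - 1) : ℝ)) ^ (1 / (2 * k' / (2 * k' - 1)) : ℝ) *
        (∫⁻ x, ((N2 lam E (fun ξ => ρ ξ ^ (p / (2 * k'))) s x) ^ (1/2 : ℝ)) ^ (2 * k' : ℝ)) ^
          (1 / (2 * k') : ℝ) :=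
        ENNReal.lintegral_mul_le_Lp_mul_Lq volume hconj hfm.aemeasurable
          (hN2m.pow_const _).aemeasurable
    _ = _ := by
        congr 1
        · have h1 : (1 / (2 * k' / (2 * k' - 1)) : ℝ) = 1 - 1 / (2 * k') := by
            field_simp
          rw [h1]
          congr 1
          rw [← lintegral_indicator (EN_meas N u hu)]
          congr 1
          funext x
          by_cases hx : x ∈ EN N u
          · rw [hf, Set.indicator_of_mem hx, Set.indicator_of_mem hx, ← ENNReal.rpow_mul]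
            congr 1
            have : (2 * (k':ℝ) - 1) ≠ 0 := by linarith
            field_simp
          · rw [hf, Set.indicator_of_notMem hx, Set.indicator_of_notMem hx]
            apply ENNReal.zero_rpow_of_pos
            apply div_pos <;> linarith
        · congr 1
          congr 1
          funext x
          rw [← ENNReal.rpow_mul, ← ENNReal.rpow_natCast]
          congr 1
          ring


theorem u_meas (hE : Fam T lam E r1 r2) (hρ : Wt ρ r1 r2) (hc : Measurable (Function.uncurry c))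
    (hu : ∀ x, u x = ∫ t, c t x * ext E ρ 1 t x ∂lam) : Measurable u := by
  have := sfin hE
  have h1 : u = fun x => ∫ t, c t x * W E ρ r1 r2 1 t x ∂lam := by
    funext x
    rw [hu x]
    congr 1
    funext t
    rw [W_one hE hρ]
  rw [h1]
  have h2 : Measurable (fun q : ℂ × T => c q.2 q.1 * W E ρ r1 r2 1 q.2 q.1) :=
    (hc.comp (f := fun q : ℂ × T => (q.2, q.1)) (by fun_prop)).mul (W_sm hE hρ 1).measurable
  exact h2.stronglyMeasurable.integral_prod_right'.measurable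

/-- the truncated norm -/
def IN (u : ℂ → ℂ) (p : ℝ) (N : ℕ) : ℝ := ∫ x in EN N u, ‖u x‖ ^ p

theorem IN_nonneg (u : ℂ → ℂ) (p : ℝ) (N : ℕ) : 0 ≤ IN u p N :=
  integral_nonneg fun _ => by positivity

theorem IN_eq (hu : Measurable u) (p : ℝ) (hp : 0 < p) (N : ℕ) :
    ENNReal.ofReal (IN u p N) = ∫⁻ x in EN N u, ‖u x‖ₑ ^ p := by
  unfold IN
  have hm : Measurable (fun x => ‖u x‖ ^ p) := hu.norm.pow_const p
  have hint : IntegrableOn (fun x => ‖u x‖ ^ p) (EN N u) := by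
    refine Measure.integrableOn_of_bounded (M := ((N:ℝ) + 1) ^ p) (EN_finite N u).ne
      hm.aestronglyMeasurable ?_
    refine (ae_restrict_iff' (EN_meas N u hu)).2 (ae_of_all _ fun x hx => ?_)
    rw [Real.norm_of_nonneg (by positivity)]
    exact Real.rpow_le_rpow (norm_nonneg _) hx.2.1 hp.le
  rw [ofReal_integral_eq_lintegral_ofReal hint (ae_of_all _ fun x => by positivity)]
  congr 1
  funext x
  rw [← ENNReal.ofReal_rpow_of_nonneg (norm_nonneg _) hp.le, ofReal_norm]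

theorem FF_theta (hE : Fam T lam E r1 r2) (hρ : Wt ρ r1 r2) (hc : Measurable (Function.uncurry c))
    (hc1 : ∀ t x, ‖c t x‖ ≤ 1) (hu : ∀ x, u x = ∫ t, c t x * ext E ρ 1 t x ∂lam)
    (p : ℝ) (k N : ℕ) (z : ℂ) (hz : al p k z = 1) :
    FF lam E ρ r1 r2 c u p k N z = (IN u p N : ℂ) := by
  have hum := u_meas hE hρ hc hu
  rw [FF_eq hE hρ hc hc1 hum, hz]
  unfold IN
  rw [← integral_indicator (EN_meas N u hum), ← integral_complex_ofReal]
  congr 1
  funext x
  have h1 : ∫ t, c t x * W E ρ r1 r2 1 t x ∂lam = u x := by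
    rw [hu x]
    congr 1
    funext t
    rw [W_one hE hρ]
  rw [h1]
  by_cases hx : x ∈ EN N u
  · have hpos := norm_pos_of_EN hx
    rw [Set.indicator_of_mem hx]
    unfold sg Lu
    rw [Set.indicator_of_mem hx, Set.indicator_of_mem hx]
    have h2 : Complex.exp (((p:ℂ) - 1) * (Real.log ‖u x‖ : ℝ)) = ((‖u x‖ ^ (p - 1) : ℝ) : ℂ) := by
      rw [Real.rpow_def_of_pos hpos, Complex.ofReal_exp]
      congr 1
      push_cast
      ring
    rw [h2]
    have h3 : conj (u x) * u x = ((‖u x‖ ^ 2 : ℝ) : ℂ) := by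
      rw [mul_comm, Complex.mul_conj, Complex.normSq_eq_norm_sq]
    have h4 : (‖u x‖ : ℝ) ^ p = ‖u x‖ ^ (p - 1) * ‖u x‖ := by
      rw [← Real.rpow_add_one hpos.ne']
      congr 1; ring
    have h5 : ((‖u x‖ : ℝ) : ℂ) ≠ 0 := by exact_mod_cast hpos.ne'
    calc conj (u x) / ((‖u x‖ : ℝ) : ℂ) * ((‖u x‖ ^ (p - 1) : ℝ) : ℂ) * u x
        = (conj (u x) * u x) * ((‖u x‖ ^ (p - 1) : ℝ) : ℂ) / ((‖u x‖ : ℝ) : ℂ) := by ring
      _ = ((‖u x‖ ^ p : ℝ) : ℂ) := by
          rw [h3, h4]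
          push_cast
          field_simp
  · rw [Set.indicator_of_notMem hx]
    have : sg u N x = 0 := Set.indicator_of_notMem hx _
    rw [this]; simp

theorem iSup_EN (hu : Measurable u) (p : ℝ) (hp : 0 < p) :
    nr p u = ⨆ N : ℕ, ∫⁻ x in EN N u, ‖u x‖ₑ ^ p := by
  have h1 : ∀ N : ℕ, ∫⁻ x in EN N u, ‖u x‖ₑ ^ p =
      ∫⁻ x, (EN N u).indicator (fun x => ‖u x‖ₑ ^ p) x := by
    intro N
    rw [lintegral_indicator (EN_meas N u hu)]
  simp only [h1]
  have hmono : Monotone (fun N : ℕ => EN N u) := by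
    intro M N hMN x hx
    have hMN' : (M:ℝ) + 1 ≤ N + 1 := by
      have : (M:ℝ) ≤ N := by exact_mod_cast hMN
      linarith
    refine ⟨le_trans ?_ hx.1, hx.2.1.trans hMN', hx.2.2.trans hMN'⟩
    exact inv_anti₀ (by positivity) hMN'
  rw [← lintegral_iSup]
  · unfold nr
    congr 1
    funext x
    apply le_antisymm
    · by_cases hx : u x = 0
      · rw [hx]; simp [ENNReal.zero_rpow_of_pos hp]
      · obtain ⟨N, hN⟩ := exists_nat_ge (max (‖u x‖⁻¹) (max ‖u x‖ ‖x‖))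
        have hN1 := (le_max_left _ _).trans hN
        have hN2 := ((le_max_left _ _).trans (le_max_right _ _)).trans hN
        have hN3 := ((le_max_right _ _).trans (le_max_right _ _)).trans hN
        have hpos : 0 < ‖u x‖ := norm_pos_iff.2 hx
        have hmem : x ∈ EN N u := by
          refine ⟨?_, by linarith, by linarith⟩
          rw [inv_le_comm₀ (by positivity) hpos]
          linarith
        refine le_iSup_of_le N ?_
        rw [Set.indicator_of_mem hmem]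
    · refine iSup_le fun N => ?_
      exact Set.indicator_le_self _ _ x
  · intro N
    exact (hu.enorm.pow_const p).indicator (EN_meas N u hu)
  · intro M N hMN x
    exact Set.indicator_le_indicator_of_subset (hmono hMN) (fun _ => zero_le) x

end

/-- the optimisation -/
theorem opt (k : ℕ) (hk : 1 ≤ k) (θ : ℝ) (h0 : 0 < θ) (h1 : θ < 1) (p : ℝ)
    (hp : 1 / p = (1 - θ) / (2 * k) + θ / (2 * k + 2)) (In C0 C1 Z I0 r : ℝ)
    (hIn : 0 < In) (hC0 : 0 < C0) (hC1 : 0 < C1) (hZ : 0 < Z) (hI0 : 0 < I0) (hr : 0 < r)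
    (h : ∀ μ : ℝ, In * r * Real.exp (μ * θ) ≤ I0 * (In ^ (1 - 1 / (2 * k) : ℝ) * (C0 * Z) ^ (1 / (2 * k) : ℝ)) +
      Real.exp μ * (θ ^ (1 - 1 / (2 * k + 2) : ℝ) * (In ^ (2 * k + 1 : ℝ) * (C1 * Z)) ^ (1 / (2 * k + 2) : ℝ))) :
    In ≤ ((I0 / (1 - θ)) ^ (1 - θ) * C0 ^ ((1 - θ) / (2 * k)) *
      (C1 / θ) ^ (θ / (2 * k + 2)) / r) ^ p * Z := by
  have hk0 : (1:ℝ) ≤ k := by exact_mod_cast hk
  have hpp : 0 < p := by
    have h2 : 0 < 1 / p := by
      rw [hp]
      have : 0 < 1 - θ := by linarith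
      positivity
    exact one_div_pos.1 h2
  have hθ1 : 0 < 1 - θ := by linarith
  set A := I0 * (In ^ (1 - 1 / (2 * k) : ℝ) * (C0 * Z) ^ (1 / (2 * k) : ℝ)) with hA
  set B := θ ^ (1 - 1 / (2 * k + 2) : ℝ) * (In ^ (2 * k + 1 : ℝ) * (C1 * Z)) ^ (1 / (2 * k + 2) : ℝ) with hB
  have hApos : 0 < A := by positivity
  have hBpos : 0 < B := by positivity
  have hlogA : Real.log A = Real.log I0 + ((1 - 1 / (2 * k)) * Real.log In +
      1 / (2 * k) * (Real.log C0 + Real.log Z)) := by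
    rw [hA, Real.log_mul (by positivity) (by positivity), Real.log_mul (by positivity) (by positivity),
      Real.log_rpow hIn, Real.log_rpow (by positivity), Real.log_mul (by positivity) (by positivity)]
  have hlogB : Real.log B = (1 - 1 / (2 * k + 2)) * Real.log θ +
      1 / (2 * k + 2) * ((2 * k + 1) * Real.log In + (Real.log C1 + Real.log Z)) := by
    rw [hB, Real.log_mul (by positivity) (by positivity), Real.log_rpow h0,
      Real.log_rpow (by positivity), Real.log_mul (by positivity) (by positivity),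
      Real.log_rpow hIn, Real.log_mul (by positivity) (by positivity)]
  clear_value A B
  have hμ := h (Real.log (θ * A / ((1 - θ) * B)))
  rw [Real.exp_log (by positivity)] at hμ
  have h3 : A + θ * A / ((1 - θ) * B) * B = A / (1 - θ) := by
    field_simp
    ring
  rw [h3] at hμ
  have h4 := Real.log_le_log (by positivity) hμ
  rw [Real.log_mul (by positivity) (by positivity), Real.log_exp, Real.log_mul (by positivity) (by positivity),
    Real.log_div (by positivity) (by positivity), Real.log_mul (by positivity) (by positivity),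
    Real.log_mul (by positivity) (by positivity), Real.log_div (by positivity) (by positivity),
    hlogA, hlogB] at h4
  have hgoal : 0 < ((I0 / (1 - θ)) ^ (1 - θ) * C0 ^ ((1 - θ) / (2 * k)) *
      (C1 / θ) ^ (θ / (2 * k + 2)) / r) ^ p * Z := by positivity
  rw [← Real.log_le_log_iff hIn hgoal, Real.log_mul (by positivity) (by positivity),
    Real.log_rpow (by positivity), Real.log_div (by positivity) (by positivity),
    Real.log_mul (by positivity) (by positivity), Real.log_mul (by positivity) (by positivity),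
    Real.log_rpow (by positivity), Real.log_rpow (by positivity), Real.log_rpow (by positivity),
    Real.log_div (by positivity) (by positivity), Real.log_div (by positivity) (by positivity)]
  generalize Real.log In = LI at *
  generalize Real.log r = Lr at *
  generalize Real.log I0 = LI0 at *
  generalize Real.log C0 = LC0 at *
  generalize Real.log C1 = LC1 at *
  generalize Real.log Z = LZ at *
  generalize Real.log θ = Lθ at *
  generalize Real.log (1 - θ) = Lt at *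
  have h5 : 1 / p * LI ≤ ((1 - θ) * (LI0 - Lt) + (1 - θ) / (2 * k) * LC0 +
      θ / (2 * k + 2) * (LC1 - Lθ) - Lr) + 1 / p * LZ := by
    rw [hp]
    have h6 : (1:ℝ) / (2 * k + 2) * (2 * k + 1) = 1 - 1 / (2 * k + 2) := by field_simp; ring
    have h7 : 1 / (2 * k + 2) * ((2 * k + 1) * LI + (LC1 + LZ)) =
      (1 - 1 / (2 * (k:ℝ) + 2)) * LI + 1 / (2 * k + 2) * (LC1 + LZ) := by
      rw [← h6]; ring
    rw [h7] at h4
    have h8 : (1 - θ) / (2 * (k:ℝ)) = (1 - θ) * (1 / (2 * k)) := by ring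
    have h9 : θ / (2 * (k:ℝ) + 2) = θ * (1 / (2 * k + 2)) := by ring
    rw [h8, h9]
    generalize 1 / (2 * (k:ℝ)) = a at *
    generalize 1 / (2 * (k:ℝ) + 2) = b at *
    nlinarith [h4]
  have h10 := mul_le_mul_of_nonneg_left h5 hpp.le
  have h11 : p * (1 / p * LI) = LI := by field_simp
  have h12 : ∀ X : ℝ, p * (X + 1 / p * LZ) = p * X + LZ := by
    intro X; field_simp
  rw [h11, h12] at h10
  exact h10


theorem strip_cl (z : ℂ) (h0 : 0 ≤ z.re) (h1 : z.re ≤ 1) : z ∈ closure strip := by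
  have h : strip = Complex.re ⁻¹' Set.Ioo 0 1 := rfl
  rw [h, Complex.closure_preimage_re, closure_Ioo zero_ne_one]
  exact ⟨h0, h1⟩

theorem cont_line {R : ℂ → ℂ} (hR : DiffContOnCl ℂ R strip) (a : ℝ) (h0 : 0 ≤ a) (h1 : a ≤ 1) :
    Continuous (fun y : ℝ => R (a + y * I)) := by
  have h2 : Continuous (fun y : ℝ => (a : ℂ) + y * I) := by fun_prop
  refine hR.continuousOn.comp_continuous h2 fun y => ?_
  exact strip_cl _ (by simpa using h0) (by simpa using h1)

theorem lint_om1 (θ : ℝ) (h0 : 0 < θ) (h1 : θ < 1) : ∫⁻ y, ENNReal.ofReal (om1 θ y) = ENNReal.ofReal θ := by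
  have hi : Integrable (om1 θ) := by
    have := (om_int θ h0 h1 0).2
    simpa using this
  rw [← ofReal_integral_eq_lintegral_ofReal hi (ae_of_all _ fun y => (om_pos θ y h0 h1).2.le),
    (om_mass θ h0 h1).2]

/-- Hoelder on the line `Re z = 1` -/
theorem line1 (θ : ℝ) (h0 : 0 < θ) (h1 : θ < 1) (m : ℝ) (hm : 1 < m) (f : ℝ → ℝ≥0∞) (hf : Measurable f)
    (X : ℝ) (hX : 0 ≤ X) (h : ∫⁻ y, ENNReal.ofReal (om1 θ y) * f y ^ m ≤ ENNReal.ofReal X) :
    ∫⁻ y, ENNReal.ofReal (om1 θ y) * f y ≤ ENNReal.ofReal (θ ^ (1 - 1 / m) * X ^ (1 / m)) := by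
  have hm0 : m - 1 ≠ 0 := by linarith
  have hconj : Real.HolderConjugate (m / (m - 1)) m := by
    rw [Real.holderConjugate_iff]
    constructor
    · rw [lt_div_iff₀ (by linarith)]; linarith
    · field_simp; ring
  have hom : Measurable (fun y => ENNReal.ofReal (om1 θ y)) :=
    (om_cont θ h0 h1).2.measurable.ennreal_ofReal
  have hmpos : 0 < m := by linarith
  calc ∫⁻ y, ENNReal.ofReal (om1 θ y) * f y
      = ∫⁻ y, (fun y => ENNReal.ofReal (om1 θ y) ^ (1 - 1 / m)) y *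
        (fun y => ENNReal.ofReal (om1 θ y) ^ (1 / m) * f y) y := by
        refine lintegral_congr fun y => ?_
        have hp := (om_pos θ y h0 h1).2
        simp only
        rw [← mul_assoc, ← ENNReal.rpow_add _ _ (by simpa using hp) ENNReal.ofReal_ne_top]
        simp
    _ ≤ (∫⁻ y, (ENNReal.ofReal (om1 θ y) ^ (1 - 1 / m)) ^ (m / (m - 1))) ^ (1 / (m / (m - 1))) *
        (∫⁻ y, (ENNReal.ofReal (om1 θ y) ^ (1 / m) * f y) ^ m) ^ (1 / m) :=
        ENNReal.lintegral_mul_le_Lp_mul_Lq volume hconj (hom.pow_const _).aemeasurable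
          ((hom.pow_const _).mul hf).aemeasurable
    _ = (∫⁻ y, ENNReal.ofReal (om1 θ y)) ^ (1 - 1 / m) *
        (∫⁻ y, ENNReal.ofReal (om1 θ y) * f y ^ m) ^ (1 / m) := by
        have e1 : (1 - 1 / m) * (m / (m - 1)) = 1 := by field_simp
        have e2 : 1 / (m / (m - 1)) = 1 - 1 / m := by field_simp
        have e3 : 1 / m * m = 1 := by field_simp
        rw [e2]
        congr 2
        · refine lintegral_congr fun y => ?_
          rw [← ENNReal.rpow_mul, e1, ENNReal.rpow_one]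
        · refine lintegral_congr fun y => ?_
          rw [ENNReal.mul_rpow_of_nonneg _ _ hmpos.le, ← ENNReal.rpow_mul, e3, ENNReal.rpow_one]
    _ ≤ ENNReal.ofReal θ ^ (1 - 1 / m) * (ENNReal.ofReal X) ^ (1 / m) := by
        rw [lint_om1 θ h0 h1]
        gcongr
    _ = _ := by
        have h2 : 0 ≤ 1 - 1 / m := by
          rw [sub_nonneg, div_le_one hmpos]; exact hm.le
        rw [ENNReal.ofReal_rpow_of_nonneg h0.le h2, ENNReal.ofReal_rpow_of_nonneg hX (by positivity),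
          ← ENNReal.ofReal_mul (by positivity)]

theorem core (k : ℕ) (hk : 1 ≤ k) (θ : ℝ) (h0 : 0 < θ) (h1 : θ < 1) (p : ℝ) (hpp : 0 < p)
    (hp : 1 / p = (1 - θ) / (2 * k) + θ / (2 * k + 2)) {T : Type} [MeasurableSpace T] (lam : Measure T)
    (E : T → ℂ → ℂ) (r1 r2 : ℝ) (hE : Fam T lam E r1 r2) (ρ : ℂ → ℝ) (hρ : Wt ρ r1 r2)
    (c : T → ℂ → ℂ) (hc : Measurable (Function.uncurry c)) (hc1 : ∀ t x, ‖c t x‖ ≤ 1)
    (u : ℂ → ℂ) (hu : ∀ x, u x = ∫ t, c t x * ext E ρ 1 t x ∂lam)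
    (Z : ℝ) (hZ : 0 < Z) (C0 C1 : ℝ) (hC0 : 0 < C0) (hC1 : 0 < C1)
    (hb0 : ∀ y : ℝ, ∫⁻ x, N2 lam E (fun ξ => ρ ξ ^ (p / (2 * k))) (1 - (y / (k + 1)) * I) x ^ k
      ≤ ENNReal.ofReal (C0 * Z))
    (g : ℝ → ℝ) (hg0 : ∀ y, 0 ≤ g y)
    (hb1 : ∫⁻ y, ENNReal.ofReal (om1 θ y * g y) *
        ∫⁻ x, N2 lam E (fun ξ => ρ ξ ^ (p / (2 * k + 2))) (1 - (y / k) * I) x ^ (k + 1)
      ≤ ENNReal.ofReal (C1 * Z))
    (R : ℂ → ℂ) (hR : DiffContOnCl ℂ R strip)
    (hRb : ∃ C : ℝ, ∀ z : ℂ, 0 ≤ z.re → z.re ≤ 1 → ‖R z‖ ≤ C * (1 + |z.im|) ^ 4)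
    (hRg : ∀ y : ℝ, ‖R (1 + y * I)‖ ^ (2 * k + 2) ≤ g y)
    (I0 : ℝ) (hI : ∫ y, om0 θ y * ‖R (y * I)‖ ≤ I0) (N : ℕ) (μ : ℝ) :
    IN u p N * ‖R θ‖ * Real.exp (μ * θ) ≤
      I0 * ((IN u p N) ^ (1 - 1 / (2 * k) : ℝ) * (C0 * Z) ^ (1 / (2 * k) : ℝ)) +
      Real.exp μ * (θ ^ (1 - 1 / (2 * k + 2) : ℝ) *
        ((IN u p N) ^ (2 * k + 1 : ℝ) * (C1 * Z)) ^ (1 / (2 * k + 2) : ℝ)) := by
  have hk0 : (1:ℝ) ≤ k := by exact_mod_cast hk
  have hkC : (k:ℂ) ≠ 0 := by exact_mod_cast (by omega : k ≠ 0)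
  have hkC1 : (k:ℂ) + 1 ≠ 0 := by exact_mod_cast (by omega : k + 1 ≠ 0)
  have hum := u_meas hE hρ hc hu
  have hIN0 := IN_nonneg u p N
  have hINe := IN_eq hum p hpp N
  set F : ℂ → ℂ := FF lam E ρ r1 r2 c u p k N with hF
  have hFd : Differentiable ℂ F := FF_diff hE hρ hc hc1 hum p k N
  obtain ⟨D, hD0, hD⟩ := FF_bd hE hρ hc hc1 hum p k N
  obtain ⟨C, hC⟩ := hRb
  have hC0' : 0 ≤ C := by
    have := hC 0 (by simp) (by simp)
    have h2 := (norm_nonneg _).trans this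
    simpa using h2
  -- value at θ
  have hFθ : F θ = (IN u p N : ℂ) := by
    refine FF_theta hE hρ hc hc1 hu p k N _ ?_
    have h2 : p / (2 * k) - θ * (p / (2 * k * (k + 1))) = 1 := by
      have h3 : p * (1 / p) = 1 := by field_simp
      rw [hp] at h3
      have h4 : p / (2 * k) - θ * (p / (2 * k * (k + 1))) =
          p * ((1 - θ) / (2 * (k:ℝ)) + θ / (2 * k + 2)) := by
        field_simp
        ring
      rw [h4, h3]
    unfold al
    exact_mod_cast congrArg (fun x : ℝ => (x : ℂ)) h2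
  set G : ℂ → ℂ := fun z => F z * (R z * Complex.exp (μ * z)) with hG
  have hGd : DiffContOnCl ℂ G strip := by
    have hexp : Differentiable ℂ (fun z : ℂ => Complex.exp (μ * z)) := by fun_prop
    have h2 : DiffContOnCl ℂ (fun z => R z * Complex.exp (μ * z)) strip := hR.smul hexp.diffContOnCl
    exact hFd.diffContOnCl.smul h2
  have hGb : ∃ C : ℝ, ∀ z : ℂ, 0 ≤ z.re → z.re ≤ 1 → ‖G z‖ ≤ C * (1 + |z.im|) ^ 6 := by
    refine ⟨D * (C * Real.exp |μ|), fun z hz0 hz1 => ?_⟩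
    rw [hG]
    simp only
    rw [norm_mul, norm_mul, mul_assoc]
    refine mul_le_mul (hD z hz0 hz1) ?_ (by positivity) hD0
    have h2 : ‖Complex.exp (μ * z)‖ ≤ Real.exp |μ| := by
      rw [Complex.norm_exp]
      apply Real.exp_le_exp.2
      rw [Complex.re_ofReal_mul]
      calc μ * z.re ≤ |μ * z.re| := le_abs_self _
        _ = |μ| * |z.re| := abs_mul _ _
        _ ≤ |μ| * 1 := mul_le_mul_of_nonneg_left (abs_le.2 ⟨by linarith, hz1⟩) (abs_nonneg _)
        _ = |μ| := mul_one _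
    have h3 : (1 + |z.im|) ^ 4 ≤ (1 + |z.im|) ^ 6 :=
      pow_le_pow_right₀ (by linarith [abs_nonneg z.im]) (by norm_num)
    calc ‖R z‖ * ‖Complex.exp (μ * z)‖ ≤ (C * (1 + |z.im|) ^ 4) * Real.exp |μ| :=
          mul_le_mul (hC z hz0 hz1) h2 (norm_nonneg _) (by positivity)
      _ ≤ (C * (1 + |z.im|) ^ 6) * Real.exp |μ| := by gcongr
      _ = C * Real.exp |μ| * (1 + |z.im|) ^ 6 := by ring
  obtain ⟨i0, i1, heq⟩ := strip_formula θ h0 h1 G hGd hGb
  have hGθ : ‖G θ‖ = IN u p N * ‖R θ‖ * Real.exp (μ * θ) := by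
    rw [hG]
    simp only
    rw [hFθ, norm_mul, norm_mul, Complex.norm_real, Real.norm_of_nonneg hIN0, Complex.norm_exp]
    rw [← Complex.ofReal_mul, Complex.ofReal_re]
    ring
  rw [← hGθ, heq]
  refine (norm_add_le _ _).trans (add_le_add ?_ ?_)
  · -- line Re z = 0
    set a0 := (IN u p N) ^ (1 - 1 / (2 * k) : ℝ) * (C0 * Z) ^ (1 / (2 * k) : ℝ) with ha0
    have ha00 : 0 ≤ a0 := by positivity
    have hF0 : ∀ y : ℝ, ‖F (y * I)‖ ≤ a0 := by
      intro y
      have h2 : al p k (y * I) = (p / (2 * k) : ℝ) * (1 - (y / (k + 1)) * I) := by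
        unfold al
        push_cast
        field_simp
      have h3 := FF_le hE hρ hc hc1 hum p k N (y * I) k hk (1 - (y / (k + 1)) * I)
        (by
          have : ((y:ℂ) / (k + 1)) = ((y / (k + 1) : ℝ) : ℂ) := by push_cast; rfl
          rw [this, Complex.sub_re, Complex.one_re, Complex.re_ofReal_mul, Complex.I_re, mul_zero,
            sub_zero]) h2
      have h4 : ‖F (y * I)‖ₑ ≤ ENNReal.ofReal a0 := by
        refine h3.trans ?_
        rw [← hINe, ha0, ENNReal.ofReal_mul (by positivity),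
          ← ENNReal.ofReal_rpow_of_nonneg hIN0 (by
            rw [sub_nonneg, div_le_one (by positivity)]; linarith),
          ← ENNReal.ofReal_rpow_of_nonneg (by positivity) (by positivity)]
        gcongr
        exact hb0 y
      rw [← ofReal_norm] at h4
      exact (ENNReal.ofReal_le_ofReal_iff ha00).1 h4
    have hRc : Continuous (fun y : ℝ => R (y * I)) := by
      have := cont_line hR 0 le_rfl zero_le_one
      simpa using this
    have hint : Integrable (fun y => om0 θ y * ‖R (y * I)‖) := by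
      refine ((om_int θ h0 h1 4).1.mul_const C).mono'
        ((om_cont θ h0 h1).1.mul hRc.norm).aestronglyMeasurable (ae_of_all _ fun y => ?_)
      rw [norm_mul, norm_norm, Real.norm_of_nonneg (om_pos θ y h0 h1).1.le]
      have h2 := hC (y * I) (by simp) (by simp)
      have h3 : |(y * I : ℂ).im| = |y| := by simp
      rw [h3] at h2
      calc om0 θ y * ‖R (y * I)‖ ≤ om0 θ y * (C * (1 + |y|) ^ 4) :=
            mul_le_mul_of_nonneg_left h2 (om_pos θ y h0 h1).1.le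
        _ = om0 θ y * (1 + |y|) ^ 4 * C := by ring
    refine (norm_integral_le_of_norm_le (hint.mul_const a0) (ae_of_all _ fun y => ?_)).trans ?_
    · rw [norm_mul, Complex.norm_real, Real.norm_of_nonneg (om_pos θ y h0 h1).1.le, hG]
      simp only
      rw [norm_mul, norm_mul, Complex.norm_exp]
      have h2 : ((μ:ℂ) * (y * I)).re = 0 := by simp
      rw [h2, Real.exp_zero, mul_one]
      calc om0 θ y * (‖F (y * I)‖ * ‖R (y * I)‖) ≤ om0 θ y * (a0 * ‖R (y * I)‖) := by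
            refine mul_le_mul_of_nonneg_left ?_ (om_pos θ y h0 h1).1.le
            exact mul_le_mul_of_nonneg_right (hF0 y) (norm_nonneg _)
        _ = _ := by ring
    · rw [integral_mul_const]
      exact mul_le_mul_of_nonneg_right hI ha00
  · -- line Re z = 1
    have hRc : Continuous (fun y : ℝ => R (1 + y * I)) := by
      have := cont_line hR 1 zero_le_one le_rfl
      simpa using this
    have hFc : Continuous (fun y : ℝ => F (1 + y * I)) := hFd.continuous.comp (by fun_prop)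
    set X := (IN u p N) ^ (2 * k + 1 : ℝ) * (C1 * Z) with hX
    have hX0 : 0 ≤ X := by positivity
    have h2k : ((2:ℝ) * k + 2) = 2 * ((k + 1 : ℕ) : ℝ) := by push_cast; ring
    have hF1 : ∀ y : ℝ, ‖F (1 + y * I)‖ₑ ^ (2 * k + 2 : ℝ) ≤
        ENNReal.ofReal ((IN u p N) ^ (2 * k + 1 : ℝ)) *
        ∫⁻ x, N2 lam E (fun ξ => ρ ξ ^ (p / (2 * k + 2))) (1 - (y / k) * I) x ^ (k + 1) := by
      intro y
      have h2 : al p k (1 + y * I) = (p / (2 * ((k + 1 : ℕ) : ℝ)) : ℝ) * (1 - (y / k) * I) := by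
        unfold al
        push_cast
        field_simp
        ring
      have h3 := FF_le hE hρ hc hc1 hum p k N (1 + y * I) (k + 1) (by omega) (1 - (y / k) * I)
        (by
          have : ((y:ℂ) / k) = ((y / k : ℝ) : ℂ) := by push_cast; rfl
          rw [this, Complex.sub_re, Complex.one_re, Complex.re_ofReal_mul, Complex.I_re, mul_zero,
            sub_zero]) h2
      rw [← hINe, ← h2k] at h3
      have h4 := ENNReal.rpow_le_rpow h3 (z := 2 * k + 2) (by positivity)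
      rw [ENNReal.mul_rpow_of_nonneg _ _ (by positivity), ← ENNReal.rpow_mul, ← ENNReal.rpow_mul] at h4
      have e1 : (1 - 1 / (2 * (k:ℝ) + 2)) * (2 * k + 2) = 2 * k + 1 := by field_simp; ring
      have e2 : 1 / (2 * (k:ℝ) + 2) * (2 * k + 2) = 1 := by field_simp
      rw [e1, e2, ENNReal.rpow_one, ENNReal.ofReal_rpow_of_nonneg hIN0 (by positivity)] at h4
      exact h4
    have hmain : ∫⁻ y, ENNReal.ofReal (om1 θ y) * (‖R (1 + y * I)‖ₑ * ‖F (1 + y * I)‖ₑ) ^ (2 * k + 2 : ℝ)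
        ≤ ENNReal.ofReal X := by
      calc ∫⁻ y, ENNReal.ofReal (om1 θ y) * (‖R (1 + y * I)‖ₑ * ‖F (1 + y * I)‖ₑ) ^ (2 * k + 2 : ℝ)
          ≤ ∫⁻ y, ENNReal.ofReal ((IN u p N) ^ (2 * k + 1 : ℝ)) * (ENNReal.ofReal (om1 θ y * g y) *
            ∫⁻ x, N2 lam E (fun ξ => ρ ξ ^ (p / (2 * k + 2))) (1 - (y / k) * I) x ^ (k + 1)) := by
            refine lintegral_mono fun y => ?_
            simp only
            rw [ENNReal.mul_rpow_of_nonneg _ _ (by positivity),
              ENNReal.ofReal_mul (om_pos θ y h0 h1).2.le]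
            have h2 : ‖R (1 + y * I)‖ₑ ^ (2 * k + 2 : ℝ) ≤ ENNReal.ofReal (g y) := by
              rw [← ofReal_norm, ENNReal.ofReal_rpow_of_nonneg (norm_nonneg _) (by positivity)]
              apply ENNReal.ofReal_le_ofReal
              have h3 := hRg y
              have h4 : ‖R (1 + y * I)‖ ^ (2 * k + 2 : ℝ) = ‖R (1 + y * I)‖ ^ (2 * k + 2) := by
                rw [← Real.rpow_natCast]
                congr 1
                push_cast; ring
              rw [h4]; exact h3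
            calc ENNReal.ofReal (om1 θ y) * (‖R (1 + y * I)‖ₑ ^ (2 * k + 2 : ℝ) *
                ‖F (1 + y * I)‖ₑ ^ (2 * k + 2 : ℝ))
                ≤ ENNReal.ofReal (om1 θ y) * (ENNReal.ofReal (g y) *
                  (ENNReal.ofReal ((IN u p N) ^ (2 * k + 1 : ℝ)) *
        ∫⁻ x, N2 lam E (fun ξ => ρ ξ ^ (p / (2 * k + 2))) (1 - (y / k) * I) x ^ (k + 1))) := by
                  gcongr
                  exact hF1 y
              _ = _ := by ring
        _ = ENNReal.ofReal ((IN u p N) ^ (2 * k + 1 : ℝ)) * ∫⁻ y, (ENNReal.ofReal (om1 θ y * g y) *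
            ∫⁻ x, N2 lam E (fun ξ => ρ ξ ^ (p / (2 * k + 2))) (1 - (y / k) * I) x ^ (k + 1)) :=
            lintegral_const_mul' _ _ ENNReal.ofReal_ne_top
        _ ≤ ENNReal.ofReal ((IN u p N) ^ (2 * k + 1 : ℝ)) * ENNReal.ofReal (C1 * Z) := by
            gcongr
        _ = ENNReal.ofReal X := by
            rw [hX, ← ENNReal.ofReal_mul (by positivity)]
    have hl := line1 θ h0 h1 (2 * k + 2) (by linarith)
      (fun y => ‖R (1 + y * I)‖ₑ * ‖F (1 + y * I)‖ₑ)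
      (hRc.enorm.measurable.mul hFc.enorm.measurable) X hX0 hmain
    have hfin : ‖∫ y : ℝ, (om1 θ y : ℂ) * G (1 + y * I)‖ₑ ≤
        ENNReal.ofReal (Real.exp μ * (θ ^ (1 - 1 / (2 * k + 2) : ℝ) * X ^ (1 / (2 * k + 2) : ℝ))) := by
      calc ‖∫ y : ℝ, (om1 θ y : ℂ) * G (1 + y * I)‖ₑ ≤ ∫⁻ y : ℝ, ‖(om1 θ y : ℂ) * G (1 + y * I)‖ₑ :=
            enorm_integral_le_lintegral_enorm _
        _ = ∫⁻ y : ℝ, ENNReal.ofReal (Real.exp μ) * (ENNReal.ofReal (om1 θ y) *
              (‖R (1 + y * I)‖ₑ * ‖F (1 + y * I)‖ₑ)) := by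
            refine lintegral_congr fun y => ?_
            rw [hG]
            simp only
            rw [enorm_mul, enorm_mul, enorm_mul]
            have e1 : ‖(om1 θ y : ℂ)‖ₑ = ENNReal.ofReal (om1 θ y) := by
              rw [← ofReal_norm, Complex.norm_real, Real.norm_of_nonneg (om_pos θ y h0 h1).2.le]
            have e2 : ‖Complex.exp (μ * (1 + y * I))‖ₑ = ENNReal.ofReal (Real.exp μ) := by
              rw [← ofReal_norm, Complex.norm_exp]
              congr 2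
              simp
            rw [e1, e2]
            ring
        _ = ENNReal.ofReal (Real.exp μ) * ∫⁻ y : ℝ, (ENNReal.ofReal (om1 θ y) *
              (‖R (1 + y * I)‖ₑ * ‖F (1 + y * I)‖ₑ)) :=
            lintegral_const_mul' _ _ ENNReal.ofReal_ne_top
        _ ≤ ENNReal.ofReal (Real.exp μ) *
            ENNReal.ofReal (θ ^ (1 - 1 / (2 * k + 2) : ℝ) * X ^ (1 / (2 * k + 2) : ℝ)) := by
            gcongr
        _ = _ := by
            rw [← ENNReal.ofReal_mul (by positivity)]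
    rw [← ofReal_norm] at hfin
    exact (ENNReal.ofReal_le_ofReal_iff (by positivity)).1 hfin

end S10x

open S10x in
theorem interp_abs (k : ℕ) (hk : 1 ≤ k) (θ : ℝ) (h0 : 0 < θ) (h1 : θ < 1) (p : ℝ)
    (hp : 1 / p = (1 - θ) / (2 * k) + θ / (2 * k + 2)) {T : Type} [MeasurableSpace T] (lam : Measure T)
    (E : T → ℂ → ℂ) (r1 r2 : ℝ) (hE : Fam T lam E r1 r2) (ρ : ℂ → ℝ) (hρ : Wt ρ r1 r2)
    (c : T → ℂ → ℂ) (hc : Measurable (Function.uncurry c)) (hc1 : ∀ t x, ‖c t x‖ ≤ 1)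
    (u : ℂ → ℂ) (hu : ∀ x, u x = ∫ t, c t x * ext E ρ 1 t x ∂lam)
    (Z : ℝ≥0∞) (hZ : Z ≠ ∞) (C0 C1 : ℝ) (hC0 : 0 < C0) (hC1 : 0 < C1)
    (hb0 : ∀ y : ℝ, ∫⁻ x, N2 lam E (fun ξ => ρ ξ ^ (p / (2 * k))) (1 - (y / (k + 1)) * I) x ^ k
      ≤ ENNReal.ofReal C0 * Z)
    (g : ℝ → ℝ) (hg : Continuous g) (hg0 : ∀ y, 0 ≤ g y)
    (hb1 : ∫⁻ y, ENNReal.ofReal (om1 θ y * g y) *
        ∫⁻ x, N2 lam E (fun ξ => ρ ξ ^ (p / (2 * k + 2))) (1 - (y / k) * I) x ^ (k + 1)
      ≤ ENNReal.ofReal C1 * Z)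
    (R : ℂ → ℂ) (hR : DiffContOnCl ℂ R strip)
    (hRb : ∃ C : ℝ, ∀ z : ℂ, 0 ≤ z.re → z.re ≤ 1 → ‖R z‖ ≤ C * (1 + |z.im|) ^ 4)
    (hRg : ∀ y : ℝ, ‖R (1 + y * I)‖ ^ (2 * k + 2) ≤ g y) (hRθ : R θ ≠ 0)
    (I0 : ℝ) (hI0 : 0 < I0) (hI : ∫ y, om0 θ y * ‖R (y * I)‖ ≤ I0) :
    nr p u ≤ ENNReal.ofReal (((I0 / (1 - θ)) ^ (1 - θ) * C0 ^ ((1 - θ) / (2 * k)) *
      (C1 / θ) ^ (θ / (2 * k + 2)) / ‖R θ‖) ^ p) * Z := by
  have hk0 : (1:ℝ) ≤ k := by exact_mod_cast hk
  have hθ1 : 0 < 1 - θ := by linarith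
  have hpp : 0 < p := by
    have h2 : 0 < 1 / p := by
      rw [hp]
      positivity
    exact one_div_pos.1 h2
  have hum := u_meas hE hρ hc hu
  have hr : 0 < ‖R θ‖ := norm_pos_iff.2 hRθ
  set K := ((I0 / (1 - θ)) ^ (1 - θ) * C0 ^ ((1 - θ) / (2 * k)) *
      (C1 / θ) ^ (θ / (2 * k + 2)) / ‖R θ‖) ^ p with hK
  have hK0 : 0 < K := by positivity
  have main : ∀ Z' : ℝ, 0 < Z' → Z ≤ ENNReal.ofReal Z' → nr p u ≤ ENNReal.ofReal K * ENNReal.ofReal Z' := by
    intro Z' hZ' hZZ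
    rw [iSup_EN hum p hpp]
    refine iSup_le fun N => ?_
    rw [← IN_eq hum p hpp N, ← ENNReal.ofReal_mul hK0.le]
    apply ENNReal.ofReal_le_ofReal
    rcases (IN_nonneg u p N).eq_or_lt with h | h
    · rw [← h]; positivity
    · refine opt k hk θ h0 h1 p hp (IN u p N) C0 C1 Z' I0 ‖R θ‖ h hC0 hC1 hZ' hI0 hr fun μ => ?_
      refine core k hk θ h0 h1 p hpp hp lam E r1 r2 hE ρ hρ c hc hc1 u hu Z' hZ' C0 C1 hC0 hC1
        (fun y => ?_) g hg0 ?_ R hR hRb hRg I0 hI N μ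
      · refine (hb0 y).trans ?_
        rw [ENNReal.ofReal_mul hC0.le]
        gcongr
      · refine hb1.trans ?_
        rw [ENNReal.ofReal_mul hC1.le]
        gcongr
  refine ENNReal.le_of_forall_pos_le_add fun ε hε _ => ?_
  have h2 := main (Z.toReal + ε / K) (by positivity) (by
    rw [ENNReal.ofReal_add ENNReal.toReal_nonneg (by positivity), ENNReal.ofReal_toReal hZ]
    exact le_self_add)
  refine h2.trans ?_
  rw [ENNReal.ofReal_add ENNReal.toReal_nonneg (by positivity), ENNReal.ofReal_toReal hZ, mul_add,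
    ← ENNReal.ofReal_mul hK0.le]
  have h3 : K * ((ε:ℝ) / K) = ε := by field_simp
  rw [h3, ENNReal.ofReal_coe_nnreal]

end Helper72.BB.P
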