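import Pool.Agent.Helper22.BP_S1

/-!
# MP_3dd6d4_an, module S2 : consequences of the Poisson formula of the strip
-/

set_option autoImplicit false

open MeasureTheory Complex FourierTransform Filter Topology
open scoped ENNReal NNReal ComplexConjugate

noncomputable section

namespace Helper85.BP.P

open Helper72.BA Helper85.BP

theorem S2_P0_half (τ : ℝ) : P0 (1 / 2) τ = 1 / 2 * (Real.cosh (Real.pi * τ))⁻¹ := by
  unfold P0
  rw [show Real.pi * (1 / 2) = Real.pi / 2 by ring, Real.sin_pi_div_two, Real.cos_pi_div_two,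
    sub_zero, one_div, mul_inv]
  ring

theorem S2_P1_half (τ : ℝ) : P1 (1 / 2) τ = 1 / 2 * (Real.cosh (Real.pi * τ))⁻¹ := by
  unfold P1
  rw [show Real.pi * (1 / 2) = Real.pi / 2 by ring, Real.sin_pi_div_two, Real.cos_pi_div_two,
    add_zero, one_div, mul_inv]
  ring

theorem S2_int (n : ℕ) : Integrable (fun τ : ℝ => τ ^ n * (Real.cosh (Real.pi * τ))⁻¹) := by
  have h := ((P_int (1 / 2) (by norm_num) (by norm_num) n).1).const_mul 2
  refine h.mono' ?_ (Filter.Eventually.of_forall fun τ => ?_)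
  · apply Continuous.aestronglyMeasurable
    apply Continuous.mul (by fun_prop)
    apply Continuous.inv₀ (by fun_prop)
    intro τ
    exact (Real.cosh_pos _).ne'
  · rw [S2_P0_half, Real.norm_eq_abs, abs_mul, abs_pow, abs_inv, abs_of_pos (Real.cosh_pos _)]
    have h1 : |τ| ^ n ≤ (1 + |τ|) ^ n := pow_le_pow_left₀ (abs_nonneg τ) (by linarith) n
    have h2 := Real.cosh_pos (Real.pi * τ)
    calc |τ| ^ n * (Real.cosh (Real.pi * τ))⁻¹ ≤ (1 + |τ|) ^ n * (Real.cosh (Real.pi * τ))⁻¹ := by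
          gcongr
      _ = 2 * ((1 + |τ|) ^ n * (1 / 2 * (Real.cosh (Real.pi * τ))⁻¹)) := by ring

/-- the symmetrised Poisson formula at the centre of the strip -/
theorem S2_centre (H : ℂ → ℂ) (hd : Differentiable ℂ H) (C : ℝ)
    (hb : ∀ z : ℂ, 0 ≤ z.re → z.re ≤ 1 → ‖H z‖ ≤ C * (1 + |z.im|) ^ 4) (g : ℝ → ℝ)
    (hg : ∀ τ : ℝ, H (I * τ) + H (1 + I * τ) = ((2 * g τ : ℝ) : ℂ)) (v : ℝ)
    (hv : H (((1 / 2 : ℝ)) : ℂ) = (v : ℂ)) :
    ∫ τ : ℝ, g τ * (Real.cosh (Real.pi * τ))⁻¹ = v := by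
  have h1 := poisson_formula (1 / 2) (by norm_num) (by norm_num) H hd.continuous.continuousOn
    hd.differentiableOn C hb
  have hI : ∀ (φ : ℝ → ℂ), Continuous φ → (∀ τ, (φ τ).re = 0 ∨ (φ τ).re = 1) →
      (∀ τ, (φ τ).im = τ) →
      Integrable fun τ : ℝ => ((1 / 2 * (Real.cosh (Real.pi * τ))⁻¹ : ℝ) : ℂ) * H (φ τ) := by
    intro φ hφ hre him
    have h := ((P_int (1 / 2) (by norm_num) (by norm_num) 4).1).const_mul C
    refine h.mono' ?_ (Filter.Eventually.of_forall fun τ => ?_)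
    · apply Continuous.aestronglyMeasurable
      apply Continuous.mul
      · apply Complex.continuous_ofReal.comp
        apply Continuous.mul (by fun_prop)
        apply Continuous.inv₀ (by fun_prop)
        intro τ
        exact (Real.cosh_pos _).ne'
      · exact hd.continuous.comp hφ
    · rw [norm_mul, Complex.norm_real, Real.norm_eq_abs, S2_P0_half]
      have h2 := Real.cosh_pos (Real.pi * τ)
      rw [abs_of_pos (by positivity)]
      have h3 := hb (φ τ) (by rcases hre τ with h | h <;> rw [h] <;> norm_num)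
        (by rcases hre τ with h | h <;> rw [h] <;> norm_num)
      rw [him τ] at h3
      calc 1 / 2 * (Real.cosh (Real.pi * τ))⁻¹ * ‖H (φ τ)‖
          ≤ 1 / 2 * (Real.cosh (Real.pi * τ))⁻¹ * (C * (1 + |τ|) ^ 4) := by gcongr
        _ = C * ((1 + |τ|) ^ 4 * (1 / 2 * (Real.cosh (Real.pi * τ))⁻¹)) := by ring
  have hI0 := hI (fun τ => I * τ) (by fun_prop) (fun τ => Or.inl (by simp)) (fun τ => by simp)
  have hI1 := hI (fun τ => 1 + I * τ) (by fun_prop) (fun τ => Or.inr (by simp)) (fun τ => by simp)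
  simp_rw [S2_P0_half, S2_P1_half] at h1
  rw [← integral_add hI0 hI1, hv] at h1
  have h2 : ∀ τ : ℝ, ((1 / 2 * (Real.cosh (Real.pi * τ))⁻¹ : ℝ) : ℂ) * H (I * τ) +
      ((1 / 2 * (Real.cosh (Real.pi * τ))⁻¹ : ℝ) : ℂ) * H (1 + I * τ) =
      ((g τ * (Real.cosh (Real.pi * τ))⁻¹ : ℝ) : ℂ) := by
    intro τ
    rw [← mul_add, hg τ, ← Complex.ofReal_mul]
    congr 1
    ring
  simp_rw [h2] at h1
  rw [integral_complex_ofReal] at h1
  exact_mod_cast h1.symm

theorem S2_norm_le (z : ℂ) (h0 : 0 ≤ z.re) (h1 : z.re ≤ 1) : ‖z - 1 / 2‖ ≤ 1 + |z.im| := by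
  refine (Complex.norm_le_abs_re_add_abs_im _).trans ?_
  have e1 : (z - 1 / 2).re = z.re - 1 / 2 := by simp
  have e2 : (z - 1 / 2).im = z.im := by simp
  rw [e1, e2]
  have : |z.re - 1 / 2| ≤ 1 := abs_le.2 ⟨by linarith, by linarith⟩
  linarith

theorem sech_moments :
    Integrable (fun τ : ℝ => (1 + τ ^ 4) * (Real.cosh (Real.pi * τ))⁻¹) ∧
    (∫ τ : ℝ, (Real.cosh (Real.pi * τ))⁻¹ = 1) ∧
    (∫ τ : ℝ, τ ^ 2 * (Real.cosh (Real.pi * τ))⁻¹ = 1 / 4) ∧
    (∫ τ : ℝ, τ ^ 4 * (Real.cosh (Real.pi * τ))⁻¹ = 5 / 16) := by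
  have i0 : Integrable (fun τ : ℝ => (Real.cosh (Real.pi * τ))⁻¹) := by
    simpa using S2_int 0
  have i2 := S2_int 2
  have i4 := S2_int 4
  have m0 : ∫ τ : ℝ, (Real.cosh (Real.pi * τ))⁻¹ = 1 := by
    have := S2_centre (fun _ => 1) (differentiable_const _) 1 (fun z _ _ => by
      rw [norm_one, one_mul]
      have : 1 ≤ 1 + |z.im| := by
        have := abs_nonneg z.im
        linarith
      exact one_le_pow₀ this) (fun _ => 1) (fun τ => by norm_num) 1 (by simp)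
    simpa using this
  have m2 : ∫ τ : ℝ, (1 / 4 - τ ^ 2) * (Real.cosh (Real.pi * τ))⁻¹ = 0 := by
    refine S2_centre (fun z => (z - 1 / 2) ^ 2) (by fun_prop) 1 (fun z h0 h1 => ?_)
      (fun τ => 1 / 4 - τ ^ 2) (fun τ => ?_) 0 (by push_cast; ring)
    · rw [norm_pow, one_mul]
      have h2 := S2_norm_le z h0 h1
      have h3 : 1 ≤ 1 + |z.im| := by
        have := abs_nonneg z.im
        linarith
      calc ‖z - 1 / 2‖ ^ 2 ≤ (1 + |z.im|) ^ 2 := by gcongr
        _ ≤ (1 + |z.im|) ^ 4 := pow_le_pow_right₀ h3 (by norm_num)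
    · push_cast
      have := Complex.I_sq
      linear_combination (2 * (τ : ℂ) ^ 2) * this
  have m4 : ∫ τ : ℝ, (τ ^ 4 - 3 / 2 * τ ^ 2 + 1 / 16) * (Real.cosh (Real.pi * τ))⁻¹ = 0 := by
    refine S2_centre (fun z => (z - 1 / 2) ^ 4) (by fun_prop) 1 (fun z h0 h1 => ?_)
      (fun τ => τ ^ 4 - 3 / 2 * τ ^ 2 + 1 / 16) (fun τ => ?_) 0 (by push_cast; ring)
    · rw [norm_pow, one_mul]
      have h2 := S2_norm_le z h0 h1
      gcongr
    · push_cast
      have h := Complex.I_sq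
      have h4 : I ^ 4 = 1 := Complex.I_pow_four
      linear_combination (3 * (τ : ℂ) ^ 2) * h + (2 * (τ : ℂ) ^ 4) * h4
  have e2 : ∫ τ : ℝ, τ ^ 2 * (Real.cosh (Real.pi * τ))⁻¹ = 1 / 4 := by
    have h1 : ∀ τ : ℝ, (1 / 4 - τ ^ 2) * (Real.cosh (Real.pi * τ))⁻¹ =
        1 / 4 * (Real.cosh (Real.pi * τ))⁻¹ - τ ^ 2 * (Real.cosh (Real.pi * τ))⁻¹ :=
      fun τ => by ring
    simp_rw [h1] at m2
    rw [integral_sub (i0.const_mul _) i2, integral_const_mul, m0] at m2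
    linarith
  refine ⟨?_, m0, e2, ?_⟩
  · have h1 : ∀ τ : ℝ, (1 + τ ^ 4) * (Real.cosh (Real.pi * τ))⁻¹ =
        (Real.cosh (Real.pi * τ))⁻¹ + τ ^ 4 * (Real.cosh (Real.pi * τ))⁻¹ := fun τ => by ring
    simp_rw [h1]
    exact i0.add i4
  · have h1 : ∀ τ : ℝ, (τ ^ 4 - 3 / 2 * τ ^ 2 + 1 / 16) * (Real.cosh (Real.pi * τ))⁻¹ =
        τ ^ 4 * (Real.cosh (Real.pi * τ))⁻¹ - 3 / 2 * (τ ^ 2 * (Real.cosh (Real.pi * τ))⁻¹) +
        1 / 16 * (Real.cosh (Real.pi * τ))⁻¹ := fun τ => by ring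
    simp_rw [h1] at m4
    have i42 : Integrable (fun τ : ℝ => τ ^ 4 * (Real.cosh (Real.pi * τ))⁻¹ -
        3 / 2 * (τ ^ 2 * (Real.cosh (Real.pi * τ))⁻¹)) := i4.sub (i2.const_mul _)
    rw [integral_add i42 (i0.const_mul _),
      integral_sub i4 (i2.const_mul _), integral_const_mul, integral_const_mul, m0, e2] at m4
    linarith

/-! ### the bound of `∫ P1 / (1 + τ²)` -/

/-- the auxiliary function -/
def S2_H (z : ℂ) : ℂ := 2 * z / (4 - z ^ 2) + 2 * z / (16 - z ^ 2) + 2 * z / (36 - z ^ 2)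

theorem S2_den (n : ℝ) (hn : 2 ≤ n) (z : ℂ) (h0 : 0 ≤ z.re) (h1 : z.re ≤ 1) :
    1 ≤ ‖(n : ℂ) ^ 2 - z ^ 2‖ := by
  have h2 : (n : ℂ) ^ 2 - z ^ 2 = ((n : ℂ) - z) * ((n : ℂ) + z) := by ring
  rw [h2, norm_mul]
  have h3 : 1 ≤ ‖(n : ℂ) - z‖ := by
    refine le_trans ?_ (Complex.abs_re_le_norm _)
    rw [Complex.sub_re, Complex.ofReal_re]
    exact le_trans (by linarith) (le_abs_self _)
  have h4 : 1 ≤ ‖(n : ℂ) + z‖ := by
    refine le_trans ?_ (Complex.abs_re_le_norm _)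
    rw [Complex.add_re, Complex.ofReal_re]
    exact le_trans (by linarith) (le_abs_self _)
  calc (1 : ℝ) = 1 * 1 := (one_mul 1).symm
    _ ≤ _ := mul_le_mul h3 h4 zero_le_one (by positivity)

theorem S2_den' (z : ℂ) (h0 : 0 ≤ z.re) (h1 : z.re ≤ 1) :
    1 ≤ ‖4 - z ^ 2‖ ∧ 1 ≤ ‖16 - z ^ 2‖ ∧ 1 ≤ ‖36 - z ^ 2‖ := by
  have a1 := S2_den 2 (by norm_num) z h0 h1
  have a2 := S2_den 4 (by norm_num) z h0 h1
  have a3 := S2_den 6 (by norm_num) z h0 h1
  norm_num at a1 a2 a3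
  exact ⟨a1, a2, a3⟩

theorem S2_ne {w : ℂ} (h : 1 ≤ ‖w‖) : w ≠ 0 := by
  rintro rfl
  rw [norm_zero] at h
  linarith

theorem S2_H_cont : ContinuousOn S2_H {z : ℂ | 0 ≤ z.re ∧ z.re ≤ 1} := by
  unfold S2_H
  refine ((ContinuousOn.div (by fun_prop) (by fun_prop) ?_).add
    (ContinuousOn.div (by fun_prop) (by fun_prop) ?_)).add
    (ContinuousOn.div (by fun_prop) (by fun_prop) ?_)
  · exact fun z hz => S2_ne (S2_den' z hz.1 hz.2).1
  · exact fun z hz => S2_ne (S2_den' z hz.1 hz.2).2.1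
  · exact fun z hz => S2_ne (S2_den' z hz.1 hz.2).2.2

theorem S2_H_diff : DifferentiableOn ℂ S2_H {z : ℂ | 0 < z.re ∧ z.re < 1} := by
  unfold S2_H
  refine ((DifferentiableOn.div (by fun_prop) (by fun_prop) ?_).add
    (DifferentiableOn.div (by fun_prop) (by fun_prop) ?_)).add
    (DifferentiableOn.div (by fun_prop) (by fun_prop) ?_)
  · exact fun z hz => S2_ne (S2_den' z hz.1.le hz.2.le).1
  · exact fun z hz => S2_ne (S2_den' z hz.1.le hz.2.le).2.1
  · exact fun z hz => S2_ne (S2_den' z hz.1.le hz.2.le).2.2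

theorem S2_H_bound (z : ℂ) (h0 : 0 ≤ z.re) (h1 : z.re ≤ 1) :
    ‖S2_H z‖ ≤ 6 * (1 + |z.im|) := by
  obtain ⟨a1, a2, a3⟩ := S2_den' z h0 h1
  have hz : ‖z‖ ≤ 1 + |z.im| := by
    refine (Complex.norm_le_abs_re_add_abs_im z).trans ?_
    have : |z.re| ≤ 1 := abs_le.2 ⟨by linarith, h1⟩
    linarith
  have key : ∀ w : ℂ, 1 ≤ ‖w‖ → ‖2 * z / w‖ ≤ 2 * (1 + |z.im|) := by
    intro w hw
    rw [norm_div, norm_mul, Complex.norm_ofNat, div_le_iff₀ (by linarith)]
    have h3 : 0 ≤ 2 * (1 + |z.im|) := by positivity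
    nlinarith [norm_nonneg z]
  unfold S2_H
  refine (norm_add_le _ _).trans ?_
  have h4 := norm_add_le (2 * z / (4 - z ^ 2)) (2 * z / (16 - z ^ 2))
  have := key _ a1
  have := key _ a2
  have := key _ a3
  linarith

theorem S2_H_re0 (τ : ℝ) : (S2_H (I * τ)).re = 0 := by
  have h : S2_H (I * τ) = ((2 * τ / (4 + τ ^ 2) + 2 * τ / (16 + τ ^ 2) + 2 * τ / (36 + τ ^ 2) : ℝ) : ℂ)
      * I := by
    unfold S2_H
    have e : (I * (τ : ℂ)) ^ 2 = -(τ : ℂ) ^ 2 := by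
      rw [mul_pow, Complex.I_sq]
      ring
    rw [e]
    push_cast
    ring
  rw [h, Complex.re_ofReal_mul, Complex.I_re, mul_zero]

theorem S2_frac (m τ : ℝ) : ((1 : ℂ) / ((m : ℂ) - (τ : ℂ) * I)).re = m / (m ^ 2 + τ ^ 2) := by
  rw [one_div, Complex.inv_re, Complex.normSq_apply]
  simp only [Complex.sub_re, Complex.ofReal_re, Complex.mul_re, Complex.I_re, mul_zero,
    Complex.ofReal_im, Complex.I_im, mul_one, sub_self, sub_zero, Complex.sub_im, Complex.mul_im,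
    add_zero, zero_sub]
  ring_nf

theorem S2_H_re1 (τ : ℝ) : (S2_H (1 + I * τ)).re = 1 / (1 + τ ^ 2) - 7 / (49 + τ ^ 2) := by
  have hne : ∀ m : ℝ, m ≠ 0 → (m : ℂ) - (τ : ℂ) * I ≠ 0 := by
    intro m hm h
    have := congrArg Complex.re h
    simp at this
    exact hm this
  have key : ∀ n : ℝ, 1 < n → 2 * (1 + I * (τ : ℂ)) / ((n : ℂ) ^ 2 - (1 + I * (τ : ℂ)) ^ 2) =
      1 / (((n - 1 : ℝ) : ℂ) - (τ : ℂ) * I) - 1 / (((n + 1 : ℝ) : ℂ) - ((-τ : ℝ) : ℂ) * I) := by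
    intro n hn
    have h1 := hne (n - 1) (by linarith)
    have h2 : ((n + 1 : ℝ) : ℂ) - ((-τ : ℝ) : ℂ) * I ≠ 0 := by
      intro h
      have := congrArg Complex.re h
      simp at this
      linarith
    have h3 : (n : ℂ) ^ 2 - (1 + I * (τ : ℂ)) ^ 2 =
        (((n - 1 : ℝ) : ℂ) - (τ : ℂ) * I) * (((n + 1 : ℝ) : ℂ) - ((-τ : ℝ) : ℂ) * I) := by
      push_cast
      ring
    rw [h3, div_sub_div _ _ h1 h2]
    congr 1
    push_cast
    ring
  have k1 := key 2 (by norm_num)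
  have k2 := key 4 (by norm_num)
  have k3 := key 6 (by norm_num)
  have e1 : ((2 : ℝ) : ℂ) ^ 2 = 4 := by norm_num
  have e2 : ((4 : ℝ) : ℂ) ^ 2 = 16 := by norm_num
  have e3 : ((6 : ℝ) : ℂ) ^ 2 = 36 := by norm_num
  rw [e1] at k1
  rw [e2] at k2
  rw [e3] at k3
  unfold S2_H
  rw [k1, k2, k3, Complex.add_re, Complex.add_re, Complex.sub_re, Complex.sub_re, Complex.sub_re,
    S2_frac, S2_frac, S2_frac, S2_frac, S2_frac, S2_frac]
  ring

theorem E_bound (θ : ℝ) (h0 : 0 < θ) (h1 : θ < 1) :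
    ∫ τ, P1 θ τ / (1 + τ ^ 2) ≤ θ * Eb θ := by
  obtain ⟨hc0, hc1, hp0, hp1, -, -, -⟩ := P_facts θ h0 h1
  obtain ⟨-, hi1⟩ := P_int θ h0 h1 0
  simp only [pow_zero, one_mul] at hi1
  have hP := poisson_formula θ h0 h1 S2_H S2_H_cont S2_H_diff 6 (fun z hz0 hz1 => by
    refine (S2_H_bound z hz0 hz1).trans ?_
    have h3 : 1 ≤ 1 + |z.im| := by
      have := abs_nonneg z.im
      linarith
    have : (1 + |z.im|) ^ 1 ≤ (1 + |z.im|) ^ 4 := pow_le_pow_right₀ h3 (by norm_num)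
    rw [pow_one] at this
    linarith)
  -- integrability on the two sides
  have hcomp : ∀ φ : ℝ → ℂ, Continuous φ → (∀ τ, (φ τ).re = 0 ∨ (φ τ).re = 1) →
      Continuous fun τ => S2_H (φ τ) := by
    intro φ hφ hre
    refine S2_H_cont.comp_continuous hφ fun τ => ?_
    rw [Set.mem_ofPred_eq]
    rcases hre τ with h | h <;> rw [h] <;> norm_num
  have hcH0 := hcomp (fun τ => I * τ) (by fun_prop) (fun τ => Or.inl (by simp))
  have hcH1 := hcomp (fun τ => 1 + I * τ) (by fun_prop) (fun τ => Or.inr (by simp))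
  have hI0 : Integrable fun τ : ℝ => (P0 θ τ : ℂ) * S2_H (I * τ) := by
    have h := ((P_int θ h0 h1 1).1).const_mul 6
    refine h.mono' ((Complex.continuous_ofReal.comp hc0).mul hcH0).aestronglyMeasurable
      (Filter.Eventually.of_forall fun τ => ?_)
    rw [norm_mul, Complex.norm_real, Real.norm_eq_abs, abs_of_pos (hp0 τ)]
    have h2 := S2_H_bound (I * τ) (by simp) (by simp)
    have h3 : (I * (τ : ℂ)).im = τ := by simp
    rw [h3] at h2
    calc P0 θ τ * ‖S2_H (I * τ)‖ ≤ P0 θ τ * (6 * (1 + |τ|)) :=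
          mul_le_mul_of_nonneg_left h2 (hp0 τ).le
      _ = 6 * ((1 + |τ|) ^ 1 * P0 θ τ) := by ring
  have hI1 : Integrable fun τ : ℝ => (P1 θ τ : ℂ) * S2_H (1 + I * τ) := by
    have h := ((P_int θ h0 h1 1).2).const_mul 6
    refine h.mono' ((Complex.continuous_ofReal.comp hc1).mul hcH1).aestronglyMeasurable
      (Filter.Eventually.of_forall fun τ => ?_)
    rw [norm_mul, Complex.norm_real, Real.norm_eq_abs, abs_of_pos (hp1 τ)]
    have h2 := S2_H_bound (1 + I * τ) (by simp) (by simp)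
    have h3 : (1 + I * (τ : ℂ)).im = τ := by simp
    rw [h3] at h2
    calc P1 θ τ * ‖S2_H (1 + I * τ)‖ ≤ P1 θ τ * (6 * (1 + |τ|)) :=
          mul_le_mul_of_nonneg_left h2 (hp1 τ).le
      _ = 6 * ((1 + |τ|) ^ 1 * P1 θ τ) := by ring
  have hre := congrArg Complex.re hP
  have r0 : (∫ τ : ℝ, (P0 θ τ : ℂ) * S2_H (I * τ)).re = 0 := by
    have h : (∫ τ : ℝ, (P0 θ τ : ℂ) * S2_H (I * τ)).re =
        ∫ τ : ℝ, ((P0 θ τ : ℂ) * S2_H (I * τ)).re := (integral_re hI0).symm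
    rw [h]
    simp_rw [Complex.re_ofReal_mul, S2_H_re0, mul_zero]
    exact integral_zero _ _
  have r1 : (∫ τ : ℝ, (P1 θ τ : ℂ) * S2_H (1 + I * τ)).re =
      ∫ τ : ℝ, P1 θ τ * (1 / (1 + τ ^ 2) - 7 / (49 + τ ^ 2)) := by
    have h : (∫ τ : ℝ, (P1 θ τ : ℂ) * S2_H (1 + I * τ)).re =
        ∫ τ : ℝ, ((P1 θ τ : ℂ) * S2_H (1 + I * τ)).re := (integral_re hI1).symm
    rw [h]
    simp_rw [Complex.re_ofReal_mul, S2_H_re1]
  rw [Complex.add_re, r0, r1, zero_add] at hre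
  have hθ : (S2_H θ).re = θ * (2 / (4 - θ ^ 2) + 2 / (16 - θ ^ 2) + 2 / (36 - θ ^ 2)) := by
    have : S2_H θ =
        ((θ * (2 / (4 - θ ^ 2) + 2 / (16 - θ ^ 2) + 2 / (36 - θ ^ 2)) : ℝ) : ℂ) := by
      unfold S2_H
      push_cast
      ring
    rw [this, Complex.ofReal_re]
  rw [hθ] at hre
  -- split the integral
  have j1 : Integrable fun τ : ℝ => P1 θ τ / (1 + τ ^ 2) := by
    refine hi1.mono' ?_ (Filter.Eventually.of_forall fun τ => ?_)
    · exact (hc1.div (by fun_prop) (fun τ => by positivity)).aestronglyMeasurable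
    · rw [Real.norm_eq_abs, abs_of_nonneg (div_nonneg (hp1 τ).le (by positivity))]
      exact div_le_self (hp1 τ).le (by nlinarith [sq_nonneg τ])
  have j2 : Integrable fun τ : ℝ => P1 θ τ * (7 / (49 + τ ^ 2)) := by
    refine hi1.mono' ?_ (Filter.Eventually.of_forall fun τ => ?_)
    · exact (hc1.mul (continuous_const.div (by fun_prop) (fun τ => by positivity))).aestronglyMeasurable
    · rw [Real.norm_eq_abs, abs_of_nonneg (mul_nonneg (hp1 τ).le (by positivity))]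
      have h2 : 7 / (49 + τ ^ 2) ≤ 1 := by
        rw [div_le_one (by positivity)]
        nlinarith [sq_nonneg τ]
      calc P1 θ τ * (7 / (49 + τ ^ 2)) ≤ P1 θ τ * 1 := mul_le_mul_of_nonneg_left h2 (hp1 τ).le
        _ = P1 θ τ := mul_one _
  have h2 : ∀ τ : ℝ, P1 θ τ * (1 / (1 + τ ^ 2) - 7 / (49 + τ ^ 2)) =
      P1 θ τ / (1 + τ ^ 2) - P1 θ τ * (7 / (49 + τ ^ 2)) := fun τ => by ring
  simp_rw [h2] at hre
  rw [integral_sub j1 j2] at hre
  have h3 : ∫ τ : ℝ, P1 θ τ * (7 / (49 + τ ^ 2)) ≤ θ * (1 / 7) := by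
    have h4 : ∫ τ : ℝ, P1 θ τ * (1 / 7) = θ * (1 / 7) := by
      rw [integral_mul_const, (P_mass θ h0 h1).2]
    rw [← h4]
    apply integral_mono j2 (hi1.mul_const _)
    intro τ
    apply mul_le_mul_of_nonneg_left _ (hp1 τ).le
    rw [div_le_div_iff₀ (by positivity) (by norm_num)]
    nlinarith [sq_nonneg τ]
  unfold Eb
  linarith

/-! ### the multiplicative form -/

theorem poisson_mul (θ : ℝ) (h0 : 0 < θ) (h1 : θ < 1) (H : ℂ → ℂ)
    (hc : ContinuousOn H {z : ℂ | 0 ≤ z.re ∧ z.re ≤ 1})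
    (hd : DifferentiableOn ℂ H {z : ℂ | 0 < z.re ∧ z.re < 1})
    (C : ℝ) (hb : ∀ z : ℂ, 0 ≤ z.re → z.re ≤ 1 → ‖H z‖ ≤ C) :
    ‖H θ‖ₑ ≤
      ((ENNReal.ofReal (1 - θ))⁻¹ * ∫⁻ τ : ℝ, ENNReal.ofReal (P0 θ τ) * ‖H (I * τ)‖ₑ) ^ (1 - θ) *
      ((ENNReal.ofReal θ)⁻¹ * ∫⁻ τ : ℝ, ENNReal.ofReal (P1 θ τ) * ‖H (1 + I * τ)‖ₑ) ^ θ := by
  obtain ⟨hc0, hc1, hp0, hp1, -, -, -⟩ := P_facts θ h0 h1
  obtain ⟨hi0, hi1⟩ := P_int θ h0 h1 0
  simp only [pow_zero, one_mul] at hi0 hi1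
  have h1θ : 0 < 1 - θ := by linarith
  have hC0 : 0 ≤ C := (norm_nonneg (H 0)).trans (hb 0 (by simp) (by simp))
  have hcomp : ∀ (F : ℂ → ℂ), ContinuousOn F {z : ℂ | 0 ≤ z.re ∧ z.re ≤ 1} → ∀ φ : ℝ → ℂ,
      Continuous φ → (∀ τ, (φ τ).re = 0 ∨ (φ τ).re = 1) → Continuous fun τ => F (φ τ) := by
    intro F hF φ hφ hre
    refine hF.comp_continuous hφ fun τ => ?_
    rw [Set.mem_ofPred_eq]
    rcases hre τ with h | h <;> rw [h] <;> norm_num
  have hcH0 : Continuous fun τ : ℝ => H (I * τ) :=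
    hcomp H hc (fun τ => I * τ) (by fun_prop) (fun τ => Or.inl (by simp))
  have hcH1 : Continuous fun τ : ℝ => H (1 + I * τ) :=
    hcomp H hc (fun τ => 1 + I * τ) (by fun_prop) (fun τ => Or.inr (by simp))
  have hI0 : Integrable fun τ : ℝ => P0 θ τ * ‖H (I * τ)‖ := by
    refine (hi0.mul_const C).mono' (hc0.mul hcH0.norm).aestronglyMeasurable
      (Filter.Eventually.of_forall fun τ => ?_)
    rw [Real.norm_eq_abs, abs_of_nonneg (mul_nonneg (hp0 τ).le (norm_nonneg _))]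
    exact mul_le_mul_of_nonneg_left (hb _ (by simp) (by simp)) (hp0 τ).le
  have hI1 : Integrable fun τ : ℝ => P1 θ τ * ‖H (1 + I * τ)‖ := by
    refine (hi1.mul_const C).mono' (hc1.mul hcH1.norm).aestronglyMeasurable
      (Filter.Eventually.of_forall fun τ => ?_)
    rw [Real.norm_eq_abs, abs_of_nonneg (mul_nonneg (hp1 τ).le (norm_nonneg _))]
    exact mul_le_mul_of_nonneg_left (hb _ (by simp) (by simp)) (hp1 τ).le
  set A : ℝ := ∫ τ : ℝ, P0 θ τ * ‖H (I * τ)‖ with hA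
  set B : ℝ := ∫ τ : ℝ, P1 θ τ * ‖H (1 + I * τ)‖ with hB
  have hA0 : 0 ≤ A := integral_nonneg fun τ => mul_nonneg (hp0 τ).le (norm_nonneg _)
  have hB0 : 0 ≤ B := integral_nonneg fun τ => mul_nonneg (hp1 τ).le (norm_nonneg _)
  -- the linear inequalities
  have hlin : ∀ l : ℝ, ‖H θ‖ ≤ Real.exp (-(l * θ)) * A + Real.exp (l * (1 - θ)) * B := by
    intro l
    set F : ℂ → ℂ := fun z => H z * cexp (l * (z - θ)) with hF
    have hnexp : ∀ z : ℂ, ‖cexp ((l : ℂ) * (z - θ))‖ = Real.exp (l * (z.re - θ)) := by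
      intro z
      rw [Complex.norm_exp, Complex.re_ofReal_mul, Complex.sub_re, Complex.ofReal_re]
    have hFb : ∀ z : ℂ, 0 ≤ z.re → z.re ≤ 1 → ‖F z‖ ≤ C * Real.exp |l| * (1 + |z.im|) ^ 4 := by
      intro z hz0 hz1
      rw [hF]
      simp only
      rw [norm_mul, hnexp]
      have h2 : Real.exp (l * (z.re - θ)) ≤ Real.exp |l| := by
        rw [Real.exp_le_exp]
        refine (le_abs_self _).trans ?_
        rw [abs_mul]
        have h3 : |z.re - θ| ≤ 1 := abs_le.2 ⟨by linarith, by linarith⟩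
        calc |l| * |z.re - θ| ≤ |l| * 1 := mul_le_mul_of_nonneg_left h3 (abs_nonneg l)
          _ = |l| := mul_one _
      have h4 : 1 ≤ (1 + |z.im|) ^ 4 := one_le_pow₀ (by linarith [abs_nonneg z.im])
      calc ‖H z‖ * Real.exp (l * (z.re - θ)) ≤ C * Real.exp |l| :=
            mul_le_mul (hb z hz0 hz1) h2 (Real.exp_pos _).le hC0
        _ = C * Real.exp |l| * 1 := (mul_one _).symm
        _ ≤ _ := by gcongr
    have hP := poisson_formula θ h0 h1 F (hc.mul (by fun_prop)) (hd.mul (by fun_prop)) _ hFb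
    have hFθ : F θ = H θ := by
      rw [hF]
      simp
    rw [hFθ] at hP
    rw [hP]
    refine (norm_add_le _ _).trans (add_le_add ?_ ?_)
    · refine (norm_integral_le_integral_norm _).trans (le_of_eq ?_)
      rw [hA, ← integral_const_mul]
      congr 1
      funext τ
      rw [norm_mul, Complex.norm_real, Real.norm_eq_abs, abs_of_pos (hp0 τ), hF]
      simp only
      rw [norm_mul, hnexp]
      have : (I * (τ : ℂ)).re = 0 := by simp
      rw [this, show l * (0 - θ) = -(l * θ) by ring]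
      ring
    · refine (norm_integral_le_integral_norm _).trans (le_of_eq ?_)
      rw [hB, ← integral_const_mul]
      congr 1
      funext τ
      rw [norm_mul, Complex.norm_real, Real.norm_eq_abs, abs_of_pos (hp1 τ), hF]
      simp only
      rw [norm_mul, hnexp]
      have : (1 + I * (τ : ℂ)).re = 1 := by simp
      rw [this]
      ring
  -- optimisation
  set x : ℝ := A / (1 - θ) with hx
  set y : ℝ := B / θ with hy
  have hx0 : 0 ≤ x := by positivity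
  have hy0 : 0 ≤ y := by positivity
  have hAx : A = (1 - θ) * x := by
    rw [hx]
    field_simp
  have hBy : B = θ * y := by
    rw [hy]
    field_simp
  have hε : ∀ ε : ℝ, 0 < ε → ‖H θ‖ ≤ (x + ε) ^ (1 - θ) * (y + ε) ^ θ := by
    intro ε hε
    have hxe : 0 < x + ε := by linarith
    have hye : 0 < y + ε := by linarith
    have h2 := hlin (Real.log (x + ε) - Real.log (y + ε))
    have e1 : Real.exp (-((Real.log (x + ε) - Real.log (y + ε)) * θ)) =
        (x + ε) ^ (1 - θ) * (y + ε) ^ θ / (x + ε) := by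
      rw [Real.rpow_def_of_pos hxe, Real.rpow_def_of_pos hye, ← Real.exp_add, eq_div_iff hxe.ne']
      calc Real.exp (-((Real.log (x + ε) - Real.log (y + ε)) * θ)) * (x + ε)
          = Real.exp (-((Real.log (x + ε) - Real.log (y + ε)) * θ)) *
            Real.exp (Real.log (x + ε)) := by rw [Real.exp_log hxe]
        _ = _ := by
          rw [← Real.exp_add]
          congr 1
          ring
    have e2 : Real.exp ((Real.log (x + ε) - Real.log (y + ε)) * (1 - θ)) =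
        (x + ε) ^ (1 - θ) * (y + ε) ^ θ / (y + ε) := by
      rw [Real.rpow_def_of_pos hxe, Real.rpow_def_of_pos hye, ← Real.exp_add, eq_div_iff hye.ne']
      calc Real.exp ((Real.log (x + ε) - Real.log (y + ε)) * (1 - θ)) * (y + ε)
          = Real.exp ((Real.log (x + ε) - Real.log (y + ε)) * (1 - θ)) *
            Real.exp (Real.log (y + ε)) := by rw [Real.exp_log hye]
        _ = _ := by
          rw [← Real.exp_add]
          congr 1
          ring
    rw [e1, e2, hAx, hBy] at h2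
    refine h2.trans ?_
    set D : ℝ := (x + ε) ^ (1 - θ) * (y + ε) ^ θ with hD
    have hD0 : 0 ≤ D := by positivity
    have h3 : D / (x + ε) * ((1 - θ) * x) ≤ D * (1 - θ) := by
      rw [div_mul_eq_mul_div, div_le_iff₀ hxe]
      have : (1 - θ) * x ≤ (1 - θ) * (x + ε) := by gcongr; linarith
      calc D * ((1 - θ) * x) ≤ D * ((1 - θ) * (x + ε)) := by gcongr
        _ = D * (1 - θ) * (x + ε) := by ring
    have h4 : D / (y + ε) * (θ * y) ≤ D * θ := by
      rw [div_mul_eq_mul_div, div_le_iff₀ hye]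
      have : θ * y ≤ θ * (y + ε) := by gcongr; linarith
      calc D * (θ * y) ≤ D * (θ * (y + ε)) := by gcongr
        _ = D * θ * (y + ε) := by ring
    calc D / (x + ε) * ((1 - θ) * x) + D / (y + ε) * (θ * y) ≤ D * (1 - θ) + D * θ :=
          add_le_add h3 h4
      _ = D := by ring
  have hfin : ‖H θ‖ ≤ x ^ (1 - θ) * y ^ θ := by
    have hlim : Tendsto (fun ε : ℝ => (x + ε) ^ (1 - θ) * (y + ε) ^ θ) (𝓝[>] 0)
        (𝓝 (x ^ (1 - θ) * y ^ θ)) := by
      have hcx : Continuous fun ε : ℝ => (x + ε) ^ (1 - θ) * (y + ε) ^ θ := by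
        apply Continuous.mul
        · exact Continuous.rpow_const (by fun_prop) fun _ => Or.inr h1θ.le
        · exact Continuous.rpow_const (by fun_prop) fun _ => Or.inr h0.le
      have h5 := hcx.tendsto 0
      simp only [add_zero] at h5
      exact h5.mono_left nhdsWithin_le_nhds
    refine ge_of_tendsto hlim ?_
    filter_upwards [self_mem_nhdsWithin] with ε hεm
    exact hε ε hεm
  -- conversion
  have eA : ∫⁻ τ : ℝ, ENNReal.ofReal (P0 θ τ) * ‖H (I * τ)‖ₑ = ENNReal.ofReal A := by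
    rw [hA, ofReal_integral_eq_lintegral_ofReal hI0
      (Filter.Eventually.of_forall fun τ => mul_nonneg (hp0 τ).le (norm_nonneg _))]
    congr 1
    funext τ
    rw [ENNReal.ofReal_mul (hp0 τ).le, ofReal_norm]
  have eB : ∫⁻ τ : ℝ, ENNReal.ofReal (P1 θ τ) * ‖H (1 + I * τ)‖ₑ = ENNReal.ofReal B := by
    rw [hB, ofReal_integral_eq_lintegral_ofReal hI1
      (Filter.Eventually.of_forall fun τ => mul_nonneg (hp1 τ).le (norm_nonneg _))]
    congr 1
    funext τ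
    rw [ENNReal.ofReal_mul (hp1 τ).le, ofReal_norm]
  rw [eA, eB, ← ENNReal.ofReal_inv_of_pos h1θ, ← ENNReal.ofReal_inv_of_pos h0,
    ← ENNReal.ofReal_mul (by positivity), ← ENNReal.ofReal_mul (by positivity),
    ENNReal.ofReal_rpow_of_nonneg (by positivity) h1θ.le,
    ENNReal.ofReal_rpow_of_nonneg (by positivity) h0.le, ← ENNReal.ofReal_mul (by positivity),
    ← ofReal_norm]
  apply ENNReal.ofReal_le_ofReal
  rw [inv_mul_eq_div, inv_mul_eq_div]
  exact hfin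

end Helper85.BP.P
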