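import Pool.Agent.Helper85.BP.Defs

/-!
# MP_3dd6d4_an, module W1 : positive definite functions
-/

set_option autoImplicit false

open MeasureTheory Complex FourierTransform Filter Topology
open scoped ENNReal NNReal ComplexConjugate

noncomputable section

namespace Helper85.BP.P

open Helper72.BA Helper85.BP

theorem W1_iff (f : ℝ → ℝ) :
    PD f ↔ ∃ m : Measure ℝ, IsFiniteMeasure m ∧ ∀ t : ℝ, (f t : ℂ) = charFun m t := by
  have h : ∀ (m : Measure ℝ) (t : ℝ),
      ∫ s, Complex.exp (I * ((t * s : ℝ) : ℂ)) ∂m = charFun m t := by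
    intro m t
    rw [charFun_apply_real]
    congr 1
    funext s
    congr 1
    push_cast
    ring
  unfold PD
  simp_rw [h]

theorem W1_integrable (m : Measure ℝ) [IsFiniteMeasure m] (t : ℝ) :
    Integrable (fun s : ℝ => Complex.exp (I * ((t * s : ℝ) : ℂ))) m := by
  refine (integrable_const (1 : ℝ)).mono' ?_ (Filter.Eventually.of_forall fun s => ?_)
  · exact (by fun_prop : Continuous fun s : ℝ =>
      Complex.exp (I * ((t * s : ℝ) : ℂ))).aestronglyMeasurable
  · rw [mul_comm I, Complex.norm_exp_ofReal_mul_I]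

/-- construction from a density -/
theorem W1_density {α : Type*} [MeasurableSpace α] (μ : Measure α) (w φ : α → ℝ)
    (hw : Integrable w μ) (hw0 : ∀ x, 0 ≤ w x) (hwm : Measurable w) (hφ : Measurable φ)
    {f : ℝ → ℝ}
    (hf : ∀ t : ℝ, (f t : ℂ) = ∫ x, (w x : ℂ) * Complex.exp (I * ((t * φ x : ℝ) : ℂ)) ∂μ) :
    PD f := by
  have hdm : Measurable fun x => ENNReal.ofReal (w x) := hwm.ennreal_ofReal
  have hfin : IsFiniteMeasure (μ.withDensity fun x => ENNReal.ofReal (w x)) := by
    apply isFiniteMeasure_withDensity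
    exact hw.lintegral_lt_top.ne
  refine ⟨(μ.withDensity fun x => ENNReal.ofReal (w x)).map φ, inferInstance, fun t => ?_⟩
  have hcont : Continuous fun s : ℝ => Complex.exp (I * ((t * s : ℝ) : ℂ)) := by fun_prop
  rw [integral_map hφ.aemeasurable hcont.aestronglyMeasurable,
    integral_withDensity_eq_integral_toReal_smul hdm
      (Filter.Eventually.of_forall fun x => ENNReal.ofReal_lt_top), hf t]
  congr 1
  funext x
  rw [ENNReal.toReal_ofReal (hw0 x), Complex.real_smul]

theorem PD_smul (c : ℝ) (hc : 0 ≤ c) {f : ℝ → ℝ} (hf : PD f) : PD (fun t => c * f t) := by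
  obtain ⟨m, hm, h⟩ := hf
  refine ⟨ENNReal.ofReal c • m, ?_, fun t => ?_⟩
  · exact Measure.smul_finite m ENNReal.ofReal_ne_top
  · rw [integral_smul_measure, ENNReal.toReal_ofReal hc, ← h t, Complex.real_smul]
    push_cast
    ring

theorem PD_const (c : ℝ) (hc : 0 ≤ c) : PD (fun _ => c) := by
  have h1 : PD (fun _ => (1 : ℝ)) := by
    refine ⟨Measure.dirac 0, inferInstance, fun t => ?_⟩
    rw [integral_dirac]
    simp
  have := PD_smul c hc h1
  simpa using this

theorem PD_add {f g : ℝ → ℝ} (hf : PD f) (hg : PD g) : PD (fun t => f t + g t) := by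
  obtain ⟨m, hm, h⟩ := hf
  obtain ⟨m', hm', h'⟩ := hg
  refine ⟨m + m', inferInstance, fun t => ?_⟩
  rw [integral_add_measure (W1_integrable m t) (W1_integrable m' t), ← h t, ← h' t]
  push_cast
  ring

theorem PD_mul {f g : ℝ → ℝ} (hf : PD f) (hg : PD g) : PD (fun t => f t * g t) := by
  rw [W1_iff] at hf hg ⊢
  obtain ⟨m, hm, h⟩ := hf
  obtain ⟨m', hm', h'⟩ := hg
  refine ⟨m.conv m', inferInstance, fun t => ?_⟩
  rw [charFun_conv, ← h t, ← h' t]
  push_cast
  ring

theorem PD_scale (c : ℝ) {f : ℝ → ℝ} (hf : PD f) : PD (fun t => f (c * t)) := by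
  obtain ⟨m, hm, h⟩ := hf
  have hmeas : Measurable fun s : ℝ => c * s := measurable_const_mul c
  refine ⟨m.map fun s => c * s, inferInstance, fun t => ?_⟩
  have hcont : Continuous fun s : ℝ => Complex.exp (I * ((t * s : ℝ) : ℂ)) := by fun_prop
  rw [integral_map hmeas.aemeasurable hcont.aestronglyMeasurable, h (c * t)]
  congr 1
  funext s
  congr 2
  push_cast
  ring

/-- a positive definite function is an integral of cosines -/
theorem W1_cos {f : ℝ → ℝ} {m : Measure ℝ} [IsFiniteMeasure m]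
    (h : ∀ t : ℝ, (f t : ℂ) = ∫ s, Complex.exp (I * ((t * s : ℝ) : ℂ)) ∂m) (t : ℝ) :
    f t = ∫ s, Real.cos (t * s) ∂m := by
  have h1 := congrArg Complex.re (h t)
  rw [Complex.ofReal_re] at h1
  rw [h1]
  have h2 : (∫ s, Complex.exp (I * ((t * s : ℝ) : ℂ)) ∂m).re =
      ∫ s, (Complex.exp (I * ((t * s : ℝ) : ℂ))).re ∂m :=
    (integral_re (W1_integrable m t)).symm
  rw [h2]
  congr 1
  funext s
  rw [mul_comm I, Complex.exp_ofReal_mul_I_re]

theorem W1_gauss_cos (ε : ℝ) (hε : 0 < ε) (a : ℝ) :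
    0 ≤ ∫ t : ℝ, Real.exp (-ε * t ^ 2) * Real.cos (a * t) := by
  have h1 := fourierIntegral_gaussian (b := (ε : ℂ)) (by simpa using hε) (a : ℂ)
  have h2 : Integrable fun x : ℝ => cexp (I * a * x) * cexp (-(ε : ℂ) * x ^ 2) := by
    have h3 : Integrable fun x : ℝ => Real.exp (-ε * x ^ 2) := integrable_exp_neg_mul_sq hε
    refine h3.mono' (by fun_prop) (Filter.Eventually.of_forall fun x => ?_)
    rw [norm_mul, show I * (a : ℂ) * (x : ℂ) = ((a * x : ℝ) : ℂ) * I by push_cast; ring,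
      Complex.norm_exp_ofReal_mul_I, one_mul, Complex.norm_exp]
    apply le_of_eq
    congr 1
    rw [show -(ε : ℂ) * (x : ℂ) ^ 2 = ((-ε * x ^ 2 : ℝ) : ℂ) by push_cast; ring, Complex.ofReal_re]
  have h4 : ∫ t : ℝ, Real.exp (-ε * t ^ 2) * Real.cos (a * t) =
      (∫ x : ℝ, cexp (I * a * x) * cexp (-(ε : ℂ) * x ^ 2)).re := by
    have h5 : (∫ x : ℝ, cexp (I * a * x) * cexp (-(ε : ℂ) * x ^ 2)).re =
        ∫ x : ℝ, (cexp (I * a * x) * cexp (-(ε : ℂ) * x ^ 2)).re := (integral_re h2).symm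
    rw [h5]
    congr 1
    funext x
    rw [show I * (a : ℂ) * (x : ℂ) = ((a * x : ℝ) : ℂ) * I by push_cast; ring,
      show -(ε : ℂ) * (x : ℂ) ^ 2 = ((-ε * x ^ 2 : ℝ) : ℂ) by push_cast; ring, ← Complex.ofReal_exp,
      Complex.re_mul_ofReal, Complex.exp_ofReal_mul_I_re]
    ring
  rw [h4, h1]
  have h6 : ((Real.pi : ℂ) / (ε : ℂ)) ^ (1 / 2 : ℂ) * cexp (-(a : ℂ) ^ 2 / (4 * (ε : ℂ))) =
      (((Real.pi / ε) ^ (1 / 2 : ℝ) * Real.exp (-a ^ 2 / (4 * ε)) : ℝ) : ℂ) := by
    rw [Complex.ofReal_mul, Complex.ofReal_cpow (by positivity), Complex.ofReal_exp]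
    push_cast
    rfl
  rw [h6, Complex.ofReal_re]
  positivity

theorem PD_integral_nonneg {f : ℝ → ℝ} (hf : PD f) (hi : Integrable f) (s : ℝ) :
    0 ≤ ∫ t, f t * Real.cos (t * s) := by
  obtain ⟨m, hm, h⟩ := hf
  have hcos := W1_cos h
  -- regularised integrals are nonnegative
  have hreg : ∀ ε : ℝ, 0 < ε → 0 ≤ ∫ t, f t * Real.exp (-ε * t ^ 2) * Real.cos (t * s) := by
    intro ε hε
    have h1 : ∀ t : ℝ, f t * Real.exp (-ε * t ^ 2) * Real.cos (t * s) =
        ∫ x, Real.exp (-ε * t ^ 2) * Real.cos (t * s) * Real.cos (t * x) ∂m := by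
      intro t
      rw [integral_const_mul, ← hcos t]
      ring
    simp_rw [h1]
    rw [integral_integral_swap]
    · apply integral_nonneg
      intro x
      have h2 : ∀ t : ℝ, Real.exp (-ε * t ^ 2) * Real.cos (t * s) * Real.cos (t * x) =
          (1 / 2) * (Real.exp (-ε * t ^ 2) * Real.cos ((s - x) * t)) +
          (1 / 2) * (Real.exp (-ε * t ^ 2) * Real.cos ((s + x) * t)) := by
        intro t
        have e1 : (s - x) * t = t * s - t * x := by ring
        have e2 : (s + x) * t = t * s + t * x := by ring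
        rw [e1, e2, Real.cos_sub, Real.cos_add]
        ring
      have hint : ∀ a : ℝ, Integrable fun t : ℝ => Real.exp (-ε * t ^ 2) * Real.cos (a * t) := by
        intro a
        refine (integrable_exp_neg_mul_sq hε).mono' (by fun_prop)
          (Filter.Eventually.of_forall fun t => ?_)
        rw [norm_mul, Real.norm_eq_abs, Real.norm_eq_abs, abs_of_pos (Real.exp_pos _)]
        calc Real.exp (-ε * t ^ 2) * |Real.cos (a * t)| ≤ Real.exp (-ε * t ^ 2) * 1 := by
              gcongr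
              exact Real.abs_cos_le_one _
          _ = _ := mul_one _
      simp only [Pi.zero_apply]
      simp_rw [h2]
      rw [integral_add ((hint _).const_mul _) ((hint _).const_mul _), integral_const_mul,
        integral_const_mul]
      have := W1_gauss_cos ε hε (s - x)
      have := W1_gauss_cos ε hε (s + x)
      positivity
    · have hc : Continuous fun p : ℝ × ℝ =>
          Real.exp (-ε * p.1 ^ 2) * Real.cos (p.1 * s) * Real.cos (p.1 * p.2) := by fun_prop
      have hdom : Integrable (fun p : ℝ × ℝ => Real.exp (-ε * p.1 ^ 2) * 1)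
          ((volume : Measure ℝ).prod m) :=
        (integrable_exp_neg_mul_sq hε).mul_prod (integrable_const (1 : ℝ))
      refine hdom.mono' hc.aestronglyMeasurable (Filter.Eventually.of_forall fun p => ?_)
      change ‖Real.exp (-ε * p.1 ^ 2) * Real.cos (p.1 * s) * Real.cos (p.1 * p.2)‖ ≤ _
      rw [norm_mul, norm_mul, Real.norm_eq_abs, Real.norm_eq_abs, Real.norm_eq_abs,
        abs_of_pos (Real.exp_pos _), mul_assoc]
      gcongr
      have a1 := Real.abs_cos_le_one (p.1 * s)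
      have a2 := Real.abs_cos_le_one (p.1 * p.2)
      have a3 := abs_nonneg (Real.cos (p.1 * s))
      have a4 := abs_nonneg (Real.cos (p.1 * p.2))
      nlinarith
  -- the limit
  have hlim : Tendsto (fun n : ℕ => ∫ t, f t * Real.exp (-(1 / ((n : ℝ) + 1)) * t ^ 2) *
      Real.cos (t * s)) atTop (𝓝 (∫ t, f t * Real.cos (t * s))) := by
    apply tendsto_integral_of_dominated_convergence (fun t => ‖f t‖)
    · intro n
      exact (hi.1.mul (by fun_prop : Continuous fun t : ℝ =>
        Real.exp (-(1 / ((n : ℝ) + 1)) * t ^ 2)).aestronglyMeasurable).mul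
        (by fun_prop : Continuous fun t : ℝ => Real.cos (t * s)).aestronglyMeasurable
    · exact hi.norm
    · intro n
      refine Filter.Eventually.of_forall fun t => ?_
      rw [norm_mul, norm_mul, Real.norm_eq_abs (Real.exp _), Real.norm_eq_abs (Real.cos _),
        abs_of_pos (Real.exp_pos _)]
      have a1 : Real.exp (-(1 / ((n : ℝ) + 1)) * t ^ 2) ≤ 1 := by
        rw [Real.exp_le_one_iff]
        have : 0 ≤ 1 / ((n : ℝ) + 1) * t ^ 2 := by positivity
        linarith
      have a2 := Real.abs_cos_le_one (t * s)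
      have a3 := abs_nonneg (Real.cos (t * s))
      have a4 := norm_nonneg (f t)
      have a5 := (Real.exp_pos (-(1 / ((n : ℝ) + 1)) * t ^ 2)).le
      calc ‖f t‖ * Real.exp (-(1 / ((n : ℝ) + 1)) * t ^ 2) * |Real.cos (t * s)|
          ≤ ‖f t‖ * 1 * 1 := by gcongr
        _ = ‖f t‖ := by ring
    · refine Filter.Eventually.of_forall fun t => ?_
      have h0 : Tendsto (fun n : ℕ => 1 / ((n : ℝ) + 1)) atTop (𝓝 0) :=
        tendsto_one_div_add_atTop_nhds_zero_nat
      have h1 : Tendsto (fun n : ℕ => Real.exp (-(1 / ((n : ℝ) + 1)) * t ^ 2)) atTop (𝓝 1) := by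
        have h2 : Continuous fun x : ℝ => Real.exp (-x * t ^ 2) := by fun_prop
        have h3 := (h2.tendsto 0).comp h0
        simpa [Function.comp_def] using h3
      have h4 := (h1.const_mul (f t)).mul_const (Real.cos (t * s))
      simpa using h4
  exact ge_of_tendsto' hlim fun n => hreg _ (by positivity)

theorem PD_lorentz (a : ℝ) (ha : 0 < a) : PD (fun t => (a ^ 2 + t ^ 2)⁻¹) := by
  -- integrability of the density
  have hI1 : IntegrableOn (fun s : ℝ => Real.exp (-a * |s|)) (Set.Ioi 0) := by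
    have h1 := integrableOn_exp_mul_Ioi (a := -a) (by linarith) 0
    refine h1.congr_fun (fun s hs => ?_) measurableSet_Ioi
    rw [Set.mem_Ioi] at hs
    simp only
    rw [abs_of_pos hs]
  have hI2 : IntegrableOn (fun s : ℝ => Real.exp (-a * |s|)) (Set.Iic 0) := by
    have h1 := integrableOn_exp_mul_Iic (a := a) ha 0
    refine h1.congr_fun (fun s hs => ?_) measurableSet_Iic
    rw [Set.mem_Iic] at hs
    simp only
    rw [abs_of_nonpos hs]
    congr 1
    ring
  have hI : Integrable fun s : ℝ => Real.exp (-a * |s|) := by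
    rw [← integrableOn_univ, ← Set.Iic_union_Ioi (a := (0 : ℝ))]
    exact hI2.union hI1
  refine W1_density volume (fun s => (1 / (2 * a)) * Real.exp (-a * |s|)) id (hI.const_mul _)
    (fun s => by positivity) (by fun_prop) measurable_id fun t => ?_
  have hint : Integrable fun s : ℝ => cexp (((-a * |s| : ℝ) : ℂ) + I * ((t * s : ℝ) : ℂ)) := by
    refine hI.mono' ?_ (Filter.Eventually.of_forall fun s => ?_)
    · exact (by fun_prop : Continuous fun s : ℝ =>
        cexp (((-a * |s| : ℝ) : ℂ) + I * ((t * s : ℝ) : ℂ))).aestronglyMeasurable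
    · rw [Complex.norm_exp, Complex.add_re, Complex.ofReal_re, mul_comm I, Complex.re_ofReal_mul,
        Complex.I_re, mul_zero, add_zero]
  have h1 : ∀ s : ℝ, (((1 / (2 * a)) * Real.exp (-a * |s|) : ℝ) : ℂ) *
      Complex.exp (I * ((t * id s : ℝ) : ℂ)) =
      (1 / (2 * a) : ℂ) * cexp (((-a * |s| : ℝ) : ℂ) + I * ((t * s : ℝ) : ℂ)) := by
    intro s
    rw [Complex.exp_add, Complex.ofReal_mul, Complex.ofReal_exp]
    push_cast
    simp only [id]
    ring
  simp_rw [h1]
  rw [integral_const_mul, ← intervalIntegral.integral_Iic_add_Ioi hint.integrableOn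
    hint.integrableOn (b := 0)]
  have e1 : ∫ s in Set.Iic (0 : ℝ), cexp (((-a * |s| : ℝ) : ℂ) + I * ((t * s : ℝ) : ℂ)) =
      1 / ((a : ℂ) + I * t) := by
    have h2 := integral_exp_mul_complex_Iic (a := (a : ℂ) + I * t) (by simpa using ha) 0
    rw [Complex.ofReal_zero, mul_zero, Complex.exp_zero] at h2
    rw [← h2]
    refine setIntegral_congr_fun measurableSet_Iic fun s hs => ?_
    rw [Set.mem_Iic] at hs
    rw [abs_of_nonpos hs]
    congr 1
    push_cast
    ring
  have e2 : ∫ s in Set.Ioi (0 : ℝ), cexp (((-a * |s| : ℝ) : ℂ) + I * ((t * s : ℝ) : ℂ)) =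
      1 / ((a : ℂ) - I * t) := by
    have h2 := integral_exp_mul_complex_Ioi (a := -(a : ℂ) + I * t) (by simpa using ha) 0
    rw [Complex.ofReal_zero, mul_zero, Complex.exp_zero] at h2
    have h3 : 1 / ((a : ℂ) - I * t) = -1 / (-(a : ℂ) + I * t) := by
      rw [show -(a : ℂ) + I * t = -((a : ℂ) - I * t) by ring, div_neg, neg_div, neg_neg]
    rw [h3, ← h2]
    refine setIntegral_congr_fun measurableSet_Ioi fun s hs => ?_
    rw [Set.mem_Ioi] at hs
    rw [abs_of_pos hs]
    congr 1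
    push_cast
    ring
  rw [e1, e2]
  have hne1 : (a : ℂ) + I * t ≠ 0 := by
    intro h0
    have := congrArg Complex.re h0
    simp at this
    exact ha.ne' this
  have hne2 : (a : ℂ) - I * t ≠ 0 := by
    intro h0
    have := congrArg Complex.re h0
    simp at this
    exact ha.ne' this
  have hne3 : (a : ℂ) ≠ 0 := by exact_mod_cast ha.ne'
  have hprod : ((a : ℂ) + I * t) * ((a : ℂ) - I * t) = (a : ℂ) ^ 2 + (t : ℂ) ^ 2 := by
    have := Complex.I_sq
    linear_combination (-(t : ℂ) ^ 2) * this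
  have hne4 : (a : ℂ) ^ 2 + (t : ℂ) ^ 2 ≠ 0 := by
    rw [← hprod]
    exact mul_ne_zero hne1 hne2
  push_cast
  rw [div_add_div _ _ hne1 hne2, hprod]
  field_simp
  ring

theorem PD_gamma (a c : ℝ) (ha : 0 < a) :
    PD (fun t => ‖Complex.Gamma ((a : ℂ) + I * ((c * t : ℝ) : ℂ))‖ ^ 2) := by
  have hG : 0 < Real.Gamma (2 * a) := Real.Gamma_pos_of_pos (by linarith)
  set w : ℝ → ℝ := fun x => Real.Gamma (2 * a) * (|x| ^ (a - 1) * |1 - x| ^ (a - 1)) with hw
  have hwI : Integrable w (volume.restrict (Set.Ioc 0 1)) := by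
    have h1 := betaIntegral_convergent (u := (a : ℂ)) (v := (a : ℂ)) (by simpa using ha)
      (by simpa using ha)
    rw [intervalIntegrable_iff_integrableOn_Ioc_of_le zero_le_one] at h1
    have h2 := (h1.norm).const_mul (Real.Gamma (2 * a))
    refine h2.congr ?_
    have hne : ∀ᵐ x : ℝ ∂(volume.restrict (Set.Ioc (0 : ℝ) 1)), x ∈ Set.Ioc (0 : ℝ) 1 :=
      ae_restrict_mem measurableSet_Ioc
    have hne1 : ∀ᵐ x : ℝ ∂(volume.restrict (Set.Ioc (0 : ℝ) 1)), x ≠ 1 :=
      ae_restrict_of_ae (Measure.ae_ne volume 1)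
    filter_upwards [hne, hne1] with x hx hx1
    have hx0 : 0 < x := hx.1
    have hx2 : 0 < 1 - x := by
      have := hx.2
      have := lt_of_le_of_ne this hx1
      linarith
    rw [hw]
    simp only
    rw [abs_of_pos hx0, abs_of_pos hx2, norm_mul]
    rw [Complex.norm_cpow_eq_rpow_re_of_pos hx0,
      show (1 : ℂ) - (x : ℂ) = ((1 - x : ℝ) : ℂ) by push_cast; ring,
      Complex.norm_cpow_eq_rpow_re_of_pos hx2]
    simp
  refine W1_density (volume.restrict (Set.Ioc 0 1)) w
    (fun x => c * (Real.log x - Real.log (1 - x))) hwI (fun x => by positivity)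
    (by
      rw [hw]
      fun_prop)
    (by fun_prop) fun t => ?_
  have hre1 : 0 < ((a : ℂ) + I * ((c * t : ℝ) : ℂ)).re := by simpa using ha
  have hre2 : 0 < ((a : ℂ) - I * ((c * t : ℝ) : ℂ)).re := by simpa using ha
  have h1 := Gamma_mul_Gamma_eq_betaIntegral hre1 hre2
  have hconj : (a : ℂ) - I * ((c * t : ℝ) : ℂ) = conj ((a : ℂ) + I * ((c * t : ℝ) : ℂ)) := by
    simp only [map_add, map_mul, Complex.conj_ofReal, Complex.conj_I]
    ring
  have h2 : ((‖Complex.Gamma ((a : ℂ) + I * ((c * t : ℝ) : ℂ))‖ ^ 2 : ℝ) : ℂ) =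
      Complex.Gamma ((a : ℂ) + I * ((c * t : ℝ) : ℂ)) *
      Complex.Gamma ((a : ℂ) - I * ((c * t : ℝ) : ℂ)) := by
    rw [hconj, Complex.Gamma_conj, Complex.mul_conj, Complex.normSq_eq_norm_sq]
  rw [h2, h1, show (a : ℂ) + I * ((c * t : ℝ) : ℂ) + ((a : ℂ) - I * ((c * t : ℝ) : ℂ)) =
    ((2 * a : ℝ) : ℂ) by push_cast; ring, Complex.Gamma_ofReal]
  unfold betaIntegral
  rw [intervalIntegral.integral_of_le zero_le_one, ← integral_const_mul]
  apply integral_congr_ae
  have hne : ∀ᵐ x : ℝ ∂(volume.restrict (Set.Ioc (0 : ℝ) 1)), x ∈ Set.Ioc (0 : ℝ) 1 :=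
    ae_restrict_mem measurableSet_Ioc
  have hne1 : ∀ᵐ x : ℝ ∂(volume.restrict (Set.Ioc (0 : ℝ) 1)), x ≠ 1 :=
    ae_restrict_of_ae (Measure.ae_ne volume 1)
  filter_upwards [hne, hne1] with x hx hx1
  have hx0 : 0 < x := hx.1
  have hx2 : 0 < 1 - x := by
    have := hx.2
    have := lt_of_le_of_ne this hx1
    linarith
  have hx0' : (x : ℂ) ≠ 0 := by exact_mod_cast hx0.ne'
  have hx2' : ((1 - x : ℝ) : ℂ) ≠ 0 := by exact_mod_cast hx2.ne'
  rw [hw]
  simp only
  rw [abs_of_pos hx0, abs_of_pos hx2, show (1 : ℂ) - (x : ℂ) = ((1 - x : ℝ) : ℂ) by push_cast; ring,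
    Complex.cpow_def_of_ne_zero hx0', Complex.cpow_def_of_ne_zero hx2',
    Real.rpow_def_of_pos hx0, Real.rpow_def_of_pos hx2, ← Complex.ofReal_log hx0.le,
    ← Complex.ofReal_log hx2.le]
  push_cast
  rw [mul_assoc, mul_assoc, ← Complex.exp_add, ← Complex.exp_add, ← Complex.exp_add]
  congr 2
  ring

end Helper85.BP.P
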