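import Pool.Agent.Helper41.BP_W1
import Pool.Agent.Helper85.BP.Stubs

/-!
# MP_3dd6d4_an, module W2 : the two weights
-/

set_option autoImplicit false

open MeasureTheory Complex FourierTransform Filter Topology
open scoped ENNReal NNReal ComplexConjugate

noncomputable section

namespace Helper85.BP.P

open Helper72.BA Helper85.BP

theorem W2_norm_gamma_symm (a y : ℝ) :
    ‖Complex.Gamma ((a : ℂ) - I * (y : ℂ))‖ = ‖Complex.Gamma ((a : ℂ) + I * (y : ℂ))‖ := by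
  have hconj : (a : ℂ) - I * (y : ℂ) = conj ((a : ℂ) + I * (y : ℂ)) := by
    simp only [map_add, map_mul, Complex.conj_ofReal, Complex.conj_I]
    ring
  rw [hconj, Complex.Gamma_conj, Complex.norm_conj]

theorem W2_cos_sq (a b : ℝ) :
    ‖Complex.cos ((a : ℂ) + (b : ℂ) * I)‖ ^ 2 = (Real.cosh (2 * b) + Real.cos (2 * a)) / 2 := by
  rw [Complex.cos_add_mul_I, ← Complex.ofReal_cos, ← Complex.ofReal_cosh, ← Complex.ofReal_sin,
    ← Complex.ofReal_sinh, ← Complex.ofReal_mul, ← Complex.ofReal_mul,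
    ← Complex.normSq_eq_norm_sq, Complex.normSq_apply]
  simp only [Complex.sub_re, Complex.sub_im, Complex.ofReal_re, Complex.ofReal_im, Complex.mul_re,
    Complex.mul_im, Complex.I_re, Complex.I_im, mul_zero, mul_one, sub_zero, zero_sub, add_zero]
  have h1 := Real.cosh_sq b
  have h2 := Real.sin_sq_add_cos_sq a
  rw [Real.cosh_two_mul, Real.cos_two_mul]
  nlinarith

theorem W2_den_pos (θ τ : ℝ) (h0 : 0 < θ) (h1 : θ < 1) :
    0 < Real.cosh (Real.pi * τ) + Real.cos (Real.pi * θ) := by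
  have h2 := Real.one_le_cosh (Real.pi * τ)
  have h3 : -1 < Real.cos (Real.pi * θ) := by
    rw [← Real.cos_pi]
    apply Real.cos_lt_cos_of_nonneg_of_le_pi (by positivity) le_rfl
    nlinarith [Real.pi_pos]
  linarith

theorem W2_Q (θ τ : ℝ) (h0 : 0 < θ) (h1 : θ < 1) :
    ‖Complex.Gamma ((((1 + θ) / 2 : ℝ) : ℂ) + I * ((1 / 2 * τ : ℝ) : ℂ))‖ ^ 2 *
      ‖Complex.Gamma ((((1 - θ) / 2 : ℝ) : ℂ) + I * ((1 / 2 * τ : ℝ) : ℂ))‖ ^ 2 =
      2 * Real.pi ^ 2 / (Real.cosh (Real.pi * τ) + Real.cos (Real.pi * θ)) := by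
  set z : ℂ := (((1 + θ) / 2 : ℝ) : ℂ) + I * ((1 / 2 * τ : ℝ) : ℂ) with hz
  have h2 := Complex.Gamma_mul_Gamma_one_sub z
  have h3 : 1 - z = (((1 - θ) / 2 : ℝ) : ℂ) - I * ((1 / 2 * τ : ℝ) : ℂ) := by
    rw [hz]
    push_cast
    ring
  have h4 : Complex.sin (Real.pi * z) =
      Complex.cos (((Real.pi * θ / 2 : ℝ) : ℂ) + ((Real.pi * τ / 2 : ℝ) : ℂ) * I) := by
    rw [← Complex.sin_add_pi_div_two, hz]
    congr 1
    push_cast
    ring
  have h5 : ‖Complex.sin (Real.pi * z)‖ ^ 2 =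
      (Real.cosh (Real.pi * τ) + Real.cos (Real.pi * θ)) / 2 := by
    rw [h4, W2_cos_sq]
    congr 3 <;> ring
  have h6 := congrArg norm h2
  rw [norm_mul, norm_div, h3, W2_norm_gamma_symm, Complex.norm_real, Real.norm_eq_abs,
    abs_of_pos Real.pi_pos] at h6
  rw [← mul_pow, h6, div_pow, h5]
  have h7 := W2_den_pos θ τ h0 h1
  field_simp

theorem W2_half (y : ℝ) :
    ‖Complex.Gamma (((1 / 2 : ℝ) : ℂ) + I * (y : ℂ))‖ ^ 2 = Real.pi / Real.cosh (Real.pi * y) := by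
  have h2 := Complex.Gamma_mul_Gamma_one_sub (((1 / 2 : ℝ) : ℂ) + I * (y : ℂ))
  have h3 : 1 - (((1 / 2 : ℝ) : ℂ) + I * (y : ℂ)) = (((1 / 2 : ℝ)) : ℂ) - I * (y : ℂ) := by
    push_cast
    ring
  have h4 : Complex.sin (Real.pi * (((1 / 2 : ℝ) : ℂ) + I * (y : ℂ))) =
      Complex.cos (((0 : ℝ) : ℂ) + ((Real.pi * y : ℝ) : ℂ) * I) := by
    rw [← Complex.sin_add_pi_div_two]
    congr 1
    push_cast
    ring
  have h5 : ‖Complex.sin (Real.pi * (((1 / 2 : ℝ) : ℂ) + I * (y : ℂ)))‖ =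
      Real.cosh (Real.pi * y) := by
    rw [h4, Complex.ofReal_zero, zero_add, Complex.cos_mul_I, ← Complex.ofReal_cosh,
      Complex.norm_real, Real.norm_eq_abs, abs_of_pos (Real.cosh_pos _)]
  have h6 := congrArg norm h2
  rw [norm_mul, norm_div, h3, W2_norm_gamma_symm, Complex.norm_real, Real.norm_eq_abs,
    abs_of_pos Real.pi_pos, h5, ← sq] at h6
  exact h6

theorem W2_threehalf (y : ℝ) :
    ‖Complex.Gamma (((3 / 2 : ℝ) : ℂ) + I * (y : ℂ))‖ ^ 2 =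
      (1 / 4 + y ^ 2) * (Real.pi / Real.cosh (Real.pi * y)) := by
  have h1 : ((3 / 2 : ℝ) : ℂ) + I * (y : ℂ) = (((1 / 2 : ℝ) : ℂ) + I * (y : ℂ)) + 1 := by
    push_cast
    ring
  have hne : ((1 / 2 : ℝ) : ℂ) + I * (y : ℂ) ≠ 0 := by
    intro h
    have := congrArg Complex.re h
    simp at this
  rw [h1, Complex.Gamma_add_one _ hne, norm_mul, mul_pow, W2_half]
  congr 1
  rw [← Complex.normSq_eq_norm_sq, Complex.normSq_apply]
  simp
  ring

theorem W2_int (β θ : ℝ) (h0 : 0 < θ) (h1 : θ < 1) (hβ : 0 ≤ β) (hβ2 : β ≤ 2) (W : ℝ → ℝ)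
    (hc : Continuous W) (hW0 : ∀ τ, 0 ≤ W τ) (hW : ∀ τ, W τ ≤ P1 θ τ) :
    Integrable (fun τ => (1 + β ^ 2 * τ ^ 2) * W τ) := by
  have h2 := ((P_int θ h0 h1 2).2).const_mul 4
  refine h2.mono' (by fun_prop) (Filter.Eventually.of_forall fun τ => ?_)
  have h3 := hW0 τ
  have h4 := hW τ
  rw [Real.norm_eq_abs, abs_of_nonneg (by positivity)]
  have h5 : 1 + β ^ 2 * τ ^ 2 ≤ 4 * (1 + |τ|) ^ 2 := by
    have h6 := abs_nonneg τ
    have h7 : τ ^ 2 = |τ| ^ 2 := (sq_abs τ).symm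
    have h8 : β ^ 2 ≤ 4 := by nlinarith
    rw [h7]
    nlinarith [mul_le_mul_of_nonneg_right h8 (sq_nonneg |τ|)]
  calc (1 + β ^ 2 * τ ^ 2) * W τ ≤ (4 * (1 + |τ|) ^ 2) * P1 θ τ :=
        mul_le_mul h5 h4 h3 (by positivity)
    _ = 4 * ((1 + |τ|) ^ 2 * P1 θ τ) := by ring

theorem adm24 (θ : ℝ) (h0 : 0 < θ) (h1 : θ < 1) :
    Adm 1 (fun τ => P1 θ τ * ((1 + τ ^ 2) / (9 + τ ^ 2))) := by
  obtain ⟨-, hc, -, hpos, -, heven, -⟩ := P_facts θ h0 h1
  have hrat : ∀ τ : ℝ, 0 ≤ (1 + τ ^ 2) / (9 + τ ^ 2) := fun τ => by positivity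
  have hrat1 : ∀ τ : ℝ, (1 + τ ^ 2) / (9 + τ ^ 2) ≤ 1 := fun τ => by
    rw [div_le_one (by positivity)]
    linarith
  have hratc : Continuous fun τ : ℝ => (1 + τ ^ 2) / (9 + τ ^ 2) := by
    apply Continuous.div (by fun_prop) (by fun_prop)
    intro τ
    positivity
  have hint : Integrable
      (fun τ => (1 + (1 : ℝ) ^ 2 * τ ^ 2) * (P1 θ τ * ((1 + τ ^ 2) / (9 + τ ^ 2)))) := by
    refine W2_int 1 θ h0 h1 zero_le_one (by norm_num) _ (hc.mul hratc)
      (fun τ => mul_nonneg (hpos τ).le (hrat τ)) (fun τ => ?_)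
    calc P1 θ τ * ((1 + τ ^ 2) / (9 + τ ^ 2)) ≤ P1 θ τ * 1 :=
          mul_le_mul_of_nonneg_left (hrat1 τ) (hpos τ).le
      _ = P1 θ τ := mul_one _
  -- positive definiteness
  have hsin : 0 ≤ Real.sin (Real.pi * θ) := by
    apply Real.sin_nonneg_of_nonneg_of_le_pi
    · positivity
    · nlinarith [Real.pi_pos]
  have hcos : 0 ≤ 1 - Real.cos (Real.pi * θ) := by
    have := Real.cos_le_one (Real.pi * θ)
    linarith
  have hPD : PD (fun τ => (1 + (1 : ℝ) ^ 2 * τ ^ 2) * (P1 θ τ * ((1 + τ ^ 2) / (9 + τ ^ 2)))) := by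
    have g1 := PD_gamma (3 / 2) (1 / 2) (by norm_num)
    have g2 := PD_gamma ((1 + θ) / 2) (1 / 2) (by linarith)
    have g3 := PD_gamma ((1 - θ) / 2) (1 / 2) (by linarith)
    have g4 := PD_smul ((1 - Real.cos (Real.pi * θ)) / (2 * Real.pi ^ 2)) (by positivity)
      (PD_mul g2 g3)
    have g5 := PD_add (PD_const 1 zero_le_one) g4
    have g6 := PD_smul (Real.sin (Real.pi * θ) / 4 * (16 / Real.pi ^ 2)) (by positivity)
      (PD_mul (PD_mul (PD_mul g1 g1) g5) (PD_lorentz 3 (by norm_num)))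
    convert g6 using 2 with τ
    rw [W2_Q θ τ h0 h1, W2_threehalf (1 / 2 * τ)]
    have hC := Real.cosh_pos (Real.pi * (1 / 2 * τ))
    have hD := W2_den_pos θ τ h0 h1
    have hcc : Real.cosh (Real.pi * τ) = 2 * Real.cosh (Real.pi * (1 / 2 * τ)) ^ 2 - 1 := by
      have h2 := Real.cosh_two_mul (Real.pi * (1 / 2 * τ))
      have h3 := Real.cosh_sq (Real.pi * (1 / 2 * τ))
      rw [show Real.pi * τ = 2 * (Real.pi * (1 / 2 * τ)) by ring, h2]
      linarith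
    unfold P1
    have hpi := Real.pi_pos
    have h9 : (0 : ℝ) < 9 + τ ^ 2 := by positivity
    have h9' : (0 : ℝ) < 3 ^ 2 + τ ^ 2 := by positivity
    rw [hcc] at hD ⊢
    generalize Real.cosh (Real.pi * (1 / 2 * τ)) = C at *
    generalize Real.cos (Real.pi * θ) = c at *
    generalize Real.sin (Real.pi * θ) = S at *
    have e1 : (3 : ℝ) ^ 2 + τ ^ 2 = 9 + τ ^ 2 := by ring
    rw [e1]
    field_simp
    ring
  constructor
  · exact hc.mul hratc
  · exact fun τ => mul_nonneg (hpos τ).le (hrat τ)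
  · intro τ
    simp only [heven τ, neg_sq]
  · exact hint
  · intro s
    have := PD_integral_nonneg hPD hint s
    simpa only [one_mul] using this

theorem adm46 (β : ℝ) (hβ : 0 < β) (hβ2 : β ≤ 2) :
    Adm β (fun τ => (2 * Real.cosh (Real.pi * τ))⁻¹) := by
  have hP : ∀ τ : ℝ, P1 (1 / 2) τ = (2 * Real.cosh (Real.pi * τ))⁻¹ := by
    intro τ
    unfold P1
    rw [show Real.pi * (1 / 2) = Real.pi / 2 by ring, Real.sin_pi_div_two, Real.cos_pi_div_two,
      add_zero, one_div]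
  have hc : Continuous fun τ : ℝ => (2 * Real.cosh (Real.pi * τ))⁻¹ := by
    apply Continuous.inv₀ (by fun_prop)
    intro τ
    have := Real.cosh_pos (Real.pi * τ)
    positivity
  have hpos : ∀ τ : ℝ, 0 ≤ (2 * Real.cosh (Real.pi * τ))⁻¹ := fun τ => by
    have := Real.cosh_pos (Real.pi * τ)
    positivity
  have hint : Integrable (fun τ => (1 + β ^ 2 * τ ^ 2) * (2 * Real.cosh (Real.pi * τ))⁻¹) :=
    W2_int β (1 / 2) (by norm_num) (by norm_num) hβ.le hβ2 _ hc hpos (fun τ => (hP τ).ge)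
  have hPD : PD (fun τ => (1 + β ^ 2 * τ ^ 2) * (2 * Real.cosh (Real.pi * τ))⁻¹) := by
    have g1 := PD_smul (β ^ 2 / (2 * Real.pi)) (by positivity) (PD_gamma (3 / 2) 1 (by norm_num))
    have hb : 0 ≤ 1 - β ^ 2 / 4 := by nlinarith
    have g2 := PD_smul ((1 - β ^ 2 / 4) / (2 * Real.pi)) (by positivity)
      (PD_gamma (1 / 2) 1 (by norm_num))
    have g3 := PD_add g1 g2
    convert g3 using 2 with τ
    rw [W2_threehalf (1 * τ), W2_half (1 * τ), one_mul]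
    have hC := Real.cosh_pos (Real.pi * τ)
    have hpi := Real.pi_pos
    field_simp
    ring
  constructor
  · exact hc
  · exact hpos
  · intro τ
    simp only [mul_neg, Real.cosh_neg]
  · exact hint
  · intro s
    have := PD_integral_nonneg hPD hint (β * s)
    have e : ∀ τ : ℝ, β * τ * s = τ * (β * s) := fun τ => by ring
    simp_rw [e]
    exact this

end Helper85.BP.P
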