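import Mathlib
import Pool.Agent.Helper41.Assembly

/-!
Cohomology of `𝒪(n)` on projective space and on the quartic.
-/

open CategoryTheory Limits ZeroObject Pretriangulated

set_option linter.unusedSectionVars false

universe w₁ w₂ w₃ w₄ v₁ v₂ u₁ u₂

namespace Pool.Agent.Helper41

section General

variable {𝒟 : Type u₁} [Category.{v₁} 𝒟] [Preadditive 𝒟] [Linear ℂ 𝒟] [HasZeroObject 𝒟]
  [HasShift 𝒟 ℤ] [∀ n : ℤ, (shiftFunctor 𝒟 n).Additive]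
  [∀ n : ℤ, Functor.Linear ℂ (shiftFunctor 𝒟 n)] [Pretriangulated 𝒟]
  {ℰ : Type u₂} [Category.{v₂} ℰ] [Preadditive ℰ] [Linear ℂ ℰ] [HasZeroObject ℰ]
  [HasShift ℰ ℤ] [∀ n : ℤ, (shiftFunctor ℰ n).Additive]
  [∀ n : ℤ, Functor.Linear ℂ (shiftFunctor ℰ n)] [Pretriangulated ℰ]

lemma post_equiv₁ (E : 𝒟) (T : Triangle 𝒟) (hT : T ∈ distTriang 𝒟)
    (h : ∀ i : ℤ, Subsingleton (E ⟶ T.obj₃⟦i⟧)) (i : ℤ) :
    Nonempty ((E ⟶ T.obj₁⟦i⟧) ≃ₗ[ℂ] (E ⟶ T.obj₂⟦i⟧)) := by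
  refine ⟨LinearEquiv.ofBijective (Linear.rightComp ℂ E (T.mor₁⟦i⟧')) ⟨?_, ?_⟩⟩
  · rw [injective_iff_map_eq_zero]
    intro f hf
    obtain ⟨g, hg⟩ := exact_post E T.invRotate (inv_rot_of_distTriang _ hT) i f hf
    have : Subsingleton (E ⟶ (T.obj₃⟦(-1 : ℤ)⟧)⟦i⟧) :=
      (shiftEquivPost E T.obj₃ (-1) i (-1 + i) rfl).toEquiv.subsingleton
    have hg0 : g = 0 := Subsingleton.elim (α := E ⟶ (T.obj₃⟦(-1 : ℤ)⟧)⟦i⟧) g 0
    rw [hg, hg0, zero_comp]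
    rfl
  · intro f
    have := h i
    obtain ⟨g, hg⟩ := exact_post E T hT i f (Subsingleton.elim _ _)
    exact ⟨g, hg.symm⟩

lemma post_equiv₂ (E : 𝒟) (T : Triangle 𝒟) (hT : T ∈ distTriang 𝒟)
    (h : ∀ i : ℤ, Subsingleton (E ⟶ T.obj₁⟦i⟧)) (i : ℤ) :
    Nonempty ((E ⟶ T.obj₂⟦i⟧) ≃ₗ[ℂ] (E ⟶ T.obj₃⟦i⟧)) :=
  post_equiv₁ E T.rotate (rot_of_distTriang _ hT)
    (fun i => (shiftEquivPost E T.obj₁ 1 i (1 + i) rfl).toEquiv.subsingleton) i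

lemma FiniteHom.congr {E F : 𝒟} {E' F' : ℰ} (h : FiniteHom E F)
    (e : ∀ i : ℤ, Nonempty ((E' ⟶ F'⟦i⟧) ≃ₗ[ℂ] (E ⟶ F⟦i⟧))) : FiniteHom E' F' := by
  refine ⟨fun i => ?_, ?_⟩
  · obtain ⟨e⟩ := e i
    have := h.1 i
    exact Module.Finite.equiv e.symm
  · refine h.2.subset fun i hi => ?_
    obtain ⟨e⟩ := e i
    intro hs
    exact hi e.toEquiv.subsingleton

lemma chi_congr {E F : 𝒟} {E' F' : ℰ}
    (e : ∀ i : ℤ, Nonempty ((E' ⟶ F'⟦i⟧) ≃ₗ[ℂ] (E ⟶ F⟦i⟧))) : chi E' F' = chi E F := by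
  unfold chi
  refine finsum_congr fun i => ?_
  obtain ⟨e⟩ := e i
  rw [e.finrank_eq]

lemma iso_equiv {E E' F F' : 𝒟} (a : E ≅ E') (b : F ≅ F') (i : ℤ) :
    Nonempty ((E ⟶ F⟦i⟧) ≃ₗ[ℂ] (E' ⟶ F'⟦i⟧)) :=
  ⟨Linear.homCongr ℂ a ((shiftFunctor 𝒟 i).mapIso b)⟩

end General

section Proj4

variable [HasDerivedCategory.{w₃} (Gr 0)] [HasDerivedCategory.{w₄} (QGr 0)]

/-- `𝒪(n)` on `ℙ⁴` -/
noncomputable def PS (n : ℤ) : DerivedCategory (QGr 0) :=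
  (proj 0).mapDerivedCategory.obj (sg (S0 n))

/-- `S(n)` is isomorphic to the pattern module of nonnegative exponents. -/
noncomputable def S0Iso (n : ℤ) : S0 n ≅ toG (patMod (fun _ => Sg.pos) n) :=
  toGF.mapIso (@asIso _ _ _ _ (freeTo (onePat n)) (isIso_freeTo_one n))

/-- `Hom(S(m), V)` for pattern modules -/
noncomputable def homPat (s : Fin 5 → Sg) (m n : ℤ) :
    (S0 m ⟶ toG (patMod s n)) ≃ₗ[ℂ] patSub s (-m + n) :=
  corepS m (toG (patMod s n))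

/-- the replacement of `S(n)` -/
lemma proj4_data (m n : ℤ) : ∃ (N : DerivedCategory (Gr 0)),
    (∀ i : ℤ, Nonempty ((PS m ⟶ (PS n)⟦i⟧) ≃ₗ[ℂ] (sg (S0 m) ⟶ N⟦i⟧))) ∧
    ∃ (a : itShift 5 (sg (toG (patMod (fun _ => Sg.neg) n))) ⟶
        sg (toG (patMod (fun _ => Sg.pos) n)))
      (b : sg (toG (patMod (fun _ => Sg.pos) n)) ⟶ N)
      (c : N ⟶ (itShift 5 (sg (toG (patMod (fun _ => Sg.neg) n))))⟦(1 : ℤ)⟧),
      Triangle.mk a b c ∈ distTriang (DerivedCategory (Gr 0)) := by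
  have h := chained_final n
  unfold Chained at h
  rw [sp_five] at h
  obtain ⟨N, a, b, c, hT, hN⟩ := h
  refine ⟨N, fun i => ?_, a, b, c, hT⟩
  have h0 : IsZero ((proj 0).mapDerivedCategory.obj
      (itShift 5 (sg (toG (patMod (fun _ => Sg.neg) n))))) :=
    itShift_isZero 5 _ (proj_sg_tors _ (patMod_tors n))
  have h1 : IsIso ((proj 0).mapDerivedCategory.map b) :=
    (Triangle.isZero₁_iff_isIso₂ _ ((proj 0).mapDerivedCategory.map_distinguished _ hT)).1 h0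
  obtain ⟨e⟩ := iso_equiv (Iso.refl (PS m))
    ((proj 0).mapDerivedCategory.mapIso (DerivedCategory.Q.mapIso ((sgl _).mapIso (S0Iso n)))) i
  exact ⟨e ≪≫ₗ (niceEquiv b h1 hN (sg (S0 m)) i).symm⟩

lemma proj4_chi (m n : ℤ) :
    FiniteHom (PS m) (PS n) ∧ chi (PS m) (PS n) = Ring.choose (n - m + 4) 4 := by
  obtain ⟨N, e, a, b, c, hT⟩ := proj4_data m n
  have f1 : Module.Finite ℂ (S0 m ⟶ toG (patMod (fun _ => Sg.pos) n)) :=
    Module.Finite.equiv (homPat _ m n).symm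
  have f2 : Module.Finite ℂ (S0 m ⟶ toG (patMod (fun _ => Sg.neg) n)) :=
    Module.Finite.equiv (homPat _ m n).symm
  have g1 : FiniteHom (sg (S0 m)) (sg (toG (patMod (fun _ => Sg.pos) n))) := sg_finiteHom _ _
  have g2 : FiniteHom (sg (S0 m)) (sg (toG (patMod (fun _ => Sg.neg) n))) := sg_finiteHom _ _
  have g3 := (itShift_finiteHom 5 _ _ g2).shift_right 1
  have g4 : FiniteHom (sg (S0 m)) N :=
    FiniteHom.of_tri _ _ (rot_of_distTriang _ hT) g1 g3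
  refine ⟨g4.congr e, ?_⟩
  rw [chi_congr e]
  have h1 := chi_tri_post (sg (S0 m)) _ (rot_of_distTriang _ hT) g1 g4 g3
  refine h1.trans ?_
  change chi (sg (S0 m)) (sg (toG (patMod (fun _ => Sg.pos) n))) +
    chi (sg (S0 m)) ((itShift 5 (sg (toG (patMod (fun _ => Sg.neg) n))))⟦(1 : ℤ)⟧) = _
  rw [chi_shift_right, itShift_chi, sg_chi, sg_chi, (homPat _ m n).finrank_eq,
    (homPat _ m n).finrank_eq, ← dim_sum, Int.negOnePow_one, neg_add_eq_sub]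
  push_cast
  ring

lemma proj4_low (m n : ℤ) (h : -5 < n - m) (i : ℤ) :
    Nonempty ((PS m ⟶ (PS n)⟦i⟧) ≃ₗ[ℂ]
      (sg (S0 m) ⟶ (sg (toG (patMod (fun _ => Sg.pos) n)))⟦i⟧)) := by
  obtain ⟨N, e, a, b, c, hT⟩ := proj4_data m n
  obtain ⟨e1⟩ := e i
  have h2 : ∀ i : ℤ, Subsingleton (sg (S0 m) ⟶
      (sg (toG (patMod (fun _ => Sg.neg) n)))⟦i⟧) := fun i => by
    by_cases hi : i = 0
    · subst hi
      obtain ⟨e⟩ := sg_hom_zero (S0 m) (toG (patMod (fun _ => Sg.neg) n))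
      have := subsingleton_neg (-m + n) (by omega)
      exact (e ≪≫ₗ homPat _ m n).toEquiv.subsingleton
    · exact sg_hom_ne _ _ i hi
  obtain ⟨e2⟩ := post_equiv₂ (sg (S0 m)) _ hT (itShift_vanish 5 _ _ h2) i
  exact ⟨e1 ≪≫ₗ e2.symm⟩

lemma proj4_ne (m n : ℤ) (h : -5 < n - m) (i : ℤ) (hi : i ≠ 0) :
    Subsingleton (PS m ⟶ (PS n)⟦i⟧) := by
  obtain ⟨e⟩ := proj4_low m n h i
  have := sg_hom_ne (S0 m) (toG (patMod (fun _ => Sg.pos) n)) i hi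
  exact e.toEquiv.subsingleton

lemma proj4_neg (m n : ℤ) (h : -5 < n - m) (h' : n - m < 0) (i : ℤ) :
    Subsingleton (PS m ⟶ (PS n)⟦i⟧) := by
  by_cases hi : i = 0
  · subst hi
    obtain ⟨e⟩ := proj4_low m n h 0
    obtain ⟨e'⟩ := sg_hom_zero (S0 m) (toG (patMod (fun _ => Sg.pos) n))
    have := subsingleton_pos (-m + n) (by omega)
    exact (e ≪≫ₗ e' ≪≫ₗ homPat _ m n).toEquiv.subsingleton
  · exact proj4_ne m n h i hi

lemma proj4_zero (n : ℤ) : Module.finrank ℂ (PS n ⟶ (PS n)⟦(0 : ℤ)⟧) = 1 := by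
  obtain ⟨e⟩ := proj4_low n n (by omega) 0
  obtain ⟨e'⟩ := sg_hom_zero (S0 n) (toG (patMod (fun _ => Sg.pos) n))
  rw [(e ≪≫ₗ e' ≪≫ₗ homPat _ n n).finrank_eq, show -n + n = ((0 : ℕ) : ℤ) by simp, finrank_pos]
  simp

end Proj4

section Quartic

variable {f : MvPolynomial (Fin 5) ℂ} (hf : f.IsHomogeneous 4)
  [HasDerivedCategory.{w₁} (Gr f)] [HasDerivedCategory.{w₂} (QGr f)]
  [HasDerivedCategory.{w₃} (Gr 0)] [HasDerivedCategory.{w₄} (QGr 0)]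

/-- the pushforward of `𝒪_X(n)` to `ℙ⁴` -/
noncomputable def PA (n : ℤ) : DerivedCategory (QGr 0) :=
  (proj 0).mapDerivedCategory.obj (sg ((jmap f).obj (Amod hf n)))

include hf in
lemma exists_triangle_PA (hf0 : f ≠ 0) (n : ℤ) :
    ∃ (p : PS (n - 4) ⟶ PS n) (q : PS n ⟶ PA hf n) (r : PA hf n ⟶ (PS (n - 4))⟦(1 : ℤ)⟧),
      Triangle.mk p q r ∈ distTriang (DerivedCategory (QGr 0)) := by
  have := mono_mulF hf hf0 n
  let S : ShortComplex GrS := ShortComplex.mk (mulF f n) (cokernel.π (mulF f n))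
    (cokernel.condition _)
  have hS : S.ShortExact :=
    { exact := ShortComplex.exact_of_g_is_cokernel _ (cokernelIsCokernel (mulF f n))
      mono_f := this
      epi_g := inferInstanceAs (Epi (cokernel.π (mulF f n))) }
  obtain ⟨p, q, r, h⟩ := exists_triangle S hS
  exact ⟨_, _, _, (proj 0).mapDerivedCategory.map_distinguished _ h⟩

/-- `𝒪_X(n)` -/
noncomputable def OX (n : ℤ) : DerivedCategory (QGr f) :=
  (proj f).mapDerivedCategory.obj (sg (Amod hf n))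

lemma quartic_compare (m n i : ℤ) :
    Nonempty ((OX hf m ⟶ (OX hf n)⟦i⟧) ≃ₗ[ℂ] (PS m ⟶ (PA hf n)⟦i⟧)) := by
  obtain ⟨e⟩ := compare hf m (sg (Amod hf n)) i
  obtain ⟨e'⟩ := iso_equiv (Iso.refl (PS m)) ((proj 0).mapDerivedCategory.mapIso
    (((jmap f).mapDerivedCategorySingleFunctor 0).app (Amod hf n))) i
  exact ⟨e ≪≫ₗ e'⟩

include hf in
lemma quartic_finite_chi (hf0 : f ≠ 0) (m n : ℤ) :
    FiniteHom (OX hf m) (OX hf n) ∧ chi (OX hf m) (OX hf n) = hilb (n - m) := by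
  obtain ⟨p, q, r, hT⟩ := exists_triangle_PA hf hf0 n
  obtain ⟨f1, c1⟩ := proj4_chi m (n - 4)
  obtain ⟨f2, c2⟩ := proj4_chi m n
  have f1' := f1.shift_right 1
  have f3 : FiniteHom (PS m) (PA hf n) :=
    FiniteHom.of_tri _ _ (rot_of_distTriang _ hT) f2 f1'
  refine ⟨f3.congr (quartic_compare hf m n), ?_⟩
  rw [chi_congr (quartic_compare hf m n)]
  have h1 := chi_tri_post (PS m) _ hT f1 f2 f3
  have h2 : chi (PS m) (PS n) = chi (PS m) (PS (n - 4)) + chi (PS m) (PA hf n) := h1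
  rw [c1, c2] at h2
  unfold hilb
  have e1 : n - 4 - m + 4 = n - m := by ring
  rw [e1] at h2
  linarith

include hf in
lemma quartic_exceptional_aux (hf0 : f ≠ 0) (n i : ℤ) :
    Nonempty ((OX hf n ⟶ (OX hf n)⟦i⟧) ≃ₗ[ℂ] (PS n ⟶ (PS n)⟦i⟧)) := by
  obtain ⟨p, q, r, hT⟩ := exists_triangle_PA hf hf0 n
  obtain ⟨e1⟩ := quartic_compare hf n n i
  obtain ⟨e2⟩ := post_equiv₂ (PS n) _ hT
    (fun i => proj4_neg n (n - 4) (by omega) (by omega) i) i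
  exact ⟨e1 ≪≫ₗ e2.symm⟩

include hf in
lemma quartic_exceptional (hf0 : f ≠ 0) (n : ℤ) : IsExceptional (OX hf n) := by
  constructor
  · obtain ⟨e⟩ := quartic_exceptional_aux hf hf0 n 0
    rw [← proj4_zero n, ← e.finrank_eq]
    exact (Linear.homCongr ℂ (Iso.refl (OX hf n))
      ((shiftFunctorZero _ ℤ).app (OX hf n))).finrank_eq.symm
  · intro i hi
    obtain ⟨e⟩ := quartic_exceptional_aux hf hf0 n i
    have := proj4_ne n n (by omega) i hi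
    exact e.toEquiv.subsingleton

end Quartic

end Pool.Agent.Helper41
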