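import Mathlib
import Pool.Agent.Helper41.P4

/-!
The objects `𝒪_X(n)` in the derived category of `QGr(S/f)` form a quartic system, also in every
full triangulated subcategory containing them.
-/

open CategoryTheory Limits ZeroObject Pretriangulated

set_option linter.unusedSectionVars false

universe w v u

namespace Pool.Agent.Helper41

section Full

variable {𝒞 : Type u} [Category.{v} 𝒞] [Preadditive 𝒞] [Linear ℂ 𝒞] [HasZeroObject 𝒞]
  [HasShift 𝒞 ℤ] [∀ n : ℤ, (shiftFunctor 𝒞 n).Additive]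
  [∀ n : ℤ, Functor.Linear ℂ (shiftFunctor 𝒞 n)] [Pretriangulated 𝒞]

lemma IsQuarticSystem.of_equiv {𝒟 : Type*} [Category* 𝒟] [Preadditive 𝒟] [Linear ℂ 𝒟]
    [HasZeroObject 𝒟] [HasShift 𝒟 ℤ] [∀ n : ℤ, (shiftFunctor 𝒟 n).Additive]
    [∀ n : ℤ, Functor.Linear ℂ (shiftFunctor 𝒟 n)] [Pretriangulated 𝒟]
    {L : ℤ → 𝒞} (hL : IsQuarticSystem L) (L' : ℤ → 𝒟)
    (e : ∀ m n i : ℤ, Nonempty ((L' m ⟶ (L' n)⟦i⟧) ≃ₗ[ℂ] (L m ⟶ (L n)⟦i⟧))) :
    IsQuarticSystem L' where
  finite m n := (hL.finite m n).congr (e m n)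
  chi_eq m n := by
    rw [← hL.chi_eq m n]
    exact chi_congr (e m n)
  exceptional := by
    constructor
    · rw [← hL.exceptional.1]
      obtain ⟨e⟩ := e 0 0 0
      exact ((Linear.homCongr ℂ (Iso.refl (L' 0)) ((shiftFunctorZero 𝒟 ℤ).app (L' 0))).symm ≪≫ₗ
        e ≪≫ₗ Linear.homCongr ℂ (Iso.refl (L 0)) ((shiftFunctorZero 𝒞 ℤ).app (L 0))).finrank_eq
    · intro i hi
      obtain ⟨e⟩ := e 0 0 i
      have := hL.exceptional.2 i hi
      exact e.toEquiv.subsingleton

instance full_shift_linear (𝒟 : ObjectProperty 𝒞) [𝒟.IsTriangulated] (n : ℤ) :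
    Functor.Linear ℂ (shiftFunctor 𝒟.FullSubcategory n) where
  map_smul {X Y} g r := by
    have h := (𝒟.ι.commShiftIso n).hom.naturality
    apply 𝒟.ι.map_injective
    rw [← cancel_mono ((𝒟.ι.commShiftIso n).hom.app Y)]
    have h1 := h (r • g)
    have h2 := h g
    dsimp only [Functor.comp_map] at h1 h2
    rw [h1, Functor.map_smul, Functor.map_smul, Functor.map_smul, Linear.smul_comp, h2,
      Linear.comp_smul]

/-- Morphisms in a full subcategory -/
noncomputable def fullHomEquiv (𝒟 : ObjectProperty 𝒞) [𝒟.IsTriangulated]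
    (X Y : 𝒟.FullSubcategory) (i : ℤ) : (X ⟶ Y⟦i⟧) ≃ₗ[ℂ] (X.obj ⟶ Y.obj⟦i⟧) :=
  LinearEquiv.trans
    { toFun := fun φ => φ.hom
      invFun := fun φ => 𝒟.homMk φ
      map_add' := fun _ _ => rfl
      map_smul' := fun _ _ => rfl
      left_inv := fun _ => rfl
      right_inv := fun _ => rfl }
    (Linear.homCongr ℂ (Iso.refl X.obj) ((𝒟.ι.commShiftIso i).app Y))

lemma IsQuarticSystem.full {L : ℤ → 𝒞} (hL : IsQuarticSystem L) (𝒟 : ObjectProperty 𝒞)
    [𝒟.IsTriangulated] (h : ∀ n, 𝒟 (L n)) :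
    IsQuarticSystem (fun n => (⟨L n, h n⟩ : 𝒟.FullSubcategory)) :=
  hL.of_equiv _ fun _ _ i => ⟨fullHomEquiv 𝒟 _ _ i⟩

end Full

section Quartic

variable {f : MvPolynomial (Fin 5) ℂ} [HasDerivedCategory.{w} (QGr f)]

/-- The sheaf `𝒪_X(n)` on the quartic `X = {f = 0} ⊂ ℙ⁴`, as an object of the derived category
of quasi-coherent sheaves `QGr(S/f)`. -/
noncomputable def sheafO (hf : f.IsHomogeneous 4) (n : ℤ) : DerivedCategory (QGr f) :=
  (DerivedCategory.singleFunctor (QGr f) 0).obj ((proj f).obj (Amod hf n))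

theorem isQuarticSystem_sheafO (hf : f.IsHomogeneous 4) (hf0 : f ≠ 0) :
    IsQuarticSystem (sheafO hf) := by
  let _ : HasDerivedCategory (Gr f) := HasDerivedCategory.standard _
  let _ : HasDerivedCategory (Gr 0) := HasDerivedCategory.standard _
  let _ : HasDerivedCategory (QGr 0) := HasDerivedCategory.standard _
  have h : IsQuarticSystem (OX hf) :=
    { finite := fun m n => (quartic_finite_chi hf hf0 m n).1
      chi_eq := fun m n => (quartic_finite_chi hf hf0 m n).2
      exceptional := quartic_exceptional hf hf0 0 }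
  have e : ∀ n, sheafO hf n ≅ OX hf n := fun n =>
    (((proj f).mapDerivedCategorySingleFunctor 0).app (Amod hf n)).symm
  exact h.of_equiv _ fun m n i => iso_equiv (e m) (e n) i

/-- The coherent sheaves on `X`: the smallest class of objects of `QGr(S/f) = QCoh(X)` that
contains all `𝒪_X(n)` and is closed under subobjects, quotients and extensions. -/
inductive IsCoh (hf : f.IsHomogeneous 4) : QGr f → Prop
  | twist (n : ℤ) : IsCoh hf ((proj f).obj (Amod hf n))
  | sub {F G : QGr f} (i : F ⟶ G) (hi : Mono i) (h : IsCoh hf G) : IsCoh hf F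
  | quot {F G : QGr f} (p : F ⟶ G) (hp : Epi p) (h : IsCoh hf F) : IsCoh hf G
  | ext {T : ShortComplex (QGr f)} (hT : T.ShortExact) (h₁ : IsCoh hf T.X₁)
      (h₃ : IsCoh hf T.X₃) : IsCoh hf T.X₂

/-- the coherent sheaves as a property of objects -/
def Coh (hf : f.IsHomogeneous 4) : ObjectProperty (QGr f) := IsCoh hf

lemma coh_zero (hf : f.IsHomogeneous 4) {F : QGr f} (h : IsZero F) : Coh hf F :=
  IsCoh.sub (h.to_ ((proj f).obj (Amod hf 0))) (h.mono _) (IsCoh.twist 0)

instance (hf : f.IsHomogeneous 4) : (Coh hf).IsSerreClass where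
  exists_zero := ⟨0, isZero_zero _, coh_zero hf (isZero_zero _)⟩
  prop_of_mono i _ h := IsCoh.sub i inferInstance h
  prop_of_epi p _ h := IsCoh.quot p inferInstance h
  prop_X₂_of_shortExact hT h₁ h₃ := IsCoh.ext hT h₁ h₃

/-- The bounded derived category `D^b(X)` of coherent sheaves on the quartic `X = {f = 0}`, as
the full subcategory of `D(QCoh X)` of complexes with bounded coherent cohomology. -/
def Db (hf : f.IsHomogeneous 4) : ObjectProperty (DerivedCategory (QGr f)) := fun K =>
  (∃ a b : ℤ, ∀ n : ℤ, (n < a ∨ b < n) →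
    IsZero ((DerivedCategory.homologyFunctor (QGr f) n).obj K)) ∧
  ∀ n : ℤ, IsCoh hf ((DerivedCategory.homologyFunctor (QGr f) n).obj K)

lemma h_shift (K : DerivedCategory (QGr f)) (k n : ℤ) :
    Nonempty ((DerivedCategory.homologyFunctor (QGr f) n).obj (K⟦k⟧) ≅
      (DerivedCategory.homologyFunctor (QGr f) (k + n)).obj K) :=
  ⟨((DerivedCategory.homologyFunctor (QGr f) 0).shiftIso k n (k + n) rfl).app K⟩

instance db_iso (hf : f.IsHomogeneous 4) : (Db hf).IsClosedUnderIsomorphisms where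
  of_iso {K L} e hK := by
    obtain ⟨⟨a, b, hab⟩, hc⟩ := hK
    exact ⟨⟨a, b, fun n hn => (hab n hn).of_iso
        ((DerivedCategory.homologyFunctor (QGr f) n).mapIso e.symm)⟩,
      fun n => (Coh hf).prop_of_iso
        ((DerivedCategory.homologyFunctor (QGr f) n).mapIso e) (hc n)⟩

instance db_triangulated (hf : f.IsHomogeneous 4) : (Db hf).IsTriangulated where
  exists_zero := ⟨0, isZero_zero _, by
    have h : ∀ n : ℤ, IsZero ((DerivedCategory.homologyFunctor (QGr f) n).obj
      (0 : DerivedCategory (QGr f))) := fun n => Functor.map_isZero _ (isZero_zero _)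
    exact ⟨⟨0, 0, fun n _ => h n⟩, fun n => coh_zero hf (h n)⟩⟩
  isStableUnderShiftBy k := ⟨fun K hK => by
    obtain ⟨⟨a, b, hab⟩, hc⟩ := hK
    refine ⟨⟨a - k, b - k, fun n hn => ?_⟩, fun n => ?_⟩
    · obtain ⟨e⟩ := h_shift K k n
      exact (hab (k + n) (by omega)).of_iso e
    · obtain ⟨e⟩ := h_shift K k n
      exact (Coh hf).prop_of_iso e.symm (hc (k + n))⟩
  toIsTriangulatedClosed₂ := .mk' (fun T hT h₁ h₃ => by
    obtain ⟨⟨a, b, hab⟩, hc⟩ := h₁
    obtain ⟨⟨a', b', hab'⟩, hc'⟩ := h₃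
    have hex := fun n : ℤ => DerivedCategory.HomologySequence.exact₂ T hT n
    refine ⟨⟨min a a', max b b', fun n hn => ?_⟩, fun n => ?_⟩
    · exact (ObjectProperty.prop_X₂_of_exact (IsZero (C := QGr f)) (hex n)
        (hab n (by omega)) (hab' n (by omega)))
    · exact (Coh hf).prop_X₂_of_exact (hex n) (hc n) (hc' n))

lemma db_sheafO (hf : f.IsHomogeneous 4) (n : ℤ) : Db hf (sheafO hf n) := by
  have e : ∀ i : ℤ, (DerivedCategory.homologyFunctor (QGr f) i).obj (sheafO hf n) ≅
      ((sgl (QGr f)).obj ((proj f).obj (Amod hf n))).homology i := fun i =>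
    (DerivedCategory.homologyFunctorFactors (QGr f) i).app _
  have h0 : ∀ i : ℤ, i ≠ 0 → IsZero ((DerivedCategory.homologyFunctor (QGr f) i).obj
      (sheafO hf n)) := fun i hi =>
    (HomologicalComplex.isZero_single_obj_homology (.up ℤ) 0 _ i hi).of_iso (e i)
  refine ⟨⟨0, 0, fun i hi => h0 i (by omega)⟩, fun i => ?_⟩
  by_cases hi : i = 0
  · subst hi
    exact (Coh hf).prop_of_iso (e 0 ≪≫
      HomologicalComplex.singleObjHomologySelfIso (.up ℤ) 0 _).symm (IsCoh.twist n)
  · exact coh_zero hf (h0 i hi)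

/-- The bounded derived category `D^b(X)` as a category (full subcategory of `D(QCoh X)` given
by `Db`). -/
def DbX (hf : f.IsHomogeneous 4) : Type _ := (Db hf).FullSubcategory

noncomputable instance dbxCategory (hf : f.IsHomogeneous 4) : Category (DbX hf) :=
  (inferInstance : Category (Db hf).FullSubcategory)

noncomputable instance dbxPreadditive (hf : f.IsHomogeneous 4) : Preadditive (DbX hf) :=
  (inferInstance : Preadditive (Db hf).FullSubcategory)

noncomputable instance dbxLinear (hf : f.IsHomogeneous 4) : Linear ℂ (DbX hf) :=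
  (inferInstance : Linear ℂ (Db hf).FullSubcategory)

instance dbxZero (hf : f.IsHomogeneous 4) : HasZeroObject (DbX hf) :=
  (inferInstance : HasZeroObject (Db hf).FullSubcategory)

noncomputable instance dbxShift (hf : f.IsHomogeneous 4) : HasShift (DbX hf) ℤ :=
  (inferInstance : HasShift (Db hf).FullSubcategory ℤ)

instance dbxShiftAdditive (hf : f.IsHomogeneous 4) (n : ℤ) :
    (shiftFunctor (DbX hf) n).Additive :=
  (inferInstance : (shiftFunctor (Db hf).FullSubcategory n).Additive)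

instance dbxShiftLinear (hf : f.IsHomogeneous 4) (n : ℤ) :
    Functor.Linear ℂ (shiftFunctor (DbX hf) n) :=
  (inferInstance : Functor.Linear ℂ (shiftFunctor (Db hf).FullSubcategory n))

noncomputable instance dbxPretriangulated (hf : f.IsHomogeneous 4) :
    Pretriangulated (DbX hf) :=
  (inferInstance : Pretriangulated (Db hf).FullSubcategory)

/-- `𝒪_X(n)` as an object of `D^b(X)`. -/
noncomputable def twistO (hf : f.IsHomogeneous 4) (n : ℤ) : DbX hf :=
  ⟨sheafO hf n, db_sheafO hf n⟩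

theorem isQuarticSystem_twistO (hf : f.IsHomogeneous 4) (hf0 : f ≠ 0) :
    IsQuarticSystem (twistO hf) :=
  (isQuarticSystem_sheafO hf hf0).full (Db hf) (db_sheafO hf)

/-- The Kuznetsov component `Ku(X) = 𝒪_X^⊥` of `D^b(X)`. -/
def KuX (hf : f.IsHomogeneous 4) : Type _ := Ku (twistO hf)

noncomputable instance kuxCategory (hf : f.IsHomogeneous 4) : Category (KuX hf) :=
  (inferInstance : Category (Ku (twistO hf)))

noncomputable instance kuxPreadditive (hf : f.IsHomogeneous 4) : Preadditive (KuX hf) :=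
  (inferInstance : Preadditive (Ku (twistO hf)))

noncomputable instance kuxLinear (hf : f.IsHomogeneous 4) : Linear ℂ (KuX hf) :=
  (inferInstance : Linear ℂ (Ku (twistO hf)))

instance kuxZero (hf : f.IsHomogeneous 4) : HasZeroObject (KuX hf) :=
  (inferInstance : HasZeroObject (Ku (twistO hf)))

noncomputable instance kuxShift (hf : f.IsHomogeneous 4) : HasShift (KuX hf) ℤ :=
  (inferInstance : HasShift (Ku (twistO hf)) ℤ)

instance kuxShiftAdditive (hf : f.IsHomogeneous 4) (n : ℤ) :
    (shiftFunctor (KuX hf) n).Additive :=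
  (inferInstance : (shiftFunctor (Ku (twistO hf)) n).Additive)

noncomputable instance kuxPretriangulated (hf : f.IsHomogeneous 4) :
    Pretriangulated (KuX hf) :=
  (inferInstance : Pretriangulated (Ku (twistO hf)))

/-- The stability condition `σ` on `Ku(X)` has central charge `Z^μ_{s,q}` restricted to
`Ku(X)`. -/
def HasTiltChargeX (hf : f.IsHomogeneous 4) (s q μ : ℝ) (σ : StabilityCondition (KuX hf)) :
    Prop :=
  HasTiltCharge (twistO hf) s q μ σ

end Quartic

end Pool.Agent.Helper41
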