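import Mathlib
import Pool.Agent.Helper41.SerreDefs

/-!
Serre-invariance of stability conditions on `O^⊥` with the tilt central charge: proofs.
-/

open CategoryTheory Limits Pretriangulated ZeroObject

set_option linter.unusedSectionVars false

universe v u

namespace Pool.Agent.Helper41

section Quartic

variable {𝒟 : Type u} [Category.{v} 𝒟] [Preadditive 𝒟] [Linear ℂ 𝒟] [HasZeroObject 𝒟]
  [HasShift 𝒟 ℤ] [∀ n : ℤ, (shiftFunctor 𝒟 n).Additive]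
  [∀ n : ℤ, Functor.Linear ℂ (shiftFunctor 𝒟 n)] [Pretriangulated 𝒟]

/-! ### Proofs -/

lemma hilb_real (n : ℤ) : (hilb n : ℝ) = 2 / 3 * (n : ℝ) ^ 3 + (n : ℝ) ^ 2 + 7 / 3 * (n : ℝ) + 1 := by
  have h1 : ∀ m : ℤ, (24 : ℝ) * (Ring.choose m 4 : ℤ) = (m : ℝ) * (m - 1) * (m - 2) * (m - 3) := by
    intro m
    have h := Ring.descPochhammer_eq_factorial_smul_choose m 4
    have h2 : (24 : ℤ) * Ring.choose m 4 = m * (m - 1) * (m - 2) * (m - 3) := by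
      have h3 : (Nat.factorial 4 : ℕ) • Ring.choose m 4 = 24 * Ring.choose m 4 := by
        simp [Nat.factorial]
      rw [← h3, ← h, ← Polynomial.eval_eq_smeval]
      simp [descPochhammer]
      ring
    exact_mod_cast congrArg (Int.cast : ℤ → ℝ) h2
  have ha := h1 (n + 4)
  have hb := h1 n
  unfold hilb
  push_cast at ha hb ⊢
  linarith

lemma hilb_symm (n : ℤ) : (hilb (-1 - n) : ℝ) = - (hilb n : ℝ) := by
  rw [hilb_real, hilb_real]; push_cast; ring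

/-- isomorphism on Hom spaces between the full subcategory and the ambient category. -/
noncomputable def kuHom (L : ℤ → 𝒟) (A B : Ku L) : (A ⟶ B) ≃ₗ[ℂ] (A.obj ⟶ B.obj) :=
  InducedCategory.homLinearEquiv (R := ℂ)


/-- Serre duality in `Ku`, seen in the ambient category. -/
noncomputable def serreEquiv (L : ℤ → 𝒟) (S : SerreFunctor (Ku L)) (A B : Ku L) (i : ℤ) :
    (A.obj ⟶ B.obj⟦-i⟧) ≃ₗ[ℂ] Module.Dual ℂ (B.obj ⟶ (S.S.obj A).obj⟦i⟧) := by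
  let K := perp (L 0)
  -- the shift in the subcategory
  let e : (B⟦-i⟧).obj ≅ B.obj⟦-i⟧ := ((K.ι.commShiftIso (-i)).app B)
  let f1 : (A.obj ⟶ B.obj⟦-i⟧) ≃ₗ[ℂ] (A.obj ⟶ (B⟦-i⟧).obj) :=
    Linear.homCongr ℂ (Iso.refl _) e.symm
  let f2 : (A.obj ⟶ (B⟦-i⟧).obj) ≃ₗ[ℂ] (A ⟶ B⟦-i⟧) := (kuHom L A (B⟦-i⟧)).symm
  let f3 : (A ⟶ B⟦-i⟧) ≃ₗ[ℂ] Module.Dual ℂ (B⟦-i⟧ ⟶ S.S.obj A) := S.pairing A (B⟦-i⟧)
  let g1 : (B.obj ⟶ (S.S.obj A).obj⟦i⟧) ≃ₗ[ℂ] (B.obj⟦-i⟧ ⟶ (S.S.obj A).obj⟦(0 : ℤ)⟧) :=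
    shiftEquivPre B.obj (S.S.obj A).obj (-i) 0 i (by ring)
  let g2 : (B.obj⟦-i⟧ ⟶ (S.S.obj A).obj⟦(0 : ℤ)⟧) ≃ₗ[ℂ] ((B⟦-i⟧).obj ⟶ (S.S.obj A).obj) :=
    Linear.homCongr ℂ e.symm ((shiftFunctorZero 𝒟 ℤ).app _)
  let g3 : ((B⟦-i⟧).obj ⟶ (S.S.obj A).obj) ≃ₗ[ℂ] (B⟦-i⟧ ⟶ S.S.obj A) :=
    (kuHom L (B⟦-i⟧) (S.S.obj A)).symm
  exact (f1.trans (f2.trans f3)).trans ((g1.trans (g2.trans g3)).dualMap)

lemma perp_shift {O F : 𝒟} (hF : perp O F) (i : ℤ) : perp O (F⟦i⟧) :=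
  (perp O).le_shift i _ hF

/-- Numerical Serre duality: `χ(E, S A) = χ(A, W)` where `W` is the mutation of `E`. -/
lemma serre_chi (L : ℤ → 𝒟) (S : SerreFunctor (Ku L)) (A : Ku L) (E : 𝒟) (W : Ku L)
    (η : E ⟶ W.obj)
    (hη : ∀ F : 𝒟, perp (L 0) F → Function.Bijective (fun g : W.obj ⟶ F => η ≫ g))
    (hA : FiniteHom A.obj W.obj) :
    FiniteHom E (S.S.obj A).obj ∧ chi E (S.S.obj A).obj = chi A.obj W.obj := by
  have hlin : ∀ i : ℤ, ∃ φ : (W.obj ⟶ (S.S.obj A).obj⟦i⟧) ≃ₗ[ℂ] (E ⟶ (S.S.obj A).obj⟦i⟧), True := by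
    intro i
    refine ⟨LinearEquiv.ofBijective (Linear.leftComp ℂ ((S.S.obj A).obj⟦i⟧) η) ?_, trivial⟩
    exact hη _ (perp_shift (S.S.obj A).property i)
  have hfin : ∀ i : ℤ, Module.Finite ℂ (W.obj ⟶ (S.S.obj A).obj⟦i⟧) := by
    intro i
    have h1 := hA.1 (-i)
    have h2 : Module.Finite ℂ (Module.Dual ℂ (W.obj ⟶ (S.S.obj A).obj⟦i⟧)) :=
      Module.Finite.equiv (serreEquiv L S A W i)
    exact Module.finite_dual_iff ℂ |>.mp h2
  have hrank : ∀ i : ℤ, Module.finrank ℂ (E ⟶ (S.S.obj A).obj⟦i⟧) =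
      Module.finrank ℂ (A.obj ⟶ W.obj⟦-i⟧) := by
    intro i
    obtain ⟨φ, -⟩ := hlin i
    have := hfin i
    rw [← φ.finrank_eq, (serreEquiv L S A W i).finrank_eq, Subspace.dual_finrank_eq]
  have hfinE : ∀ i : ℤ, Module.Finite ℂ (E ⟶ (S.S.obj A).obj⟦i⟧) := by
    intro i
    obtain ⟨φ, -⟩ := hlin i
    have := hfin i
    exact Module.Finite.equiv φ
  refine ⟨⟨hfinE, ?_⟩, ?_⟩
  · refine (hA.2.preimage (f := fun i : ℤ => -i) (fun a _ b _ h => by simpa using h)).subset ?_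
    intro i hi hs
    apply hi
    have h1 : Module.finrank ℂ (A.obj ⟶ W.obj⟦-i⟧) = 0 := Module.finrank_zero_of_subsingleton
    have := hfinE i
    exact Module.finrank_zero_iff.mp ((hrank i).trans h1)
  · unfold chi
    rw [← finsum_comp_equiv (Equiv.neg ℤ)
      (f := fun i => (i.negOnePow : ℤ) * (Module.finrank ℂ (A.obj ⟶ W.obj⟦i⟧) : ℤ))]
    apply finsum_congr
    intro i
    rw [hrank i]
    change _ = ((-i).negOnePow : ℤ) * (Module.finrank ℂ (A.obj ⟶ W.obj⟦-i⟧) : ℤ)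
    rw [Int.negOnePow_neg]

/-- The Chern numbers of `L_O(𝒪(m))`. -/
noncomputable def hW (m : ℤ) : Fin 4 → ℝ :=
  ![4 * (1 - (hilb m : ℝ)), 4 * (m : ℝ), 2 * (m : ℝ) ^ 2, 2 / 3 * (m : ℝ) ^ 3]

/-- The Chern numbers of `S(L_O(𝒪(m)))`. -/
noncomputable def hSW (m : ℤ) : Fin 4 → ℝ :=
  ![4 * (-1 + (hilb (-m) : ℝ)), 4 * (-((m : ℝ) - 1) - (hilb (-m) : ℝ)),
    4 * (-((m : ℝ) - 1) ^ 2 / 2 + (hilb (-m) : ℝ) / 2),
    4 * (-((m : ℝ) - 1) ^ 3 / 6 - (hilb (-m) : ℝ) / 6)]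

lemma exists_pair (L : ℤ → 𝒟) (hL : IsQuarticSystem L) (S : SerreFunctor (Ku L)) (m : ℤ) :
    ∃ W : Ku L, HasChernNumbers L W.obj (hW m) ∧
      HasChernNumbers L (S.S.obj W).obj (hSW m) := by
  obtain ⟨W, η, hW', -, hWF⟩ := exists_mutation (L 0) hL.exceptional (L m) (hL.finite 0 m)
  let WK : Ku L := ⟨W, hW'⟩
  refine ⟨WK, fun n => ?_, fun n => ?_⟩
  · obtain ⟨h1, h2⟩ := (hWF (L (-n))).1 (hL.finite _ _) (hL.finite _ _)
    refine ⟨h1, ?_⟩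
    change (chi (L (-n)) W : ℝ) = _
    rw [h2, hL.chi_eq, hL.chi_eq, hL.chi_eq]
    push_cast
    simp only [hilb_real, hW, Matrix.cons_val]
    push_cast
    ring
  · obtain ⟨V, θ, hV, hθ, hVF⟩ :=
      exists_mutation (L 0) hL.exceptional (L (-n)) (hL.finite 0 (-n))
    let VK : Ku L := ⟨V, hV⟩
    -- `χ(W, V)`
    obtain ⟨a1, a2⟩ := (hVF (L m)).1 (hL.finite _ _) (hL.finite _ _)
    obtain ⟨b1, b2⟩ := (hVF (L 0)).1 (hL.finite _ _) (hL.finite _ _)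
    obtain ⟨c1, c2⟩ := (hWF V).2 a1 b1
    obtain ⟨d1, d2⟩ := serre_chi L S WK (L (-n)) VK θ hθ c1
    refine ⟨d1, ?_⟩
    rw [d2]
    change (chi W V : ℝ) = _
    rw [c2, a2, b2, hL.chi_eq, hL.chi_eq, hL.chi_eq, hL.chi_eq, hL.chi_eq]
    push_cast
    simp only [hilb_real, hSW, Matrix.cons_val]
    push_cast
    ring

lemma tilt_re (s q : ℝ) (h : Fin 4 → ℝ) : (tiltCharge s q h).re = -(h 2 - q * h 0) := by
  simp [tiltCharge]

lemma tilt_im (s q : ℝ) (h : Fin 4 → ℝ) : (tiltCharge s q h).im = h 1 - s * h 0 := by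
  simp [tiltCharge]

/-- Main theorem. -/
theorem not_serreInvariant (L : ℤ → 𝒟) (hL : IsQuarticSystem L) (s q μ : ℝ)
    (hsq : s ^ 2 / 2 < q) (S : SerreFunctor (Ku L)) (σ : StabilityCondition (Ku L))
    (hσ : HasTiltCharge L s q μ σ) : ¬ IsSerreInvariant S σ := by
  rintro ⟨γ, -, hγ⟩
  obtain ⟨W1, h1, h1'⟩ := exists_pair L hL S 1
  obtain ⟨W2, h2, h2'⟩ := exists_pair L hL S (-1)
  obtain ⟨W3, h3, h3'⟩ := exists_pair L hL S 2
  have z1 := hσ W1 _ h1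
  have z2 := hσ W2 _ h2
  have z3 := hσ W3 _ h3
  have z1' := hσ (S.S.obj W1) _ h1'
  have z2' := hσ (S.S.obj W2) _ h2'
  have z3' := hσ (S.S.obj W3) _ h3'
  rw [hγ] at z1' z2' z3'
  have hu : unitOfSlope μ ≠ 0 := by
    unfold unitOfSlope
    have h5 : (0 : ℝ) < Real.sqrt (μ ^ 2 + 1) := Real.sqrt_pos.mpr (by positivity)
    refine div_ne_zero ?_ (by exact_mod_cast h5.ne')
    intro h
    have := congrArg Complex.im h
    simp at this
  -- the linear combination with vanishing central charge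
  set a : ℝ := (3 + 11 * s + 10 * q) / 4 with ha
  set b : ℝ := (1 + s + 6 * q) / 4 with hb
  set c : ℝ := -(1 + 3 * s + 2 * q) / 4 with hc
  have hp1 : (hilb 1 : ℝ) = 5 := by rw [hilb_real]; norm_num
  have hpm1 : (hilb (-1) : ℝ) = -1 := by rw [hilb_real]; norm_num
  have hp2 : (hilb 2 : ℝ) = 15 := by rw [hilb_real]; norm_num
  have hpm2 : (hilb (-2) : ℝ) = -5 := by rw [hilb_real]; norm_num
  have key1 : (a : ℂ) * tiltCharge s q (hW 1) + (b : ℂ) * tiltCharge s q (hW (-1)) +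
      (c : ℂ) * tiltCharge s q (hW 2) = 0 := by
    apply Complex.ext
    · simp only [Complex.add_re, Complex.re_ofReal_mul, tilt_re, hW, Matrix.cons_val,
        hp1, hpm1, hp2, Complex.zero_re]
      rw [ha, hb, hc]
      push_cast
      ring
    · simp only [Complex.add_im, Complex.im_ofReal_mul, tilt_im, hW, Matrix.cons_val,
        hp1, hpm1, hp2, Complex.zero_im]
      rw [ha, hb, hc]
      push_cast
      ring
  have key2 : (a : ℂ) * tiltCharge s q (hSW 1) + (b : ℂ) * tiltCharge s q (hSW (-1)) +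
      (c : ℂ) * tiltCharge s q (hSW 2) =
      ((4 : ℝ) : ℂ) * ⟨-(1 / 2 + s + q - q * (1 + 4 * q)), -1 - s - 4 * q - s * (1 + 4 * q)⟩ := by
    have e2 : hilb (-(-1:ℤ)) = hilb 1 := rfl
    apply Complex.ext
    · simp only [Complex.add_re, Complex.re_ofReal_mul, tilt_re, hSW, Matrix.cons_val,
        e2, hp1, hpm1, hpm2]
      rw [ha, hb, hc]
      push_cast
      ring
    · simp only [Complex.add_im, Complex.im_ofReal_mul, tilt_im, hSW, Matrix.cons_val,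
        e2, hp1, hpm1, hpm2]
      rw [ha, hb, hc]
      push_cast
      ring
  have hlin : (a : ℂ) * γ.g (σ.Z W1) + (b : ℂ) * γ.g (σ.Z W2) + (c : ℂ) * γ.g (σ.Z W3) =
      γ.g ((a : ℂ) * σ.Z W1 + (b : ℂ) * σ.Z W2 + (c : ℂ) * σ.Z W3) := by
    have hr : ∀ (r : ℝ) (z : ℂ), (r : ℂ) * γ.g z = γ.g ((r : ℂ) * z) := by
      intro r z
      have := γ.g.map_smul r z
      simpa [Complex.real_smul] using this.symm
    rw [hr, hr, hr, map_add, map_add]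
  rw [z1', z2', z3', z1, z2, z3] at hlin
  have e4 : (a : ℂ) * (tiltCharge s q (hW 1) / unitOfSlope μ) +
      (b : ℂ) * (tiltCharge s q (hW (-1)) / unitOfSlope μ) +
      (c : ℂ) * (tiltCharge s q (hW 2) / unitOfSlope μ) = 0 := by
    rw [← mul_div_assoc, ← mul_div_assoc, ← mul_div_assoc, ← add_div, ← add_div, key1, zero_div]
  rw [e4, map_zero, ← mul_div_assoc, ← mul_div_assoc, ← mul_div_assoc, ← add_div, ← add_div,
    key2, div_eq_zero_iff] at hlin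
  have hlin2 := hlin.resolve_right hu
  have hre := congrArg Complex.re hlin2
  have him := congrArg Complex.im hlin2
  simp only [Complex.re_ofReal_mul, Complex.im_ofReal_mul, Complex.zero_re, Complex.zero_im]
    at hre him
  have r1 : 1 / 2 + s = 4 * q ^ 2 := by linarith
  have r2 : -1 - 2 * s - 4 * q - 4 * q * s = 0 := by linarith
  have r3 : q * (8 * q ^ 2 + 4 * q + 1) = 0 := by
    have : s = 4 * q ^ 2 - 1 / 2 := by linarith
    subst this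
    nlinarith
  have r4 : (8 * q ^ 2 + 4 * q + 1) > 0 := by nlinarith [sq_nonneg (4 * q + 1)]
  have r5 : q = 0 := by
    rcases mul_eq_zero.mp r3 with h | h
    · exact h
    · exact absurd h r4.ne'
  have : s = -1 / 2 := by rw [r5] at r1; linarith
  rw [this, r5] at hsq
  norm_num at hsq

end Quartic

end Pool.Agent.Helper41
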